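import Pool.Agent.Y982.LR.Alg

/-!
# LR-Mat: the bidiagonal matrix model
-/

set_option autoImplicit false

open scoped BigOperators
open Finset

namespace Pool.Agent.Y982.LR

/-- lower bidiagonal matrix -/
def bd (n : ℕ) (u v : ℕ → ℝ) : Matrix (Fin n) (Fin n) ℝ :=
  fun i j => if j = i then u i else if (j : ℕ) + 1 = i then v i else 0

theorem bd_sum (n : ℕ) (u v : ℕ → ℝ) (F : ℕ → ℝ) (i : Fin n) :
    ∑ k : Fin n, bd n u v i k * F k = u i * F i + if 0 < (i : ℕ) then v i * F (i - 1) else 0 := by
  have e : ∀ k : Fin n, bd n u v i k * F k =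
      (if k = i then u i * F i else 0) + if (k : ℕ) + 1 = i then v i * F (i - 1) else 0 := by
    intro k
    unfold bd
    by_cases h1 : k = i
    · subst h1
      simp
    · by_cases h2 : (k : ℕ) + 1 = i
      · have h3 : (i : ℕ) - 1 = k := by omega
        simp [h1, h2, h3]
      · simp [h1, h2]
  simp only [e]
  rw [sum_add_distrib, sum_ite_eq' univ i]
  simp only [mem_univ, if_true]
  congr 1
  by_cases h : 0 < (i : ℕ)
  · rw [if_pos h]
    have hlt : (i : ℕ) - 1 < n := by have := i.2; omega
    rw [sum_eq_single (⟨(i : ℕ) - 1, hlt⟩ : Fin n)]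
    · have : (i : ℕ) - 1 + 1 = i := by omega
      simp [this]
    · intro k _ hk
      rw [if_neg]
      intro h2
      apply hk
      apply Fin.ext
      simp only
      omega
    · intro h2
      exact absurd (mem_univ _) h2
  · rw [if_neg h]
    refine sum_eq_zero fun k _ => ?_
    rw [if_neg]
    omega

/-- the entries of `M D Mᵀ` -/
theorem bd_mul (n : ℕ) (u v d : ℕ → ℝ) (i j : Fin n) :
    (bd n u v * Matrix.diagonal (fun k : Fin n => d k) * (bd n u v).transpose) i j =
      if i = j then u i * u i * d i + (if 0 < (i : ℕ) then v i * v i * d (i - 1) else 0)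
      else if (i : ℕ) + 1 = j then u i * d i * v j
      else if (j : ℕ) + 1 = i then v i * d j * u j else 0 := by
  rw [Matrix.mul_apply]
  have e : ∀ k : Fin n, (bd n u v * Matrix.diagonal (fun k : Fin n => d k)) i k *
      (bd n u v).transpose k j = bd n u v i k * (d k * (if (k : ℕ) = j then u j
        else if (k : ℕ) + 1 = j then v j else 0)) := by
    intro k
    rw [Matrix.mul_diagonal, Matrix.transpose_apply]
    have : bd n u v j k = (if (k : ℕ) = j then u j else if (k : ℕ) + 1 = j then v j else 0) := by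
      unfold bd
      simp only [Fin.ext_iff]
    rw [this]
    ring
  simp only [e]
  rw [bd_sum n u v (fun k => d k * (if k = (j : ℕ) then u j
        else if k + 1 = (j : ℕ) then v j else 0)) i]
  by_cases h1 : i = j
  · subst h1
    simp only [if_true]
    by_cases h2 : 0 < (i : ℕ)
    · have h3 : ¬ ((i : ℕ) - 1 = i) := by omega
      have h4 : (i : ℕ) - 1 + 1 = i := by omega
      simp only [h2, h3, h4, if_true, if_false]
      ring
    · simp only [h2, if_false]
      ring
  · have h1' : ¬ ((i : ℕ) = j) := fun h => h1 (Fin.ext h)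
    simp only [h1, h1', if_false]
    by_cases h2 : (i : ℕ) + 1 = j
    · simp only [h2, if_true]
      have h3 : ¬ ((i : ℕ) - 1 = j) := by omega
      by_cases h5 : 0 < (i : ℕ)
      · have h4 : ¬ ((i : ℕ) - 1 + 1 = j) := by omega
        simp only [h5, h3, h4, if_true, if_false]
        ring
      · simp only [h5, if_false]
        ring
    · simp only [h2, if_false]
      by_cases h3 : (j : ℕ) + 1 = i
      · have h5 : 0 < (i : ℕ) := by omega
        have h6 : (i : ℕ) - 1 = j := by omega
        simp only [h3, h5, h6, if_true]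
        ring
      · simp only [h3, if_false]
        by_cases h5 : 0 < (i : ℕ)
        · have h6 : ¬ ((i : ℕ) - 1 = j) := by omega
          have h7 : ¬ ((i : ℕ) - 1 + 1 = j) := by omega
          simp only [h5, h6, h7, if_true, if_false]
          ring
        · simp only [h5, if_false]
          ring

theorem det_bd (n : ℕ) (v : ℕ → ℝ) : (bd n (fun _ => 1) v).det = 1 := by
  rw [Matrix.det_of_lowerTriangular]
  · simp [bd]
  · intro i j hij
    have h : i < j := hij
    unfold bd
    have h1 : ¬ (j = i) := by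
      intro h2; rw [h2] at h; exact lt_irrefl _ h
    have h2 : ¬ ((j : ℕ) + 1 = i) := by
      have : (i : ℕ) < j := h
      omega
    simp [h1, h2]

theorem Kl_prod (b c : ℕ → ℝ) (x : ℝ) (k : ℕ) : ∀ q,
    Kl b c x k q = ∏ j ∈ range k, (b (q + k - j) + x * Al b c x j (q + k - j)) := by
  induction k with
  | zero => intro q; simp
  | succ k ih =>
    intro q
    rw [Kl_succ, ih (q + 1), prod_range_succ]
    have e1 : q + (k + 1) - k = q + 1 := by omega
    rw [e1]
    congr 1
    refine prod_congr rfl fun j _ => ?_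
    have e2 : q + 1 + k - j = q + (k + 1) - j := by omega
    rw [e2]

theorem Dp_prod {b c : ℕ → ℝ} {x : ℝ} (hb : ∀ q, 0 ≤ b q) (hc : ∀ q, 0 ≤ c q) (hx : 0 < x)
    (n : ℕ) : Dp b c x n = ∏ j ∈ range n, (b (n - 1 - j) + x * Al b c x j (n - 1 - j)) := by
  cases n with
  | zero => simp
  | succ k =>
    have h := Dp_b hb hc hx k 0
    simp only [zero_add, Dp_zero, Ar_zero, mul_one] at h
    rw [h, Kl_prod, prod_range_succ]
    have e : k + 1 - 1 - k = 0 := by omega
    rw [e]
    congr 1
    refine prod_congr rfl fun j _ => ?_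
    have e2 : 0 + k - j = k + 1 - 1 - j := by omega
    rw [e2]

/-- the matrix model -/
noncomputable def Bm (n : ℕ) (b c : ℕ → ℝ) : Matrix (Fin n) (Fin n) ℝ :=
  bd n (fun i => √(b (n - 1 - i))) (fun i => √(c (n - 1 - i)))

noncomputable def Lm (n : ℕ) (b c : ℕ → ℝ) : Matrix (Fin n) (Fin n) ℝ :=
  Bm n b c * (Bm n b c).transpose

theorem Lm_herm (n : ℕ) (b c : ℕ → ℝ) : (Lm n b c).IsHermitian := by
  have := Matrix.isHermitian_mul_conjTranspose_self (Bm n b c)
  rwa [Matrix.conjTranspose_eq_transpose_of_trivial] at this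

theorem Lm_psd (n : ℕ) (b c : ℕ → ℝ) : (Lm n b c).PosSemidef := by
  have := Matrix.posSemidef_self_mul_conjTranspose (Bm n b c)
  rwa [Matrix.conjTranspose_eq_transpose_of_trivial] at this

theorem Lm_entry (n : ℕ) {b c : ℕ → ℝ} (hb : ∀ q, 0 ≤ b q) (hc : ∀ q, 0 ≤ c q) (i j : Fin n) :
    Lm n b c i j =
      if i = j then b (n - 1 - i) + (if 0 < (i : ℕ) then c (n - 1 - i) else 0)
      else if (i : ℕ) + 1 = j then √(b (n - 1 - i)) * √(c (n - 1 - j))
      else if (j : ℕ) + 1 = i then √(c (n - 1 - i)) * √(b (n - 1 - j)) else 0 := by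
  have h := bd_mul n (fun i => √(b (n - 1 - i))) (fun i => √(c (n - 1 - i))) (fun _ => 1) i j
  have e : Matrix.diagonal (fun k : Fin n => (1 : ℝ)) = 1 := Matrix.diagonal_one
  rw [e, mul_one] at h
  unfold Lm Bm
  rw [h]
  simp only [mul_one, Real.mul_self_sqrt (hb _), Real.mul_self_sqrt (hc _)]

theorem det_Lm (n : ℕ) {b c : ℕ → ℝ} {x : ℝ} (hb : ∀ q, 0 ≤ b q) (hc : ∀ q, 0 ≤ c q)
    (hx : 0 < x) : (Matrix.scalar (Fin n) x + Lm n b c).det = Dp b c x n := by
  set d : ℕ → ℝ := fun j => b (n - 1 - j) + x * Al b c x j (n - 1 - j) with hd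
  have hdpos : ∀ j, 0 < d j := by
    intro j
    have h1 := hb (n - 1 - j)
    have h2 := Al_ge hb hc hx j (n - 1 - j)
    simp only [hd]
    have : 0 < x * Al b c x j (n - 1 - j) := mul_pos hx (by linarith)
    linarith
  set e : ℕ → ℝ := fun i => √(b (n - 1 - (i - 1))) * √(c (n - 1 - i)) / d (i - 1) with he
  have key : Matrix.scalar (Fin n) x + Lm n b c =
      bd n (fun _ => 1) e * Matrix.diagonal (fun k : Fin n => d k) *
        (bd n (fun _ => 1) e).transpose := by
    ext i j
    rw [bd_mul, Matrix.add_apply, Lm_entry n hb hc]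
    by_cases h1 : i = j
    · subst h1
      simp only [if_true, Matrix.scalar_apply, Matrix.diagonal_apply_eq, one_mul]
      by_cases h2 : 0 < (i : ℕ)
      · simp only [h2, if_true]
        obtain ⟨m, hm⟩ : ∃ m, (i : ℕ) = m + 1 := ⟨i - 1, by omega⟩
        have hin : m + 1 < n := hm ▸ i.2
        rw [hm]
        have e0 : m + 1 - 1 = m := by omega
        have e1 : n - 1 - m = n - 1 - (m + 1) + 1 := by omega
        have hsq : e (m + 1) * e (m + 1) * d (m + 1 - 1) =
            b (n - 1 - m) * c (n - 1 - (m + 1)) / d m := by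
          simp only [he, e0]
          have hdm := (hdpos m).ne'
          have s1 := Real.mul_self_sqrt (hb (n - 1 - m))
          have s2 := Real.mul_self_sqrt (hc (n - 1 - (m + 1)))
          calc √(b (n - 1 - m)) * √(c (n - 1 - (m + 1))) / d m *
              (√(b (n - 1 - m)) * √(c (n - 1 - (m + 1))) / d m) * d m
              = (√(b (n - 1 - m)) * √(b (n - 1 - m))) *
                (√(c (n - 1 - (m + 1))) * √(c (n - 1 - (m + 1)))) / d m := by
                field_simp
            _ = _ := by rw [s1, s2]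
        rw [hsq]
        have hdm : d m = b (n - 1 - (m + 1) + 1) + x * Al b c x m (n - 1 - (m + 1) + 1) := by
          simp only [hd]; rw [e1]
        have hdm1 : d (m + 1) = b (n - 1 - (m + 1)) + x * (1 + c (n - 1 - (m + 1)) *
            Al b c x m (n - 1 - (m + 1) + 1) / d m) := by
          simp only [hd]
          rw [Al_succ, e1]
        rw [hdm1]
        have hp := (hdpos m).ne'
        have hb1 : b (n - 1 - m) = b (n - 1 - (m + 1) + 1) := by rw [e1]
        rw [hb1]
        have hA : x * Al b c x m (n - 1 - (m + 1) + 1) = d m - b (n - 1 - (m + 1) + 1) := by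
          rw [hdm]; ring
        have h9 : x * (1 + c (n - 1 - (m + 1)) * Al b c x m (n - 1 - (m + 1) + 1) / d m) =
            x + c (n - 1 - (m + 1)) * (d m - b (n - 1 - (m + 1) + 1)) / d m := by
          rw [← hA]; ring
        rw [h9]
        field_simp
        ring
      · have hi0 : (i : ℕ) = 0 := by omega
        rw [hi0]
        simp only [lt_irrefl, if_false, add_zero, hd, Al_zero]
        ring
    · have h1' : ¬ ((i : ℕ) = j) := fun h => h1 (Fin.ext h)
      simp only [h1, if_false, Matrix.scalar_apply, Matrix.diagonal_apply_ne _ h1, zero_add,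
        one_mul, mul_one]
      by_cases h2 : (i : ℕ) + 1 = j
      · simp only [h2, if_true]
        have h3 : (j : ℕ) - 1 = i := by omega
        simp only [he, h3]
        have := (hdpos i).ne'
        field_simp
      · simp only [h2, if_false]
        by_cases h3 : (j : ℕ) + 1 = i
        · simp only [h3, if_true]
          have h4 : (i : ℕ) - 1 = j := by omega
          simp only [he, h4]
          have := (hdpos j).ne'
          field_simp
        · simp only [h3, if_false]
  rw [key, Matrix.det_mul, Matrix.det_mul, Matrix.det_transpose, det_bd, Matrix.det_diagonal,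
    Dp_prod hb hc hx n, ← Finset.prod_range (fun j => d j)]
  ring

/-- the eigenvalues -/
noncomputable def ev (n : ℕ) (b c : ℕ → ℝ) : Fin n → ℝ := (Lm_herm n b c).eigenvalues

theorem ev_nn (n : ℕ) (b c : ℕ → ℝ) (i : Fin n) : 0 ≤ ev n b c i :=
  (Lm_psd n b c).eigenvalues_nonneg i

theorem prod_ev (n : ℕ) {b c : ℕ → ℝ} {x : ℝ} (hb : ∀ q, 0 ≤ b q) (hc : ∀ q, 0 ≤ c q)
    (hx : 0 < x) : Dp b c x n = ∏ i, (ev n b c i + x) := by
  rw [← det_Lm n hb hc hx]
  have h1 := (Lm_herm n b c).charpoly_eq
  have h2 := congrArg (Polynomial.eval (-x)) h1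
  rw [Matrix.eval_charpoly, Polynomial.eval_prod] at h2
  simp only [Polynomial.eval_sub, Polynomial.eval_X, Polynomial.eval_C, RCLike.ofReal_real_eq_id,
    id] at h2
  have e1 : Matrix.scalar (Fin n) (-x) - Lm n b c = -(Matrix.scalar (Fin n) x + Lm n b c) := by
    rw [map_neg]; abel
  rw [e1, Matrix.det_neg] at h2
  have e2 : ∏ i, (-x - (Lm_herm n b c).eigenvalues i) =
      (-1) ^ Fintype.card (Fin n) * ∏ i, (ev n b c i + x) := by
    rw [← Finset.card_univ, ← Finset.prod_const, ← Finset.prod_mul_distrib]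
    refine Finset.prod_congr rfl fun i _ => ?_
    unfold ev
    ring
  rw [e2] at h2
  have h3 : ((-1 : ℝ)) ^ Fintype.card (Fin n) ≠ 0 := pow_ne_zero _ (by norm_num)
  exact mul_left_cancel₀ h3 h2

theorem log_ev (n : ℕ) {b c : ℕ → ℝ} {x : ℝ} (hb : ∀ q, 0 ≤ b q) (hc : ∀ q, 0 ≤ c q)
    (hx : 0 < x) : Real.log (Dp b c x n) = ∑ i, Real.log (ev n b c i + x) := by
  rw [prod_ev n hb hc hx, Real.log_prod]
  intro i _
  have := ev_nn n b c i
  positivity

theorem logd_ev (n : ℕ) {b c : ℕ → ℝ} {x : ℝ} (hb : ∀ q, 0 ≤ b q) (hc : ∀ q, 0 ≤ c q)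
    (hx : 0 < x) : x * Dp' b c x n / Dp b c x n = ∑ i, x / (ev n b c i + x) := by
  have hD := Dp_pos hb hc hx n
  have h1 : HasDerivAt (fun y => Real.log (Dp b c y n)) (Dp' b c x n / Dp b c x n) x :=
    (hasDeriv b c x n).1.log hD.ne'
  have h2 : HasDerivAt (fun y => ∑ i, Real.log (ev n b c i + y))
      (∑ i, 1 / (ev n b c i + x)) x := by
    have h3 : ∀ i ∈ (univ : Finset (Fin n)), HasDerivAt (fun y => Real.log (ev n b c i + y))
        (1 / (ev n b c i + x)) x := by
      intro i _
      have h4 : HasDerivAt (fun y => ev n b c i + y) 1 x := (hasDerivAt_id x).const_add _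
      have := ev_nn n b c i
      exact h4.log (by positivity)
    have := HasDerivAt.fun_sum h3
    exact this
  have h3 : (fun y => Real.log (Dp b c y n)) =ᶠ[nhds x]
      fun y => ∑ i, Real.log (ev n b c i + y) := by
    filter_upwards [lt_mem_nhds hx] with y hy
    exact log_ev n hb hc hy
  have h4 := h2.congr_of_eventuallyEq h3
  have h5 := h1.unique h4
  rw [mul_div_assoc, h5, mul_sum]
  refine sum_congr rfl fun i _ => ?_
  ring

end Pool.Agent.Y982.LR
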