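import Pool.Agent.Y982.LR.Mean
import Pool.Agent.Y982.LR.Mat

/-!
# LR-Stat: linear statistics of the eigenvalues
-/

set_option autoImplicit false
set_option linter.unusedSectionVars false

open scoped BigOperators ENNReal Topology
open MeasureTheory ProbabilityTheory Real Set Filter

namespace Pool.Agent.Y982.LR

/-! ### power sums and measurability -/

theorem trace_pow_herm {n : ℕ} {A : Matrix (Fin n) (Fin n) ℝ} (hA : A.IsHermitian) (k : ℕ) :
    (A ^ k).trace = ∑ i, hA.eigenvalues i ^ k := by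
  have h := hA.spectral_theorem
  have h2 : A ^ k = Unitary.conjStarAlgAut ℝ _ hA.eigenvectorUnitary
      ((Matrix.diagonal (RCLike.ofReal ∘ hA.eigenvalues)) ^ k) := by
    rw [map_pow, ← h]
  rw [h2, Unitary.conjStarAlgAut_apply, Matrix.trace_mul_cycle, Unitary.coe_star_mul_self,
    one_mul, Matrix.diagonal_pow, Matrix.trace_diagonal]
  simp

theorem meas_Lm (n : ℕ) (i j : Fin n) : Measurable fun w : Ix → ℝ => Lm n (bw w) (cw w) i j := by
  have hb : ∀ q : ℕ, Measurable fun w : Ix → ℝ => bw w q := fun q =>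
    (measurable_pi_apply _).max measurable_const
  have hc : ∀ q : ℕ, Measurable fun w : Ix → ℝ => cw w q := fun q =>
    (measurable_pi_apply _).max measurable_const
  have hB : ∀ i j : Fin n, Measurable fun w : Ix → ℝ => Bm n (bw w) (cw w) i j := by
    intro i j
    unfold Bm bd
    split_ifs
    · exact (hb _).sqrt
    · exact (hc _).sqrt
    · exact measurable_const
  unfold Lm
  simp only [Matrix.mul_apply, Matrix.transpose_apply]
  exact Finset.measurable_sum _ fun k _ => (hB i k).mul (hB j k)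

theorem meas_pow (n : ℕ) (k : ℕ) : ∀ i j : Fin n,
    Measurable fun w : Ix → ℝ => (Lm n (bw w) (cw w) ^ k) i j := by
  induction k with
  | zero =>
    intro i j
    simp only [pow_zero, Matrix.one_apply]
    exact measurable_const
  | succ k ih =>
    intro i j
    simp only [pow_succ, Matrix.mul_apply]
    exact Finset.measurable_sum _ fun l _ => (ih i l).mul (meas_Lm n l j)

theorem meas_psum (n k : ℕ) :
    Measurable fun w : Ix → ℝ => ∑ i, ev n (bw w) (cw w) i ^ k := by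
  have : (fun w : Ix → ℝ => ∑ i, ev n (bw w) (cw w) i ^ k) =
      fun w => (Lm n (bw w) (cw w) ^ k).trace := by
    funext w
    rw [trace_pow_herm (Lm_herm n (bw w) (cw w)) k]
    rfl
  rw [this]
  unfold Matrix.trace
  exact Finset.measurable_sum _ fun i _ => meas_pow n k i i

theorem meas_poly (n : ℕ) (p : Polynomial ℝ) :
    Measurable fun w : Ix → ℝ => ∑ i, p.eval (ev n (bw w) (cw w) i) := by
  have : (fun w : Ix → ℝ => ∑ i, p.eval (ev n (bw w) (cw w) i)) =
      fun w => ∑ k ∈ Finset.range (p.natDegree + 1), p.coeff k * ∑ i, ev n (bw w) (cw w) i ^ k := by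
    funext w
    simp only [Polynomial.eval_eq_sum_range, Finset.mul_sum]
    rw [Finset.sum_comm]
  rw [this]
  exact Finset.measurable_sum _ fun k _ => (meas_psum n k).const_mul _

/-- linear statistics are measurable -/
theorem meas_lin (n : ℕ) {f : ℝ → ℝ} (hf : Continuous f) :
    Measurable fun w : Ix → ℝ => ∑ i, f (ev n (bw w) (cw w) i) := by
  have hp : ∀ m : ℕ, ∃ p : Polynomial ℝ, ∀ x ∈ Set.Icc (0 : ℝ) m,
      |p.eval x - f x| < 1 / ((m : ℝ) + 1) := fun m =>
    exists_polynomial_near_of_continuousOn 0 m f hf.continuousOn _ (by positivity)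
  choose p hp using hp
  refine measurable_of_tendsto_metrizable (f := fun m w => ∑ i, (p m).eval (ev n (bw w) (cw w) i))
    (fun m => meas_poly n (p m)) ?_
  rw [tendsto_pi_nhds]
  intro w
  apply tendsto_finset_sum
  intro i _
  rw [Metric.tendsto_atTop]
  intro ε hε
  obtain ⟨m₀, hm₀⟩ := exists_nat_gt (max (ev n (bw w) (cw w) i) (1 / ε))
  refine ⟨m₀, fun m hm => ?_⟩
  have hmm : (m₀ : ℝ) ≤ m := by exact_mod_cast hm
  have h1 : ev n (bw w) (cw w) i ≤ m := by
    have := le_max_left (ev n (bw w) (cw w) i) (1 / ε)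
    linarith
  have h2 : 1 / ε < m := by
    have := le_max_right (ev n (bw w) (cw w) i) (1 / ε)
    linarith
  have h3 := hp m (ev n (bw w) (cw w) i) ⟨ev_nn n _ _ i, h1⟩
  rw [Real.dist_eq]
  refine h3.trans ?_
  rw [div_lt_iff₀ (by positivity)]
  rw [div_lt_iff₀ hε] at h2
  nlinarith

/-- scaled linear statistic -/
noncomputable def LSn (c : ℝ) (n : ℕ) (f : ℝ → ℝ) (w : Ix → ℝ) : ℝ :=
  ∑ i, f (c * n * ev n (bw w) (cw w) i)

theorem meas_LSn (c : ℝ) (n : ℕ) {f : ℝ → ℝ} (hf : Continuous f) : Measurable (LSn c n f) :=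
  meas_lin n (f := fun x => f (c * n * x)) (hf.comp (continuous_const.mul continuous_id))

/-- the main test function -/
noncomputable def fN (c N μ : ℝ) : ℝ :=
  Real.log ((max μ 0 / c + 2 * N) / (max μ 0 / c + 2)) / Real.log N

theorem fN_nn {c N : ℝ} (hc : 0 < c) (hN : 1 < N) (μ : ℝ) : 0 ≤ fN c N μ := by
  unfold fN
  have h1 : 0 ≤ max μ 0 / c := by positivity
  have h2 : 0 < Real.log N := Real.log_pos hN
  apply div_nonneg _ h2.le
  apply Real.log_nonneg
  rw [le_div_iff₀ (by linarith)]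
  linarith

theorem fN_le_one {c N : ℝ} (hc : 0 < c) (hN : 1 < N) (μ : ℝ) : fN c N μ ≤ 1 := by
  unfold fN
  have h1 : 0 ≤ max μ 0 / c := by positivity
  have h2 : 0 < Real.log N := Real.log_pos hN
  rw [div_le_one h2]
  apply Real.log_le_log (by positivity)
  rw [div_le_iff₀ (by linarith)]
  nlinarith

theorem fN_cont {c N : ℝ} (hc : 0 < c) (hN : 1 < N) : Continuous (fN c N) := by
  unfold fN
  refine Continuous.div_const (Continuous.log ?_ ?_) _
  · refine Continuous.div (by fun_prop) (by fun_prop) fun μ => ?_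
    have h1 : 0 ≤ max μ 0 / c := by positivity
    positivity
  · intro μ
    have h1 : 0 ≤ max μ 0 / c := by positivity
    positivity

/-- decay of the test function -/
theorem fN_decay {c N μ : ℝ} (hc : 0 < c) (hN : 1 < N) (hμ : 0 ≤ μ) :
    fN c N μ ≤ (2 * N / Real.log N) * (1 / (μ / c + 2)) := by
  unfold fN
  rw [max_eq_left hμ]
  have h1 : 0 ≤ μ / c := by positivity
  have h2 : 0 < Real.log N := Real.log_pos hN
  have h3 : Real.log ((μ / c + 2 * N) / (μ / c + 2)) ≤ 2 * N * (1 / (μ / c + 2)) := by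
    have h4 := Real.log_le_sub_one_of_pos (x := (μ / c + 2 * N) / (μ / c + 2)) (by positivity)
    have h5 : (μ / c + 2 * N) / (μ / c + 2) - 1 = (2 * N - 2) / (μ / c + 2) := by
      field_simp; ring
    rw [h5] at h4
    have h6 : (2 * N - 2) / (μ / c + 2) ≤ 2 * N * (1 / (μ / c + 2)) := by
      rw [mul_one_div]
      gcongr
      linarith
    linarith
  calc Real.log ((μ / c + 2 * N) / (μ / c + 2)) / Real.log N
      ≤ (2 * N * (1 / (μ / c + 2))) / Real.log N := by gcongr
    _ = _ := by ring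

/-- the main statistic -/
theorem LS_fN {c N : ℝ} (hc : 0 < c) (hN : 1 < N) {n : ℕ} (hn : 1 ≤ n) (w : Ix → ℝ) :
    LSn c n (fN c N) w = FF n (2 / n) (2 * N / n) w / Real.log N := by
  have hn0 : (0 : ℝ) < n := by exact_mod_cast hn
  unfold FF LG
  rw [log_ev n (bw_nn w) (cw_nn w) (show (0 : ℝ) < 2 * N / n by positivity),
    log_ev n (bw_nn w) (cw_nn w) (show (0 : ℝ) < 2 / n by positivity),
    ← Finset.sum_sub_distrib, Finset.sum_div]
  unfold LSn
  refine Finset.sum_congr rfl fun i _ => ?_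
  have h := ev_nn n (bw w) (cw w) i
  set l := ev n (bw w) (cw w) i
  unfold fN
  rw [max_eq_left (by positivity)]
  rw [← Real.log_div (by positivity) (by positivity)]
  congr 2
  field_simp

/-- the Cauchy type statistic -/
theorem SS_ev {n : ℕ} {x : ℝ} (hx : 0 < x) (w : Ix → ℝ) :
    SS n x w = ∑ i, x / (ev n (bw w) (cw w) i + x) :=
  logd_ev n (bw_nn w) (cw_nn w) hx

section

variable (β α : ℝ) [hβ : Fact (0 < β)] [hα : Fact (0 < α)]

theorem Qx_lt {R : ℝ} (hR : 2 ≤ R) {n : ℕ} (hn : 3 ≤ n) : Qx (R / n) < n := by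
  have hn0 : (0 : ℝ) < n := by positivity
  have hn3 : (3 : ℝ) ≤ n := by exact_mod_cast hn
  have h1 : (Qx (R / n) : ℝ) < 1 / (R / n) + 1 := Nat.ceil_lt_add_one (by positivity)
  have h2 : 1 / (R / n) ≤ (n : ℝ) / 2 := by
    rw [one_div_div]
    gcongr
  have h3 : (Qx (R / n) : ℝ) < n := by linarith
  exact_mod_cast h3

/-- the mean of the Cauchy type statistic at large scales -/
theorem SS_mean : ∃ C : ℝ, 0 ≤ C ∧ ∀ R : ℝ, 2 ≤ R → ∃ n₀ : ℕ, ∀ n : ℕ, n₀ ≤ n →
    ∫ w, SS n (R / n) w ∂(PP (gam β α)) ≤ C * (1 + √R) := by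
  obtain ⟨C, hC, x₀, hx₀, H⟩ := mean_bound β α
  refine ⟨C, hC, fun R hR => ⟨max 3 ⌈R / x₀⌉₊, fun n hn => ?_⟩⟩
  have hn3 : 3 ≤ n := (le_max_left _ _).trans hn
  have hn0 : (0 : ℝ) < n := by positivity
  have h1 : R / x₀ ≤ n := (Nat.le_ceil _).trans (by exact_mod_cast (le_max_right _ _).trans hn)
  have h2 : R / n ≤ x₀ := by
    rw [div_le_iff₀ hx₀] at h1
    rw [div_le_iff₀ hn0]
    linarith
  have h3 := H (R / n) (by positivity) h2 n (Qx_lt hR hn3)
  have e : R / n * n = R := by field_simp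
  rw [e] at h3
  exact h3

/-- the mean of the Cauchy type statistic at small scales -/
theorem SS_small : ∃ C : ℝ, 0 ≤ C ∧ ∃ σ : ℝ, 0 < σ ∧ ∃ n₀ : ℕ, ∀ ε : ℝ, 0 < ε → ε ≤ 1 →
    ∀ n : ℕ, n₀ ≤ n → ∫ w, SS n (ε / n) w ∂(PP (gam β α)) ≤ C * ε ^ σ := by
  obtain ⟨C, hC, σ, hσ, n₀, H⟩ := mean_small β α
  refine ⟨C, hC, σ, hσ, max 1 n₀, fun ε hε hε1 n hn => ?_⟩
  have hn1 : 1 ≤ n := (le_max_left _ _).trans hn
  have hn0 : (0 : ℝ) < n := by exact_mod_cast hn1
  have e : ε / n * n = ε := by field_simp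
  have h3 := H (ε / n) (by positivity) n ((le_max_right _ _).trans hn) (by rw [e]; exact hε1)
  rw [e] at h3
  exact h3

/-- the variance of the main statistic -/
noncomputable def VN (C N : ℝ) : ℝ := C * (1 + Real.log (2 * N)) / Real.log N ^ 2

theorem LS_var : ∃ C : ℝ, 0 ≤ C ∧ ∀ c : ℝ, 0 < c → ∀ N : ℝ, 1 < N → ∃ n₀ : ℕ, ∀ n : ℕ, n₀ ≤ n →
    ∀ m : ℝ, ∫ w, (LSn c n (fN c N) w - m) ^ 2 ∂(PP (gam β α)) ≤
      VN C N + (∫ w, LSn c n (fN c N) w ∂(PP (gam β α)) - m) ^ 2 := by
  obtain ⟨C, hC, x₀, hx₀, H⟩ := var_bound β α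
  refine ⟨C, hC, fun c hc N hN => ⟨max 3 ⌈2 * N / x₀⌉₊, fun n hn m => ?_⟩⟩
  have hn3 : 3 ≤ n := (le_max_left _ _).trans hn
  have hn0 : (0 : ℝ) < n := by positivity
  have h1 : 2 * N / x₀ ≤ n := (Nat.le_ceil _).trans (by exact_mod_cast (le_max_right _ _).trans hn)
  have h2 : 2 * N / n ≤ x₀ := by
    rw [div_le_iff₀ hx₀] at h1
    rw [div_le_iff₀ hn0]
    linarith
  have h12 : (2 : ℝ) / n ≤ 2 * N / n := by gcongr; linarith
  have h3 := H (2 / n) (2 * N / n) (by positivity) h12 h2 n (Qx_lt le_rfl hn3)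
  have e : (n : ℝ) * (2 * N / n) = 2 * N := by field_simp
  rw [e] at h3
  have hlog : 0 < Real.log N := Real.log_pos hN
  set F : (Ix → ℝ) → ℝ := LSn c n (fN c N) with hF
  have hFF : ∀ w, F w = FF n (2 / n) (2 * N / n) w / Real.log N := fun w =>
    LS_fN hc hN (by omega) w
  have hFi : Integrable F (PP (gam β α)) := by
    refine int_bd (meas_LSn c n (fN_cont hc hN)) (C := n * Real.log (2 * N / n / (2 / n)) / Real.log N)
      fun w => ?_
    rw [hFF w, abs_div, abs_of_pos hlog]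
    gcongr
    exact FF_abs (by positivity) h12 w
  have hF2 : Integrable (fun w => F w ^ 2) (PP (gam β α)) := by
    refine int_bd ((meas_LSn c n (fN_cont hc hN)).pow_const 2)
      (C := (n * Real.log (2 * N / n / (2 / n)) / Real.log N) ^ 2) fun w => ?_
    rw [hFF w, abs_of_nonneg (sq_nonneg _), ← sq_abs, abs_div, abs_of_pos hlog]
    gcongr
    exact FF_abs (by positivity) h12 w
  have e1 : ∫ w, (F w - m) ^ 2 ∂(PP (gam β α)) =
      (∫ w, F w ^ 2 ∂(PP (gam β α)) - (∫ w, F w ∂(PP (gam β α))) ^ 2) +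
      (∫ w, F w ∂(PP (gam β α)) - m) ^ 2 := by
    have e2 : ∀ w, (F w - m) ^ 2 = F w ^ 2 - 2 * m * F w + m ^ 2 := fun w => by ring
    simp only [e2]
    have i1 : Integrable (fun w => 2 * m * F w) (PP (gam β α)) := hFi.const_mul _
    have i2 : Integrable (fun w => F w ^ 2 - 2 * m * F w) (PP (gam β α)) := hF2.sub i1
    rw [integral_add i2 (integrable_const _), integral_sub hF2 i1, integral_const_mul]
    simp only [integral_const, probReal_univ, one_smul]
    ring
  rw [e1]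
  have e3 : ∫ w, F w ^ 2 ∂(PP (gam β α)) - (∫ w, F w ∂(PP (gam β α))) ^ 2 =
      (∫ w, FF n (2 / n) (2 * N / n) w ^ 2 ∂(PP (gam β α)) -
      (∫ w, FF n (2 / n) (2 * N / n) w ∂(PP (gam β α))) ^ 2) / Real.log N ^ 2 := by
    simp only [hFF, div_pow]
    rw [integral_div, integral_div, div_pow]
    ring
  rw [e3]
  unfold VN
  gcongr

/-- the mean of the main statistic is bounded -/
theorem LS_mean_bd {c : ℝ} (hc : 0 < c) {N : ℝ} (hN : 1 < N) : ∃ K : ℝ, ∃ n₀ : ℕ,
    ∀ n : ℕ, n₀ ≤ n → 0 ≤ ∫ w, LSn c n (fN c N) w ∂(PP (gam β α)) ∧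
      ∫ w, LSn c n (fN c N) w ∂(PP (gam β α)) ≤ K := by
  obtain ⟨C, hC, H⟩ := SS_mean β α
  obtain ⟨n₀, h⟩ := H 2 le_rfl
  have hlog : 0 < Real.log N := Real.log_pos hN
  refine ⟨N / Real.log N * (C * (1 + √2)), max 1 n₀, fun n hn => ?_⟩
  have hn1 : 1 ≤ n := (le_max_left _ _).trans hn
  have hn0 : (0 : ℝ) < n := by exact_mod_cast hn1
  have h1 := h n ((le_max_right _ _).trans hn)
  constructor
  · exact integral_nonneg fun w => Finset.sum_nonneg fun i _ => fN_nn hc hN _
  · have hpt : ∀ w, LSn c n (fN c N) w ≤ N / Real.log N * SS n (2 / n) w := by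
      intro w
      rw [SS_ev (by positivity) w, Finset.mul_sum]
      unfold LSn
      refine Finset.sum_le_sum fun i _ => ?_
      have h3 := ev_nn n (bw w) (cw w) i
      set l := ev n (bw w) (cw w) i
      refine (fN_decay hc hN (by positivity)).trans (le_of_eq ?_)
      field_simp
    have hI := (SS_int β α (n := n) (x := 2 / n) (by positivity)).1
    have hFi : Integrable (LSn c n (fN c N)) (PP (gam β α)) := by
      refine Integrable.mono' (hI.const_mul (N / Real.log N))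
        (meas_LSn c n (fN_cont hc hN)).aestronglyMeasurable
        (Filter.Eventually.of_forall fun w => ?_)
      have h5 : 0 ≤ LSn c n (fN c N) w := Finset.sum_nonneg fun i _ => fN_nn hc hN _
      rw [Real.norm_eq_abs, abs_of_nonneg h5]
      exact hpt w
    calc ∫ w, LSn c n (fN c N) w ∂(PP (gam β α))
        ≤ ∫ w, N / Real.log N * SS n (2 / n) w ∂(PP (gam β α)) :=
          integral_mono hFi (hI.const_mul _) hpt
      _ = N / Real.log N * ∫ w, SS n (2 / n) w ∂(PP (gam β α)) := integral_const_mul _ _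
      _ ≤ _ := by gcongr

end

end Pool.Agent.Y982.LR
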