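import Mathlib

/-!
# LR-Alg: the two chains and the determinant recursion
-/

set_option autoImplicit false

namespace Pool.Agent.Y982.LR

open Finset

/-- the pair (D q, V q) -/
noncomputable def DV (b c : ℕ → ℝ) (x : ℝ) : ℕ → ℝ × ℝ
  | 0 => (1, x)
  | q + 1 => ((DV b c x q).2 + b q * (DV b c x q).1,
      x * ((DV b c x q).2 + b q * (DV b c x q).1) + c q * (DV b c x q).2)

noncomputable def Dp (b c : ℕ → ℝ) (x : ℝ) (q : ℕ) : ℝ := (DV b c x q).1
noncomputable def Vp (b c : ℕ → ℝ) (x : ℝ) (q : ℕ) : ℝ := (DV b c x q).2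

variable (b c : ℕ → ℝ) (x : ℝ)

@[simp] theorem Dp_zero : Dp b c x 0 = 1 := rfl
@[simp] theorem Vp_zero : Vp b c x 0 = x := rfl
theorem Dp_succ (q : ℕ) : Dp b c x (q + 1) = Vp b c x q + b q * Dp b c x q := rfl
theorem Vp_succ (q : ℕ) : Vp b c x (q + 1) = x * Dp b c x (q + 1) + c q * Vp b c x q := rfl

/-- right chain -/
noncomputable def Ar (b c : ℕ → ℝ) (x : ℝ) : ℕ → ℝ
  | 0 => 1
  | q + 1 => 1 + c q * Ar b c x q / (b q + x * Ar b c x q)

/-- left chain of length `k` at level `q` -/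
noncomputable def Al (b c : ℕ → ℝ) (x : ℝ) : ℕ → ℕ → ℝ
  | 0, _ => 1
  | k + 1, q => 1 + c q * Al b c x k (q + 1) / (b (q + 1) + x * Al b c x k (q + 1))

/-- product of the left pivots -/
noncomputable def Kl (b c : ℕ → ℝ) (x : ℝ) : ℕ → ℕ → ℝ
  | 0, _ => 1
  | k + 1, q => Kl b c x k (q + 1) * (b (q + 1) + x * Al b c x k (q + 1))

@[simp] theorem Ar_zero : Ar b c x 0 = 1 := rfl
theorem Ar_succ (q : ℕ) : Ar b c x (q + 1) = 1 + c q * Ar b c x q / (b q + x * Ar b c x q) := rfl
@[simp] theorem Al_zero (q : ℕ) : Al b c x 0 q = 1 := rfl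
theorem Al_succ (k q : ℕ) : Al b c x (k + 1) q =
    1 + c q * Al b c x k (q + 1) / (b (q + 1) + x * Al b c x k (q + 1)) := rfl
@[simp] theorem Kl_zero (q : ℕ) : Kl b c x 0 q = 1 := rfl
theorem Kl_succ (k q : ℕ) : Kl b c x (k + 1) q =
    Kl b c x k (q + 1) * (b (q + 1) + x * Al b c x k (q + 1)) := rfl

variable {b c x}

theorem Ar_ge (hb : ∀ q, 0 ≤ b q) (hc : ∀ q, 0 ≤ c q) (hx : 0 < x) (q : ℕ) : 1 ≤ Ar b c x q := by
  induction q with
  | zero => simp
  | succ q ih =>
    rw [Ar_succ]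
    have h1 : 0 < Ar b c x q := by linarith
    have h2 := hb q
    have h3 := hc q
    have : 0 ≤ c q * Ar b c x q / (b q + x * Ar b c x q) := by positivity
    linarith

theorem Al_ge (hb : ∀ q, 0 ≤ b q) (hc : ∀ q, 0 ≤ c q) (hx : 0 < x) (k : ℕ) :
    ∀ q, 1 ≤ Al b c x k q := by
  induction k with
  | zero => simp
  | succ k ih =>
    intro q
    rw [Al_succ]
    have h0 := ih (q + 1)
    have h1 : 0 < Al b c x k (q + 1) := by linarith
    have h2 := hb (q + 1)
    have h3 := hc q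
    have : 0 ≤ c q * Al b c x k (q + 1) / (b (q + 1) + x * Al b c x k (q + 1)) := by positivity
    linarith

theorem Kl_pos (hb : ∀ q, 0 ≤ b q) (hc : ∀ q, 0 ≤ c q) (hx : 0 < x) (k : ℕ) :
    ∀ q, 0 < Kl b c x k q := by
  induction k with
  | zero => simp
  | succ k ih =>
    intro q
    rw [Kl_succ]
    have h0 := ih (q + 1)
    have h1 := Al_ge hb hc hx k (q + 1)
    have h2 := hb (q + 1)
    have h3 : 0 < x * Al b c x k (q + 1) := mul_pos hx (by linarith)
    positivity

theorem DV_ar (hb : ∀ q, 0 ≤ b q) (hc : ∀ q, 0 ≤ c q) (hx : 0 < x) (q : ℕ) :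
    0 < Dp b c x q ∧ Vp b c x q = x * Dp b c x q * Ar b c x q := by
  induction q with
  | zero => simp
  | succ q ih =>
    obtain ⟨h1, h2⟩ := ih
    have h3 := Ar_ge hb hc hx q
    have h4 := hb q
    have h5 := hc q
    have h6 : 0 < Ar b c x q := by linarith
    have h7 : Dp b c x (q + 1) = Dp b c x q * (b q + x * Ar b c x q) := by
      rw [Dp_succ, h2]; ring
    have h8 : 0 < b q + x * Ar b c x q := by positivity
    constructor
    · rw [h7]; positivity
    · rw [Vp_succ, Ar_succ, h2, h7]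
      field_simp

theorem Dp_pos (hb : ∀ q, 0 ≤ b q) (hc : ∀ q, 0 ≤ c q) (hx : 0 < x) (q : ℕ) :
    0 < Dp b c x q := (DV_ar hb hc hx q).1

theorem Dp_split (hb : ∀ q, 0 ≤ b q) (hc : ∀ q, 0 ≤ c q) (hx : 0 < x) (k : ℕ) :
    ∀ q, Dp b c x (q + k + 1) =
      Kl b c x k q * (b q * Dp b c x q + Al b c x k q * Vp b c x q) := by
  induction k with
  | zero =>
    intro q
    simp only [add_zero, Kl_zero, Al_zero, Dp_succ]
    ring
  | succ k ih =>
    intro q
    have h := ih (q + 1)
    have e : q + (k + 1) + 1 = q + 1 + k + 1 := by ring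
    have h1 := Al_ge hb hc hx k (q + 1)
    have h2 := hb (q + 1)
    have h3 : 0 < x * Al b c x k (q + 1) := mul_pos hx (by linarith)
    have h4 : 0 < b (q + 1) + x * Al b c x k (q + 1) := by positivity
    rw [e, h, Kl_succ, Al_succ, Vp_succ, Dp_succ]
    field_simp
    ring

theorem Dp_b (hb : ∀ q, 0 ≤ b q) (hc : ∀ q, 0 ≤ c q) (hx : 0 < x) (k q : ℕ) :
    Dp b c x (q + k + 1) =
      Kl b c x k q * Dp b c x q * (b q + x * Ar b c x q * Al b c x k q) := by
  rw [Dp_split hb hc hx, (DV_ar hb hc hx q).2]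
  ring

/-- the product at a `c` edge -/
theorem Dp_c (hb : ∀ q, 0 ≤ b q) (hc : ∀ q, 0 ≤ c q) (hx : 0 < x) (k q : ℕ) :
    Dp b c x (q + (k + 1) + 1) =
      Kl b c x k (q + 1) * (b (q + 1) + x * Al b c x k (q + 1)) * Dp b c x (q + 1) *
      (1 + c q * (x * Ar b c x q * Al b c x k (q + 1) /
        ((b q + x * Ar b c x q) * (b (q + 1) + x * Al b c x k (q + 1))))) := by
  have e : q + (k + 1) + 1 = q + 1 + k + 1 := by ring
  rw [e, Dp_split hb hc hx, Vp_succ, (DV_ar hb hc hx q).2]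
  have h1 := Al_ge hb hc hx k (q + 1)
  have h2 := hb (q + 1)
  have h3 : 0 < x * Al b c x k (q + 1) := mul_pos hx (by linarith)
  have h4 : 0 < b (q + 1) + x * Al b c x k (q + 1) := by positivity
  have h5 := Ar_ge hb hc hx q
  have h6 := hb q
  have h7 : 0 < x * Ar b c x q := mul_pos hx (by linarith)
  have h8 : 0 < b q + x * Ar b c x q := by positivity
  have h9 : Dp b c x (q + 1) = Dp b c x q * (b q + x * Ar b c x q) := by
    rw [Dp_succ, (DV_ar hb hc hx q).2]; ring
  rw [h9]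
  field_simp
  ring

/-! ### dependence on the weights -/

theorem DV_congr {b c b' c' : ℕ → ℝ} {x : ℝ} {q : ℕ} (hb : ∀ i < q, b i = b' i)
    (hc : ∀ i < q, c i = c' i) : DV b c x q = DV b' c' x q := by
  induction q with
  | zero => rfl
  | succ q ih =>
    have h := ih (fun i hi => hb i (by omega)) (fun i hi => hc i (by omega))
    simp only [DV, h, hb q (by omega), hc q (by omega)]

/-- the determinant does not depend on the last `c` -/
theorem Dp_congr {b c b' c' : ℕ → ℝ} {x : ℝ} {q : ℕ} (hb : ∀ i < q, b i = b' i)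
    (hc : ∀ i, i + 1 < q → c i = c' i) : Dp b c x q = Dp b' c' x q := by
  cases q with
  | zero => rfl
  | succ q =>
    cases q with
    | zero => simp [Dp_succ, hb 0 (by omega)]
    | succ q =>
      have h : DV b c x (q + 1) = DV b' c' x (q + 1) :=
        DV_congr (fun i hi => hb i (by omega)) (fun i hi => hc i (by omega))
      change (DV b c x (q + 1)).2 + b (q + 1) * (DV b c x (q + 1)).1 =
        (DV b' c' x (q + 1)).2 + b' (q + 1) * (DV b' c' x (q + 1)).1
      rw [h, hb (q + 1) (by omega)]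

theorem Ar_congr {b c b' c' : ℕ → ℝ} {x : ℝ} {q : ℕ} (hb : ∀ i < q, b i = b' i)
    (hc : ∀ i < q, c i = c' i) : Ar b c x q = Ar b' c' x q := by
  induction q with
  | zero => rfl
  | succ q ih =>
    have h := ih (fun i hi => hb i (by omega)) (fun i hi => hc i (by omega))
    simp only [Ar, h, hb q (by omega), hc q (by omega)]

theorem Al_congr {b c b' c' : ℕ → ℝ} {x : ℝ} {k : ℕ} : ∀ {q : ℕ},
    (∀ i, q < i → b i = b' i) → (∀ i, q ≤ i → c i = c' i) → Al b c x k q = Al b' c' x k q := by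
  induction k with
  | zero => intro q _ _; rfl
  | succ k ih =>
    intro q hb hc
    have h := @ih (q + 1) (fun i hi => hb i (by omega)) (fun i hi => hc i (by omega))
    simp only [Al, h, hb (q + 1) (by omega), hc q le_rfl]

theorem Kl_congr {b c b' c' : ℕ → ℝ} {x : ℝ} {k : ℕ} : ∀ {q : ℕ},
    (∀ i, q < i → b i = b' i) → (∀ i, q < i → c i = c' i) → Kl b c x k q = Kl b' c' x k q := by
  induction k with
  | zero => intro q _ _; rfl
  | succ k ih =>
    intro q hb hc
    have h := @ih (q + 1) (fun i hi => hb i (by omega)) (fun i hi => hc i (by omega))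
    have h' := @Al_congr b c b' c' x k (q + 1) (fun i hi => hb i (by omega))
      (fun i hi => hc i (by omega))
    simp only [Kl, h, h', hb (q + 1) (by omega)]

/-! ### the derivative in `x` -/

/-- derivatives of `D` and `V` -/
noncomputable def DV' (b c : ℕ → ℝ) (x : ℝ) : ℕ → ℝ × ℝ
  | 0 => (0, 1)
  | q + 1 => ((DV' b c x q).2 + b q * (DV' b c x q).1,
      Dp b c x (q + 1) + x * ((DV' b c x q).2 + b q * (DV' b c x q).1) + c q * (DV' b c x q).2)

noncomputable def Dp' (b c : ℕ → ℝ) (x : ℝ) (q : ℕ) : ℝ := (DV' b c x q).1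
noncomputable def Vp' (b c : ℕ → ℝ) (x : ℝ) (q : ℕ) : ℝ := (DV' b c x q).2

theorem Dp'_succ (q : ℕ) : Dp' b c x (q + 1) = Vp' b c x q + b q * Dp' b c x q := rfl
theorem Vp'_succ (q : ℕ) : Vp' b c x (q + 1) =
    Dp b c x (q + 1) + x * Dp' b c x (q + 1) + c q * Vp' b c x q := rfl

theorem hasDeriv (b c : ℕ → ℝ) (x : ℝ) (q : ℕ) :
    HasDerivAt (fun y => Dp b c y q) (Dp' b c x q) x ∧
    HasDerivAt (fun y => Vp b c y q) (Vp' b c x q) x := by
  induction q with
  | zero =>
    exact ⟨hasDerivAt_const x (1 : ℝ), hasDerivAt_id x⟩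
  | succ q ih =>
    obtain ⟨h1, h2⟩ := ih
    have h3 : HasDerivAt (fun y => Dp b c y (q + 1)) (Dp' b c x (q + 1)) x := by
      simp only [Dp_succ, Dp'_succ]
      exact h2.add (h1.const_mul _)
    refine ⟨h3, ?_⟩
    simp only [Vp_succ, Vp'_succ]
    have h4 := ((hasDerivAt_id x).mul h3).add (h2.const_mul (c q))
    refine h4.congr_deriv ?_
    simp only [id, one_mul]

theorem Dp'_split (hb : ∀ q, 0 ≤ b q) (hc : ∀ q, 0 ≤ c q) (hx : 0 < x) (k : ℕ) :
    ∀ q, Dp' b c x (q + k + 1) =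
      Kl b c x k q * (b q * Dp' b c x q + Al b c x k q * Vp' b c x q) +
      ∑ j ∈ range k, Kl b c x (k - (j + 1)) (q + (j + 1)) *
        Al b c x (k - (j + 1)) (q + (j + 1)) * Dp b c x (q + (j + 1)) := by
  induction k with
  | zero =>
    intro q
    simp only [add_zero, Kl_zero, Al_zero, Dp'_succ, range_zero, sum_empty]
    ring
  | succ k ih =>
    intro q
    have h := ih (q + 1)
    have e : q + (k + 1) + 1 = q + 1 + k + 1 := by ring
    have h1 := Al_ge hb hc hx k (q + 1)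
    have h2 := hb (q + 1)
    have h3 : 0 < x * Al b c x k (q + 1) := mul_pos hx (by linarith)
    have h4 : 0 < b (q + 1) + x * Al b c x k (q + 1) := by positivity
    have hs : ∑ j ∈ range (k + 1), Kl b c x (k + 1 - (j + 1)) (q + (j + 1)) *
        Al b c x (k + 1 - (j + 1)) (q + (j + 1)) * Dp b c x (q + (j + 1)) =
        Kl b c x k (q + 1) * Al b c x k (q + 1) * Dp b c x (q + 1) +
        ∑ j ∈ range k, Kl b c x (k - (j + 1)) (q + 1 + (j + 1)) *
        Al b c x (k - (j + 1)) (q + 1 + (j + 1)) * Dp b c x (q + 1 + (j + 1)) := by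
      rw [sum_range_succ', add_comm]
      congr 1
      refine sum_congr rfl fun j _ => ?_
      have e1 : k + 1 - (j + 1 + 1) = k - (j + 1) := by omega
      have e2 : q + (j + 1 + 1) = q + 1 + (j + 1) := by ring
      rw [e1, e2]
    rw [e, h, hs, Kl_succ, Al_succ, Vp'_succ, Dp'_succ]
    field_simp
    ring

/-- logarithmic derivative as a sum over the levels -/
theorem logDeriv_sum (hb : ∀ q, 0 ≤ b q) (hc : ∀ q, 0 ≤ c q) (hx : 0 < x) (n : ℕ) :
    x * Dp' b c x n / Dp b c x n =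
      ∑ q ∈ range n, x * Al b c x (n - 1 - q) q /
        (b q + x * Ar b c x q * Al b c x (n - 1 - q) q) := by
  cases n with
  | zero => simp [Dp', DV']
  | succ k =>
    have h := Dp'_split hb hc hx k 0
    have h0 : Dp' b c x 0 = 0 := rfl
    have h1 : Vp' b c x 0 = 1 := rfl
    rw [h0, h1] at h
    simp only [zero_add, mul_zero, mul_one] at h
    have h2 : Dp' b c x (k + 1) = ∑ q ∈ range (k + 1), Kl b c x (k - q) q * Al b c x (k - q) q *
        Dp b c x q := by
      rw [h, sum_range_succ', add_comm]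
      congr 1
      simp
    rw [h2, mul_sum, sum_div]
    refine sum_congr rfl fun q hq => ?_
    have hq' : q ≤ k := by
      have := mem_range.1 hq; omega
    have e : k + 1 - 1 - q = k - q := by omega
    have e2 : q + (k - q) + 1 = k + 1 := by omega
    have h3 := Dp_b hb hc hx (k - q) q
    rw [e2] at h3
    rw [e, h3]
    have p1 := Kl_pos hb hc hx (k - q) q
    have p2 := Dp_pos hb hc hx q
    have p3 := Ar_ge hb hc hx q
    have p4 := Al_ge hb hc hx (k - q) q
    have p5 := hb q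
    have p6 : 0 < x * Ar b c x q * Al b c x (k - q) q :=
      mul_pos (mul_pos hx (by linarith)) (by linarith)
    have p7 : 0 < b q + x * Ar b c x q * Al b c x (k - q) q := by positivity
    field_simp

end Pool.Agent.Y982.LR
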