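import Pool.Agent.Y982.LR.Space

/-!
# LR-Chain1: first moments of the chains
-/

set_option autoImplicit false
set_option linter.unusedSectionVars false

open scoped BigOperators ENNReal
open MeasureTheory ProbabilityTheory Real Set

namespace Pool.Agent.Y982.LR

/-- tangent line of `v / (1 + x v)` -/
theorem tan_frac {x v m : ℝ} (hx : 0 ≤ x) (hv : 0 ≤ v) (hm : 0 ≤ m) :
    v / (1 + x * v) ≤ m / (1 + x * m) + (v - m) / (1 + x * m) ^ 2 := by
  have h1 : 0 < 1 + x * v := by positivity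
  have h2 : 0 < 1 + x * m := by positivity
  rw [div_add_div _ _ h2.ne' (by positivity), div_le_div_iff₀ h1 (by positivity)]
  have : 0 ≤ (1 + x * m) * (x * (v - m) ^ 2) := by positivity
  nlinarith [this]

theorem int_affine {Ω : Type*} [MeasurableSpace Ω] {P : Measure Ω} [IsProbabilityMeasure P]
    {f : Ω → ℝ} (hf : Integrable f P) (κ lam m : ℝ) :
    Integrable (fun w => κ + lam * (f w - m)) P ∧
    ∫ w, (κ + lam * (f w - m)) ∂P = κ + lam * (∫ w, f w ∂P - m) := by
  have h1 : Integrable (fun w => f w - m) P := hf.sub (integrable_const _)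
  have h2 : Integrable (fun w => lam * (f w - m)) P := h1.const_mul _
  refine ⟨(integrable_const _).add h2, ?_⟩
  rw [integral_add (integrable_const _) h2, integral_const_mul,
    integral_sub hf (integrable_const _)]
  simp

section

variable (β α : ℝ) [hβ : Fact (0 < β)] [hα : Fact (0 < α)]

theorem b_inv (q : ℕ) (hq : 1 < β / 2 * (q + α)) :
    Integrable (fun θ => (bq θ q)⁻¹) (Pr β α) ∧
    ∫ θ, (bq θ q)⁻¹ ∂(Pr β α) = 1 / (q + α - 2 / β) := by
  have hb := hβ.1
  obtain ⟨h1, h2⟩ := bq_mom β α q (s := -1) (by linarith)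
  simp only [rpow_neg_one] at h1 h2
  refine ⟨h1, ?_⟩
  rw [h2, gam_inv hq (by positivity)]
  have e : β / 2 * (q + α) - 1 = β / 2 * (q + α - 2 / β) := by field_simp
  have e2 : 0 < q + α - 2 / β := by
    by_contra hcon
    push Not at hcon
    have : β / 2 * (q + α - 2 / β) ≤ 0 := mul_nonpos_of_nonneg_of_nonpos (by positivity) hcon
    linarith
  rw [e]
  field_simp

theorem c_inv (q : ℕ) (hq : 1 < β / 2 * (q + 1)) :
    Integrable (fun θ => (cq θ q)⁻¹) (Pr β α) ∧
    ∫ θ, (cq θ q)⁻¹ ∂(Pr β α) = 1 / (q + 1 - 2 / β) := by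
  have hb := hβ.1
  obtain ⟨h1, h2⟩ := cq_mom β α q (s := -1) (by linarith)
  simp only [rpow_neg_one] at h1 h2
  refine ⟨h1, ?_⟩
  rw [h2, gam_inv hq (by positivity)]
  have e : β / 2 * (q + 1) - 1 = β / 2 * (q + 1 - 2 / β) := by field_simp
  have e2 : 0 < (q : ℝ) + 1 - 2 / β := by
    by_contra hcon
    push Not at hcon
    have : β / 2 * (q + 1 - 2 / β) ≤ 0 := mul_nonpos_of_nonneg_of_nonpos (by positivity) hcon
    linarith
  rw [e]
  field_simp

theorem disj1 (q : ℕ) : Disjoint ({((q, true), false)} : Set (Ix × Bool))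
    (Up (q + 1) ∪ {((q + 1, false), false)}) := by
  rw [Set.disjoint_left]
  rintro j hj hj2
  rw [Set.mem_singleton_iff] at hj
  subst hj
  rcases hj2 with ⟨_, h⟩ | h
  · simp only at h
    omega
  · simp at h

theorem disj2 (q : ℕ) : Disjoint (Up q) ({((q, false), false)} : Set (Ix × Bool)) := by
  rw [Set.disjoint_left]
  rintro j ⟨h1, h2⟩ hj
  rw [Set.mem_singleton_iff] at hj
  subst hj
  simp at h2

theorem L1_step {x : ℝ} (hx : 0 < x) (k q : ℕ) (hq : 1 < β / 2 * (((q + 1 : ℕ) : ℝ) + α)) :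
    ∫ θ, Al (bq θ) (cq θ) x (k + 1) q ∂(Pr β α) ≤
      1 + (q + 1) * (∫ θ, Al (bq θ) (cq θ) x k (q + 1) ∂(Pr β α)) /
        ((((q + 1 : ℕ) : ℝ) + α - 2 / β) +
          x * ∫ θ, Al (bq θ) (cq θ) x k (q + 1) ∂(Pr β α)) := by
  have hb := hβ.1
  set y := ∫ θ, Al (bq θ) (cq θ) x k (q + 1) ∂(Pr β α) with hy
  set μ : ℝ := ((q + 1 : ℕ) : ℝ) + α - 2 / β with hμ
  have hμ0 : 0 < μ := by
    by_contra hcon
    push Not at hcon
    have : β / 2 * μ ≤ 0 := mul_nonpos_of_nonneg_of_nonpos (by positivity) hcon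
    have e : β / 2 * μ = β / 2 * (((q + 1 : ℕ) : ℝ) + α) - 1 := by rw [hμ]; field_simp
    linarith
  obtain ⟨i1, e1⟩ := b_inv β α (q + 1) hq
  have hA := Al_int β α hx k (q + 1)
  have hAd := dep_Al x k (q + 1)
  have hBd : Dep ({((q + 1, false), false)} : Set (Ix × Bool)) (fun θ => (bq θ (q + 1))⁻¹) :=
    (dep_bq (Set.mem_singleton _)).comp (φ := fun z => z⁻¹) (by fun_prop)
  obtain ⟨iv, ev⟩ := ind_mul β α (disj2 (q + 1)) hAd hBd hA i1
  rw [e1, ← hy] at ev
  have hy0 : 0 ≤ y := integral_nonneg fun θ => by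
    have := Al_ge (bq_nn θ) (cq_nn θ) hx k (q + 1)
    exact le_trans zero_le_one this
  set m : ℝ := y * (1 / μ) with hm
  have hm0 : 0 ≤ m := by positivity
  set κ : ℝ := m / (1 + x * m) with hκ
  set lam : ℝ := 1 / (1 + x * m) ^ 2 with hlam
  have hgd : Dep (Up (q + 1) ∪ {((q + 1, false), false)})
      (fun θ => κ + lam * (Al (bq θ) (cq θ) x k (q + 1) * (bq θ (q + 1))⁻¹ - m)) :=
    (dep_const _ _).add ((dep_const _ _).mul
      (((hAd.mono subset_union_left).mul (hBd.mono subset_union_right)).sub (dep_const _ _)))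
  obtain ⟨hgi, hge⟩ := int_affine iv κ lam m
  rw [ev, sub_self, mul_zero, add_zero] at hge
  have hcd : Dep ({((q, true), false)} : Set (Ix × Bool)) (fun θ => cq θ q) :=
    dep_cq (Set.mem_singleton _)
  obtain ⟨ic, ec⟩ := ind_mul β α (disj1 q) hcd hgd (cq_int β α q) hgi
  rw [hge, cq_mean] at ec
  have hpt : ∀ᵐ θ ∂(Pr β α), Al (bq θ) (cq θ) x (k + 1) q ≤
      1 + cq θ q * (κ + lam * (Al (bq θ) (cq θ) x k (q + 1) * (bq θ (q + 1))⁻¹ - m)) := by
    filter_upwards [all_pos' β α] with θ hθ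
    have hbp := (hθ (q + 1)).1
    have hcp := (hθ q).2.1
    have hAp : 0 < Al (bq θ) (cq θ) x k (q + 1) := by
      have := Al_ge (bq_nn θ) (cq_nn θ) hx k (q + 1)
      linarith
    rw [Al_succ]
    set A := Al (bq θ) (cq θ) x k (q + 1)
    set B := bq θ (q + 1)
    have h1 := tan_frac (x := x) (v := A * B⁻¹) (m := m) hx.le (by positivity) hm0
    have h2 : cq θ q * A / (B + x * A) = cq θ q * (A * B⁻¹ / (1 + x * (A * B⁻¹))) := by
      field_simp
    rw [h2]
    have h3 : A * B⁻¹ / (1 + x * (A * B⁻¹)) ≤ κ + lam * (A * B⁻¹ - m) := by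
      refine h1.trans (le_of_eq ?_)
      rw [hκ, hlam]; ring
    have := mul_le_mul_of_nonneg_left h3 hcp.le
    linarith
  calc ∫ θ, Al (bq θ) (cq θ) x (k + 1) q ∂(Pr β α)
      ≤ ∫ θ, (1 + cq θ q * (κ + lam * (Al (bq θ) (cq θ) x k (q + 1) * (bq θ (q + 1))⁻¹ - m)))
          ∂(Pr β α) :=
        integral_mono_ae (Al_int β α hx (k + 1) q) ((integrable_const _).add ic) hpt
    _ = 1 + (q + 1) * κ := by
        rw [integral_add (integrable_const _) ic, ec]; simp
    _ = _ := by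
        rw [hκ, hm]
        have : 1 + x * (y * (1 / μ)) ≠ 0 := by positivity
        have : μ + x * y ≠ 0 := by positivity
        field_simp

theorem mono_frac {s μ x y y' : ℝ} (hs : 0 ≤ s) (hμ : 0 < μ) (hx : 0 ≤ x) (hy : 0 ≤ y)
    (h : y ≤ y') : s * y / (μ + x * y) ≤ s * y' / (μ + x * y') := by
  have hy' : 0 ≤ y' := hy.trans h
  have h1 : 0 < μ + x * y := by positivity
  have h2 : 0 < μ + x * y' := by positivity
  rw [div_le_div_iff₀ h1 h2]
  have : 0 ≤ s * μ * (y' - y) := mul_nonneg (mul_nonneg hs hμ.le) (by linarith)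
  nlinarith

theorem L1_det {s x a M : ℝ} (hs : 1 ≤ s) (hx : 0 < x) (hx1 : x ≤ 1) (hsx : 1 ≤ x * s)
    (ha : 0 < s + a) (hM : 3 + 2 * |a| ≤ M) :
    1 + s * (M * √((s + 1) / x)) / ((s + a) + x * (M * √((s + 1) / x))) ≤ M * √(s / x) := by
  have hM0 : 0 < M := by
    have := abs_nonneg a
    linarith
  set r := √(s / x) with hr
  set t := √((s + 1) / x) with ht
  have hs0 : 0 < s := by linarith
  have hr0 : 0 < r := Real.sqrt_pos.2 (by positivity)
  have ht0 : 0 < t := Real.sqrt_pos.2 (by positivity)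
  have hr2 : r * r = s / x := Real.mul_self_sqrt (by positivity)
  have ht2 : t * t = (s + 1) / x := Real.mul_self_sqrt (by positivity)
  have hrt : r ≤ t := Real.sqrt_le_sqrt (by gcongr; linarith)
  -- r ≥ 1 / x ... bounds
  have hxr : x * (r * r) = s := by rw [hr2]; field_simp
  have hxt : x * (t * t) = s + 1 := by rw [ht2]; field_simp
  have hr_s : r ≤ s := by
    have h1 : r * r ≤ s * s := by
      rw [hr2, div_le_iff₀ hx]; nlinarith
    exact abs_le_of_sq_le_sq' (by nlinarith) hs0.le |>.2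
  have hxr1 : 1 ≤ x * r := by
    -- (x r)^2 = x s ≥ 1
    have h1 : (x * r) * (x * r) = x * s := by
      calc (x * r) * (x * r) = x * (x * (r * r)) := by ring
        _ = x * s := by rw [hxr]
    by_contra hcon
    push Not at hcon
    have : (x * r) * (x * r) < 1 := by nlinarith [mul_pos hx hr0]
    linarith
  have htr : t ≤ r + 1 / 2 := by
    -- x (t - r) (t + r) = 1, x (t + r) ≥ 2
    have h1 : x * ((t - r) * (t + r)) = 1 := by nlinarith
    have h2 : 2 ≤ x * (t + r) := by nlinarith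
    nlinarith
  have hden : 0 < (s + a) + x * (M * t) := by positivity
  have hxrs : x * r ≤ s := by nlinarith
  -- main inequality
  have key : ((s + a) + x * (M * t)) + s * (M * t) ≤ M * r * ((s + a) + x * (M * t)) := by
    have e1 : x * (M * t) * (M * r) ≥ M * M * s := by
      have : x * (r * t) ≥ x * (r * r) := by
        have := mul_le_mul_of_nonneg_left hrt hr0.le
        nlinarith
      nlinarith [mul_pos hM0 hM0]
    have e2 : -|a| * (M * s) ≤ a * (M * r) := by
      have h1 : -|a| ≤ a := neg_abs_le a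
      have h2 : M * r ≤ M * s := by nlinarith
      have h3 : 0 ≤ M * r := by positivity
      have h4 : 0 ≤ |a| := abs_nonneg a
      nlinarith
    have e3 : x * (M * t) ≤ M * s + M / 2 := by
      have h1 : x * t ≤ x * r + x / 2 := by nlinarith
      have h2 : x * t ≤ s + 1 / 2 := by linarith
      nlinarith
    have e4 : s * (M * t) ≤ s * (M * r) + s * M / 2 := by nlinarith [mul_pos hs0 hM0]
    have e5 : a ≤ |a| * s := by
      have h1 := le_abs_self a
      have h2 := abs_nonneg a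
      nlinarith
    have e6 : M / 2 ≤ M * s / 2 := by nlinarith
    have e7 : s * (1 + |a| + 2 * M + |a| * M) ≤ M * M * s := by
      have h2 := abs_nonneg a
      have h1 : 1 + |a| + 2 * M + |a| * M ≤ M * M := by nlinarith
      nlinarith
    nlinarith
  have h9 : 1 + s * (M * t) / ((s + a) + x * (M * t)) =
      (((s + a) + x * (M * t)) + s * (M * t)) / ((s + a) + x * (M * t)) := by
    field_simp
  rw [h9, div_le_iff₀ hden]
  exact key

/-- phase one -/
theorem L1 : ∃ M : ℝ, 1 ≤ M ∧ ∃ q₁ : ℕ, ∀ x : ℝ, 0 < x → x ≤ 1 → ∀ k q : ℕ, q₁ ≤ q →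
    1 ≤ x * (q + 1) →
    ∫ θ, Al (bq θ) (cq θ) x k q ∂(Pr β α) ≤ M * √((q + 1) / x) := by
  have hb := hβ.1
  have ha := hα.1
  set a : ℝ := α - 2 / β with hadef
  refine ⟨3 + 2 * |a|, by have := abs_nonneg a; linarith, ⌈2 / β⌉₊ + 1, ?_⟩
  intro x hx hx1 k
  induction k with
  | zero =>
    intro q hq hxq
    have hx0 : 0 < (q : ℝ) + 1 := by positivity
    have h1 : 1 ≤ √((q + 1) / x) := by
      rw [Real.one_le_sqrt, le_div_iff₀ hx]
      nlinarith
    simp only [Al_zero]
    rw [integral_const]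
    simp only [probReal_univ, one_smul]
    have := abs_nonneg a
    nlinarith
  | succ k ih =>
    intro q hq hxq
    have hq1 : (⌈2 / β⌉₊ : ℝ) + 1 ≤ q := by exact_mod_cast hq
    have hq2 : 2 / β + 1 ≤ q := by
      have := Nat.le_ceil (2 / β); linarith
    have hmu : 0 < (q : ℝ) + 1 + a := by rw [hadef]; linarith
    have hcond : 1 < β / 2 * (((q + 1 : ℕ) : ℝ) + α) := by
      push_cast
      have h1 : 2 / β < (q : ℝ) + 1 + α := by linarith
      have h2 : β / 2 * (2 / β) < β / 2 * ((q : ℝ) + 1 + α) := mul_lt_mul_of_pos_left h1 (by positivity)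
      have h3 : β / 2 * (2 / β) = 1 := by field_simp
      linarith
    have h1 := L1_step β α hx k q hcond
    have h2 := ih (q + 1) (by omega) (by push_cast; nlinarith)
    have hy0 : 0 ≤ ∫ θ, Al (bq θ) (cq θ) x k (q + 1) ∂(Pr β α) := integral_nonneg fun θ => by
      have := Al_ge (bq_nn θ) (cq_nn θ) hx k (q + 1)
      exact le_trans zero_le_one this
    push_cast at h1 h2
    have e : (q : ℝ) + 1 + α - 2 / β = ((q : ℝ) + 1) + a := by rw [hadef]; ring
    rw [e] at h1
    have h3 := mono_frac (s := (q : ℝ) + 1) (μ := (q : ℝ) + 1 + a) (x := x) (by positivity) hmu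
      hx.le hy0 h2
    have h4 := L1_det (s := (q : ℝ) + 1) (x := x) (a := a) (M := 3 + 2 * |a|) (by
      have : (0 : ℝ) ≤ q := by positivity
      linarith) hx hx1 hxq hmu le_rfl
    linarith

theorem disj3 (q : ℕ) : Disjoint (Lo q) ({((q, false), false)} : Set (Ix × Bool)) := by
  rw [Set.disjoint_left]
  rintro j ⟨h1, h2⟩ hj
  rw [Set.mem_singleton_iff] at hj
  subst hj
  simp at h2

theorem disj4 (q : ℕ) : Disjoint (Lo q ∪ {((q, false), false)})
    ({((q, true), false)} : Set (Ix × Bool)) := by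
  rw [Set.disjoint_left]
  rintro j hj2 hj
  rw [Set.mem_singleton_iff] at hj
  subst hj
  rcases hj2 with ⟨_, h⟩ | h
  · simp at h
  · simp at h

theorem Ar_inv_int {x : ℝ} (hx : 0 < x) (q : ℕ) :
    Integrable (fun θ => (Ar (bq θ) (cq θ) x q)⁻¹) (Pr β α) := by
  have hm : Measurable fun θ => (Ar (bq θ) (cq θ) x q)⁻¹ := (dep_Ar x q).meas.inv
  refine int_bd hm (C := 1) fun θ => ?_
  have h := Ar_ge (bq_nn θ) (cq_nn θ) hx q
  rw [abs_of_nonneg (by positivity)]
  exact inv_le_one_of_one_le₀ h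

theorem tau_step {x : ℝ} (hx : 0 < x) (q : ℕ) (hq : 1 < β / 2 * ((q : ℝ) + 1)) :
    ∫ θ, (Ar (bq θ) (cq θ) x (q + 1))⁻¹ ∂(Pr β α) ≤
      (x + (q + α) * ∫ θ, (Ar (bq θ) (cq θ) x q)⁻¹ ∂(Pr β α)) /
        ((q + 1 - 2 / β) + (x + (q + α) * ∫ θ, (Ar (bq θ) (cq θ) x q)⁻¹ ∂(Pr β α))) := by
  have hb := hβ.1
  have ha := hα.1
  set τ := ∫ θ, (Ar (bq θ) (cq θ) x q)⁻¹ ∂(Pr β α) with hτ
  have hτ0 : 0 ≤ τ := integral_nonneg fun θ => by
    have := Ar_ge (bq_nn θ) (cq_nn θ) hx q
    positivity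
  obtain ⟨i1, e1⟩ := c_inv β α q hq
  set μ : ℝ := (q : ℝ) + 1 - 2 / β with hμ
  have hμ0 : 0 < μ := by
    by_contra hcon
    push Not at hcon
    have : β / 2 * μ ≤ 0 := mul_nonpos_of_nonneg_of_nonpos (by positivity) hcon
    have e : β / 2 * μ = β / 2 * ((q : ℝ) + 1) - 1 := by rw [hμ]; field_simp
    linarith
  have hTd : Dep (Lo q) (fun θ => (Ar (bq θ) (cq θ) x q)⁻¹) :=
    (dep_Ar x q).comp (φ := fun z => z⁻¹) (by fun_prop)
  have hBd : Dep ({((q, false), false)} : Set (Ix × Bool)) (fun θ => bq θ q) :=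
    dep_bq (Set.mem_singleton _)
  obtain ⟨i2, e2⟩ := ind_mul β α (disj3 q) hTd hBd (Ar_inv_int β α hx q) (bq_int β α q)
  rw [← hτ, bq_mean] at e2
  have hUd : Dep (Lo q ∪ {((q, false), false)}) (fun θ => x + (Ar (bq θ) (cq θ) x q)⁻¹ * bq θ q) :=
    (dep_const _ _).add ((hTd.mono subset_union_left).mul (hBd.mono subset_union_right))
  have i3 : Integrable (fun θ => x + (Ar (bq θ) (cq θ) x q)⁻¹ * bq θ q) (Pr β α) :=
    (integrable_const _).add i2
  have e3 : ∫ θ, (x + (Ar (bq θ) (cq θ) x q)⁻¹ * bq θ q) ∂(Pr β α) = x + (q + α) * τ := by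
    rw [integral_add (integrable_const _) i2, e2]
    simp
    ring
  have hCd : Dep ({((q, true), false)} : Set (Ix × Bool)) (fun θ => (cq θ q)⁻¹) :=
    (dep_cq (Set.mem_singleton _)).comp (φ := fun z => z⁻¹) (by fun_prop)
  obtain ⟨i4, e4⟩ := ind_mul β α (disj4 q) hUd hCd i3 i1
  rw [e3, e1] at e4
  set m : ℝ := (x + (q + α) * τ) * (1 / μ) with hm
  have hm0 : 0 ≤ m := by positivity
  have hpt : ∀ᵐ θ ∂(Pr β α), (Ar (bq θ) (cq θ) x (q + 1))⁻¹ ≤
      m / (1 + 1 * m) + 1 / (1 + 1 * m) ^ 2 *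
        ((x + (Ar (bq θ) (cq θ) x q)⁻¹ * bq θ q) * (cq θ q)⁻¹ - m) := by
    filter_upwards [all_pos' β α] with θ hθ
    have hbp := (hθ q).1
    have hcp := (hθ q).2.1
    have hAp : 0 < Ar (bq θ) (cq θ) x q := by
      have := Ar_ge (bq_nn θ) (cq_nn θ) hx q
      linarith
    rw [Ar_succ]
    set A := Ar (bq θ) (cq θ) x q
    set B := bq θ q
    set C := cq θ q
    have h1 := tan_frac (x := 1) (v := (x + A⁻¹ * B) * C⁻¹) (m := m) zero_le_one
      (by positivity) hm0
    have h2 : m / (1 + 1 * m) + ((x + A⁻¹ * B) * C⁻¹ - m) / (1 + 1 * m) ^ 2 =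
        m / (1 + 1 * m) + 1 / (1 + 1 * m) ^ 2 * ((x + A⁻¹ * B) * C⁻¹ - m) := by ring
    rw [← h2]
    refine le_trans (le_of_eq ?_) h1
    have p1 : B + x * A ≠ 0 := by positivity
    have p2 : 1 + C * A / (B + x * A) ≠ 0 := by positivity
    have p3 : 1 + 1 * ((x + A⁻¹ * B) * C⁻¹) ≠ 0 := by positivity
    field_simp
    ring
  obtain ⟨i5, e5⟩ := int_affine i4 (m / (1 + 1 * m)) (1 / (1 + 1 * m) ^ 2) m
  rw [e4, sub_self, mul_zero, add_zero] at e5
  calc ∫ θ, (Ar (bq θ) (cq θ) x (q + 1))⁻¹ ∂(Pr β α)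
      ≤ ∫ θ, (m / (1 + 1 * m) + 1 / (1 + 1 * m) ^ 2 *
        ((x + (Ar (bq θ) (cq θ) x q)⁻¹ * bq θ q) * (cq θ q)⁻¹ - m)) ∂(Pr β α) :=
        integral_mono_ae (Ar_inv_int β α hx (q + 1)) i5 hpt
    _ = m / (1 + m) := by
        rw [e5, one_mul]
    _ = _ := by
        rw [hm]
        have p1 : 0 < x + (q + α) * τ := by positivity
        field_simp

theorem mono_frac2 {μ y y' : ℝ} (hμ : 0 < μ) (hy : 0 ≤ y) (h : y ≤ y') :
    y / (μ + y) ≤ y' / (μ + y') := by
  have hy' : 0 ≤ y' := hy.trans h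
  rw [div_le_div_iff₀ (by positivity) (by positivity)]
  nlinarith

/-- the reciprocal of the right chain -/
theorem tau_bound : ∃ M : ℝ, 1 ≤ M ∧ ∀ x : ℝ, 0 < x → ∀ q : ℕ, x * (q + 1) ≤ 2 →
    ∫ θ, (Ar (bq θ) (cq θ) x q)⁻¹ ∂(Pr β α) ≤ M / (q + 1) := by
  have hb := hβ.1
  have ha := hα.1
  -- constants
  set δ : ℝ := min 1 α with hδ
  have hδ0 : 0 < δ := lt_min one_pos ha
  set L : ℝ := α + |α - 1| + 2 / β + 4 with hL
  have hL0 : 0 < L := by positivity
  set M : ℝ := max (⌈2 / β⌉₊ + 2) (L / δ) with hM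
  have hM1 : (⌈2 / β⌉₊ : ℝ) + 2 ≤ M := le_max_left _ _
  have hM2 : L / δ ≤ M := le_max_right _ _
  have hM3 : 1 ≤ M := by
    have : (0 : ℝ) ≤ ⌈2 / β⌉₊ := by positivity
    linarith
  refine ⟨M, hM3, fun x hx q => ?_⟩
  have triv : ∀ q, ∫ θ, (Ar (bq θ) (cq θ) x q)⁻¹ ∂(Pr β α) ≤ 1 := by
    intro q
    calc ∫ θ, (Ar (bq θ) (cq θ) x q)⁻¹ ∂(Pr β α) ≤ ∫ θ, (1 : ℝ) ∂(Pr β α) := by
          refine integral_mono (Ar_inv_int β α hx q) (integrable_const _) fun θ => ?_
          have h := Ar_ge (bq_nn θ) (cq_nn θ) hx q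
          exact inv_le_one_of_one_le₀ h
      _ = 1 := by simp
  induction q with
  | zero =>
    intro _
    refine (triv 0).trans ?_
    simpa using hM3
  | succ q ih =>
    intro hxq
    push_cast at hxq
    have ih' := ih (by nlinarith)
    by_cases hsm : (q : ℝ) + 2 ≤ M ∧ ¬ (1 < β / 2 * ((q : ℝ) + 1))
    · refine (triv (q + 1)).trans ?_
      rw [le_div_iff₀ (by positivity)]
      push_cast
      linarith [hsm.1]
    · have hcond : 1 < β / 2 * ((q : ℝ) + 1) := by
        by_contra hcon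
        apply hsm
        refine ⟨?_, hcon⟩
        push Not at hcon
        have h1 : (q : ℝ) + 1 ≤ 2 / β := by
          rw [le_div_iff₀ hb]; linarith
        have := Nat.le_ceil (2 / β)
        linarith
      have hstep := tau_step β α hx q hcond
      have hμ0 : 0 < (q : ℝ) + 1 - 2 / β := by
        by_contra hcon
        push Not at hcon
        have h1 : β / 2 * ((q : ℝ) + 1 - 2 / β) ≤ 0 :=
          mul_nonpos_of_nonneg_of_nonpos (by positivity) hcon
        have e : β / 2 * ((q : ℝ) + 1 - 2 / β) = β / 2 * ((q : ℝ) + 1) - 1 := by field_simp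
        linarith
      set τ := ∫ θ, (Ar (bq θ) (cq θ) x q)⁻¹ ∂(Pr β α) with hτ
      have hτ0 : 0 ≤ τ := integral_nonneg fun θ => by
        have := Ar_ge (bq_nn θ) (cq_nn θ) hx q
        positivity
      have hs0 : (0 : ℝ) < q + 1 := by positivity
      have h2 : x + (q + α) * τ ≤ x + (q + α) * (M / (q + 1)) := by
        have : (0 : ℝ) ≤ q + α := by positivity
        have := mul_le_mul_of_nonneg_left ih' this
        linarith
      have h3 := mono_frac2 hμ0 (y := x + (q + α) * τ) (by positivity) h2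
      refine (hstep.trans h3).trans ?_
      push_cast
      set s : ℝ := (q : ℝ) + 1 with hs
      have hq : (q : ℝ) = s - 1 := by rw [hs]; ring
      have hs1 : 1 ≤ s := by rw [hs]; have : (0 : ℝ) ≤ q := by positivity
                             linarith
      have p1 : 0 < s - 2 / β + (x + (q + α) * (M / s)) := by positivity
      rw [div_le_div_iff₀ p1 (by positivity)]
      rw [hq]
      have e1 : (s - 1 + α) * (M / s) = M * (1 + (α - 1) / s) := by field_simp; ring
      rw [e1]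
      have hg : δ ≤ 1 + (α - 1) / s := by
        rcases le_total 1 α with h | h
        · have : 0 ≤ (α - 1) / s := div_nonneg (by linarith) hs0.le
          have := min_le_left 1 α
          linarith
        · have h5 : α - 1 ≤ (α - 1) / s := by
            rw [le_div_iff₀ hs0]; nlinarith
          have := min_le_right 1 α
          linarith
      have hg2 : (α - 1) / s * (s + 1) ≤ α - 1 + |α - 1| := by
        have h5 : (α - 1) / s * (s + 1) = (α - 1) + (α - 1) / s := by field_simp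
        rw [h5]
        have h6 : (α - 1) / s ≤ |α - 1| := by
          rw [div_le_iff₀ hs0]
          have := le_abs_self (α - 1)
          have := abs_nonneg (α - 1)
          nlinarith
        linarith
      have hxs : x * (s + 1) ≤ 4 := by
        have : x * s ≤ 2 := by nlinarith
        nlinarith
      have hMd : L ≤ M * δ := by
        rwa [div_le_iff₀ hδ0] at hM2
      have hMg : L ≤ M * (1 + (α - 1) / s) := by
        have : M * δ ≤ M * (1 + (α - 1) / s) := mul_le_mul_of_nonneg_left hg (by linarith)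
        linarith
      have e5 : (x + M * (1 + (α - 1) / s)) * (s + 1) ≤ 4 + M * (s + 1 + (α - 1) + |α - 1|) := by
        nlinarith
      have e6 : M * (s - 2 / β) + M * L ≤ M * (s - 2 / β + (x + M * (1 + (α - 1) / s))) := by
        have : 0 ≤ M * x := by positivity
        nlinarith
      have e7 : 4 + M * (s + 1 + (α - 1) + |α - 1|) ≤ M * (s - 2 / β) + M * L := by
        rw [hL]
        nlinarith
      linarith

end

end Pool.Agent.Y982.LR
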