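import Pool.Agent.Y982.LR.Chain1

/-!
# LR-Chain2: power moments of the chains
-/

set_option autoImplicit false
set_option linter.unusedSectionVars false

open scoped BigOperators ENNReal
open MeasureTheory ProbabilityTheory Real Set

namespace Pool.Agent.Y982.LR

/-- tangent line of a power -/
theorem tan_pow {v u s : ℝ} (hv : 0 < v) (hvu : 0 ≤ v + u) (hs0 : 0 ≤ s) (hs1 : s ≤ 1) :
    (v + u) ^ s ≤ v ^ s + s * u * v ^ (s - 1) := by
  have h1 : v + u = v * (1 + u / v) := by field_simp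
  have h2 : 0 ≤ 1 + u / v := by
    have : 0 ≤ v * (1 + u / v) := h1 ▸ hvu
    exact nonneg_of_mul_nonneg_right this hv
  have h3 : (1 + u / v) ^ s ≤ 1 + s * (u / v) :=
    rpow_one_add_le_one_add_mul_self (by linarith) hs0 hs1
  rw [h1, mul_rpow hv.le h2, rpow_sub_one hv.ne']
  calc v ^ s * (1 + u / v) ^ s ≤ v ^ s * (1 + s * (u / v)) :=
        mul_le_mul_of_nonneg_left h3 (by positivity)
    _ = v ^ s + s * u * (v ^ s / v) := by ring

theorem ratio_ineq {R s : ℝ} (hR : 0 < R) (hs0 : 0 ≤ s) (hs1 : s ≤ 1) :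
    (1 - R) * R ^ (s - 1) ≤ R⁻¹ - 1 := by
  have e : R⁻¹ - 1 = (1 - R) * R ^ (-1 : ℝ) := by
    rw [rpow_neg_one]; field_simp
  rw [e]
  rcases le_total R 1 with h | h
  · exact mul_le_mul_of_nonneg_left (rpow_le_rpow_of_exponent_ge hR h (by linarith)) (by linarith)
  · exact mul_le_mul_of_nonpos_left (rpow_le_rpow_of_exponent_le h (by linarith)) (by linarith)

theorem ratio_ineq2 {R s : ℝ} (hR : 0 < R) (hs0 : 0 ≤ s) (hs1 : s ≤ 1) :
    R ^ (s - 1) ≤ 1 + R⁻¹ := by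
  rcases le_total R 1 with h | h
  · have h1 : R ^ (s - 1) ≤ R ^ (-1 : ℝ) := rpow_le_rpow_of_exponent_ge hR h (by linarith)
    rw [rpow_neg_one] at h1
    linarith
  · have h1 : R ^ (s - 1) ≤ 1 := rpow_le_one_of_one_le_of_nonpos h (by linarith)
    have : 0 < R⁻¹ := by positivity
    linarith

theorem sub_add {a b s : ℝ} (ha : 0 ≤ a) (hb : 0 ≤ b) (hs0 : 0 ≤ s) (hs1 : s ≤ 1) :
    (a + b) ^ s ≤ a ^ s + b ^ s := Real.rpow_add_le_add_rpow ha hb hs0 hs1

/-- the recursion step -/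
theorem rec_det {z Z ν ν' σ C C₁ : ℝ} (hz : 1 ≤ z) (hZ : z ≤ Z) (hν' : 0 < ν') (hνν : ν' < ν)
    (hσ : ν' ≤ σ) (h1 : ν' ≤ 1) (hC : 0 ≤ C) (hC₁ : 0 ≤ C₁) (hCC : C₁ * (1 + ν) ≤ C * (ν - ν')) :
    z / (z + ν) * (C * (z + 1) ^ ν' * Z ^ (σ - ν')) + C₁ * z ^ (σ - 1) ≤
      C * z ^ ν' * Z ^ (σ - ν') := by
  have hz0 : 0 < z := by linarith
  have hZ0 : 0 < Z := by linarith
  set U := z ^ ν' * Z ^ (σ - ν') with hU
  have hU0 : 0 < U := by positivity
  have e1 : (z + 1) ^ ν' ≤ z ^ ν' * (1 + ν' / z) := by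
    have h2 : z + 1 = z * (1 + 1 / z) := by field_simp
    rw [h2, mul_rpow hz0.le (by positivity)]
    refine mul_le_mul_of_nonneg_left ?_ (by positivity)
    have := rpow_one_add_le_one_add_mul_self (s := 1 / z) (p := ν') (by
      have : 0 < 1 / z := by positivity
      linarith) hν'.le h1
    calc (1 + 1 / z) ^ ν' ≤ 1 + ν' * (1 / z) := this
      _ = _ := by ring
  have e2 : z ^ (σ - 1) ≤ U / z := by
    have h2 : z ^ (σ - 1) = z ^ ν' * z ^ (σ - ν') / z := by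
      rw [← rpow_add hz0, rpow_sub_one hz0.ne']; congr 2; ring
    rw [h2, hU]
    gcongr
  have e3 : z / (z + ν) * (C * (z + 1) ^ ν' * Z ^ (σ - ν')) ≤ C * U * ((z + ν') / (z + ν)) := by
    have hzn : 0 < z + ν := by linarith
    calc z / (z + ν) * (C * (z + 1) ^ ν' * Z ^ (σ - ν'))
        ≤ z / (z + ν) * (C * (z ^ ν' * (1 + ν' / z)) * Z ^ (σ - ν')) := by gcongr
      _ = C * U * ((z + ν') / (z + ν)) := by
          rw [hU]; field_simp
  have e4 : C₁ * z ^ (σ - 1) ≤ C₁ * (U / z) := mul_le_mul_of_nonneg_left e2 hC₁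
  have e5 : C * ((z + ν') / (z + ν)) + C₁ / z ≤ C := by
    have hzn : 0 < z + ν := by linarith
    rw [← sub_nonneg]
    have : C - (C * ((z + ν') / (z + ν)) + C₁ / z) =
        (C * (ν - ν') * z - C₁ * (z + ν)) / ((z + ν) * z) := by
      field_simp; ring
    rw [this]
    apply div_nonneg _ (by positivity)
    have h3 : C₁ * (z + ν) ≤ C₁ * (1 + ν) * z := by
      have : z + ν ≤ (1 + ν) * z := by nlinarith
      nlinarith
    nlinarith
  calc z / (z + ν) * (C * (z + 1) ^ ν' * Z ^ (σ - ν')) + C₁ * z ^ (σ - 1)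
      ≤ C * U * ((z + ν') / (z + ν)) + C₁ * (U / z) := add_le_add e3 e4
    _ = U * (C * ((z + ν') / (z + ν)) + C₁ / z) := by ring
    _ ≤ U * C := mul_le_mul_of_nonneg_left e5 hU0.le
    _ = _ := by rw [hU]; ring

section

variable (β α : ℝ) [hβ : Fact (0 < β)] [hα : Fact (0 < α)]

/-- the shifted level -/
noncomputable def zq (q : ℕ) : ℝ := q + 1 + α + 2 / β

theorem zq_succ (q : ℕ) : zq β α (q + 1) = zq β α q + 1 := by
  unfold zq; push_cast; ring

theorem zq_ge (q : ℕ) : 1 ≤ zq β α q := by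
  have := hβ.1
  have := hα.1
  unfold zq
  have : (0 : ℝ) ≤ q := by positivity
  have : 0 < 2 / β := by positivity
  linarith

theorem zq_mono {p q : ℕ} (h : p ≤ q) : zq β α p ≤ zq β α q := by
  unfold zq
  have : (p : ℝ) ≤ q := by exact_mod_cast h
  linarith

/-- the ratio of consecutive weights -/
noncomputable def Rq (θ : Th) (q : ℕ) : ℝ := cq θ q / bq θ (q + 1)

/-- the exponent -/
noncomputable def nu (β α σ : ℝ) : ℝ := σ * (β / 2 * α - σ) * (2 / β)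

theorem nu_pos {σ : ℝ} (h0 : 0 < σ) (h1 : σ < β / 2 * α) : 0 < nu β α σ := by
  have := hβ.1
  unfold nu
  have : 0 < β / 2 * α - σ := by linarith
  positivity

def Sp (q : ℕ) : Set (Ix × Bool) := {((q, true), false), ((q + 1, false), false)}

theorem dep_Rq (q : ℕ) : Dep (Sp q) (fun θ => Rq θ q) :=
  (dep_cq (by simp [Sp])).div (dep_bq (by simp [Sp]))

theorem disj5 (q : ℕ) : Disjoint (Sp q) (Up (q + 1)) := by
  rw [Set.disjoint_left]
  rintro j hj ⟨h1, h2⟩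
  rcases hj with hj | hj
  · subst hj
    simp only at h2
    omega
  · rw [Set.mem_singleton_iff] at hj
    subst hj
    simp at h2

theorem Rq_pow (θ : Th) (q : ℕ) (s : ℝ) : Rq θ q ^ s = cq θ q ^ s * bq θ (q + 1) ^ (-s) := by
  unfold Rq
  rw [div_rpow (cq_nn θ q) (bq_nn θ (q + 1)), rpow_neg (bq_nn θ (q + 1)), div_eq_mul_inv]

theorem disj6 (q : ℕ) : Disjoint ({((q, true), false)} : Set (Ix × Bool))
    ({((q + 1, false), false)} : Set (Ix × Bool)) := by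
  rw [Set.disjoint_left]
  rintro j hj hj2
  rw [Set.mem_singleton_iff] at hj hj2
  rw [hj] at hj2
  simp at hj2

theorem Rq_mom {σ : ℝ} (h0 : 0 < σ) (h1 : σ ≤ 1) (h2 : σ < β / 2 * α) (q : ℕ) :
    Integrable (fun θ => Rq θ q ^ σ) (Pr β α) ∧
    ∫ θ, Rq θ q ^ σ ∂(Pr β α) ≤ zq β α q / (zq β α q + nu β α σ) := by
  have hb := hβ.1
  have ha := hα.1
  obtain ⟨i1, e1⟩ := cq_mom β α q (s := σ) (by positivity)
  obtain ⟨i2, e2⟩ := bq_mom β α (q + 1) (s := -σ) (by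
    push_cast
    have : 0 ≤ β / 2 * ((q : ℝ) + 1) := by positivity
    nlinarith)
  have d1 : Dep ({((q, true), false)} : Set (Ix × Bool)) (fun θ => cq θ q ^ σ) :=
    (dep_cq (Set.mem_singleton _)).rpow σ
  have d2 : Dep ({((q + 1, false), false)} : Set (Ix × Bool)) (fun θ => bq θ (q + 1) ^ (-σ)) :=
    (dep_bq (Set.mem_singleton _)).rpow (-σ)
  obtain ⟨i3, e3⟩ := ind_mul β α (disj6 q) d1 d2 i1 i2
  simp only [Rq_pow]
  refine ⟨i3, ?_⟩
  rw [e3, e1, e2]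
  -- identify with Qr
  have hK : 0 < β / 2 * ((q : ℝ) + 1) := by positivity
  have e4 : gm (β / 2 * ((q : ℝ) + 1)) (β / 2) σ *
      gm (β / 2 * (((q + 1 : ℕ) : ℝ) + α)) (β / 2) (-σ) =
      Qr (β / 2 * ((q : ℝ) + 1)) (β / 2 * α) σ := by
    unfold gm Qr
    have e5 : β / 2 * (((q + 1 : ℕ) : ℝ) + α) = β / 2 * ((q : ℝ) + 1) + β / 2 * α := by
      push_cast; ring
    have e6 : (1 / (β / 2)) ^ σ * (1 / (β / 2)) ^ (-σ) = 1 := by
      rw [← rpow_add (by positivity)]; simp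
    rw [e5, show β / 2 * ((q : ℝ) + 1) + β / 2 * α + -σ = β / 2 * ((q : ℝ) + 1) + β / 2 * α - σ
      from by ring]
    calc Gamma (β / 2 * ((q : ℝ) + 1) + σ) / Gamma (β / 2 * ((q : ℝ) + 1)) * (1 / (β / 2)) ^ σ *
        (Gamma (β / 2 * ((q : ℝ) + 1) + β / 2 * α - σ) /
          Gamma (β / 2 * ((q : ℝ) + 1) + β / 2 * α) * (1 / (β / 2)) ^ (-σ))
        = Gamma (β / 2 * ((q : ℝ) + 1) + σ) / Gamma (β / 2 * ((q : ℝ) + 1)) *
        (Gamma (β / 2 * ((q : ℝ) + 1) + β / 2 * α - σ) /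
          Gamma (β / 2 * ((q : ℝ) + 1) + β / 2 * α)) *
          ((1 / (β / 2)) ^ σ * (1 / (β / 2)) ^ (-σ)) := by ring
      _ = _ := by rw [e6, mul_one]
  rw [e4]
  have h5 := Qr_le hK h0 h1 h2
  have e7 : 1 + σ * (β / 2 * α - σ) / (β / 2 * ((q : ℝ) + 1) + β / 2 * α + 1) =
      (zq β α q + nu β α σ) / zq β α q := by
    have hz := zq_ge β α q
    have hz0 : zq β α q ≠ 0 := by linarith
    have e8 : β / 2 * ((q : ℝ) + 1) + β / 2 * α + 1 = β / 2 * zq β α q := by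
      unfold zq; field_simp
    rw [e8]
    unfold nu
    field_simp
  rw [e7] at h5
  have hz := zq_ge β α q
  have hn := nu_pos β α h0 h2
  have p1 : 0 < zq β α q + nu β α σ := by linarith
  have p2 : 0 < zq β α q := by linarith
  rw [le_div_iff₀ p1]
  calc Qr (β / 2 * ((q : ℝ) + 1)) (β / 2 * α) σ * (zq β α q + nu β α σ)
      = (Qr (β / 2 * ((q : ℝ) + 1)) (β / 2 * α) σ *
        ((zq β α q + nu β α σ) / zq β α q)) * zq β α q := by field_simp
    _ ≤ 1 * zq β α q := mul_le_mul_of_nonneg_right h5 p2.le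
    _ = _ := one_mul _

theorem Rq_inv (q : ℕ) (hq : 1 < β / 2 * ((q : ℝ) + 1)) :
    Integrable (fun θ => (Rq θ q)⁻¹) (Pr β α) ∧
    ∫ θ, (Rq θ q)⁻¹ ∂(Pr β α) - 1 = (α + 2 / β) / (q + 1 - 2 / β) := by
  have hb := hβ.1
  obtain ⟨i1, e1⟩ := c_inv β α q hq
  have d1 : Dep ({((q, true), false)} : Set (Ix × Bool)) (fun θ => (cq θ q)⁻¹) :=
    (dep_cq (Set.mem_singleton _)).comp (φ := fun z => z⁻¹) (by fun_prop)
  have d2 : Dep ({((q + 1, false), false)} : Set (Ix × Bool)) (fun θ => bq θ (q + 1)) :=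
    dep_bq (Set.mem_singleton _)
  obtain ⟨i3, e3⟩ := ind_mul β α (disj6 q) d1 d2 i1 (bq_int β α (q + 1))
  have e : ∀ θ : Th, (Rq θ q)⁻¹ = (cq θ q)⁻¹ * bq θ (q + 1) := by
    intro θ; unfold Rq; rw [inv_div, div_eq_mul_inv, mul_comm]
  simp only [e]
  refine ⟨i3, ?_⟩
  rw [e3, e1, bq_mean]
  have hμ0 : 0 < (q : ℝ) + 1 - 2 / β := by
    by_contra hcon
    push Not at hcon
    have h1 : β / 2 * ((q : ℝ) + 1 - 2 / β) ≤ 0 :=
      mul_nonpos_of_nonneg_of_nonpos (by positivity) hcon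
    have e : β / 2 * ((q : ℝ) + 1 - 2 / β) = β / 2 * ((q : ℝ) + 1) - 1 := by field_simp
    linarith
  push_cast
  rw [div_mul_eq_mul_div, one_mul, div_sub_one hμ0.ne']
  congr 1
  ring

/-- for large levels -/
theorem large_lvl {q : ℕ} (hq : 4 / β ≤ (q : ℝ) + 1) :
    1 < β / 2 * ((q : ℝ) + 1) ∧ 0 < (q : ℝ) + 1 - 2 / β ∧
    1 / ((q : ℝ) + 1 - 2 / β) ≤ 2 * (1 + (α + 2 / β)) / zq β α q := by
  have hb := hβ.1
  have ha := hα.1
  have h1 : 2 ≤ β / 2 * ((q : ℝ) + 1) := by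
    have : β / 2 * (4 / β) ≤ β / 2 * ((q : ℝ) + 1) := mul_le_mul_of_nonneg_left hq (by positivity)
    have e : β / 2 * (4 / β) = 2 := by field_simp; norm_num
    linarith
  have h4 : 4 / β = 2 * (2 / β) := by ring
  have h2 : ((q : ℝ) + 1) / 2 ≤ (q : ℝ) + 1 - 2 / β := by linarith
  have h0 : 0 < ((q : ℝ) + 1) / 2 := by positivity
  refine ⟨by linarith, by linarith, ?_⟩
  have hz := zq_ge β α q
  rw [div_le_div_iff₀ (by linarith) (by linarith)]
  have h3 : zq β α q ≤ ((q : ℝ) + 1) * (1 + (α + 2 / β)) := by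
    unfold zq
    have : 0 ≤ (q : ℝ) := by positivity
    have h5 : 0 < 2 / β := by positivity
    nlinarith [mul_nonneg this (add_pos ha h5).le]
  have h6 : 0 < 1 + (α + 2 / β) := by positivity
  nlinarith

/-- one step of the left chain -/
theorem W_step {σ : ℝ} (h0 : 0 < σ) (h1 : σ ≤ 1) (h2 : σ < β / 2 * α) {x : ℝ} (hx : 0 < x)
    (k q : ℕ) (hq : 4 / β ≤ (q : ℝ) + 1) :
    ∫ θ, (Al (bq θ) (cq θ) x (k + 1) q + zq β α q) ^ σ ∂(Pr β α) ≤
      zq β α q / (zq β α q + nu β α σ) *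
        ∫ θ, (Al (bq θ) (cq θ) x k (q + 1) + zq β α (q + 1)) ^ σ ∂(Pr β α) +
      4 * (α + 2 / β) * (1 + (α + 2 / β)) * zq β α q ^ (σ - 1) := by
  have hb := hβ.1
  have ha := hα.1
  obtain ⟨hK, hμ0, hinv⟩ := large_lvl β α hq
  obtain ⟨i1, e1⟩ := Rq_mom β α h0 h1 h2 q
  obtain ⟨i2, e2⟩ := Rq_inv β α q hK
  set z := zq β α q with hz
  have hz1 : 1 ≤ z := zq_ge β α q
  have hz0 : 0 < z := by linarith
  set W : Th → ℝ := fun θ => Al (bq θ) (cq θ) x k (q + 1) + zq β α (q + 1) with hW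
  have hWd : Dep (Up (q + 1)) W := (dep_Al x k (q + 1)).add (dep_const _ _)
  have hW1 : ∀ θ, z + 1 ≤ W θ := by
    intro θ
    have := Al_ge (bq_nn θ) (cq_nn θ) hx k (q + 1)
    have e := zq_succ β α q
    simp only [hW]
    rw [e]
    linarith
  have hWint : Integrable W (Pr β α) := (Al_int β α hx k (q + 1)).add (integrable_const _)
  have iW : ∀ s : ℝ, s ≤ 1 → Integrable (fun θ => W θ ^ s) (Pr β α) := fun s hs =>
    rpow_int_of_ge_one β α hWd.meas (fun θ => by linarith [hW1 θ]) hWint hs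
  obtain ⟨i3, e3⟩ := ind_mul β α (disj5 q) ((dep_Rq q).rpow σ) (hWd.rpow σ) i1 (iW σ h1)
  have hRinv : Dep (Sp q) (fun θ => (Rq θ q)⁻¹ - 1) :=
    ((dep_Rq q).comp (φ := fun z => z⁻¹) (by fun_prop)).sub (dep_const _ _)
  have iRinv : Integrable (fun θ => (Rq θ q)⁻¹ - 1) (Pr β α) := i2.sub (integrable_const _)
  obtain ⟨i4, e4⟩ := ind_mul β α (disj5 q) hRinv (hWd.rpow (σ - 1)) iRinv (iW (σ - 1) (by linarith))
  have eR : ∫ θ, ((Rq θ q)⁻¹ - 1) ∂(Pr β α) = (α + 2 / β) / (q + 1 - 2 / β) := by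
    rw [integral_sub i2 (integrable_const _)]
    simpa using e2
  rw [eR] at e4
  have hpt : ∀ᵐ θ ∂(Pr β α), (Al (bq θ) (cq θ) x (k + 1) q + z) ^ σ ≤
      Rq θ q ^ σ * W θ ^ σ + σ * (z + 1) * (((Rq θ q)⁻¹ - 1) * W θ ^ (σ - 1)) := by
    filter_upwards [all_pos' β α] with θ hθ
    have hbp := (hθ (q + 1)).1
    have hcp := (hθ q).2.1
    have hA1 := Al_ge (bq_nn θ) (cq_nn θ) hx k (q + 1)
    have hRp : 0 < Rq θ q := div_pos hcp hbp
    have hWp : 0 < W θ := by linarith [hW1 θ]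
    set A := Al (bq θ) (cq θ) x k (q + 1) with hA
    have hstep : Al (bq θ) (cq θ) x (k + 1) q ≤ 1 + Rq θ q * A := by
      rw [Al_succ]
      have h3 : cq θ q * A / (bq θ (q + 1) + x * A) ≤ Rq θ q * A := by
        unfold Rq
        rw [div_mul_eq_mul_div]
        apply div_le_div_of_nonneg_left (by positivity) hbp
        nlinarith
      linarith
    have hWA : W θ = A + (z + 1) := by
      simp only [hW]; rw [zq_succ]
    have hle : Al (bq θ) (cq θ) x (k + 1) q + z ≤ Rq θ q * W θ + (z + 1) * (1 - Rq θ q) := by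
      rw [hWA]; nlinarith
    have hge : 0 ≤ Al (bq θ) (cq θ) x (k + 1) q + z := by
      have := Al_ge (bq_nn θ) (cq_nn θ) hx (k + 1) q
      linarith
    have hv : 0 < Rq θ q * W θ := by positivity
    have h5 : (Al (bq θ) (cq θ) x (k + 1) q + z) ^ σ ≤
        (Rq θ q * W θ + (z + 1) * (1 - Rq θ q)) ^ σ := rpow_le_rpow hge hle h0.le
    have h6 := tan_pow (u := (z + 1) * (1 - Rq θ q)) hv (hge.trans hle) h0.le h1
    refine h5.trans (h6.trans ?_)
    rw [mul_rpow hRp.le hWp.le, mul_rpow hRp.le hWp.le]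
    have h7 := ratio_ineq hRp h0.le h1
    have h8 : σ * ((z + 1) * (1 - Rq θ q)) * (Rq θ q ^ (σ - 1) * W θ ^ (σ - 1)) =
        σ * (z + 1) * (((1 - Rq θ q) * Rq θ q ^ (σ - 1)) * W θ ^ (σ - 1)) := by ring
    rw [h8]
    have h9 : ((1 - Rq θ q) * Rq θ q ^ (σ - 1)) * W θ ^ (σ - 1) ≤
        ((Rq θ q)⁻¹ - 1) * W θ ^ (σ - 1) := mul_le_mul_of_nonneg_right h7 (by positivity)
    have h10 : 0 ≤ σ * (z + 1) := by positivity
    have := mul_le_mul_of_nonneg_left h9 h10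
    linarith
  have hint0 : Integrable (fun θ => (Al (bq θ) (cq θ) x (k + 1) q + z) ^ σ) (Pr β α) := by
    refine rpow_int_of_ge_one β α (f := fun θ => Al (bq θ) (cq θ) x (k + 1) q + z)
      ((dep_Al x (k + 1) q).meas.add_const _) (fun θ => ?_)
      ((Al_int β α hx (k + 1) q).add (integrable_const _)) h1
    have := Al_ge (bq_nn θ) (cq_nn θ) hx (k + 1) q
    linarith
  have i5 : Integrable (fun θ => σ * (z + 1) * (((Rq θ q)⁻¹ - 1) * W θ ^ (σ - 1))) (Pr β α) :=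
    i4.const_mul _
  have hWm : ∫ θ, W θ ^ (σ - 1) ∂(Pr β α) ≤ (z + 1) ^ (σ - 1) := by
    calc ∫ θ, W θ ^ (σ - 1) ∂(Pr β α) ≤ ∫ θ, (z + 1) ^ (σ - 1) ∂(Pr β α) := by
          refine integral_mono (iW (σ - 1) (by linarith)) (integrable_const _) fun θ => ?_
          exact rpow_le_rpow_of_nonpos (by linarith) (hW1 θ) (by linarith)
      _ = _ := by simp
  have hWm0 : 0 ≤ ∫ θ, W θ ^ (σ - 1) ∂(Pr β α) := integral_nonneg fun θ =>
    rpow_nonneg (by linarith [hW1 θ]) _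
  have hWs0 : 0 ≤ ∫ θ, W θ ^ σ ∂(Pr β α) := integral_nonneg fun θ =>
    rpow_nonneg (by linarith [hW1 θ]) _
  calc ∫ θ, (Al (bq θ) (cq θ) x (k + 1) q + z) ^ σ ∂(Pr β α)
      ≤ ∫ θ, (Rq θ q ^ σ * W θ ^ σ + σ * (z + 1) * (((Rq θ q)⁻¹ - 1) * W θ ^ (σ - 1)))
          ∂(Pr β α) := integral_mono_ae hint0 (i3.add i5) hpt
    _ = (∫ θ, Rq θ q ^ σ ∂(Pr β α)) * (∫ θ, W θ ^ σ ∂(Pr β α)) +
          σ * (z + 1) * ((α + 2 / β) / (q + 1 - 2 / β) * ∫ θ, W θ ^ (σ - 1) ∂(Pr β α)) := by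
        rw [integral_add i3 i5, e3, integral_const_mul, e4]
    _ ≤ z / (z + nu β α σ) * (∫ θ, W θ ^ σ ∂(Pr β α)) +
          4 * (α + 2 / β) * (1 + (α + 2 / β)) * z ^ (σ - 1) := by
        refine add_le_add (mul_le_mul_of_nonneg_right e1 hWs0) ?_
        have hκ : 0 < α + 2 / β := by positivity
        have g1 : (α + 2 / β) / (q + 1 - 2 / β) ≤
            (α + 2 / β) * (2 * (1 + (α + 2 / β)) / z) := by
          rw [div_eq_mul_one_div]
          exact mul_le_mul_of_nonneg_left hinv hκ.le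
        have g2 : (z + 1) * (z + 1) ^ (σ - 1) = (z + 1) ^ σ := by
          rw [rpow_sub_one (by positivity)]; field_simp
        have g3 : (z + 1) ^ σ ≤ 2 * z ^ σ := by
          calc (z + 1) ^ σ ≤ (2 * z) ^ σ := rpow_le_rpow (by positivity) (by linarith) h0.le
            _ = 2 ^ σ * z ^ σ := mul_rpow (by norm_num) hz0.le
            _ ≤ 2 ^ (1 : ℝ) * z ^ σ := by
                gcongr
                norm_num
            _ = 2 * z ^ σ := by rw [rpow_one]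
        have g4 : z ^ (σ - 1) = z ^ σ / z := rpow_sub_one hz0.ne' σ
        have g5 : 0 ≤ (α + 2 / β) / ((q : ℝ) + 1 - 2 / β) := by positivity
        calc σ * (z + 1) * ((α + 2 / β) / (q + 1 - 2 / β) * ∫ θ, W θ ^ (σ - 1) ∂(Pr β α))
            ≤ σ * (z + 1) * ((α + 2 / β) * (2 * (1 + (α + 2 / β)) / z) * (z + 1) ^ (σ - 1)) := by
              gcongr
          _ = σ * ((α + 2 / β) * (2 * (1 + (α + 2 / β)) / z)) * ((z + 1) * (z + 1) ^ (σ - 1)) := by
              ring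
          _ ≤ 1 * ((α + 2 / β) * (2 * (1 + (α + 2 / β)) / z)) * (2 * z ^ σ) := by
              rw [g2]
              gcongr
          _ = 4 * (α + 2 / β) * (1 + (α + 2 / β)) * z ^ (σ - 1) := by
              rw [g4]; ring

/-- monotonicity for the low levels -/
theorem low_step {σ : ℝ} (h0 : 0 < σ) (h1 : σ ≤ 1) (h2 : σ < β / 2 * α) {x : ℝ} (hx : 0 < x)
    (k q : ℕ) :
    ∫ θ, Al (bq θ) (cq θ) x (k + 1) q ^ σ ∂(Pr β α) ≤
      1 + ∫ θ, Al (bq θ) (cq θ) x k (q + 1) ^ σ ∂(Pr β α) := by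
  have hb := hβ.1
  have ha := hα.1
  obtain ⟨i1, e1⟩ := Rq_mom β α h0 h1 h2 q
  have hn := nu_pos β α h0 h2
  have hz := zq_ge β α q
  have e1' : ∫ θ, Rq θ q ^ σ ∂(Pr β α) ≤ 1 := e1.trans (by
    rw [div_le_one (by linarith)]; linarith)
  have hAi : ∀ k q, Integrable (fun θ => Al (bq θ) (cq θ) x k q ^ σ) (Pr β α) := fun k q =>
    rpow_int_of_ge_one β α (dep_Al x k q).meas (fun θ => Al_ge (bq_nn θ) (cq_nn θ) hx k q)
      (Al_int β α hx k q) h1
  obtain ⟨i3, e3⟩ := ind_mul β α (disj5 q) ((dep_Rq q).rpow σ) ((dep_Al x k (q + 1)).rpow σ) i1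
    (hAi k (q + 1))
  have hpt : ∀ᵐ θ ∂(Pr β α), Al (bq θ) (cq θ) x (k + 1) q ^ σ ≤
      1 + Rq θ q ^ σ * Al (bq θ) (cq θ) x k (q + 1) ^ σ := by
    filter_upwards [all_pos' β α] with θ hθ
    have hbp := (hθ (q + 1)).1
    have hcp := (hθ q).2.1
    have hA1 := Al_ge (bq_nn θ) (cq_nn θ) hx k (q + 1)
    have hRp : 0 < Rq θ q := div_pos hcp hbp
    set A := Al (bq θ) (cq θ) x k (q + 1) with hA
    have hstep : Al (bq θ) (cq θ) x (k + 1) q ≤ 1 + Rq θ q * A := by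
      rw [Al_succ]
      have h3 : cq θ q * A / (bq θ (q + 1) + x * A) ≤ Rq θ q * A := by
        unfold Rq
        rw [div_mul_eq_mul_div]
        apply div_le_div_of_nonneg_left (by positivity) hbp
        nlinarith
      linarith
    have hge := Al_ge (bq_nn θ) (cq_nn θ) hx (k + 1) q
    calc Al (bq θ) (cq θ) x (k + 1) q ^ σ ≤ (1 + Rq θ q * A) ^ σ :=
          rpow_le_rpow (by linarith) hstep h0.le
      _ ≤ 1 ^ σ + (Rq θ q * A) ^ σ := sub_add zero_le_one (by positivity) h0.le h1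
      _ = _ := by rw [one_rpow, mul_rpow hRp.le (by linarith)]
  have hA0 : 0 ≤ ∫ θ, Al (bq θ) (cq θ) x k (q + 1) ^ σ ∂(Pr β α) := integral_nonneg fun θ => by
    have := Al_ge (bq_nn θ) (cq_nn θ) hx k (q + 1)
    positivity
  calc ∫ θ, Al (bq θ) (cq θ) x (k + 1) q ^ σ ∂(Pr β α)
      ≤ ∫ θ, (1 + Rq θ q ^ σ * Al (bq θ) (cq θ) x k (q + 1) ^ σ) ∂(Pr β α) :=
        integral_mono_ae (hAi (k + 1) q) ((integrable_const _).add i3) hpt
    _ = 1 + (∫ θ, Rq θ q ^ σ ∂(Pr β α)) * ∫ θ, Al (bq θ) (cq θ) x k (q + 1) ^ σ ∂(Pr β α) := by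
        rw [integral_add (integrable_const _) i3, e3]; simp
    _ ≤ _ := by
        have := mul_le_mul_of_nonneg_right e1' hA0
        linarith

/-- phase two -/
theorem L2 {σ ν' : ℝ} (h0 : 0 < σ) (h1 : σ ≤ 1) (h2 : σ < β / 2 * α) (hν0 : 0 < ν')
    (hν1 : ν' < nu β α σ) (hν2 : ν' ≤ σ) (C₀ : ℝ) (hC₀ : 0 ≤ C₀) :
    ∃ C : ℝ, 0 ≤ C ∧ ∃ q₁ : ℕ, ∀ x : ℝ, 0 < x → ∀ k Q : ℕ, q₁ ≤ Q →
      ∫ θ, Al (bq θ) (cq θ) x k Q ^ σ ∂(Pr β α) ≤ C₀ * zq β α Q ^ σ →
      ∀ q, q ≤ Q → ∫ θ, Al (bq θ) (cq θ) x (k + (Q - q)) q ^ σ ∂(Pr β α) ≤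
        C * (zq β α q ^ ν' * zq β α Q ^ (σ - ν')) := by
  have hb := hβ.1
  have ha := hα.1
  set κ : ℝ := α + 2 / β with hκ
  have hκ0 : 0 < κ := by positivity
  set C₁ : ℝ := 4 * κ * (1 + κ) with hC₁
  have hC₁0 : 0 < C₁ := by positivity
  set ν := nu β α σ with hν
  have hνp : 0 < ν := nu_pos β α h0 h2
  set C' : ℝ := max (C₀ + 1) (C₁ * (1 + ν) / (ν - ν')) with hC'
  have hC'1 : C₀ + 1 ≤ C' := le_max_left _ _
  have hC'2 : C₁ * (1 + ν) ≤ C' * (ν - ν') := by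
    have h3 : C₁ * (1 + ν) / (ν - ν') ≤ C' := le_max_right _ _
    rwa [div_le_iff₀ (by linarith)] at h3
  have hC'0 : 0 ≤ C' := by linarith
  set q₁ : ℕ := ⌈4 / β⌉₊ with hq₁
  refine ⟨q₁ + C' * zq β α q₁ ^ ν', by
    have := zq_ge β α q₁
    positivity, q₁, fun x hx k Q hQ hbase => ?_⟩
  have hZ := zq_ge β α Q
  have hZ0 : 0 < zq β α Q := by linarith
  -- the high levels
  have high : ∀ j q : ℕ, q + j = Q → q₁ ≤ q →
      ∫ θ, (Al (bq θ) (cq θ) x (k + j) q + zq β α q) ^ σ ∂(Pr β α) ≤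
        C' * zq β α q ^ ν' * zq β α Q ^ (σ - ν') := by
    intro j
    induction j with
    | zero =>
      intro q hqj _
      have hqQ : q = Q := by omega
      subst hqQ
      rw [add_zero]
      have hi : Integrable (fun θ => Al (bq θ) (cq θ) x k q ^ σ) (Pr β α) :=
        rpow_int_of_ge_one β α (dep_Al x k q).meas (fun θ => Al_ge (bq_nn θ) (cq_nn θ) hx k q)
          (Al_int β α hx k q) h1
      have hi0 : Integrable (fun θ => (Al (bq θ) (cq θ) x k q + zq β α q) ^ σ) (Pr β α) := by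
        refine rpow_int_of_ge_one β α (f := fun θ => Al (bq θ) (cq θ) x k q + zq β α q)
          ((dep_Al x k q).meas.add_const _) (fun θ => ?_)
          ((Al_int β α hx k q).add (integrable_const _)) h1
        have := Al_ge (bq_nn θ) (cq_nn θ) hx k q
        linarith
      have h5 : zq β α q ^ ν' * zq β α q ^ (σ - ν') = zq β α q ^ σ := by
        rw [← rpow_add hZ0]; congr 1; ring
      calc ∫ θ, (Al (bq θ) (cq θ) x k q + zq β α q) ^ σ ∂(Pr β α)
          ≤ ∫ θ, (Al (bq θ) (cq θ) x k q ^ σ + zq β α q ^ σ) ∂(Pr β α) := by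
            refine integral_mono hi0 (hi.add (integrable_const _)) fun θ => ?_
            have := Al_ge (bq_nn θ) (cq_nn θ) hx k q
            exact sub_add (by linarith) hZ0.le h0.le h1
        _ = ∫ θ, Al (bq θ) (cq θ) x k q ^ σ ∂(Pr β α) + zq β α q ^ σ := by
            rw [integral_add hi (integrable_const _)]; simp
        _ ≤ (C₀ + 1) * zq β α q ^ σ := by linarith
        _ ≤ C' * zq β α q ^ σ := by gcongr
        _ = _ := by rw [mul_assoc, h5]
    | succ j ih =>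
      intro q hqj hq
      have hq4 : 4 / β ≤ (q : ℝ) + 1 := by
        have h3 : (⌈4 / β⌉₊ : ℝ) ≤ q := by exact_mod_cast hq
        have := Nat.le_ceil (4 / β)
        linarith
      have h3 := W_step β α h0 h1 h2 hx (k + j) q hq4
      have h4 := ih (q + 1) (by omega) (by omega)
      rw [zq_succ] at h4
      have hzz := zq_ge β α q
      have h5 : 0 ≤ zq β α q / (zq β α q + nu β α σ) := by
        have := nu_pos β α h0 h2
        positivity
      have hzQ : zq β α q ≤ zq β α Q := zq_mono β α (by omega)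
      have h6 := rec_det (z := zq β α q) (Z := zq β α Q) (ν := ν) (ν' := ν') (σ := σ) (C := C')
        (C₁ := C₁) hzz hzQ hν0 hν1 hν2 (by linarith) hC'0 hC₁0.le hC'2
      have e : k + (j + 1) = k + j + 1 := by ring
      rw [e]
      rw [zq_succ] at h3
      have h7 := mul_le_mul_of_nonneg_left h4 h5
      exact h3.trans ((add_le_add_left h7 _).trans h6)
  -- all levels
  have low : ∀ j q : ℕ, q + j = q₁ →
      ∫ θ, Al (bq θ) (cq θ) x (k + (Q - q)) q ^ σ ∂(Pr β α) ≤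
        j + ∫ θ, Al (bq θ) (cq θ) x (k + (Q - q₁)) q₁ ^ σ ∂(Pr β α) := by
    intro j
    induction j with
    | zero =>
      intro q hqj
      have hqQ : q = q₁ := by omega
      subst hqQ
      simp
    | succ j ih =>
      intro q hqj
      have h3 := low_step β α h0 h1 h2 hx (k + (Q - (q + 1))) q
      have h4 := ih (q + 1) (by omega)
      have e : k + (Q - q) = k + (Q - (q + 1)) + 1 := by omega
      rw [e]
      push_cast
      linarith
  have drop : ∀ q, q ≤ Q → ∫ θ, Al (bq θ) (cq θ) x (k + (Q - q)) q ^ σ ∂(Pr β α) ≤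
      ∫ θ, (Al (bq θ) (cq θ) x (k + (Q - q)) q + zq β α q) ^ σ ∂(Pr β α) := by
    intro q hq
    have hzz := zq_ge β α q
    refine integral_mono (rpow_int_of_ge_one β α (dep_Al x _ q).meas
      (fun θ => Al_ge (bq_nn θ) (cq_nn θ) hx _ q) (Al_int β α hx _ q) h1)
      (rpow_int_of_ge_one β α (f := fun θ => Al (bq θ) (cq θ) x (k + (Q - q)) q + zq β α q)
          ((dep_Al x _ q).meas.add_const _) (fun θ => ?_)
          ((Al_int β α hx _ q).add (integrable_const _)) h1) fun θ => ?_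
    · have := Al_ge (bq_nn θ) (cq_nn θ) hx (k + (Q - q)) q
      linarith
    · have := Al_ge (bq_nn θ) (cq_nn θ) hx (k + (Q - q)) q
      exact rpow_le_rpow (by linarith) (by linarith) h0.le
  intro q hq
  have hzz := zq_ge β α q
  have hP1 : 1 ≤ zq β α q ^ ν' := one_le_rpow hzz hν0.le
  have hP2 : 1 ≤ zq β α Q ^ (σ - ν') := one_le_rpow hZ (by linarith)
  have hz1 : 1 ≤ zq β α q₁ ^ ν' := one_le_rpow (zq_ge β α q₁) hν0.le
  rcases le_or_gt q₁ q with h | h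
  · have h3 := high (Q - q) q (by omega) h
    have h4 := drop q hq
    have h5 : (0 : ℝ) ≤ q₁ * (zq β α q ^ ν' * zq β α Q ^ (σ - ν')) := by positivity
    have h6 : C' * (zq β α q ^ ν' * zq β α Q ^ (σ - ν')) ≤
        C' * zq β α q₁ ^ ν' * (zq β α q ^ ν' * zq β α Q ^ (σ - ν')) := by
      have : 0 ≤ zq β α q ^ ν' * zq β α Q ^ (σ - ν') := by positivity
      have h7 : C' ≤ C' * zq β α q₁ ^ ν' := le_mul_of_one_le_right hC'0 hz1
      exact mul_le_mul_of_nonneg_right h7 this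
    calc ∫ θ, Al (bq θ) (cq θ) x (k + (Q - q)) q ^ σ ∂(Pr β α)
        ≤ C' * (zq β α q ^ ν' * zq β α Q ^ (σ - ν')) := by
          refine h4.trans (h3.trans (le_of_eq ?_)); ring
      _ ≤ (q₁ + C' * zq β α q₁ ^ ν') * (zq β α q ^ ν' * zq β α Q ^ (σ - ν')) := by
          rw [add_mul]; linarith
  · have h3 := low (q₁ - q) q (by omega)
    have h4 := high (Q - q₁) q₁ (by omega) le_rfl
    have h5 := drop q₁ hQ
    have h6 : ((q₁ - q : ℕ) : ℝ) ≤ q₁ := by exact_mod_cast Nat.sub_le _ _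
    have h7 : ∫ θ, Al (bq θ) (cq θ) x (k + (Q - q)) q ^ σ ∂(Pr β α) ≤
        q₁ + C' * zq β α q₁ ^ ν' * zq β α Q ^ (σ - ν') := by linarith
    refine h7.trans ?_
    rw [add_mul]
    have h8 : (q₁ : ℝ) ≤ q₁ * (zq β α q ^ ν' * zq β α Q ^ (σ - ν')) := by
      have : 1 ≤ zq β α q ^ ν' * zq β α Q ^ (σ - ν') := one_le_mul_of_one_le_of_one_le hP1 hP2
      exact le_mul_of_one_le_right (by positivity) this
    have h9 : C' * zq β α q₁ ^ ν' * zq β α Q ^ (σ - ν') ≤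
        C' * zq β α q₁ ^ ν' * (zq β α q ^ ν' * zq β α Q ^ (σ - ν')) := by
      refine mul_le_mul_of_nonneg_left ?_ (by positivity)
      exact le_mul_of_one_le_left (by positivity) hP1
    linarith

end

end Pool.Agent.Y982.LR
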