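import Pool.Agent.Y982.LR.Chain2

/-!
# LR-Chain3: the scaled right chain, two samples of one weight
-/

set_option autoImplicit false
set_option linter.unusedSectionVars false

open scoped BigOperators ENNReal
open MeasureTheory ProbabilityTheory Real Set

namespace Pool.Agent.Y982.LR

theorem log_sq_le {ρ : ℝ} (hρ : 0 < ρ) : Real.log ρ ^ 2 ≤ ρ + ρ⁻¹ - 2 := by
  set t := Real.log ρ with ht
  have e1 : ρ = exp t := (Real.exp_log hρ).symm
  have e2 : ρ⁻¹ = exp (-t) := by rw [exp_neg, ← e1]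
  have key : ∀ u : ℝ, 0 ≤ u → u ^ 2 ≤ exp u + exp (-u) - 2 := by
    intro u hu
    have h1 : u / 2 ≤ sinh (u / 2) := self_le_sinh_iff.2 (by linarith)
    have h2 : (u / 2) ^ 2 ≤ sinh (u / 2) ^ 2 := pow_le_pow_left₀ (by linarith) h1 2
    have h3 : exp u + exp (-u) - 2 = 4 * sinh (u / 2) ^ 2 := by
      rw [sinh_eq]
      have h4 : exp u = exp (u / 2) * exp (u / 2) := by rw [← exp_add]; ring_nf
      have h5 : exp (-u) = exp (-(u / 2)) * exp (-(u / 2)) := by rw [← exp_add]; ring_nf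
      have h6 : exp (u / 2) * exp (-(u / 2)) = 1 := by rw [← exp_add]; simp
      rw [h4, h5]
      nlinarith
    rw [h3]; nlinarith
  rw [e2, e1]
  rcases le_total 0 t with h | h
  · exact key t h
  · have := key (-t) (by linarith)
    rw [neg_neg] at this
    nlinarith

theorem log_sq_le_rpow {ρ ε : ℝ} (hρ : 0 < ρ) (hε : 0 < ε) :
    Real.log ρ ^ 2 ≤ 4 / ε ^ 2 * (ρ ^ ε + ρ ^ (-ε)) := by
  have key : ∀ ρ : ℝ, 1 ≤ ρ → Real.log ρ ^ 2 ≤ 4 / ε ^ 2 * ρ ^ ε := by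
    intro ρ h1
    have h2 := Real.log_le_rpow_div (x := ρ) (by linarith) (ε := ε / 2) (by linarith)
    have h0 : 0 ≤ Real.log ρ := Real.log_nonneg h1
    have h3 := pow_le_pow_left₀ h0 h2 2
    refine h3.trans (le_of_eq ?_)
    rw [div_pow, ← rpow_natCast (ρ ^ (ε / 2)) 2, ← rpow_mul (by linarith)]
    have : ε / 2 * ((2 : ℕ) : ℝ) = ε := by push_cast; ring
    rw [this]
    field_simp
    norm_num
  rcases le_total 1 ρ with h | h
  · have h1 := key ρ h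
    have h2 : 0 ≤ 4 / ε ^ 2 * ρ ^ (-ε) := by positivity
    linarith [mul_add (4 / ε ^ 2) (ρ ^ ε) (ρ ^ (-ε))]
  · have h1 := key ρ⁻¹ ((one_le_inv₀ hρ).2 h)
    rw [Real.log_inv, neg_sq, inv_rpow hρ.le, ← rpow_neg hρ.le] at h1
    have h2 : 0 ≤ 4 / ε ^ 2 * ρ ^ ε := by positivity
    linarith [mul_add (4 / ε ^ 2) (ρ ^ ε) (ρ ^ (-ε))]

section

variable (β α : ℝ) [hβ : Fact (0 < β)] [hα : Fact (0 < α)]

/-- the scaled right chain -/
noncomputable def Yq (x : ℝ) (θ : Th) (q : ℕ) : ℝ := Ar (bq θ) (cq θ) x q / bq θ q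

def LoB (q : ℕ) : Set (Ix × Bool) := Lo q ∪ {((q, false), false)}

theorem dep_Yq (x : ℝ) (q : ℕ) : Dep (LoB q) (fun θ => Yq x θ q) :=
  ((dep_Ar x q).mono subset_union_left).div (dep_bq (Or.inr (Set.mem_singleton _)))

theorem disj7 (q : ℕ) : Disjoint (LoB q) (Sp q) := by
  rw [Set.disjoint_left]
  rintro j hj2 hj
  rcases hj with hj | hj
  · subst hj
    rcases hj2 with ⟨_, h⟩ | h
    · simp at h
    · simp at h
  · rw [Set.mem_singleton_iff] at hj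
    subst hj
    rcases hj2 with ⟨_, h⟩ | h
    · simp only at h
      omega
    · simp at h

theorem Yq_int {σ : ℝ} (h0 : 0 < σ) (h1 : σ ≤ 1) (h2 : σ < β / 2 * α) {x : ℝ} (hx : 0 < x)
    (q : ℕ) : Integrable (fun θ => Yq x θ q ^ σ) (Pr β α) := by
  have hb := hβ.1
  have ha := hα.1
  have i1 : Integrable (fun θ => Ar (bq θ) (cq θ) x q ^ σ) (Pr β α) :=
    rpow_int_of_ge_one β α (dep_Ar x q).meas (fun θ => Ar_ge (bq_nn θ) (cq_nn θ) hx q)
      (Ar_int β α hx q) h1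
  obtain ⟨i2, -⟩ := bq_mom β α q (s := -σ) (by
    have : 0 ≤ β / 2 * (q : ℝ) := by positivity
    nlinarith)
  have d2 : Dep ({((q, false), false)} : Set (Ix × Bool)) (fun θ => bq θ q ^ (-σ)) :=
    (dep_bq (Set.mem_singleton _)).rpow (-σ)
  obtain ⟨i3, -⟩ := ind_mul β α (disj3 q) ((dep_Ar x q).rpow σ) d2 i1 i2
  refine i3.congr (Filter.Eventually.of_forall fun θ => ?_)
  have := Ar_ge (bq_nn θ) (cq_nn θ) hx q
  beta_reduce
  unfold Yq
  rw [div_rpow (by linarith) (bq_nn θ q), rpow_neg (bq_nn θ q), div_eq_mul_inv]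

theorem Yq_pos {x : ℝ} (hx : 0 < x) {θ : Th} {q : ℕ} (h : 0 < bq θ q) : 0 < Yq x θ q := by
  have := Ar_ge (bq_nn θ) (cq_nn θ) hx q
  unfold Yq
  positivity

theorem Yq_nn {x : ℝ} (hx : 0 < x) (θ : Th) (q : ℕ) : 0 ≤ Yq x θ q := by
  have := Ar_ge (bq_nn θ) (cq_nn θ) hx q
  unfold Yq
  exact div_nonneg (by linarith) (bq_nn θ q)

theorem Yq_succ_le {x : ℝ} (hx : 0 < x) {θ : Th} (q : ℕ) (h : ∀ q, 0 < bq θ q) :
    Yq x θ (q + 1) ≤ Rq θ q * Yq x θ q + (bq θ (q + 1))⁻¹ := by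
  have h1 := h q
  have h2 := h (q + 1)
  have h3 := cq_nn θ q
  have h4 := Ar_ge (bq_nn θ) (cq_nn θ) hx q
  unfold Yq Rq
  rw [Ar_succ]
  set A := Ar (bq θ) (cq θ) x q
  have h5 : cq θ q * A / (bq θ q + x * A) ≤ cq θ q * A / bq θ q := by
    apply div_le_div_of_nonneg_left (by positivity) h1
    nlinarith
  rw [div_le_iff₀ h2]
  have e : (cq θ q / bq θ (q + 1) * (A / bq θ q) + (bq θ (q + 1))⁻¹) * bq θ (q + 1) =
      cq θ q * A / bq θ q + 1 := by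
    field_simp
  rw [e]
  linarith

theorem bneg_fin {σ : ℝ} (h2 : σ < β / 2 * α) (q : ℕ) : 0 < β / 2 * (q + α) + -σ := by
  have hb := hβ.1
  have : 0 ≤ β / 2 * (q : ℝ) := by positivity
  nlinarith

theorem Y_low {σ : ℝ} (h0 : 0 < σ) (h1 : σ ≤ 1) (h2 : σ < β / 2 * α) {x : ℝ} (hx : 0 < x)
    (q : ℕ) :
    ∫ θ, Yq x θ q ^ σ ∂(Pr β α) ≤
      ∑ j ∈ Finset.range (q + 1), gm (β / 2 * (j + α)) (β / 2) (-σ) := by
  have hb := hβ.1
  have ha := hα.1
  induction q with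
  | zero =>
    have e : ∀ θ : Th, Yq x θ 0 ^ σ = bq θ 0 ^ (-σ) := by
      intro θ
      unfold Yq
      rw [Ar_zero, div_rpow zero_le_one (bq_nn θ 0), one_rpow, rpow_neg (bq_nn θ 0), one_div]
    simp only [e]
    rw [(bq_mom β α 0 (s := -σ) (bneg_fin β α h2 0)).2]
    simp
  | succ q ih =>
    rw [Finset.sum_range_succ]
    obtain ⟨i1, e1⟩ := Rq_mom β α h0 h1 h2 q
    have hn := nu_pos β α h0 h2
    have hz := zq_ge β α q
    have e1' : ∫ θ, Rq θ q ^ σ ∂(Pr β α) ≤ 1 := e1.trans (by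
      rw [div_le_one (by linarith)]; linarith)
    obtain ⟨i3, e3⟩ := ind_mul β α (disj7 q) ((dep_Yq x q).rpow σ) ((dep_Rq q).rpow σ)
      (Yq_int β α h0 h1 h2 hx q) i1
    obtain ⟨i4, e4⟩ := bq_mom β α (q + 1) (s := -σ) (bneg_fin β α h2 (q + 1))
    have hpt : ∀ᵐ θ ∂(Pr β α), Yq x θ (q + 1) ^ σ ≤
        Yq x θ q ^ σ * Rq θ q ^ σ + bq θ (q + 1) ^ (-σ) := by
      filter_upwards [all_pos' β α] with θ hθ
      have hbp := (hθ (q + 1)).1
      have hcp := (hθ q).2.1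
      have hRp : 0 < Rq θ q := div_pos hcp hbp
      have hY := Yq_pos hx (hθ q).1
      have h5 := Yq_succ_le hx q fun q => (hθ q).1
      calc Yq x θ (q + 1) ^ σ ≤ (Rq θ q * Yq x θ q + (bq θ (q + 1))⁻¹) ^ σ :=
            rpow_le_rpow (Yq_nn hx θ _) h5 h0.le
        _ ≤ (Rq θ q * Yq x θ q) ^ σ + ((bq θ (q + 1))⁻¹) ^ σ :=
            sub_add (by positivity) (by positivity) h0.le h1
        _ = _ := by rw [mul_rpow hRp.le hY.le, inv_rpow hbp.le, ← rpow_neg hbp.le, mul_comm]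
    have hY0 : 0 ≤ ∫ θ, Yq x θ q ^ σ ∂(Pr β α) := integral_nonneg fun θ =>
      rpow_nonneg (Yq_nn hx θ q) _
    calc ∫ θ, Yq x θ (q + 1) ^ σ ∂(Pr β α)
        ≤ ∫ θ, (Yq x θ q ^ σ * Rq θ q ^ σ + bq θ (q + 1) ^ (-σ)) ∂(Pr β α) :=
          integral_mono_ae (Yq_int β α h0 h1 h2 hx (q + 1)) (i3.add i4) hpt
      _ = (∫ θ, Yq x θ q ^ σ ∂(Pr β α)) * (∫ θ, Rq θ q ^ σ ∂(Pr β α)) +
          gm (β / 2 * (((q + 1 : ℕ) : ℝ) + α)) (β / 2) (-σ) := by
          rw [integral_add i3 i4, e3, e4]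
      _ ≤ _ := by
          have := mul_le_mul_of_nonneg_left e1' hY0
          linarith

/-- one step of the scaled right chain -/
theorem Y_step {σ : ℝ} (h0 : 0 < σ) (h1 : σ ≤ 1) (h2 : σ < β / 2 * α) {x : ℝ} (hx : 0 < x)
    (q : ℕ) (hq : 4 / β ≤ (q : ℝ) + 1) :
    ∫ θ, (Yq x θ (q + 1) + 1) ^ σ ∂(Pr β α) ≤
      zq β α q / (zq β α q + nu β α σ) * ∫ θ, (Yq x θ q + 1) ^ σ ∂(Pr β α) +
      (2 * (α + 2 / β) + 4) * (1 + (α + 2 / β)) / zq β α q := by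
  have hb := hβ.1
  have ha := hα.1
  obtain ⟨hK, hμ0, hinv⟩ := large_lvl β α hq
  obtain ⟨i1, e1⟩ := Rq_mom β α h0 h1 h2 q
  obtain ⟨i2, e2⟩ := Rq_inv β α q hK
  obtain ⟨i6, e6⟩ := c_inv β α q hK
  obtain ⟨i7, e7⟩ := b_inv β α (q + 1) (by
    push_cast
    have : 0 < β / 2 * α := by positivity
    nlinarith)
  set z := zq β α q with hz
  have hz1 : 1 ≤ z := zq_ge β α q
  have hz0 : 0 < z := by linarith
  set W : Th → ℝ := fun θ => Yq x θ q + 1 with hW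
  have hWd : Dep (LoB q) W := (dep_Yq x q).add (dep_const _ _)
  have hW1 : ∀ θ, 1 ≤ W θ := fun θ => by
    have := Yq_nn hx θ q
    simp only [hW]; linarith
  have iY : ∀ q, Integrable (fun θ => (Yq x θ q + 1) ^ σ) (Pr β α) := by
    intro q
    refine Integrable.mono' ((Yq_int β α h0 h1 h2 hx q).add (integrable_const (1 : ℝ)))
      (((dep_Yq x q).meas.add_const 1).pow_const σ).aestronglyMeasurable
      (Filter.Eventually.of_forall fun θ => ?_)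
    have h3 := Yq_nn hx θ q
    rw [Real.norm_eq_abs, abs_of_nonneg (by positivity)]
    have := sub_add h3 zero_le_one h0.le h1
    rw [one_rpow] at this
    exact this
  have iW : Integrable (fun θ => W θ ^ σ) (Pr β α) := iY q
  have iWm : Integrable (fun θ => W θ ^ (σ - 1)) (Pr β α) := by
    refine int_bd (hWd.meas.pow_const (σ - 1)) (C := 1) fun θ => ?_
    rw [abs_of_nonneg (rpow_nonneg (by linarith [hW1 θ]) _)]
    exact rpow_le_one_of_one_le_of_nonpos (hW1 θ) (by linarith)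
  obtain ⟨i3, e3⟩ := ind_mul β α (disj7 q) (hWd.rpow σ) ((dep_Rq q).rpow σ) iW i1
  have hRinv : Dep (Sp q) (fun θ => (Rq θ q)⁻¹ - 1) :=
    ((dep_Rq q).comp (φ := fun z => z⁻¹) (by fun_prop)).sub (dep_const _ _)
  have iRinv : Integrable (fun θ => (Rq θ q)⁻¹ - 1) (Pr β α) := i2.sub (integrable_const _)
  obtain ⟨i4, e4⟩ := ind_mul β α (disj7 q) (hWd.rpow (σ - 1)) hRinv iWm iRinv
  have eR : ∫ θ, ((Rq θ q)⁻¹ - 1) ∂(Pr β α) = (α + 2 / β) / (q + 1 - 2 / β) := by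
    rw [integral_sub i2 (integrable_const _)]
    simpa using e2
  rw [eR] at e4
  have hpt : ∀ᵐ θ ∂(Pr β α), (Yq x θ (q + 1) + 1) ^ σ ≤
      W θ ^ σ * Rq θ q ^ σ + (σ * (W θ ^ (σ - 1) * ((Rq θ q)⁻¹ - 1)) +
        σ * ((bq θ (q + 1))⁻¹ + (cq θ q)⁻¹)) := by
    filter_upwards [all_pos' β α] with θ hθ
    have hbp := (hθ (q + 1)).1
    have hcp := (hθ q).2.1
    have hRp : 0 < Rq θ q := div_pos hcp hbp
    have hWp : 0 < W θ := by linarith [hW1 θ]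
    have hY0 := Yq_nn hx θ (q + 1)
    have hstep := Yq_succ_le hx q fun q => (hθ q).1
    have hWA : W θ = Yq x θ q + 1 := rfl
    set u := (1 - Rq θ q) + (bq θ (q + 1))⁻¹ with hu
    have hle : Yq x θ (q + 1) + 1 ≤ Rq θ q * W θ + u := by
      rw [hWA, hu]; nlinarith
    have hge : 0 ≤ Yq x θ (q + 1) + 1 := by linarith
    have hv : 0 < Rq θ q * W θ := by positivity
    have h5 : (Yq x θ (q + 1) + 1) ^ σ ≤ (Rq θ q * W θ + u) ^ σ := rpow_le_rpow hge hle h0.le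
    have h6 := tan_pow (u := u) hv (hge.trans hle) h0.le h1
    refine h5.trans (h6.trans ?_)
    rw [mul_rpow hRp.le hWp.le, mul_rpow hRp.le hWp.le]
    have h7 := ratio_ineq hRp h0.le h1
    have h7' := ratio_ineq2 hRp h0.le h1
    have hWs : W θ ^ (σ - 1) ≤ 1 := rpow_le_one_of_one_le_of_nonpos (hW1 θ) (by linarith)
    have hWs0 : 0 ≤ W θ ^ (σ - 1) := rpow_nonneg hWp.le _
    have h8 : σ * u * (Rq θ q ^ (σ - 1) * W θ ^ (σ - 1)) =
        σ * (W θ ^ (σ - 1) * ((1 - Rq θ q) * Rq θ q ^ (σ - 1))) +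
        σ * (W θ ^ (σ - 1) * ((bq θ (q + 1))⁻¹ * Rq θ q ^ (σ - 1))) := by rw [hu]; ring
    rw [h8]
    have h9 : W θ ^ (σ - 1) * ((1 - Rq θ q) * Rq θ q ^ (σ - 1)) ≤
        W θ ^ (σ - 1) * ((Rq θ q)⁻¹ - 1) := mul_le_mul_of_nonneg_left h7 hWs0
    have h10 : (bq θ (q + 1))⁻¹ * Rq θ q ^ (σ - 1) ≤ (bq θ (q + 1))⁻¹ + (cq θ q)⁻¹ := by
      have h11 : (bq θ (q + 1))⁻¹ * (1 + (Rq θ q)⁻¹) = (bq θ (q + 1))⁻¹ + (cq θ q)⁻¹ := by
        unfold Rq; field_simp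
      rw [← h11]
      exact mul_le_mul_of_nonneg_left h7' (by positivity)
    have h12 : W θ ^ (σ - 1) * ((bq θ (q + 1))⁻¹ * Rq θ q ^ (σ - 1)) ≤
        (bq θ (q + 1))⁻¹ + (cq θ q)⁻¹ := by
      have h13 : 0 ≤ (bq θ (q + 1))⁻¹ * Rq θ q ^ (σ - 1) := by positivity
      calc W θ ^ (σ - 1) * ((bq θ (q + 1))⁻¹ * Rq θ q ^ (σ - 1))
          ≤ 1 * ((bq θ (q + 1))⁻¹ * Rq θ q ^ (σ - 1)) := mul_le_mul_of_nonneg_right hWs h13
        _ ≤ _ := by rw [one_mul]; exact h10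
    have h14 := mul_le_mul_of_nonneg_left h9 h0.le
    have h15 := mul_le_mul_of_nonneg_left h12 h0.le
    linarith [mul_comm (Rq θ q ^ σ) (W θ ^ σ)]
  have i5 : Integrable (fun θ => σ * (W θ ^ (σ - 1) * ((Rq θ q)⁻¹ - 1))) (Pr β α) :=
    i4.const_mul _
  have i8 : Integrable (fun θ => (bq θ (q + 1))⁻¹ + (cq θ q)⁻¹) (Pr β α) := i7.add i6
  have i9 : Integrable (fun θ => σ * ((bq θ (q + 1))⁻¹ + (cq θ q)⁻¹)) (Pr β α) := i8.const_mul _
  have hWm : ∫ θ, W θ ^ (σ - 1) ∂(Pr β α) ≤ 1 := by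
    calc ∫ θ, W θ ^ (σ - 1) ∂(Pr β α) ≤ ∫ θ, (1 : ℝ) ∂(Pr β α) := by
          refine integral_mono iWm (integrable_const _) fun θ => ?_
          exact rpow_le_one_of_one_le_of_nonpos (hW1 θ) (by linarith)
      _ = _ := by simp
  have hWm0 : 0 ≤ ∫ θ, W θ ^ (σ - 1) ∂(Pr β α) := integral_nonneg fun θ =>
    rpow_nonneg (by linarith [hW1 θ]) _
  have hWs0 : 0 ≤ ∫ θ, W θ ^ σ ∂(Pr β α) := integral_nonneg fun θ =>
    rpow_nonneg (by linarith [hW1 θ]) _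
  have hκ : 0 < α + 2 / β := by positivity
  calc ∫ θ, (Yq x θ (q + 1) + 1) ^ σ ∂(Pr β α)
      ≤ ∫ θ, (W θ ^ σ * Rq θ q ^ σ + (σ * (W θ ^ (σ - 1) * ((Rq θ q)⁻¹ - 1)) +
        σ * ((bq θ (q + 1))⁻¹ + (cq θ q)⁻¹))) ∂(Pr β α) :=
          integral_mono_ae (iY (q + 1)) (i3.add (i5.add i9)) hpt
    _ = (∫ θ, W θ ^ σ ∂(Pr β α)) * (∫ θ, Rq θ q ^ σ ∂(Pr β α)) +
          (σ * ((∫ θ, W θ ^ (σ - 1) ∂(Pr β α)) * ((α + 2 / β) / (q + 1 - 2 / β))) +
          σ * (1 / (((q + 1 : ℕ) : ℝ) + α - 2 / β) + 1 / (q + 1 - 2 / β))) := by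
        have e10 : ∫ θ, (σ * (W θ ^ (σ - 1) * ((Rq θ q)⁻¹ - 1)) +
            σ * ((bq θ (q + 1))⁻¹ + (cq θ q)⁻¹)) ∂(Pr β α) =
            σ * ((∫ θ, W θ ^ (σ - 1) ∂(Pr β α)) * ((α + 2 / β) / (q + 1 - 2 / β))) +
          σ * (1 / (((q + 1 : ℕ) : ℝ) + α - 2 / β) + 1 / (q + 1 - 2 / β)) := by
          rw [integral_add i5 i9, integral_const_mul, integral_const_mul, e4,
            integral_add i7 i6, e6, e7]
        have i10 : Integrable (fun θ => σ * (W θ ^ (σ - 1) * ((Rq θ q)⁻¹ - 1)) +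
            σ * ((bq θ (q + 1))⁻¹ + (cq θ q)⁻¹)) (Pr β α) := i5.add i9
        rw [integral_add i3 i10, e3, e10]
    _ ≤ z / (z + nu β α σ) * (∫ θ, W θ ^ σ ∂(Pr β α)) +
          (2 * (α + 2 / β) + 4) * (1 + (α + 2 / β)) / z := by
        refine add_le_add ?_ ?_
        · rw [mul_comm]
          exact mul_le_mul_of_nonneg_right e1 hWs0
        · have g1 : (α + 2 / β) / (q + 1 - 2 / β) ≤
              (α + 2 / β) * (2 * (1 + (α + 2 / β)) / z) := by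
            rw [div_eq_mul_one_div]
            exact mul_le_mul_of_nonneg_left hinv hκ.le
          have g2 : 1 / (((q + 1 : ℕ) : ℝ) + α - 2 / β) ≤ 1 / (q + 1 - 2 / β) := by
            apply one_div_le_one_div_of_le hμ0
            push_cast; linarith
          have g5 : 0 ≤ (α + 2 / β) / ((q : ℝ) + 1 - 2 / β) := by positivity
          have g6 : (∫ θ, W θ ^ (σ - 1) ∂(Pr β α)) * ((α + 2 / β) / (q + 1 - 2 / β)) ≤
              (α + 2 / β) * (2 * (1 + (α + 2 / β)) / z) := by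
            calc (∫ θ, W θ ^ (σ - 1) ∂(Pr β α)) * ((α + 2 / β) / (q + 1 - 2 / β))
                ≤ 1 * ((α + 2 / β) / (q + 1 - 2 / β)) := mul_le_mul_of_nonneg_right hWm g5
              _ ≤ _ := by rw [one_mul]; exact g1
          have g7 : 0 ≤ (∫ θ, W θ ^ (σ - 1) ∂(Pr β α)) * ((α + 2 / β) / (q + 1 - 2 / β)) := by
            positivity
          have g8 : 0 < (q : ℝ) + 1 + α - 2 / β := by linarith
          have g9 : 0 ≤ 1 / (((q + 1 : ℕ) : ℝ) + α - 2 / β) + 1 / (q + 1 - 2 / β) := by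
            push_cast
            positivity
          calc σ * ((∫ θ, W θ ^ (σ - 1) ∂(Pr β α)) * ((α + 2 / β) / (q + 1 - 2 / β))) +
                σ * (1 / (((q + 1 : ℕ) : ℝ) + α - 2 / β) + 1 / (q + 1 - 2 / β))
              ≤ 1 * ((∫ θ, W θ ^ (σ - 1) ∂(Pr β α)) * ((α + 2 / β) / (q + 1 - 2 / β))) +
                1 * (1 / (((q + 1 : ℕ) : ℝ) + α - 2 / β) + 1 / (q + 1 - 2 / β)) := by
                gcongr
            _ ≤ (α + 2 / β) * (2 * (1 + (α + 2 / β)) / z) +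
                (2 * (1 + (α + 2 / β)) / z + 2 * (1 + (α + 2 / β)) / z) := by
                rw [one_mul, one_mul]
                linarith
            _ = _ := by ring

/-- moments of the scaled right chain -/
theorem Y_bound {σ : ℝ} (h0 : 0 < σ) (h1 : σ ≤ 1) (h2 : σ < β / 2 * α) :
    ∃ C : ℝ, 0 ≤ C ∧ ∀ x : ℝ, 0 < x → ∀ q : ℕ, ∫ θ, Yq x θ q ^ σ ∂(Pr β α) ≤ C := by
  have hb := hβ.1
  have ha := hα.1
  set q₁ : ℕ := ⌈4 / β⌉₊ with hq₁
  set C₂ : ℝ := (2 * (α + 2 / β) + 4) * (1 + (α + 2 / β)) with hC₂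
  have hC₂0 : 0 < C₂ := by positivity
  set ν := nu β α σ with hν
  have hνp : 0 < ν := nu_pos β α h0 h2
  set S : ℕ → ℝ := fun q => ∑ j ∈ Finset.range (q + 1), gm (β / 2 * (j + α)) (β / 2) (-σ) with hS
  have hgm : ∀ j : ℕ, 0 < gm (β / 2 * (j + α)) (β / 2) (-σ) := fun j =>
    gm_pos (by positivity) (by positivity) (bneg_fin β α h2 j)
  have hSm : ∀ p q : ℕ, p ≤ q → S p ≤ S q := fun p q h =>
    Finset.sum_le_sum_of_subset_of_nonneg (Finset.range_mono (by omega)) fun j _ _ => (hgm j).le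
  have hS0 : 0 ≤ S q₁ := Finset.sum_nonneg fun j _ => (hgm j).le
  set M : ℝ := max (S q₁ + 1) (C₂ * (1 + ν) / ν) with hM
  have hM1 : S q₁ + 1 ≤ M := le_max_left _ _
  have hM2 : C₂ * (1 + ν) ≤ M * ν := by
    have h3 : C₂ * (1 + ν) / ν ≤ M := le_max_right _ _
    rwa [div_le_iff₀ hνp] at h3
  refine ⟨M, by linarith, fun x hx q => ?_⟩
  have iY : ∀ q, Integrable (fun θ => (Yq x θ q + 1) ^ σ) (Pr β α) := by
    intro q
    refine Integrable.mono' ((Yq_int β α h0 h1 h2 hx q).add (integrable_const (1 : ℝ)))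
      (((dep_Yq x q).meas.add_const 1).pow_const σ).aestronglyMeasurable
      (Filter.Eventually.of_forall fun θ => ?_)
    have h3 := Yq_nn hx θ q
    rw [Real.norm_eq_abs, abs_of_nonneg (by positivity)]
    have := sub_add h3 zero_le_one h0.le h1
    rw [one_rpow] at this
    exact this
  have high : ∀ j : ℕ, ∫ θ, (Yq x θ (q₁ + j) + 1) ^ σ ∂(Pr β α) ≤ M := by
    intro j
    induction j with
    | zero =>
      calc ∫ θ, (Yq x θ q₁ + 1) ^ σ ∂(Pr β α) ≤ ∫ θ, (Yq x θ q₁ ^ σ + 1) ∂(Pr β α) := by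
            refine integral_mono (iY q₁) ((Yq_int β α h0 h1 h2 hx q₁).add (integrable_const _))
              fun θ => ?_
            have := sub_add (Yq_nn hx θ q₁) zero_le_one h0.le h1
            rw [one_rpow] at this
            exact this
        _ = ∫ θ, Yq x θ q₁ ^ σ ∂(Pr β α) + 1 := by
            rw [integral_add (Yq_int β α h0 h1 h2 hx q₁) (integrable_const _)]; simp
        _ ≤ S q₁ + 1 := by
            have := Y_low β α h0 h1 h2 hx q₁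
            linarith
        _ ≤ M := hM1
    | succ j ih =>
      have hq4 : 4 / β ≤ ((q₁ + j : ℕ) : ℝ) + 1 := by
        have := Nat.le_ceil (4 / β)
        push_cast
        have h3 : (0 : ℝ) ≤ j := by positivity
        linarith
      have h3 := Y_step β α h0 h1 h2 hx (q₁ + j) hq4
      have hz := zq_ge β α (q₁ + j)
      set z := zq β α (q₁ + j)
      have hp : 0 < z + ν := by linarith
      have h4 : z / (z + ν) * ∫ θ, (Yq x θ (q₁ + j) + 1) ^ σ ∂(Pr β α) ≤ z / (z + ν) * M :=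
        mul_le_mul_of_nonneg_left ih (by positivity)
      have h5 : z / (z + ν) * M + C₂ / z ≤ M := by
        rw [← sub_nonneg]
        have e : M - (z / (z + ν) * M + C₂ / z) = (M * ν * z - C₂ * (z + ν)) / ((z + ν) * z) := by
          field_simp; ring
        rw [e]
        apply div_nonneg _ (by positivity)
        have h6 : C₂ * (z + ν) ≤ C₂ * (1 + ν) * z := by
          have : z + ν ≤ (1 + ν) * z := by nlinarith
          nlinarith
        nlinarith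
      rw [← add_assoc]
      linarith
  rcases le_or_gt q₁ q with h | h
  · have h3 := high (q - q₁)
    rw [show q₁ + (q - q₁) = q by omega] at h3
    refine le_trans (integral_mono (Yq_int β α h0 h1 h2 hx q) (iY q) fun θ => ?_) h3
    exact rpow_le_rpow (Yq_nn hx θ q) (by linarith) h0.le
  · have h3 := Y_low β α h0 h1 h2 hx q
    have h4 := hSm q q₁ h.le
    have h5 : ∫ θ, Yq x θ q ^ σ ∂(Pr β α) ≤ S q := h3
    linarith

theorem cpow_le {σ : ℝ} (h0 : 0 < σ) (h1 : σ ≤ 1) (q : ℕ) :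
    Integrable (fun θ => cq θ q ^ σ) (Pr β α) ∧
    ∫ θ, cq θ q ^ σ ∂(Pr β α) ≤ ((q : ℝ) + 1) ^ σ := by
  have hb := hβ.1
  obtain ⟨i1, e1⟩ := cq_mom β α q (s := σ) (by positivity)
  refine ⟨i1, ?_⟩
  rw [e1]
  refine (gm_le_pow (by positivity) (by positivity) h0.le h1).trans (le_of_eq ?_)
  congr 1
  field_simp

/-- moments of the right chain -/
theorem Ar_bound {σ : ℝ} (h0 : 0 < σ) (h1 : σ ≤ 1) (h2 : σ < β / 2 * α) :
    ∃ C : ℝ, 0 ≤ C ∧ ∀ x : ℝ, 0 < x → ∀ q : ℕ,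
      ∫ θ, Ar (bq θ) (cq θ) x q ^ σ ∂(Pr β α) ≤ C * ((q : ℝ) + 1) ^ σ := by
  have hb := hβ.1
  have ha := hα.1
  obtain ⟨C, hC, hY⟩ := Y_bound β α h0 h1 h2
  refine ⟨1 + C, by linarith, fun x hx q => ?_⟩
  cases q with
  | zero => simp; linarith
  | succ q =>
    have iA : Integrable (fun θ => Ar (bq θ) (cq θ) x (q + 1) ^ σ) (Pr β α) :=
      rpow_int_of_ge_one β α (dep_Ar x _).meas (fun θ => Ar_ge (bq_nn θ) (cq_nn θ) hx _)
        (Ar_int β α hx _) h1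
    obtain ⟨i1, e1⟩ := cpow_le β α h0 h1 q
    obtain ⟨i3, e3⟩ := ind_mul β α (disj4 q) ((dep_Yq x q).rpow σ)
      ((dep_cq (Set.mem_singleton _)).rpow σ) (Yq_int β α h0 h1 h2 hx q) i1
    have hpt : ∀ᵐ θ ∂(Pr β α), Ar (bq θ) (cq θ) x (q + 1) ^ σ ≤
        1 + Yq x θ q ^ σ * cq θ q ^ σ := by
      filter_upwards [all_pos' β α] with θ hθ
      have hbp := (hθ q).1
      have hcp := (hθ q).2.1
      have hY := Yq_pos hx (hθ q).1
      have h4 := Ar_ge (bq_nn θ) (cq_nn θ) hx q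
      have h5 : Ar (bq θ) (cq θ) x (q + 1) ≤ 1 + Yq x θ q * cq θ q := by
        rw [Ar_succ]
        unfold Yq
        set A := Ar (bq θ) (cq θ) x q
        have h6 : cq θ q * A / (bq θ q + x * A) ≤ cq θ q * A / bq θ q := by
          apply div_le_div_of_nonneg_left (by positivity) hbp
          nlinarith
        have h7 : A / bq θ q * cq θ q = cq θ q * A / bq θ q := by ring
        linarith
      have h8 := Ar_ge (bq_nn θ) (cq_nn θ) hx (q + 1)
      calc Ar (bq θ) (cq θ) x (q + 1) ^ σ ≤ (1 + Yq x θ q * cq θ q) ^ σ :=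
            rpow_le_rpow (by linarith) h5 h0.le
        _ ≤ 1 ^ σ + (Yq x θ q * cq θ q) ^ σ := sub_add zero_le_one (by positivity) h0.le h1
        _ = _ := by rw [one_rpow, mul_rpow hY.le hcp.le]
    have hY0 : 0 ≤ ∫ θ, Yq x θ q ^ σ ∂(Pr β α) := integral_nonneg fun θ =>
      rpow_nonneg (Yq_nn hx θ q) _
    calc ∫ θ, Ar (bq θ) (cq θ) x (q + 1) ^ σ ∂(Pr β α)
        ≤ ∫ θ, (1 + Yq x θ q ^ σ * cq θ q ^ σ) ∂(Pr β α) :=
          integral_mono_ae iA ((integrable_const _).add i3) hpt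
      _ = 1 + (∫ θ, Yq x θ q ^ σ ∂(Pr β α)) * ∫ θ, cq θ q ^ σ ∂(Pr β α) := by
          rw [integral_add (integrable_const _) i3, e3]; simp
      _ ≤ 1 + C * ((q : ℝ) + 1) ^ σ := by
          have h9 := hY x hx q
          have : (∫ θ, Yq x θ q ^ σ ∂(Pr β α)) * ∫ θ, cq θ q ^ σ ∂(Pr β α) ≤
              C * ((q : ℝ) + 1) ^ σ :=
            mul_le_mul h9 e1 (integral_nonneg fun θ => rpow_nonneg (cq_nn θ q) _) hC
          linarith
      _ ≤ (1 + C) * ((((q + 1 : ℕ) : ℝ)) + 1) ^ σ := by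
          have h10 : 1 ≤ (((q + 1 : ℕ) : ℝ) + 1) ^ σ :=
            one_le_rpow (by push_cast; linarith [show (0 : ℝ) ≤ q by positivity]) h0.le
          have h11 : ((q : ℝ) + 1) ^ σ ≤ (((q + 1 : ℕ) : ℝ) + 1) ^ σ :=
            rpow_le_rpow (by positivity) (by push_cast; linarith) h0.le
          nlinarith

/-- a uniform bound from finitely many exceptions -/
theorem unif_bound {f g : ℕ → ℝ} (hg : ∀ q, 0 < g q) {C₀ : ℝ} {q₀ : ℕ}
    (h : ∀ q, q₀ ≤ q → f q ≤ C₀ * g q) : ∃ C : ℝ, 0 ≤ C ∧ ∀ q, f q ≤ C * g q := by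
  refine ⟨|C₀| + ∑ j ∈ Finset.range q₀, |f j| / g j, by
    have : 0 ≤ ∑ j ∈ Finset.range q₀, |f j| / g j :=
      Finset.sum_nonneg fun j _ => div_nonneg (abs_nonneg _) (hg j).le
    positivity, fun q => ?_⟩
  have hs : 0 ≤ ∑ j ∈ Finset.range q₀, |f j| / g j :=
      Finset.sum_nonneg fun j _ => div_nonneg (abs_nonneg _) (hg j).le
  rcases le_or_gt q₀ q with hq | hq
  · refine (h q hq).trans ?_
    refine mul_le_mul_of_nonneg_right ?_ (hg q).le
    linarith [le_abs_self C₀]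
  · have h1 : |f q| / g q ≤ ∑ j ∈ Finset.range q₀, |f j| / g j :=
      Finset.single_le_sum (f := fun j => |f j| / g j)
        (fun j _ => div_nonneg (abs_nonneg _) (hg j).le) (Finset.mem_range.2 hq)
    calc f q ≤ |f q| := le_abs_self _
      _ = |f q| / g q * g q := by
          have := (hg q).ne'
          field_simp
      _ ≤ _ := by
          refine mul_le_mul_of_nonneg_right ?_ (hg q).le
          linarith [abs_nonneg C₀]

theorem bneg_bound {σ : ℝ} (h0 : 0 < σ) (h1 : σ ≤ 1) (h2 : σ < β / 2 * α) :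
    ∃ C : ℝ, 0 ≤ C ∧ ∀ q : ℕ, ∫ θ, bq θ q ^ (-σ) ∂(Pr β α) ≤ C * ((q : ℝ) + 1) ^ (-σ) := by
  have hb := hβ.1
  have ha := hα.1
  refine unif_bound (C₀ := 2) (q₀ := ⌈2 + 4 / β⌉₊) (fun q => by positivity) fun q hq => ?_
  have hq1 : 2 + 4 / β ≤ q := by
    have h3 : (⌈2 + 4 / β⌉₊ : ℝ) ≤ q := by exact_mod_cast hq
    exact (Nat.le_ceil _).trans h3
  have h4 : 4 / β = 2 * (2 / β) := by ring
  have h5 : ((q : ℝ) + 1) / 2 ≤ (q : ℝ) + α - 2 / β := by linarith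
  have hp : 0 < ((q : ℝ) + 1) / 2 := by positivity
  have h6 : β / 2 * ((q : ℝ) + α) - 1 = β / 2 * ((q : ℝ) + α - 2 / β) := by field_simp
  have h7 : 0 < β / 2 * ((q : ℝ) + α - 2 / β) := by
    have : 0 < (q : ℝ) + α - 2 / β := by linarith
    positivity
  rw [(bq_mom β α q (s := -σ) (bneg_fin β α h2 q)).2]
  refine (gm_neg_le (by linarith) (by positivity) h0.le h1).trans ?_
  rw [h6]
  have h8 : β / 2 / (β / 2 * ((q : ℝ) + α - 2 / β)) ≤ 2 / ((q : ℝ) + 1) := by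
    rw [div_le_div_iff₀ h7 (by positivity)]
    have : 0 < β / 2 := by positivity
    nlinarith
  calc (β / 2 / (β / 2 * ((q : ℝ) + α - 2 / β))) ^ σ ≤ (2 / ((q : ℝ) + 1)) ^ σ :=
        rpow_le_rpow (by positivity) h8 h0.le
    _ = 2 ^ σ * ((q : ℝ) + 1) ^ (-σ) := by
        rw [div_rpow (by norm_num) (by positivity), rpow_neg (by positivity), div_eq_mul_inv]
    _ ≤ 2 ^ (1 : ℝ) * ((q : ℝ) + 1) ^ (-σ) := by
        gcongr
        norm_num
    _ = _ := by rw [rpow_one]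

end

end Pool.Agent.Y982.LR
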