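import Mathlib

/-!
# LR-ES: the inequality of Efron and Stein on an infinite product with different marginals
-/

set_option autoImplicit false
set_option linter.unusedSectionVars false
set_option linter.unusedVariables false
set_option warn.classDefReducibility false

open scoped BigOperators
open MeasureTheory ProbabilityTheory

namespace Pool.Agent.Y982.LR

section sig

variable {ι Ω : Type*} [mΩ : MeasurableSpace Ω]

/-- the sigma algebra generated by the coordinates in `S` -/
def sig (X : ι → Ω → ℝ) (S : Set ι) : MeasurableSpace Ω :=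
  ⨆ i ∈ S, MeasurableSpace.comap (X i) inferInstance

theorem sig_coord (X : ι → Ω → ℝ) {S : Set ι} {i : ι} (hi : i ∈ S) :
    Measurable[sig X S] (X i) := by
  have h1 : Measurable[MeasurableSpace.comap (X i) inferInstance] (X i) :=
    comap_measurable (X i)
  exact h1.mono (le_iSup₂_of_le i hi le_rfl) le_rfl

theorem sig_mono (X : ι → Ω → ℝ) {S T : Set ι} (h : S ⊆ T) : sig X S ≤ sig X T :=
  iSup₂_le fun i hi => le_iSup₂_of_le i (h hi) le_rfl

theorem sig_le (X : ι → Ω → ℝ) (hX : ∀ i, Measurable (X i)) (S : Set ι) : sig X S ≤ mΩ :=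
  iSup₂_le fun i _ => (hX i).comap_le

theorem indep_sig {P : Measure Ω} {X : ι → Ω → ℝ} (hX : ∀ i, Measurable (X i))
    (hind : iIndepFun X P) {S T : Set ι} (hST : Disjoint S T) {E F : Type*} [MeasurableSpace E]
    [MeasurableSpace F] {f : Ω → E} {g : Ω → F} (hf : Measurable[sig X S] f)
    (hg : Measurable[sig X T] g) : IndepFun f g P := by
  have h := indep_iSup_of_disjoint (fun i => (hX i).comap_le) hind.iIndep hST
  have h1 : MeasurableSpace.comap f inferInstance ≤ sig X S := hf.comap_le
  have h2 : MeasurableSpace.comap g inferInstance ≤ sig X T := hg.comap_le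
  rw [IndepFun_iff_Indep]
  exact indep_of_indep_of_le_left (indep_of_indep_of_le_right h h2) h1

end sig

section es

variable {I : Type} [DecidableEq I] (μ : I → Measure ℝ) [∀ i, IsProbabilityMeasure (μ i)]

/-- one sample -/
noncomputable abbrev PP : Measure (I → ℝ) := Measure.infinitePi μ

/-- two samples -/
noncomputable abbrev QQ : Measure (I × Bool → ℝ) := Measure.infinitePi fun j : I × Bool => μ j.1

/-- select the second sample on `S`, the first one elsewhere -/
def sel (S : Finset I) (θ : I × Bool → ℝ) : I → ℝ := fun i => θ (i, decide (i ∈ S))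

/-- swap the two samples on `S` -/
def sw (S : Finset I) (θ : I × Bool → ℝ) : I × Bool → ℝ :=
  fun j => θ (j.1, xor j.2 (decide (j.1 ∈ S)))

theorem meas_sel (S : Finset I) : Measurable (sel (I := I) S) :=
  measurable_pi_lambda _ fun i => measurable_pi_apply _

theorem meas_sw (S : Finset I) : Measurable (sw (I := I) S) :=
  measurable_pi_lambda _ fun i => measurable_pi_apply _

theorem mp_sel (S : Finset I) : MeasurePreserving (sel S) (QQ μ) (PP μ) := by
  refine ⟨meas_sel S, ?_⟩
  have hinj : Function.Injective (fun i : I => ((i, decide (i ∈ S)) : I × Bool)) := by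
    intro i j h
    exact congrArg Prod.fst h
  exact Measure.map_infinitePi_infinitePi_of_inj (P := fun j : I × Bool => μ j.1) hinj

theorem mp_sw (S : Finset I) : MeasurePreserving (sw S) (QQ μ) (QQ μ) := by
  refine ⟨meas_sw S, ?_⟩
  have hinj : Function.Injective
      (fun j : I × Bool => ((j.1, xor j.2 (decide (j.1 ∈ S))) : I × Bool)) := by
    rintro ⟨i, s⟩ ⟨j, t⟩ h
    simp only [Prod.mk.injEq] at h
    obtain ⟨h1, h2⟩ := h
    subst h1
    simpa using h2
  exact Measure.map_infinitePi_infinitePi_of_inj (P := fun j : I × Bool => μ j.1) hinj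

theorem int_mp {α β : Type*} [MeasurableSpace α] [MeasurableSpace β] {a : Measure α}
    {b : Measure β} {f : α → β} (hf : MeasurePreserving f a b) {g : β → ℝ} (hg : Measurable g) :
    ∫ x, g (f x) ∂a = ∫ y, g y ∂b := by
  rw [← hf.map_eq]
  exact (integral_map hf.measurable.aemeasurable hg.aestronglyMeasurable).symm

theorem int_bd {α : Type*} [MeasurableSpace α] {a : Measure α} [IsFiniteMeasure a] {g : α → ℝ}
    (hg : Measurable g) {C : ℝ} (hC : ∀ x, |g x| ≤ C) : Integrable g a :=
  Integrable.of_bound hg.aestronglyMeasurable C (Filter.Eventually.of_forall hC)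

theorem coord_indep : iIndepFun (fun (j : I × Bool) (θ : I × Bool → ℝ) => θ j) (QQ μ) :=
  iIndepFun_infinitePi (X := fun _ w => w) (fun _ => measurable_id)

theorem indep_two (f g : (I → ℝ) → ℝ) (hf : Measurable f) (hg : Measurable g) (S : Finset I)
    (hdep : ∀ w w' : I → ℝ, (∀ i ∈ S, w i = w' i) → g w = g w') :
    ∫ θ, f (sel ∅ θ) * g (sel S θ) ∂(QQ μ) = (∫ w, f w ∂(PP μ)) * ∫ w, g w ∂(PP μ) := by
  have e1 : ∀ θ : I × Bool → ℝ, g (sel S θ) = g (fun i => θ (i, true)) := by
    intro θ
    apply hdep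
    intro i hi
    simp [sel, hi]
  have e2 : ∀ θ : I × Bool → ℝ, f (sel ∅ θ) = f (fun i => θ (i, false)) := by
    intro θ
    rfl
  have hind : IndepFun (fun θ : I × Bool → ℝ => f (sel ∅ θ)) (fun θ => g (sel S θ)) (QQ μ) := by
    refine indep_sig (X := fun (j : I × Bool) (θ : I × Bool → ℝ) => θ j)
      (fun j => measurable_pi_apply j) (coord_indep μ)
      (S := {j | j.2 = false}) (T := {j | j.2 = true}) ?_ ?_ ?_
    · rw [Set.disjoint_left]
      rintro ⟨i, s⟩ h1 h2
      simp only [Set.mem_ofPred_eq] at h1 h2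
      rw [h1] at h2
      exact absurd h2 (by simp)
    · simp only [e2]
      refine hf.comp ?_
      refine @measurable_pi_lambda _ _ _ (_) _ _ fun i => ?_
      exact sig_coord (fun (j : I × Bool) (θ : I × Bool → ℝ) => θ j) (by simp)
    · simp only [e1]
      refine hg.comp ?_
      refine @measurable_pi_lambda _ _ _ (_) _ _ fun i => ?_
      exact sig_coord (fun (j : I × Bool) (θ : I × Bool → ℝ) => θ j) (by simp)
  rw [hind.integral_fun_mul_eq_mul_integral (hf.comp (meas_sel ∅)).aestronglyMeasurable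
    (hg.comp (meas_sel S)).aestronglyMeasurable]
  rw [int_mp (mp_sel μ ∅) hf, int_mp (mp_sel μ S) hg]

theorem sel_empty_sw (S : Finset I) (θ : I × Bool → ℝ) : sel ∅ (sw S θ) = sel S θ := by
  funext i
  simp [sel, sw]

theorem sel_single_sw {S : Finset I} {j : I} (hj : j ∉ S) (θ : I × Bool → ℝ) :
    sel {j} (sw S θ) = sel (insert j S) θ := by
  funext i
  by_cases hi : i = j
  · subst hi; simp [sel, sw, hj]
  · by_cases h : i ∈ S <;> simp [sel, sw, h, hi]

theorem sel_sw_single {S : Finset I} {j : I} (hj : j ∉ S) (θ : I × Bool → ℝ) :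
    sel S (sw {j} θ) = sel (insert j S) θ := by
  funext i
  by_cases hi : i = j
  · subst hi; simp [sel, sw, hj]
  · by_cases h : i ∈ S <;> simp [sel, sw, h, hi]

theorem sel_insert_sw_single {S : Finset I} {j : I} (hj : j ∉ S) (θ : I × Bool → ℝ) :
    sel (insert j S) (sw {j} θ) = sel S θ := by
  funext i
  by_cases hi : i = j
  · subst hi; simp [sel, sw, hj]
  · by_cases h : i ∈ S <;> simp [sel, sw, h, hi]

/-- the influence of a coordinate -/
noncomputable def Inf2 (G : (I → ℝ) → ℝ) (j : I) : ℝ :=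
  ∫ θ, (G (sel ∅ θ) - G (sel {j} θ)) ^ 2 ∂(QQ μ)

/-- Efron-Stein inequality -/
theorem efron (G : (I → ℝ) → ℝ) (hG : Measurable G) (B : ℝ) (hB : ∀ ω, |G ω| ≤ B) (S₀ : Finset I)
    (hdep : ∀ w w' : I → ℝ, (∀ i ∈ S₀, w i = w' i) → G w = G w') :
    ∫ ω, G ω ^ 2 ∂(PP μ) - (∫ ω, G ω ∂(PP μ)) ^ 2 ≤ (1 / 2) * ∑ j ∈ S₀, Inf2 μ G j := by
  have hB0 : ∀ ω : I → ℝ, 0 ≤ B := fun ω => (abs_nonneg _).trans (hB ω)
  have gm : ∀ S : Finset I, Measurable fun θ => G (sel S θ) := fun S => hG.comp (meas_sel S)
  have bd2 : ∀ S T : Finset I, ∀ θ : I × Bool → ℝ, |G (sel S θ) * G (sel T θ)| ≤ B * B := by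
    intro S T θ
    rw [abs_mul]
    exact mul_le_mul (hB _) (hB _) (abs_nonneg _) (hB0 (sel S θ))
  have ig : ∀ S T : Finset I, Integrable (fun θ => G (sel S θ) * G (sel T θ)) (QQ μ) :=
    fun S T => int_bd ((gm S).mul (gm T)) (bd2 S T)
  have main : ∀ S : Finset I, ∫ θ, (G (sel ∅ θ) * G (sel ∅ θ) - G (sel ∅ θ) * G (sel S θ))
      ∂(QQ μ) ≤ (1 / 2) * ∑ j ∈ S, Inf2 μ G j := by
    intro S
    induction S using Finset.induction_on with
    | empty => simp
    | insert j S hj ih =>
      rw [Finset.sum_insert hj, mul_add]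
      have iS : Integrable (fun θ => G (sel ∅ θ) * G (sel ∅ θ) - G (sel ∅ θ) * G (sel S θ))
          (QQ μ) := (ig _ _).sub (ig _ _)
      have i1 : Integrable (fun θ => G (sel ∅ θ) * (G (sel S θ) - G (sel (insert j S) θ)))
          (QQ μ) := by
        refine ((ig ∅ S).sub (ig ∅ (insert j S))).congr ?_
        exact Filter.Eventually.of_forall fun θ => by simp only [Pi.sub_apply]; ring
      have e1 : ∫ θ, (G (sel ∅ θ) * G (sel ∅ θ) - G (sel ∅ θ) * G (sel (insert j S) θ)) ∂(QQ μ)
          = ∫ θ, (G (sel ∅ θ) * G (sel ∅ θ) - G (sel ∅ θ) * G (sel S θ)) ∂(QQ μ) +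
            ∫ θ, G (sel ∅ θ) * (G (sel S θ) - G (sel (insert j S) θ)) ∂(QQ μ) := by
        rw [← integral_add iS i1]
        apply integral_congr_ae
        exact Filter.Eventually.of_forall fun θ => by ring
      have e2 : ∫ θ, G (sel ∅ θ) * (G (sel S θ) - G (sel (insert j S) θ)) ∂(QQ μ) =
          ∫ θ, G (sel {j} θ) * (G (sel (insert j S) θ) - G (sel S θ)) ∂(QQ μ) := by
        rw [← int_mp (mp_sw μ {j})
          (g := fun θ => G (sel ∅ θ) * (G (sel S θ) - G (sel (insert j S) θ)))
          ((gm ∅).mul ((gm S).sub (gm (insert j S))))]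
        apply integral_congr_ae
        refine Filter.Eventually.of_forall fun θ => ?_
        simp only [sel_empty_sw, sel_sw_single hj, sel_insert_sw_single hj]
      have i2 : Integrable (fun θ => G (sel {j} θ) * (G (sel (insert j S) θ) - G (sel S θ)))
          (QQ μ) := by
        refine ((ig {j} (insert j S)).sub (ig {j} S)).congr ?_
        exact Filter.Eventually.of_forall fun θ => by simp only [Pi.sub_apply]; ring
      have sqi : ∀ A C : Finset I, Integrable (fun θ => (G (sel A θ) - G (sel C θ)) ^ 2)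
          (QQ μ) := by
        intro A C
        refine (((ig A A).sub ((ig A C).const_mul 2)).add (ig C C)).congr ?_
        exact Filter.Eventually.of_forall fun θ => by
          simp only [Pi.sub_apply, Pi.add_apply]; ring
      have e3 : ∫ θ, (G (sel S θ) - G (sel (insert j S) θ)) ^ 2 ∂(QQ μ) = Inf2 μ G j := by
        unfold Inf2
        rw [← int_mp (mp_sw μ S) (g := fun θ => (G (sel ∅ θ) - G (sel {j} θ)) ^ 2)
          (((gm ∅).sub (gm {j})).pow_const 2)]
        apply integral_congr_ae
        refine Filter.Eventually.of_forall fun θ => ?_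
        simp only [sel_empty_sw, sel_single_sw hj]
      have e4 : 2 * ∫ θ, G (sel ∅ θ) * (G (sel S θ) - G (sel (insert j S) θ)) ∂(QQ μ) ≤
          (1 / 2) * Inf2 μ G j + (1 / 2) * Inf2 μ G j := by
        calc 2 * ∫ θ, G (sel ∅ θ) * (G (sel S θ) - G (sel (insert j S) θ)) ∂(QQ μ)
            = ∫ θ, G (sel ∅ θ) * (G (sel S θ) - G (sel (insert j S) θ)) ∂(QQ μ) +
              ∫ θ, G (sel {j} θ) * (G (sel (insert j S) θ) - G (sel S θ)) ∂(QQ μ) := by
                rw [← e2]; ring
          _ = ∫ θ, (G (sel ∅ θ) * (G (sel S θ) - G (sel (insert j S) θ)) +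
              G (sel {j} θ) * (G (sel (insert j S) θ) - G (sel S θ))) ∂(QQ μ) :=
                (integral_add i1 i2).symm
          _ ≤ ∫ θ, ((1 / 2) * (G (sel ∅ θ) - G (sel {j} θ)) ^ 2 +
              (1 / 2) * (G (sel S θ) - G (sel (insert j S) θ)) ^ 2) ∂(QQ μ) := by
                apply integral_mono (i1.add i2) (((sqi _ _).const_mul _).add
                  ((sqi _ _).const_mul _))
                intro θ
                simp only [Pi.add_apply]
                nlinarith [sq_nonneg ((G (sel ∅ θ) - G (sel {j} θ)) -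
                  (G (sel S θ) - G (sel (insert j S) θ)))]
          _ = (1 / 2) * Inf2 μ G j + (1 / 2) * Inf2 μ G j := by
                rw [integral_add ((sqi _ _).const_mul _) ((sqi _ _).const_mul _),
                  integral_const_mul, integral_const_mul, e3]
                rfl
      rw [e1]
      linarith
  have h := main S₀
  have i0 := ig ∅ ∅
  rw [integral_sub (ig _ _) (ig _ _), indep_two μ G G hG hG S₀ hdep] at h
  have e5 : ∫ θ, G (sel ∅ θ) * G (sel ∅ θ) ∂(QQ μ) = ∫ ω, G ω ^ 2 ∂(PP μ) := by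
    rw [int_mp (mp_sel μ ∅) (g := fun w => G w * G w) (hG.mul hG)]
    apply integral_congr_ae
    exact Filter.Eventually.of_forall fun θ => by ring
  rw [e5] at h
  rw [pow_two (∫ ω, G ω ∂(PP μ))]
  exact h

end es

end Pool.Agent.Y982.LR
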