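import Pool.Agent.Y982.LR.Two

/-!
# LR-Edge: the influence of one weight on the logarithm of the determinant
-/

set_option autoImplicit false
set_option linter.unusedSectionVars false

open scoped BigOperators ENNReal
open MeasureTheory ProbabilityTheory Real Set

namespace Pool.Agent.Y982.LR

/-! ### real inequalities -/

/-- the bracket -/
noncomputable def br (t B B' : ℝ) : ℝ := Real.log (1 + t / B) - Real.log (1 + t / B')

theorem br_core {t B B' : ℝ} (ht : 0 ≤ t) (hB : 0 < B) (hBB : B ≤ B') :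
    0 ≤ br t B B' ∧ br t B B' ≤ Real.log (B' / B) ∧
      br t B B' ≤ (t / B) * Real.log (B' / B) := by
  have hB' : 0 < B' := by linarith
  have h1 : 0 < 1 + t / B := by positivity
  have h2 : 0 < 1 + t / B' := by positivity
  have h3 : t / B' ≤ t / B := div_le_div_of_nonneg_left ht hB hBB
  have h4 : br t B B' = Real.log ((1 + t / B) / (1 + t / B')) := by
    unfold br; rw [Real.log_div h1.ne' h2.ne']
  refine ⟨?_, ?_, ?_⟩
  · rw [h4]
    apply Real.log_nonneg
    rw [le_div_iff₀ h2]; linarith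
  · rw [h4]
    apply Real.log_le_log (by positivity)
    rw [div_le_div_iff₀ h2 hB]
    have e1 : (1 + t / B) * B = B + t := by field_simp
    have e2 : B' * (1 + t / B') = B' + t := by field_simp
    rw [e1, e2]; linarith
  · rw [h4]
    have h5 : (1 + t / B) / (1 + t / B') ≤ 1 + (t / B - t / B') := by
      rw [div_le_iff₀ h2]
      have : 0 ≤ (t / B - t / B') * (t / B') := mul_nonneg (by linarith) (by positivity)
      nlinarith
    have h6 : Real.log ((1 + t / B) / (1 + t / B')) ≤ t / B - t / B' := by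
      have h7 := Real.log_le_sub_one_of_pos (x := (1 + t / B) / (1 + t / B')) (by positivity)
      linarith
    have h8 : 1 - B / B' ≤ Real.log (B' / B) := by
      have h9 := Real.log_le_sub_one_of_pos (x := B / B') (by positivity)
      have h10 : Real.log (B' / B) = - Real.log (B / B') := by
        rw [← Real.log_inv, inv_div]
      linarith
    have h11 : t / B - t / B' = (t / B) * (1 - B / B') := by field_simp
    rw [h11] at h6
    exact h6.trans (mul_le_mul_of_nonneg_left h8 (by positivity))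

theorem br_symm (t B B' : ℝ) : br t B' B = - br t B B' := by unfold br; ring

theorem log_div_sq (B B' : ℝ) : Real.log (B' / B) ^ 2 = Real.log (B / B') ^ 2 := by
  have : Real.log (B' / B) = - Real.log (B / B') := by rw [← Real.log_inv, inv_div]
  rw [this, neg_sq]

theorem br_sq_le {t B B' : ℝ} (ht : 0 ≤ t) (hB : 0 < B) (hB' : 0 < B') :
    br t B B' ^ 2 ≤ Real.log (B / B') ^ 2 := by
  rcases le_total B B' with h | h
  · obtain ⟨h1, h2, -⟩ := br_core ht hB h
    rw [← log_div_sq]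
    exact pow_le_pow_left₀ h1 h2 2
  · obtain ⟨h1, h2, -⟩ := br_core ht hB' h
    have e : br t B B' ^ 2 = br t B' B ^ 2 := by rw [br_symm, neg_sq]
    rw [e]
    exact pow_le_pow_left₀ h1 h2 2

theorem br_sq_pow {t B B' σ : ℝ} (ht : 0 ≤ t) (hB : 0 < B) (hB' : 0 < B') (h0 : 0 < σ)
    (h1 : σ ≤ 1) :
    br t B B' ^ 2 ≤ t ^ σ * (Real.log (B / B') ^ 2 * (B ^ (-σ) + B' ^ (-σ))) := by
  have core : ∀ B B' : ℝ, 0 < B → B ≤ B' →
      br t B B' ^ 2 ≤ t ^ σ * (Real.log (B' / B) ^ 2 * B ^ (-σ)) := by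
    intro B B' hB h
    have hB' : 0 < B' := by linarith
    obtain ⟨g1, g2, g3⟩ := br_core ht hB h
    set L := Real.log (B' / B) with hL
    have hL0 : 0 ≤ L := g1.trans g2
    set y := t / B with hy
    have hy0 : 0 ≤ y := by positivity
    have e : t ^ σ * (L ^ 2 * B ^ (-σ)) = L ^ 2 * y ^ σ := by
      rw [hy, div_rpow ht hB.le, rpow_neg hB.le]; ring
    rw [e]
    rcases le_total y 1 with hy1 | hy1
    · have g4 : br t B B' ^ 2 ≤ (y * L) ^ 2 := pow_le_pow_left₀ g1 g3 2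
      refine g4.trans ?_
      rw [mul_pow, mul_comm]
      refine mul_le_mul_of_nonneg_left ?_ (by positivity)
      rcases eq_or_lt_of_le hy0 with hz | hz
      · rw [← hz, zero_rpow h0.ne']; norm_num
      · rw [← rpow_natCast y 2]
        exact rpow_le_rpow_of_exponent_ge hz hy1 (by push_cast; linarith)
    · have g4 : br t B B' ^ 2 ≤ L ^ 2 := pow_le_pow_left₀ g1 g2 2
      refine g4.trans ?_
      exact le_mul_of_one_le_right (by positivity) (one_le_rpow hy1 h0.le)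
  rcases le_total B B' with h | h
  · refine (core B B' hB h).trans ?_
    rw [log_div_sq]
    gcongr
    have : 0 ≤ B' ^ (-σ) := by positivity
    linarith
  · have e : br t B B' ^ 2 = br t B' B ^ 2 := by rw [br_symm, neg_sq]
    rw [e]
    refine (core B' B hB' h).trans ?_
    gcongr
    have : 0 ≤ B ^ (-σ) := by positivity
    linarith

/-! ### the functional -/

noncomputable def bw (w : Ix → ℝ) (q : ℕ) : ℝ := max (w (q, false)) 0
noncomputable def cw (w : Ix → ℝ) (q : ℕ) : ℝ := max (w (q, true)) 0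

theorem bw_nn (w : Ix → ℝ) (q : ℕ) : 0 ≤ bw w q := le_max_right _ _
theorem cw_nn (w : Ix → ℝ) (q : ℕ) : 0 ≤ cw w q := le_max_right _ _

/-- the logarithm of the determinant -/
noncomputable def LG (n : ℕ) (x : ℝ) (w : Ix → ℝ) : ℝ := Real.log (Dp (bw w) (cw w) x n)

/-- the difference statistic -/
noncomputable def FF (n : ℕ) (x₁ x₂ : ℝ) (w : Ix → ℝ) : ℝ := LG n x₂ w - LG n x₁ w

theorem meas_DV (x : ℝ) (q : ℕ) : Measurable (fun w : Ix → ℝ => Dp (bw w) (cw w) x q) ∧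
    Measurable (fun w : Ix → ℝ => Vp (bw w) (cw w) x q) := by
  induction q with
  | zero => exact ⟨measurable_const, measurable_const⟩
  | succ q ih =>
    have hb : Measurable fun w : Ix → ℝ => bw w q :=
      (measurable_pi_apply _).max measurable_const
    have hc : Measurable fun w : Ix → ℝ => cw w q :=
      (measurable_pi_apply _).max measurable_const
    have h1 : Measurable (fun w : Ix → ℝ => Dp (bw w) (cw w) x (q + 1)) := by
      simp only [Dp_succ]
      exact ih.2.add (hb.mul ih.1)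
    refine ⟨h1, ?_⟩
    simp only [Vp_succ]
    exact (h1.const_mul x).add (hc.mul ih.2)

theorem meas_LG (n : ℕ) (x : ℝ) : Measurable (LG n x) := (meas_DV x n).1.log

theorem meas_FF (n : ℕ) (x₁ x₂ : ℝ) : Measurable (FF n x₁ x₂) :=
  (meas_LG n x₂).sub (meas_LG n x₁)

theorem D_mono {b c : ℕ → ℝ} (hb : ∀ q, 0 ≤ b q) (hc : ∀ q, 0 ≤ c q) {x y : ℝ} (hx : 0 < x)
    (hxy : x ≤ y) (q : ℕ) : Dp b c x q ≤ Dp b c y q ∧ Vp b c x q ≤ Vp b c y q ∧
      0 ≤ Dp b c x q ∧ 0 ≤ Vp b c x q := by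
  induction q with
  | zero => simp [hxy, hx.le]
  | succ q ih =>
    obtain ⟨h1, h2, h3, h4⟩ := ih
    have h5 := hb q
    have h6 := hc q
    have h7 : Dp b c x (q + 1) ≤ Dp b c y (q + 1) := by
      rw [Dp_succ, Dp_succ]
      have := mul_le_mul_of_nonneg_left h1 h5
      linarith
    have h8 : 0 ≤ Dp b c x (q + 1) := by rw [Dp_succ]; positivity
    refine ⟨h7, ?_, h8, ?_⟩
    · rw [Vp_succ, Vp_succ]
      have g1 : x * Dp b c x (q + 1) ≤ y * Dp b c y (q + 1) :=
        mul_le_mul hxy h7 h8 (by linarith)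
      have g2 := mul_le_mul_of_nonneg_left h2 h6
      linarith
    · rw [Vp_succ]; positivity

theorem D_scale {b c : ℕ → ℝ} (hb : ∀ q, 0 ≤ b q) (hc : ∀ q, 0 ≤ c q) {x ρ : ℝ} (hx : 0 < x)
    (hρ : 1 ≤ ρ) (q : ℕ) : Dp b c (ρ * x) q ≤ ρ ^ q * Dp b c x q ∧
      Vp b c (ρ * x) q ≤ ρ ^ (q + 1) * Vp b c x q := by
  induction q with
  | zero => simp
  | succ q ih =>
    obtain ⟨h1, h2⟩ := ih
    obtain ⟨-, -, p1, p2⟩ := D_mono hb hc hx (le_refl x) q
    obtain ⟨-, -, p3, p4⟩ := D_mono hb hc hx (le_refl x) (q + 1)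
    have h5 := hb q
    have h6 := hc q
    have hρq : ρ ^ q ≤ ρ ^ (q + 1) := pow_le_pow_right₀ hρ (by omega)
    have h7 : Dp b c (ρ * x) (q + 1) ≤ ρ ^ (q + 1) * Dp b c x (q + 1) := by
      rw [Dp_succ, Dp_succ]
      calc Vp b c (ρ * x) q + b q * Dp b c (ρ * x) q
          ≤ ρ ^ (q + 1) * Vp b c x q + b q * (ρ ^ q * Dp b c x q) := by gcongr
        _ ≤ ρ ^ (q + 1) * Vp b c x q + b q * (ρ ^ (q + 1) * Dp b c x q) := by gcongr
        _ = _ := by ring
    refine ⟨h7, ?_⟩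
    rw [Vp_succ, Vp_succ]
    have hρ0 : 0 < ρ := by linarith
    calc ρ * x * Dp b c (ρ * x) (q + 1) + c q * Vp b c (ρ * x) q
        ≤ ρ * x * (ρ ^ (q + 1) * Dp b c x (q + 1)) + c q * (ρ ^ (q + 1) * Vp b c x q) := by
          gcongr
      _ ≤ ρ * x * (ρ ^ (q + 1) * Dp b c x (q + 1)) + c q * (ρ ^ (q + 1 + 1) * Vp b c x q) := by
          have : ρ ^ (q + 1) ≤ ρ ^ (q + 1 + 1) := pow_le_pow_right₀ hρ (by omega)
          gcongr
      _ = _ := by ring

theorem FF_bd {n : ℕ} {x₁ x₂ : ℝ} (h1 : 0 < x₁) (h12 : x₁ ≤ x₂) (w : Ix → ℝ) :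
    0 ≤ FF n x₁ x₂ w ∧ FF n x₁ x₂ w ≤ n * Real.log (x₂ / x₁) := by
  have hp1 := Dp_pos (bw_nn w) (cw_nn w) h1 n
  have hp2 := Dp_pos (bw_nn w) (cw_nn w) (lt_of_lt_of_le h1 h12) n
  obtain ⟨g1, -⟩ := D_mono (bw_nn w) (cw_nn w) h1 h12 n
  have hρ : 1 ≤ x₂ / x₁ := by rw [le_div_iff₀ h1]; linarith
  obtain ⟨g2, -⟩ := D_scale (bw_nn w) (cw_nn w) h1 hρ n
  have e : x₂ / x₁ * x₁ = x₂ := by field_simp
  rw [e] at g2
  unfold FF LG
  constructor
  · have := Real.log_le_log hp1 g1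
    linarith
  · have h3 := Real.log_le_log hp2 g2
    rw [Real.log_mul (by positivity) hp1.ne', Real.log_pow] at h3
    linarith

theorem FF_abs {n : ℕ} {x₁ x₂ : ℝ} (h1 : 0 < x₁) (h12 : x₁ ≤ x₂) (w : Ix → ℝ) :
    |FF n x₁ x₂ w| ≤ n * Real.log (x₂ / x₁) := by
  obtain ⟨g1, g2⟩ := FF_bd (n := n) h1 h12 w
  rw [abs_of_nonneg g1]
  exact g2

/-! ### resampling one weight -/

theorem bw_sel (θ : Th) : bw (sel ∅ θ) = bq θ := by
  funext q; simp [bw, bq, sel]

theorem cw_sel (θ : Th) : cw (sel ∅ θ) = cq θ := by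
  funext q; simp [cw, cq, sel]

theorem bw_sel_b (θ : Th) (q j : ℕ) :
    bw (sel {(q, false)} θ) j = if j = q then wv' (q, false) θ else bq θ j := by
  by_cases h : j = q
  · subst h; simp [bw, wv', sel]
  · simp [bw, bq, sel, h]

theorem cw_sel_b (θ : Th) (q : ℕ) : cw (sel {(q, false)} θ) = cq θ := by
  funext j; simp [cw, cq, sel]

theorem cw_sel_c (θ : Th) (q j : ℕ) :
    cw (sel {(q, true)} θ) j = if j = q then wv' (q, true) θ else cq θ j := by
  by_cases h : j = q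
  · subst h; simp [cw, wv', sel]
  · simp [cw, cq, sel, h]

theorem bw_sel_c (θ : Th) (q : ℕ) : bw (sel {(q, true)} θ) = bq θ := by
  funext j; simp [bw, bq, sel]

/-- the parameter at a `b` edge -/
noncomputable def tb (x : ℝ) (k q : ℕ) (θ : Th) : ℝ :=
  x * Ar (bq θ) (cq θ) x q * Al (bq θ) (cq θ) x k q

/-- the parameter at a `c` edge -/
noncomputable def tc (x : ℝ) (k q : ℕ) (θ : Th) : ℝ :=
  x * Ar (bq θ) (cq θ) x q * Al (bq θ) (cq θ) x k (q + 1) /
    ((bq θ q + x * Ar (bq θ) (cq θ) x q) * (bq θ (q + 1) + x * Al (bq θ) (cq θ) x k (q + 1)))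

theorem tb_nn {x : ℝ} (hx : 0 < x) (k q : ℕ) (θ : Th) : 0 ≤ tb x k q θ := by
  have h1 := Ar_ge (bq_nn θ) (cq_nn θ) hx q
  have h2 := Al_ge (bq_nn θ) (cq_nn θ) hx k q
  unfold tb
  positivity

theorem tc_nn {x : ℝ} (hx : 0 < x) (k q : ℕ) (θ : Th) : 0 ≤ tc x k q θ := by
  have h1 := Ar_ge (bq_nn θ) (cq_nn θ) hx q
  have h2 := Al_ge (bq_nn θ) (cq_nn θ) hx k (q + 1)
  have h3 := bq_nn θ q
  have h4 := bq_nn θ (q + 1)
  unfold tc
  positivity

theorem LG_b {x : ℝ} (hx : 0 < x) (k q : ℕ) (θ : Th) (h : 0 < wv (q, false) θ)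
    (h' : 0 < wv' (q, false) θ) :
    LG (q + k + 1) x (sel ∅ θ) - LG (q + k + 1) x (sel {(q, false)} θ) =
      Real.log (wv (q, false) θ) - Real.log (wv' (q, false) θ) +
      br (tb x k q θ) (wv (q, false) θ) (wv' (q, false) θ) := by
  have hb' := bw_nn (sel {(q, false)} θ)
  have hc' := cw_nn (sel {(q, false)} θ)
  unfold LG
  rw [Dp_b hb' hc' hx k q, bw_sel, cw_sel, Dp_b (bq_nn θ) (cq_nn θ) hx k q]
  have eD : Dp (bw (sel {(q, false)} θ)) (cw (sel {(q, false)} θ)) x q =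
      Dp (bq θ) (cq θ) x q := by
    refine Dp_congr (fun i hi => ?_) (fun i hi => ?_)
    · rw [bw_sel_b, if_neg (by omega)]
    · rw [cw_sel_b]
  have eAr : Ar (bw (sel {(q, false)} θ)) (cw (sel {(q, false)} θ)) x q =
      Ar (bq θ) (cq θ) x q := by
    refine Ar_congr (fun i hi => ?_) (fun i hi => ?_)
    · rw [bw_sel_b, if_neg (by omega)]
    · rw [cw_sel_b]
  have eAl : Al (bw (sel {(q, false)} θ)) (cw (sel {(q, false)} θ)) x k q =
      Al (bq θ) (cq θ) x k q := by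
    refine Al_congr (fun i hi => ?_) (fun i hi => ?_)
    · rw [bw_sel_b, if_neg (by omega)]
    · rw [cw_sel_b]
  have eKl : Kl (bw (sel {(q, false)} θ)) (cw (sel {(q, false)} θ)) x k q =
      Kl (bq θ) (cq θ) x k q := by
    refine Kl_congr (fun i hi => ?_) (fun i hi => ?_)
    · rw [bw_sel_b, if_neg (by omega)]
    · rw [cw_sel_b]
  have eb : bw (sel {(q, false)} θ) q = wv' (q, false) θ := by rw [bw_sel_b, if_pos rfl]
  rw [eD, eAr, eAl, eKl, eb]
  have eb0 : bq θ q = wv (q, false) θ := rfl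
  rw [eb0]
  have p1 := Kl_pos (bq_nn θ) (cq_nn θ) hx k q
  have p2 := Dp_pos (bq_nn θ) (cq_nn θ) hx q
  have p3 := tb_nn hx k q θ
  have et : x * Ar (bq θ) (cq θ) x q * Al (bq θ) (cq θ) x k q = tb x k q θ := rfl
  rw [et]
  set t := tb x k q θ
  set B := wv (q, false) θ
  set B' := wv' (q, false) θ
  have l1 : ∀ y : ℝ, 0 < y → Real.log (Kl (bq θ) (cq θ) x k q * Dp (bq θ) (cq θ) x q * y) =
      Real.log (Kl (bq θ) (cq θ) x k q * Dp (bq θ) (cq θ) x q) + Real.log y := fun y hy =>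
    Real.log_mul (by positivity) hy.ne'
  rw [l1 (B + t) (by positivity), l1 (B' + t) (by positivity)]
  unfold br
  have e1 : Real.log (B + t) = Real.log B + Real.log (1 + t / B) := by
    rw [← Real.log_mul (by positivity) (by positivity)]; congr 1; field_simp
  have e2 : Real.log (B' + t) = Real.log B' + Real.log (1 + t / B') := by
    rw [← Real.log_mul (by positivity) (by positivity)]; congr 1; field_simp
  rw [e1, e2]
  ring

theorem LG_c {x : ℝ} (hx : 0 < x) (k q : ℕ) (θ : Th) (h : 0 < wv (q, true) θ)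
    (h' : 0 < wv' (q, true) θ) :
    LG (q + (k + 1) + 1) x (sel ∅ θ) - LG (q + (k + 1) + 1) x (sel {(q, true)} θ) =
      br (tc x k q θ) (wv (q, true) θ)⁻¹ (wv' (q, true) θ)⁻¹ := by
  have hb' := bw_nn (sel {(q, true)} θ)
  have hc' := cw_nn (sel {(q, true)} θ)
  unfold LG
  rw [Dp_c hb' hc' hx k q, bw_sel, cw_sel, Dp_c (bq_nn θ) (cq_nn θ) hx k q]
  have eD : Dp (bw (sel {(q, true)} θ)) (cw (sel {(q, true)} θ)) x (q + 1) =
      Dp (bq θ) (cq θ) x (q + 1) := by
    refine Dp_congr (fun i hi => ?_) (fun i hi => ?_)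
    · rw [bw_sel_c]
    · rw [cw_sel_c, if_neg (by omega)]
  have eAr : Ar (bw (sel {(q, true)} θ)) (cw (sel {(q, true)} θ)) x q =
      Ar (bq θ) (cq θ) x q := by
    refine Ar_congr (fun i hi => ?_) (fun i hi => ?_)
    · rw [bw_sel_c]
    · rw [cw_sel_c, if_neg (by omega)]
  have eAl : Al (bw (sel {(q, true)} θ)) (cw (sel {(q, true)} θ)) x k (q + 1) =
      Al (bq θ) (cq θ) x k (q + 1) := by
    refine Al_congr (fun i hi => ?_) (fun i hi => ?_)
    · rw [bw_sel_c]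
    · rw [cw_sel_c, if_neg (by omega)]
  have eKl : Kl (bw (sel {(q, true)} θ)) (cw (sel {(q, true)} θ)) x k (q + 1) =
      Kl (bq θ) (cq θ) x k (q + 1) := by
    refine Kl_congr (fun i hi => ?_) (fun i hi => ?_)
    · rw [bw_sel_c]
    · rw [cw_sel_c, if_neg (by omega)]
  have ec : cw (sel {(q, true)} θ) q = wv' (q, true) θ := by rw [cw_sel_c, if_pos rfl]
  rw [eD, eAr, eAl, eKl, ec, bw_sel_c]
  have ec0 : cq θ q = wv (q, true) θ := rfl
  rw [ec0]
  have p1 := Kl_pos (bq_nn θ) (cq_nn θ) hx k (q + 1)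
  have p2 := Dp_pos (bq_nn θ) (cq_nn θ) hx (q + 1)
  have p3 := tc_nn hx k q θ
  have p4 := Al_ge (bq_nn θ) (cq_nn θ) hx k (q + 1)
  have p5 := bq_nn θ (q + 1)
  have p6 : 0 < bq θ (q + 1) + x * Al (bq θ) (cq θ) x k (q + 1) := by
    have : 0 < x * Al (bq θ) (cq θ) x k (q + 1) := mul_pos hx (by linarith)
    linarith
  have et : x * Ar (bq θ) (cq θ) x q * Al (bq θ) (cq θ) x k (q + 1) /
    ((bq θ q + x * Ar (bq θ) (cq θ) x q) * (bq θ (q + 1) + x * Al (bq θ) (cq θ) x k (q + 1))) =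
      tc x k q θ := rfl
  rw [et]
  set t := tc x k q θ
  set C := wv (q, true) θ
  set C' := wv' (q, true) θ
  set KK := Kl (bq θ) (cq θ) x k (q + 1) * (bq θ (q + 1) + x * Al (bq θ) (cq θ) x k (q + 1)) *
    Dp (bq θ) (cq θ) x (q + 1) with hKK
  have hKK0 : 0 < KK := by positivity
  rw [Real.log_mul hKK0.ne' (by positivity : (0:ℝ) < 1 + C * t).ne',
    Real.log_mul hKK0.ne' (by positivity : (0:ℝ) < 1 + C' * t).ne']
  unfold br
  rw [div_inv_eq_mul, div_inv_eq_mul, mul_comm t C, mul_comm t C']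
  ring

end Pool.Agent.Y982.LR
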