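import Mathlib

/-!
# LR-Gam: moments of gamma variables
-/

set_option autoImplicit false

open scoped BigOperators ENNReal
open MeasureTheory ProbabilityTheory Real Set

namespace Pool.Agent.Y982.LR

theorem gam_pos (k r : ℝ) : ∀ᵐ w ∂(gammaMeasure k r), 0 < w := by
  unfold gammaMeasure
  rw [ae_withDensity_iff (by unfold gammaPDF; exact (measurable_gammaPDFReal k r).ennreal_ofReal)]
  have h0 : ({0} : Set ℝ)ᶜ ∈ ae (volume : Measure ℝ) :=
    compl_mem_ae_iff.2 (measure_singleton (0 : ℝ))
  filter_upwards [h0] with w hw hne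
  have hw' : w ≠ 0 := hw
  rcases lt_or_gt_of_ne hw' with h | h
  · exact absurd (gammaPDF_of_neg h) hne
  · exact h

theorem gam_core {k r : ℝ} (hk : 0 < k) (hr : 0 < r) (s : ℝ) :
    (fun w : ℝ => (gammaPDF k r w).toReal • w ^ s) =ᵐ[volume]
      indicator (Ioi (0 : ℝ)) fun w => r ^ k / Gamma k * (w ^ (k + s - 1) * exp (-(r * w))) := by
  have h0 : ({0} : Set ℝ)ᶜ ∈ ae (volume : Measure ℝ) :=
    compl_mem_ae_iff.2 (measure_singleton (0 : ℝ))
  filter_upwards [h0] with w hw
  have hw' : w ≠ 0 := hw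
  rcases lt_or_gt_of_ne hw' with h | h
  · rw [gammaPDF_of_neg h, indicator_of_notMem (by simpa using h.le)]
    simp
  · rw [indicator_of_mem (by exact h), gammaPDF_of_nonneg h.le, ENNReal.toReal_ofReal, smul_eq_mul]
    · have e : w ^ (k + s - 1) = w ^ (k - 1) * w ^ s := by
        rw [← rpow_add h]; congr 1; ring
      rw [e]; ring
    · have := Gamma_pos_of_pos hk
      positivity

theorem gam_int_val {k r s : ℝ} (hk : 0 < k) (hr : 0 < r) (hs : 0 < k + s) :
    Integrable (fun w : ℝ => w ^ s) (gammaMeasure k r) ∧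
    ∫ w, w ^ s ∂(gammaMeasure k r) = Gamma (k + s) / Gamma k * (1 / r) ^ s := by
  have hmeas : Measurable (gammaPDF k r) := by
    unfold gammaPDF; exact (measurable_gammaPDFReal k r).ennreal_ofReal
  have hlt : ∀ᵐ x ∂(volume : Measure ℝ), gammaPDF k r x < ∞ :=
    Filter.Eventually.of_forall fun x => ENNReal.ofReal_lt_top
  have hG := Gamma_pos_of_pos hk
  have hG2 := Gamma_pos_of_pos hs
  have hval : ∫ w in Ioi (0 : ℝ), w ^ (k + s - 1) * exp (-(r * w)) =
      (1 / r) ^ (k + s) * Gamma (k + s) := Real.integral_rpow_mul_exp_neg_mul_Ioi hs hr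
  have hpos : 0 < (1 / r) ^ (k + s) * Gamma (k + s) := by positivity
  have hint : IntegrableOn (fun w : ℝ => w ^ (k + s - 1) * exp (-(r * w))) (Ioi 0) := by
    by_contra hcon
    have : ∫ w in Ioi (0 : ℝ), w ^ (k + s - 1) * exp (-(r * w)) = 0 := integral_undef hcon
    rw [this] at hval
    linarith
  constructor
  · unfold gammaMeasure
    rw [integrable_withDensity_iff_integrable_smul' hmeas hlt]
    rw [integrable_congr (gam_core hk hr s), integrable_indicator_iff measurableSet_Ioi]
    exact hint.const_mul _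
  · unfold gammaMeasure
    rw [integral_withDensity_eq_integral_toReal_smul hmeas hlt, integral_congr_ae (gam_core hk hr s),
      integral_indicator measurableSet_Ioi, integral_const_mul, hval]
    have e : (1 / r) ^ (k + s) = (1 / r) ^ k * (1 / r) ^ s := by
      rw [← rpow_add (by positivity)]
    have e2 : r ^ k * (1 / r) ^ k = 1 := by
      rw [← mul_rpow hr.le (by positivity), mul_one_div_cancel hr.ne', one_rpow]
    rw [e]
    calc r ^ k / Gamma k * ((1 / r) ^ k * (1 / r) ^ s * Gamma (k + s))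
        = (r ^ k * (1 / r) ^ k) * (Gamma (k + s) / Gamma k * (1 / r) ^ s) := by ring
      _ = _ := by rw [e2, one_mul]

/-- the moment function -/
noncomputable def gm (k r s : ℝ) : ℝ := Gamma (k + s) / Gamma k * (1 / r) ^ s

theorem gm_pos {k r s : ℝ} (hk : 0 < k) (hr : 0 < r) (hs : 0 < k + s) : 0 < gm k r s := by
  unfold gm
  have := Gamma_pos_of_pos hk
  have := Gamma_pos_of_pos hs
  positivity

theorem gam_mean {k r : ℝ} (hk : 0 < k) (hr : 0 < r) : gm k r 1 = k / r := by
  unfold gm
  rw [Gamma_add_one hk.ne', rpow_one]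
  have := Gamma_pos_of_pos hk
  field_simp

theorem gam_inv {k r : ℝ} (hk : 1 < k) (hr : 0 < r) : gm k r (-1) = r / (k - 1) := by
  unfold gm
  have h1 : Gamma k = (k - 1) * Gamma (k - 1) := by
    have := Gamma_add_one (s := k - 1) (by linarith)
    rw [← this]; congr 1; ring
  have h2 := Gamma_pos_of_pos (show 0 < k - 1 by linarith)
  have h3 : k + -1 = k - 1 := by ring
  rw [h3, h1, rpow_neg_one]
  have : k - 1 ≠ 0 := by linarith
  field_simp

/-- shifting the exponent by one -/
theorem gm_succ {k r s : ℝ} (hs : 0 < k + s) : gm k r (s + 1) = (k + s) * (1 / r) * gm k r s ∨ r ≤ 0 := by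
  rcases le_or_gt r 0 with h | hr
  · exact Or.inr h
  left
  unfold gm
  have e1 : k + (s + 1) = (k + s) + 1 := by ring
  rw [e1, Gamma_add_one hs.ne', rpow_add (by positivity), rpow_one]
  ring

theorem gm_succ' {k r s : ℝ} (hr : 0 < r) (hs : 0 < k + s) :
    gm k r (s + 1) = (k + s) * (1 / r) * gm k r s := by
  rcases gm_succ (r := r) hs with h | h
  · exact h
  · linarith

/-- log convexity: upper bound of the positive moments -/
theorem gm_le_pow {k r s : ℝ} (hk : 0 < k) (hr : 0 < r) (h0 : 0 ≤ s) (h1 : s ≤ 1) :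
    gm k r s ≤ (k / r) ^ s := by
  rcases eq_or_lt_of_le h0 with h | h
  · rw [← h]; unfold gm
    have := Gamma_pos_of_pos hk
    rw [add_zero, rpow_zero, rpow_zero, mul_one, div_self this.ne']
  rcases eq_or_lt_of_le h1 with h' | h'
  · rw [h', gam_mean hk hr, rpow_one]
  have hc := Real.Gamma_mul_add_mul_le_rpow_Gamma_mul_rpow_Gamma (s := k) (t := k + 1)
    (a := 1 - s) (b := s) hk (by linarith) (by linarith) h (by ring)
  have e : (1 - s) * k + s * (k + 1) = k + s := by ring
  rw [e, Gamma_add_one hk.ne', mul_rpow hk.le (Gamma_pos_of_pos hk).le] at hc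
  unfold gm
  have hG := Gamma_pos_of_pos hk
  have e2 : Gamma k ^ (1 - s) * (k ^ s * Gamma k ^ s) = k ^ s * Gamma k := by
    calc Gamma k ^ (1 - s) * (k ^ s * Gamma k ^ s) = k ^ s * (Gamma k ^ (1 - s) * Gamma k ^ s) := by ring
      _ = k ^ s * Gamma k := by
          rw [← rpow_add hG]; simp
  rw [e2] at hc
  rw [div_rpow hk.le hr.le, div_eq_mul_one_div (k ^ s)]
  have e3 : 1 / r ^ s = (1 / r) ^ s := by
    rw [div_rpow zero_le_one hr.le, one_rpow]
  rw [e3]
  refine mul_le_mul_of_nonneg_right ?_ (by positivity)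
  rw [div_le_iff₀ hG]
  exact hc

/-- log convexity: upper bound of the negative moments -/
theorem gm_neg_le {k r s : ℝ} (hk : 1 < k) (hr : 0 < r) (h0 : 0 ≤ s) (h1 : s ≤ 1) :
    gm k r (-s) ≤ (r / (k - 1)) ^ s := by
  have hk0 : 0 < k := by linarith
  have hk1 : 0 < k - 1 := by linarith
  rcases eq_or_lt_of_le h0 with h | h
  · rw [← h]; unfold gm
    have := Gamma_pos_of_pos hk0
    rw [neg_zero, add_zero, rpow_zero, rpow_zero, mul_one, div_self this.ne']
  rcases eq_or_lt_of_le h1 with h' | h'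
  · rw [h', gam_inv hk hr, rpow_one]
  have hc := Real.Gamma_mul_add_mul_le_rpow_Gamma_mul_rpow_Gamma (s := k) (t := k - 1)
    (a := 1 - s) (b := s) hk0 hk1 (by linarith) h (by ring)
  have e : (1 - s) * k + s * (k - 1) = k + -s := by ring
  have hG := Gamma_pos_of_pos hk0
  have hG1 := Gamma_pos_of_pos hk1
  have e1 : Gamma k = (k - 1) * Gamma (k - 1) := by
    have := Gamma_add_one (s := k - 1) (by linarith)
    rw [← this]; congr 1; ring
  have e1' : Gamma (k - 1) = Gamma k / (k - 1) := by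
    rw [e1]; field_simp
  rw [e, e1', div_rpow hG.le hk1.le] at hc
  have e2 : Gamma k ^ (1 - s) * (Gamma k ^ s / (k - 1) ^ s) = Gamma k / (k - 1) ^ s := by
    calc Gamma k ^ (1 - s) * (Gamma k ^ s / (k - 1) ^ s)
        = (Gamma k ^ (1 - s) * Gamma k ^ s) / (k - 1) ^ s := by ring
      _ = _ := by rw [← rpow_add hG]; simp
  rw [e2] at hc
  unfold gm
  have e3 : (1 / r) ^ (-s) = r ^ s := by
    rw [one_div, inv_rpow hr.le, ← rpow_neg hr.le, neg_neg]
  rw [e3, div_rpow hr.le hk1.le]
  have h5 : Gamma (k + -s) / Gamma k ≤ 1 / (k - 1) ^ s := by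
    rw [div_le_iff₀ hG]
    calc Gamma (k + -s) ≤ Gamma k / (k - 1) ^ s := hc
      _ = 1 / (k - 1) ^ s * Gamma k := by ring
  calc Gamma (k + -s) / Gamma k * r ^ s ≤ 1 / (k - 1) ^ s * r ^ s :=
        mul_le_mul_of_nonneg_right h5 (by positivity)
    _ = _ := by ring

/-- the moment of the ratio -/
noncomputable def Qr (K h s : ℝ) : ℝ :=
  Gamma (K + s) / Gamma K * (Gamma (K + h - s) / Gamma (K + h))

theorem Qr_pos {K h s : ℝ} (hK : 0 < K) (hs0 : 0 < s) (hsh : s < h) : 0 < Qr K h s := by
  unfold Qr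
  have := Gamma_pos_of_pos hK
  have := Gamma_pos_of_pos (show 0 < K + s by linarith)
  have := Gamma_pos_of_pos (show 0 < K + h - s by linarith)
  have := Gamma_pos_of_pos (show 0 < K + h by linarith)
  positivity

theorem Qr_rec {K h s : ℝ} (hK : 0 < K) (hs0 : 0 < s) (hsh : s < h) :
    Qr K h s * (1 + s * (h - s) / (K * (K + h))) = Qr (K + 1) h s := by
  unfold Qr
  have e1 : Gamma (K + 1 + s) = (K + s) * Gamma (K + s) := by
    rw [← Gamma_add_one (by linarith)]; congr 1; ring
  have e2 : Gamma (K + 1) = K * Gamma K := Gamma_add_one hK.ne'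
  have e3 : Gamma (K + 1 + h - s) = (K + h - s) * Gamma (K + h - s) := by
    rw [← Gamma_add_one (by linarith)]; congr 1; ring
  have e4 : Gamma (K + 1 + h) = (K + h) * Gamma (K + h) := by
    rw [← Gamma_add_one (by linarith)]; congr 1; ring
  rw [e1, e2, e3, e4]
  have p1 := Gamma_pos_of_pos hK
  have p2 := Gamma_pos_of_pos (show 0 < K + h by linarith)
  have p3 : K + h ≠ 0 := by linarith
  field_simp
  ring

/-- the product of the recursion factors -/
theorem Qr_iter {K h s : ℝ} (hK : 0 < K) (hs0 : 0 < s) (hsh : s < h) (J : ℕ) :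
    Qr K h s * (1 + ∑ j ∈ Finset.range J, s * (h - s) / ((K + j) * (K + j + h))) ≤
      Qr (K + J) h s := by
  induction J with
  | zero => simp
  | succ J ih =>
    have hKJ : 0 < K + J := by positivity
    have h1 := Qr_rec hKJ hs0 hsh
    have e : K + ((J + 1 : ℕ) : ℝ) = K + J + 1 := by push_cast; ring
    rw [e, ← h1, Finset.sum_range_succ]
    have hQ := Qr_pos hK hs0 hsh
    have hQJ := Qr_pos hKJ hs0 hsh
    have hu : 0 ≤ s * (h - s) / ((K + J) * (K + J + h)) := by
      have : 0 < h - s := by linarith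
      have : 0 < h := by linarith
      positivity
    have hS : 0 ≤ ∑ j ∈ Finset.range J, s * (h - s) / ((K + j) * (K + j + h)) := by
      refine Finset.sum_nonneg fun j _ => ?_
      have : 0 < h - s := by linarith
      have : 0 < h := by linarith
      positivity
    have h2 : Qr K h s ≤ Qr (K + J) h s := by
      refine le_trans ?_ ih
      have := mul_nonneg hQ.le hS
      linarith
    have h3 := mul_le_mul_of_nonneg_right h2 hu
    nlinarith

theorem Qr_tel {K h s : ℝ} (hK : 0 < K) (hs0 : 0 < s) (hsh : s < h) (J : ℕ) :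
    s * (h - s) * (1 / (K + h + 1) - 1 / (K + h + 1 + J)) ≤
      ∑ j ∈ Finset.range J, s * (h - s) / ((K + j) * (K + j + h)) := by
  have hh : 0 < h := by linarith
  have hc : 0 ≤ s * (h - s) := mul_nonneg hs0.le (by linarith)
  induction J with
  | zero => simp
  | succ J ih =>
    rw [Finset.sum_range_succ]
    have h1 : 1 / (K + h + 1 + (J : ℝ)) - 1 / (K + h + 1 + ((J + 1 : ℕ) : ℝ)) ≤
        1 / ((K + J) * (K + J + h)) := by
      push_cast
      have p1 : 0 < K + h + 1 + (J : ℝ) := by positivity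
      have p2 : 0 < K + h + 1 + ((J : ℝ) + 1) := by positivity
      have p3 : 0 < K + (J : ℝ) := by positivity
      have p4 : 0 < K + (J : ℝ) + h := by positivity
      rw [div_sub_div _ _ p1.ne' p2.ne', div_le_div_iff₀ (by positivity) (by positivity)]
      nlinarith [mul_pos p3 p4, mul_pos p1 p2]
    have h2 : s * (h - s) * (1 / (K + h + 1 + (J : ℝ)) - 1 / (K + h + 1 + ((J + 1 : ℕ) : ℝ))) ≤
        s * (h - s) / ((K + J) * (K + J + h)) := by
      rw [div_eq_mul_one_div (s * (h - s))]
      exact mul_le_mul_of_nonneg_left h1 hc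
    linarith

theorem Qr_le_pow {K h s : ℝ} (hK : 0 < K) (hs0 : 0 < s) (hs1 : s ≤ 1) (hKh : 1 < K + h) :
    Qr K h s ≤ (K / (K + h - 1)) ^ s := by
  have h1 := gm_le_pow (k := K) (r := 1) hK one_pos hs0.le hs1
  have h2 := gm_neg_le (k := K + h) (r := 1) hKh one_pos hs0.le hs1
  unfold gm at h1 h2
  simp only [one_div_one, one_rpow, mul_one, div_one] at h1 h2
  unfold Qr
  rw [div_rpow hK.le (by linarith), div_eq_mul_one_div (K ^ s)]
  have e : (1 / (K + h - 1)) ^ s = 1 / (K + h - 1) ^ s := by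
    rw [div_rpow zero_le_one (by linarith), one_rpow]
  rw [e] at h2
  have e2 : K + h - s = K + h + -s := by ring
  rw [e2]
  have p : 0 ≤ Gamma (K + h + -s) / Gamma (K + h) := by
    have := Gamma_pos_of_pos (show 0 < K + h by linarith)
    have := Gamma_pos_of_pos (show 0 < K + h + -s by linarith)
    positivity
  exact mul_le_mul h1 h2 p (by positivity)

theorem Qr_le {K h s : ℝ} (hK : 0 < K) (hs0 : 0 < s) (hs1 : s ≤ 1) (hsh : s < h) :
    Qr K h s * (1 + s * (h - s) / (K + h + 1)) ≤ 1 := by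
  have hh : 0 < h := by linarith
  have hQ := Qr_pos hK hs0 hsh
  have hc : 0 ≤ s * (h - s) := mul_nonneg hs0.le (by linarith)
  -- the left side is the limit of lower bounds
  have hl : Filter.Tendsto (fun J : ℕ => Qr K h s *
      (1 + s * (h - s) * (1 / (K + h + 1) - 1 / (K + h + 1 + (J : ℝ))))) Filter.atTop
      (nhds (Qr K h s * (1 + s * (h - s) * (1 / (K + h + 1) - 0)))) := by
    refine Filter.Tendsto.const_mul _ (Filter.Tendsto.const_add _ (Filter.Tendsto.const_mul _
      (Filter.Tendsto.const_sub _ ?_)))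
    refine Filter.Tendsto.comp (g := fun y : ℝ => 1 / y) ?_
      (Filter.tendsto_atTop_add_const_left _ _ tendsto_natCast_atTop_atTop)
    simpa using tendsto_inv_atTop_zero (𝕜 := ℝ)
  have hr : Filter.Tendsto (fun J : ℕ => ((K + J) / (K + J + h - 1)) ^ s) Filter.atTop
      (nhds ((1 : ℝ) ^ s)) := by
    refine Filter.Tendsto.rpow_const ?_ (Or.inl one_ne_zero)
    have h1 : Filter.Tendsto (fun J : ℕ => 1 - (h - 1) * (1 / (K + h - 1 + (J : ℝ)))) Filter.atTop
        (nhds (1 - (h - 1) * 0)) := by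
      refine Filter.Tendsto.const_sub _ (Filter.Tendsto.const_mul _ ?_)
      refine Filter.Tendsto.comp (g := fun y : ℝ => 1 / y) ?_
        (Filter.tendsto_atTop_add_const_left _ _ tendsto_natCast_atTop_atTop)
      simpa using tendsto_inv_atTop_zero (𝕜 := ℝ)
    rw [mul_zero, sub_zero] at h1
    refine h1.congr' ?_
    filter_upwards [Filter.eventually_ge_atTop 1] with J hJ
    have hJ' : (1 : ℝ) ≤ J := by exact_mod_cast hJ
    have p : 0 < K + h - 1 + (J : ℝ) := by linarith
    have p2 : K + (J : ℝ) + h - 1 ≠ 0 := by linarith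
    field_simp
    ring
  rw [one_rpow] at hr
  have hle : Qr K h s * (1 + s * (h - s) * (1 / (K + h + 1) - 0)) ≤ 1 := by
    refine le_of_tendsto_of_tendsto hl hr ?_
    filter_upwards [Filter.eventually_ge_atTop 1] with J hJ
    have hJ' : (1 : ℝ) ≤ J := by exact_mod_cast hJ
    have h1 := Qr_iter hK hs0 hsh J
    have h2 := Qr_tel hK hs0 hsh J
    have h3 := Qr_le_pow (K := K + J) (h := h) (s := s) (by positivity) hs0 hs1 (by linarith)
    refine le_trans ?_ (h1.trans h3)
    exact mul_le_mul_of_nonneg_left (by linarith) hQ.le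
  rw [sub_zero, mul_one_div] at hle
  exact hle

end Pool.Agent.Y982.LR
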