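import Pool.Agent.Y982.LR.Stat

/-!
# LR-Lim: concentration of the statistics of the limit process
-/

set_option autoImplicit false
set_option linter.unusedSectionVars false

open scoped BigOperators ENNReal Topology
open MeasureTheory ProbabilityTheory Real Set Filter

namespace Pool.Agent.Y982.LR

/-- test functions on the open half line -/
def TestFn (f : ℝ → ℝ) : Prop := Continuous f ∧ HasCompactSupport f ∧ tsupport f ⊆ Ioi 0

theorem TestFn.bdd {f : ℝ → ℝ} (h : TestFn f) : ∃ C : ℝ, 0 ≤ C ∧ ∀ x, |f x| ≤ C := by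
  obtain ⟨C, hC⟩ := h.2.1.exists_bound_of_continuous h.1
  exact ⟨C, (norm_nonneg _).trans (hC 0), hC⟩

/-! ### cutoffs -/

noncomputable def clip (t : ℝ) : ℝ := max 0 (min 1 t)

theorem clip_nn (t : ℝ) : 0 ≤ clip t := le_max_left _ _
theorem clip_le (t : ℝ) : clip t ≤ 1 := max_le zero_le_one (min_le_left _ _)
theorem clip_mono {s t : ℝ} (h : s ≤ t) : clip s ≤ clip t :=
  max_le_max le_rfl (min_le_min le_rfl h)
theorem clip_one {t : ℝ} (h : 1 ≤ t) : clip t = 1 := by
  unfold clip; rw [min_eq_left h]; simp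
theorem clip_zero {t : ℝ} (h : t ≤ 0) : clip t = 0 := by
  unfold clip; rw [max_eq_left]; exact (min_le_right _ _).trans h

/-- cutoff to a compact subset of the open half line -/
noncomputable def chi (k : ℕ) (μ : ℝ) : ℝ := clip (((k : ℝ) + 1) * μ - 1) * clip ((k : ℝ) + 2 - μ)

theorem chi_nn (k : ℕ) (μ : ℝ) : 0 ≤ chi k μ := mul_nonneg (clip_nn _) (clip_nn _)
theorem chi_le (k : ℕ) (μ : ℝ) : chi k μ ≤ 1 :=
  mul_le_one₀ (clip_le _) (clip_nn _) (clip_le _)

theorem chi_cont (k : ℕ) : Continuous (chi k) := by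
  unfold chi clip
  fun_prop

theorem chi_one {k : ℕ} {μ : ℝ} (h1 : 2 / ((k : ℝ) + 1) ≤ μ) (h2 : μ ≤ (k : ℝ) + 1) :
    chi k μ = 1 := by
  unfold chi
  rw [clip_one, clip_one]
  · ring
  · linarith
  · rw [div_le_iff₀ (by positivity)] at h1
    linarith

theorem chi_mono {k l : ℕ} (h : k ≤ l) {μ : ℝ} (hμ : 0 ≤ μ) : chi k μ ≤ chi l μ := by
  have h' : (k : ℝ) ≤ l := by exact_mod_cast h
  unfold chi
  refine mul_le_mul (clip_mono ?_) (clip_mono ?_) (clip_nn _) (clip_nn _)
  · nlinarith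
  · linarith

theorem chi_supp {k : ℕ} {μ : ℝ} (h : chi k μ ≠ 0) :
    μ ∈ Icc (1 / ((k : ℝ) + 1)) ((k : ℝ) + 2) := by
  constructor
  · by_contra hcon
    push Not at hcon
    apply h
    unfold chi
    rw [clip_zero (t := ((k : ℝ) + 1) * μ - 1)]
    · ring
    · rw [lt_div_iff₀ (by positivity)] at hcon
      linarith
  · by_contra hcon
    push Not at hcon
    apply h
    unfold chi
    rw [clip_zero (t := (k : ℝ) + 2 - μ)]
    · ring
    · linarith

theorem testFn_chi {f : ℝ → ℝ} (hf : Continuous f) (k : ℕ) : TestFn (fun μ => f μ * chi k μ) := by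
  have hs : Function.support (fun μ => f μ * chi k μ) ⊆
      Icc (1 / ((k : ℝ) + 1)) ((k : ℝ) + 2) := by
    intro μ hμ
    rw [Function.mem_support] at hμ
    exact chi_supp (right_ne_zero_of_mul hμ)
  refine ⟨hf.mul (chi_cont k), ?_, ?_⟩
  · exact HasCompactSupport.of_support_subset_isCompact isCompact_Icc hs
  · have h1 : tsupport (fun μ => f μ * chi k μ) ⊆ Icc (1 / ((k : ℝ) + 1)) ((k : ℝ) + 2) :=
      closure_minimal hs isClosed_Icc
    intro μ hμ
    have h2 := (h1 hμ).1
    have h3 : (0 : ℝ) < 1 / ((k : ℝ) + 1) := by positivity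
    exact lt_of_lt_of_le h3 h2

/-- eventually one -/
theorem chi_lim {μ : ℝ} (hμ : 0 < μ) : ∀ᶠ k : ℕ in atTop, chi k μ = 1 := by
  obtain ⟨k₁, hk₁⟩ := exists_nat_gt (2 / μ)
  obtain ⟨k₂, hk₂⟩ := exists_nat_gt μ
  filter_upwards [eventually_ge_atTop (max k₁ k₂)] with k hk
  have h1 : (k₁ : ℝ) ≤ k := by exact_mod_cast (le_max_left _ _).trans hk
  have h2 : (k₂ : ℝ) ≤ k := by exact_mod_cast (le_max_right _ _).trans hk
  apply chi_one
  · rw [div_le_iff₀ (by positivity)]
    have : 2 / μ < k := by linarith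
    rw [div_lt_iff₀ hμ] at this
    nlinarith
  · linarith

/-- a bounded continuous functional of squared distance -/
theorem min_sq_lip (u v : ℝ) : |min (u ^ 2) 1 - min (v ^ 2) 1| ≤ 2 * |u - v| := by
  have key : ∀ u v : ℝ, u ^ 2 ≤ v ^ 2 → |min (u ^ 2) 1 - min (v ^ 2) 1| ≤ 2 * |u - v| := by
    intro u v huv
    have huv' : |u| ≤ |v| := by
      rw [← sq_abs u, ← sq_abs v] at huv
      exact abs_le_of_sq_le_sq' huv (abs_nonneg v) |>.2
    have h3 : |v| - |u| ≤ |u - v| := by
      have := abs_sub_abs_le_abs_sub v u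
      rwa [abs_sub_comm] at this
    have h4 := abs_nonneg u
    have h5 := abs_nonneg v
    rcases le_total (v ^ 2) 1 with hv | hv
    · have hu : u ^ 2 ≤ 1 := huv.trans hv
      rw [min_eq_left hu, min_eq_left hv, abs_sub_comm, abs_of_nonneg (by linarith)]
      have hv1 : |v| ≤ 1 := by
        rw [← sq_abs] at hv; nlinarith
      rw [← sq_abs u, ← sq_abs v]
      nlinarith
    · rcases le_total (u ^ 2) 1 with hu | hu
      · rw [min_eq_left hu, min_eq_right hv, abs_sub_comm, abs_of_nonneg (by linarith)]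
        have hv1 : 1 ≤ |v| := by
          rw [← sq_abs] at hv; nlinarith
        have hu1 : |u| ≤ 1 := by
          rw [← sq_abs] at hu; nlinarith
        rw [← sq_abs u]
        nlinarith
      · rw [min_eq_right hu, min_eq_right hv]
        simp
  rcases le_total (u ^ 2) (v ^ 2) with h | h
  · exact key u v h
  · rw [abs_sub_comm, abs_sub_comm u v]
    exact key v u h

section

variable (β α : ℝ) [hβ : Fact (0 < β)] [hα : Fact (0 < α)]

/-- convergence in law of the rescaled configurations -/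
def LimHyp (c : ℝ) {Ω : Type*} [MeasurableSpace Ω] (P : Measure Ω) (ξ : Ω → Measure ℝ) : Prop :=
  ∀ f : ℝ → ℝ, TestFn f → ∀ g : ℝ → ℝ, Continuous g → (∃ M : ℝ, ∀ t, |g t| ≤ M) →
    Tendsto (fun n : ℕ => ∫ w, g (LSn c n f w) ∂(PP (gam β α))) atTop
      (𝓝 (∫ ω, g (∫ x, f x ∂(ξ ω)) ∂P))

theorem LSn_int {c : ℝ} {f : ℝ → ℝ} (hf : Continuous f) {C : ℝ} (hC : ∀ x, |f x| ≤ C) (n : ℕ) :
    Integrable (LSn c n f) (PP (gam β α)) := by
  refine int_bd (meas_LSn c n hf) (C := n * C) fun w => ?_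
  unfold LSn
  refine (Finset.abs_sum_le_sum_abs _ _).trans ?_
  calc ∑ i, |f (c * n * ev n (bw w) (cw w) i)| ≤ ∑ _i : Fin n, C :=
        Finset.sum_le_sum fun i _ => hC _
    _ = n * C := by simp

/-- the truncation error -/
theorem trunc_err {c : ℝ} (hc : 0 < c) {N : ℝ} (hN : 1 < N) {δ : ℝ} (hδ : 0 < δ) :
    ∃ k₀ : ℕ, ∀ k : ℕ, k₀ ≤ k → ∃ n₀ : ℕ, ∀ n : ℕ, n₀ ≤ n →
      ∫ w, (LSn c n (fN c N) w - LSn c n (fun μ => fN c N μ * chi k μ) w) ∂(PP (gam β α)) ≤ δ := by
  obtain ⟨C₁, hC₁, H1⟩ := SS_mean β α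
  obtain ⟨C₂, hC₂, σ, hσ, n₂, H2⟩ := SS_small β α
  have hlog : 0 < Real.log N := Real.log_pos hN
  -- the error tends to zero
  set err : ℕ → ℝ := fun k => 2 * (C₂ * (2 / (c * ((k : ℝ) + 1))) ^ σ) +
    4 * N / ((((k : ℝ) + 1) / c) * Real.log N) * (C₁ * (1 + √(((k : ℝ) + 1) / c))) with herr
  have t0 : Tendsto (fun k : ℕ => (k : ℝ) + 1) atTop atTop :=
    tendsto_atTop_add_const_right _ _ tendsto_natCast_atTop_atTop
  have hlim : Tendsto err atTop (𝓝 0) := by
    have t1 : Tendsto (fun k : ℕ => (2 / (c * ((k : ℝ) + 1))) ^ σ) atTop (𝓝 0) := by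
      have h1 : Tendsto (fun k : ℕ => 2 / (c * ((k : ℝ) + 1))) atTop (𝓝 0) := by
        refine Tendsto.const_div_atTop ?_ _
        exact Tendsto.const_mul_atTop hc t0
      have := h1.rpow_const (p := σ) (Or.inr hσ.le)
      rwa [zero_rpow hσ.ne'] at this
    have t2 : Tendsto (fun k : ℕ => 4 * N / ((((k : ℝ) + 1) / c) * Real.log N) *
        (C₁ * (1 + √(((k : ℝ) + 1) / c)))) atTop (𝓝 0) := by
      set R : ℕ → ℝ := fun k => ((k : ℝ) + 1) / c with hR
      have hR0 : ∀ k, 0 < R k := fun k => by simp only [hR]; positivity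
      have tR : Tendsto R atTop atTop := t0.atTop_div_const hc
      have e : ∀ k, 4 * N / (R k * Real.log N) * (C₁ * (1 + √(R k))) =
          (4 * N / Real.log N * C₁) * (1 / R k + 1 / √(R k)) := by
        intro k
        have h1 := hR0 k
        have h2 : 0 < √(R k) := Real.sqrt_pos.2 h1
        have h3 : R k = √(R k) * √(R k) := (Real.mul_self_sqrt h1.le).symm
        have h4 : √(R k) / R k = 1 / √(R k) := by
          rw [div_eq_div_iff h1.ne' h2.ne', one_mul, ← h3]
        calc 4 * N / (R k * Real.log N) * (C₁ * (1 + √(R k))) =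
            (4 * N / Real.log N * C₁) * (1 / R k + √(R k) / R k) := by
              field_simp
          _ = _ := by rw [h4]
      have h5 : Tendsto (fun k => (4 * N / Real.log N * C₁) * (1 / R k + 1 / √(R k))) atTop
          (𝓝 ((4 * N / Real.log N * C₁) * (0 + 0))) := by
        refine Tendsto.const_mul _ (Tendsto.add ?_ ?_)
        · exact Tendsto.const_div_atTop tR _
        · exact Tendsto.const_div_atTop (Real.tendsto_sqrt_atTop.comp tR) _
      rw [add_zero, mul_zero] at h5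
      exact h5.congr fun k => (e k).symm
    have := (t1.const_mul C₂).const_mul 2
    have h6 := this.add t2
    rw [mul_zero, mul_zero, add_zero] at h6
    exact h6
  have hev : ∀ᶠ k : ℕ in atTop, err k ≤ δ ∧ 2 / (c * ((k : ℝ) + 1)) ≤ 1 ∧
      2 ≤ ((k : ℝ) + 1) / c := by
    refine (hlim.eventually (ge_mem_nhds hδ)).and ?_
    obtain ⟨k₁, hk₁⟩ := exists_nat_gt (max (2 / c) (2 * c))
    filter_upwards [eventually_ge_atTop k₁] with k hk
    have h1 : (k₁ : ℝ) ≤ k := by exact_mod_cast hk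
    have h2 := le_max_left (2 / c) (2 * c)
    have h3 := le_max_right (2 / c) (2 * c)
    constructor
    · rw [div_le_one (by positivity)]
      have : 2 / c < k := by linarith
      rw [div_lt_iff₀ hc] at this
      nlinarith
    · rw [le_div_iff₀ hc]
      linarith
  obtain ⟨k₀, hk₀⟩ := eventually_atTop.1 hev
  refine ⟨k₀, fun k hk => ?_⟩
  obtain ⟨g1, g2, g3⟩ := hk₀ k hk
  obtain ⟨n₁, hn₁⟩ := H1 _ g3
  refine ⟨max 1 (max n₁ n₂), fun n hn => ?_⟩
  have hn1 : 1 ≤ n := (le_max_left _ _).trans hn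
  have hnn1 : n₁ ≤ n := ((le_max_left _ _).trans (le_max_right _ _)).trans hn
  have hnn2 : n₂ ≤ n := ((le_max_right _ _).trans (le_max_right _ _)).trans hn
  have hn0 : (0 : ℝ) < n := by exact_mod_cast hn1
  set ε : ℝ := 2 / (c * ((k : ℝ) + 1)) with hε
  set R : ℝ := ((k : ℝ) + 1) / c with hR
  have hε0 : 0 < ε := by positivity
  have hR0 : 0 < R := by positivity
  have m1 := hn₁ n hnn1
  have m2 := H2 ε hε0 g2 n hnn2
  have i1 := (SS_int β α (n := n) (x := R / n) (by positivity)).1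
  have i2 := (SS_int β α (n := n) (x := ε / n) (by positivity)).1
  have hpt : ∀ w, LSn c n (fN c N) w - LSn c n (fun μ => fN c N μ * chi k μ) w ≤
      2 * SS n (ε / n) w + 4 * N / (R * Real.log N) * SS n (R / n) w := by
    intro w
    rw [SS_ev (by positivity), SS_ev (by positivity), Finset.mul_sum, Finset.mul_sum]
    unfold LSn
    rw [← Finset.sum_sub_distrib, ← Finset.sum_add_distrib]
    refine Finset.sum_le_sum fun i _ => ?_
    have h3 := ev_nn n (bw w) (cw w) i
    set l := ev n (bw w) (cw w) i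
    set μ : ℝ := c * n * l with hμ
    have hμ0 : 0 ≤ μ := by positivity
    have a1 : ε / n / (l + ε / n) = ε / (μ / c + ε) := by
      rw [hμ]; field_simp
    have a2 : R / n / (l + R / n) = R / (μ / c + R) := by
      rw [hμ]; field_simp
    rw [a1, a2]
    change fN c N μ - fN c N μ * chi k μ ≤
      2 * (ε / (μ / c + ε)) + 4 * N / (R * Real.log N) * (R / (μ / c + R))
    have hμc : 0 ≤ μ / c := by positivity
    have p1 : 0 ≤ 2 * (ε / (μ / c + ε)) := by positivity
    have p2 : 0 ≤ 4 * N / (R * Real.log N) * (R / (μ / c + R)) := by positivity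
    have hf0 := fN_nn hc hN μ
    have hf1 := fN_le_one hc hN μ
    have hch0 := chi_nn k μ
    have hch1 := chi_le k μ
    have hle : fN c N μ - fN c N μ * chi k μ ≤ fN c N μ := by nlinarith
    rcases lt_or_ge μ (2 / ((k : ℝ) + 1)) with h | h
    · have h5 : μ / c ≤ ε := by
        rw [hε, div_le_div_iff₀ hc (by positivity)]
        rw [lt_div_iff₀ (by positivity)] at h
        nlinarith
      have h6 : 1 ≤ 2 * (ε / (μ / c + ε)) := by
        rw [← mul_div_assoc, le_div_iff₀ (by positivity)]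
        linarith
      linarith
    · rcases le_or_gt μ ((k : ℝ) + 1) with h' | h'
      · rw [chi_one h h']
        linarith
      · have h5 : R ≤ μ / c := by
          rw [hR]
          gcongr
        have h6 := fN_decay hc hN hμ0
        have h7 : (2 * N / Real.log N) * (1 / (μ / c + 2)) ≤
            4 * N / (R * Real.log N) * (R / (μ / c + R)) := by
          have e1 : 4 * N / (R * Real.log N) * (R / (μ / c + R)) =
              (2 * N / Real.log N) * (2 / (μ / c + R)) := by
            field_simp; ring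
          rw [e1]
          refine mul_le_mul_of_nonneg_left ?_ (by positivity)
          rw [div_le_div_iff₀ (by positivity) (by positivity)]
          linarith
        linarith
  have hfb : ∀ x, |fN c N x| ≤ 1 := fun x => by
    rw [abs_of_nonneg (fN_nn hc hN x)]; exact fN_le_one hc hN x
  have hfb2 : ∀ x, |fN c N x * chi k x| ≤ 1 := fun x => by
    rw [abs_of_nonneg (mul_nonneg (fN_nn hc hN x) (chi_nn k x))]
    exact mul_le_one₀ (fN_le_one hc hN x) (chi_nn k x) (chi_le k x)
  have iL := (LSn_int β α (c := c) (fN_cont hc hN) hfb n).sub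
    (LSn_int β α (c := c) ((fN_cont hc hN).mul (chi_cont k)) hfb2 n)
  calc ∫ w, (LSn c n (fN c N) w - LSn c n (fun μ => fN c N μ * chi k μ) w) ∂(PP (gam β α))
      ≤ ∫ w, (2 * SS n (ε / n) w + 4 * N / (R * Real.log N) * SS n (R / n) w)
          ∂(PP (gam β α)) :=
        integral_mono iL ((i2.const_mul _).add (i1.const_mul _)) hpt
    _ = 2 * (∫ w, SS n (ε / n) w ∂(PP (gam β α))) +
          4 * N / (R * Real.log N) * ∫ w, SS n (R / n) w ∂(PP (gam β α)) := by
        rw [integral_add (i2.const_mul _) (i1.const_mul _), integral_const_mul,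
          integral_const_mul]
    _ ≤ 2 * (C₂ * ε ^ σ) + 4 * N / (R * Real.log N) * (C₁ * (1 + √R)) := by gcongr
    _ ≤ δ := g1

variable {Ω : Type*} [MeasurableSpace Ω] (P : Measure Ω) [IsProbabilityMeasure P]
  (ξ : Ω → Measure ℝ)

/-- the extended linear statistic of the limit process -/
noncomputable def Yl (f : ℝ → ℝ) (ω : Ω) : ℝ≥0∞ := ∫⁻ x, ENNReal.ofReal (f x) ∂(ξ ω)

theorem Yl_meas (hm : Measurable ξ) {f : ℝ → ℝ} (hf : Measurable f) : Measurable (Yl ξ f) :=
  (Measure.measurable_lintegral hf.ennreal_ofReal).comp hm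

theorem int_eq_Yl {f : ℝ → ℝ} (hf : Continuous f) (h0 : ∀ x, 0 ≤ f x) (ω : Ω) :
    ∫ x, f x ∂(ξ ω) = (Yl ξ f ω).toReal :=
  integral_eq_lintegral_of_nonneg_ae (Filter.Eventually.of_forall h0)
    hf.measurable.aestronglyMeasurable

/-- local finiteness on the open half line -/
def LocFin : Prop := ∀ᵐ ω ∂P, ∀ r s : ℝ, 0 < r → ξ ω (Icc r s) < ∞

variable {P ξ}

theorem Yl_fin (hfin : LocFin P ξ) {f : ℝ → ℝ} (hf : Continuous f) (h1 : ∀ x, f x ≤ 1) (k : ℕ) :
    ∀ᵐ ω ∂P, Yl ξ (fun μ => f μ * chi k μ) ω < ∞ := by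
  filter_upwards [hfin] with ω hω
  have h2 := hω (1 / ((k : ℝ) + 1)) ((k : ℝ) + 2) (by positivity)
  unfold Yl
  refine lt_of_le_of_lt ?_ h2
  calc ∫⁻ x, ENNReal.ofReal (f x * chi k x) ∂(ξ ω)
      ≤ ∫⁻ x, (Icc (1 / ((k : ℝ) + 1)) ((k : ℝ) + 2)).indicator 1 x ∂(ξ ω) := by
        refine lintegral_mono fun x => ?_
        by_cases h : chi k x = 0
        · rw [h]; simp
        · rw [indicator_of_mem (chi_supp h)]
          simp only [Pi.one_apply]
          rw [ENNReal.ofReal_le_one]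
          have := chi_nn k x
          have := chi_le k x
          have := h1 x
          nlinarith
    _ = _ := lintegral_indicator_one measurableSet_Icc

/-- the mean of a truncated statistic -/
theorem mean_trunc {c : ℝ} (hlim : LimHyp β α c P ξ) (hm : Measurable ξ) (hfin : LocFin P ξ)
    {f : ℝ → ℝ} (hf : Continuous f) (h0 : ∀ x, 0 ≤ f x) (h1 : ∀ x, f x ≤ 1) (k : ℕ) {K : ℝ}
    (hK : ∀ᶠ n : ℕ in atTop, ∫ w, LSn c n (fun μ => f μ * chi k μ) w ∂(PP (gam β α)) ≤ K) :
    ∫⁻ ω, Yl ξ (fun μ => f μ * chi k μ) ω ∂P ≤ ENNReal.ofReal K := by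
  set F : ℝ → ℝ := fun μ => f μ * chi k μ with hF
  have hFc : Continuous F := hf.mul (chi_cont k)
  have hF0 : ∀ x, 0 ≤ F x := fun x => mul_nonneg (h0 x) (chi_nn k x)
  have hF1 : ∀ x, |F x| ≤ 1 := fun x => by
    rw [abs_of_nonneg (hF0 x)]
    exact mul_le_one₀ (h1 x) (chi_nn k x) (chi_le k x)
  have hYm : Measurable (Yl ξ F) := Yl_meas ξ hm hFc.measurable
  have hYf := Yl_fin hfin hf h1 k
  -- truncated
  have hM : ∀ M : ℕ, ∫⁻ ω, ENNReal.ofReal (min (Yl ξ F ω).toReal M) ∂P ≤ ENNReal.ofReal K := by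
    intro M
    have ht := hlim F (testFn_chi hf k) (fun t => min (max t 0) M) (by fun_prop) ⟨M, fun t => by
      rw [abs_of_nonneg (le_min (le_max_right _ _) (by positivity))]
      exact min_le_right _ _⟩
    have e1 : ∀ ω, min (max (∫ x, F x ∂(ξ ω)) 0) (M : ℝ) = min (Yl ξ F ω).toReal M := by
      intro ω
      rw [int_eq_Yl ξ hFc hF0, max_eq_left ENNReal.toReal_nonneg]
    simp only [e1] at ht
    have h5 : ∫ ω, min (Yl ξ F ω).toReal (M : ℝ) ∂P ≤ K := by
      refine le_of_tendsto ht ?_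
      filter_upwards [hK] with n hn
      refine le_trans ?_ hn
      have iF := LSn_int β α (c := c) hFc hF1 n
      refine integral_mono_of_nonneg (Filter.Eventually.of_forall fun w =>
        le_min (le_max_right _ _) (by positivity)) iF (Filter.Eventually.of_forall fun w => ?_)
      have h6 : 0 ≤ LSn c n F w := Finset.sum_nonneg fun i _ => hF0 _
      simp only
      rw [max_eq_left h6]
      exact min_le_left _ _
    have h7 : Integrable (fun ω => min (Yl ξ F ω).toReal (M : ℝ)) P := by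
      refine int_bd (hYm.ennreal_toReal.min measurable_const) (C := M) fun ω => ?_
      rw [abs_of_nonneg (le_min ENNReal.toReal_nonneg (by positivity))]
      exact min_le_right _ _
    rw [← ofReal_integral_eq_lintegral_ofReal h7 (Filter.Eventually.of_forall fun ω =>
      le_min ENNReal.toReal_nonneg (by positivity))]
    exact ENNReal.ofReal_le_ofReal h5
  have hmono : ∫⁻ ω, ⨆ M : ℕ, ENNReal.ofReal (min (Yl ξ F ω).toReal M) ∂P =
      ⨆ M : ℕ, ∫⁻ ω, ENNReal.ofReal (min (Yl ξ F ω).toReal M) ∂P := by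
    refine lintegral_iSup (fun M => (hYm.ennreal_toReal.min measurable_const).ennreal_ofReal) ?_
    intro M M' hMM ω
    exact ENNReal.ofReal_le_ofReal (min_le_min le_rfl (by exact_mod_cast hMM))
  have hsup : ∀ᵐ ω ∂P, Yl ξ F ω = ⨆ M : ℕ, ENNReal.ofReal (min (Yl ξ F ω).toReal M) := by
    filter_upwards [hYf] with ω hω
    apply le_antisymm
    · obtain ⟨M, hM'⟩ := exists_nat_ge (Yl ξ F ω).toReal
      refine le_trans ?_ (le_iSup _ M)
      rw [min_eq_left hM', ENNReal.ofReal_toReal hω.ne]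
    · refine iSup_le fun M => ?_
      rw [← ENNReal.ofReal_toReal hω.ne]
      rw [ENNReal.toReal_ofReal ENNReal.toReal_nonneg]
      exact ENNReal.ofReal_le_ofReal (min_le_left _ _)
  rw [lintegral_congr_ae hsup, hmono]
  exact iSup_le hM

/-- the full statistic -/
noncomputable def Xf (ξ : Ω → Measure ℝ) (f : ℝ → ℝ) (ω : Ω) : ℝ≥0∞ :=
  ∫⁻ x in Ioi 0, ENNReal.ofReal (f x) ∂(ξ ω)

theorem Xf_iSup {f : ℝ → ℝ} (hf : Continuous f) (h0 : ∀ x, 0 ≤ f x) (ω : Ω) :
    Xf ξ f ω = ⨆ k : ℕ, Yl ξ (fun μ => f μ * chi k μ) ω := by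
  unfold Xf Yl
  rw [← lintegral_indicator measurableSet_Ioi]
  have hmono : Monotone fun (k : ℕ) (x : ℝ) => ENNReal.ofReal (f x * chi k x) := by
    intro k l hkl x
    apply ENNReal.ofReal_le_ofReal
    rcases le_total 0 x with hx | hx
    · exact mul_le_mul_of_nonneg_left (chi_mono hkl hx) (h0 x)
    · have h1 : ∀ j : ℕ, chi j x = 0 := by
        intro j
        by_contra hcon
        have h2 := (chi_supp hcon).1
        have h3 : (0 : ℝ) < 1 / ((j : ℝ) + 1) := by positivity
        linarith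
      simp only [h1]
      exact le_rfl
  have hmeas : ∀ k : ℕ, Measurable fun x : ℝ => ENNReal.ofReal (f x * chi k x) := fun k =>
    (hf.mul (chi_cont k)).measurable.ennreal_ofReal
  refine Eq.trans ?_ (lintegral_iSup (μ := ξ ω) hmeas hmono)
  refine lintegral_congr fun x => ?_
  by_cases hx : 0 < x
  · rw [indicator_of_mem (by exact hx)]
    apply le_antisymm
    · obtain ⟨k, hk⟩ := (chi_lim hx).exists
      refine le_trans ?_ (le_iSup _ k)
      beta_reduce
      rw [hk, mul_one]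
    · refine iSup_le fun k => ENNReal.ofReal_le_ofReal ?_
      exact mul_le_of_le_one_right (h0 x) (chi_le k x)
  · rw [indicator_of_notMem (by simpa using hx)]
    symm
    rw [← nonpos_iff_eq_zero]
    refine iSup_le fun k => ?_
    have h1 : chi k x = 0 := by
      by_contra hcon
      have h2 := (chi_supp hcon).1
      have h3 : (0 : ℝ) < 1 / ((k : ℝ) + 1) := by positivity
      linarith
    beta_reduce
    rw [h1]; simp

theorem Xf_meas (hm : Measurable ξ) {f : ℝ → ℝ} (hf : Continuous f) (h0 : ∀ x, 0 ≤ f x) :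
    Measurable (Xf ξ f) := by
  have : Xf ξ f = fun ω => ⨆ k : ℕ, Yl ξ (fun μ => f μ * chi k μ) ω := by
    funext ω; exact Xf_iSup hf h0 ω
  rw [this]
  exact Measurable.iSup fun k => Yl_meas ξ hm (hf.mul (chi_cont k)).measurable

theorem Yl_mono {f : ℝ → ℝ} (h0 : ∀ x, 0 ≤ f x) (ω : Ω) :
    Monotone fun k : ℕ => Yl ξ (fun μ => f μ * chi k μ) ω := by
  intro k l hkl
  refine lintegral_mono fun x => ENNReal.ofReal_le_ofReal ?_
  rcases le_total 0 x with hx | hx
  · exact mul_le_mul_of_nonneg_left (chi_mono hkl hx) (h0 x)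
  · have h1 : ∀ j : ℕ, chi j x = 0 := by
      intro j
      by_contra hcon
      have h2 := (chi_supp hcon).1
      have h3 : (0 : ℝ) < 1 / ((j : ℝ) + 1) := by positivity
      linarith
    simp only [h1]
    exact le_rfl

/-- the full statistic has a finite mean -/
theorem Xf_mean {c : ℝ} (hc : 0 < c) (hlim : LimHyp β α c P ξ) (hm : Measurable ξ)
    (hfin : LocFin P ξ) {N : ℝ} (hN : 1 < N) : ∫⁻ ω, Xf ξ (fN c N) ω ∂P < ∞ := by
  obtain ⟨K, n₀, hK⟩ := LS_mean_bd β α hc hN
  have h0 := fN_nn hc hN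
  have h1 := fN_le_one hc hN
  have hf := fN_cont hc hN
  have hk : ∀ k : ℕ, ∫⁻ ω, Yl ξ (fun μ => fN c N μ * chi k μ) ω ∂P ≤ ENNReal.ofReal K := by
    intro k
    refine mean_trunc β α hlim hm hfin hf h0 h1 k ?_
    filter_upwards [eventually_ge_atTop n₀] with n hn
    refine le_trans ?_ (hK n hn).2
    have hfb : ∀ x, |fN c N x| ≤ 1 := fun x => by
      rw [abs_of_nonneg (fN_nn hc hN x)]; exact fN_le_one hc hN x
    have hfb2 : ∀ x, |fN c N x * chi k x| ≤ 1 := fun x => by
      rw [abs_of_nonneg (mul_nonneg (fN_nn hc hN x) (chi_nn k x))]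
      exact mul_le_one₀ (fN_le_one hc hN x) (chi_nn k x) (chi_le k x)
    refine integral_mono (LSn_int β α (hf.mul (chi_cont k)) hfb2 n) (LSn_int β α hf hfb n)
      fun w => ?_
    exact Finset.sum_le_sum fun i _ => mul_le_of_le_one_right (h0 _) (chi_le k _)
  have e : ∫⁻ ω, Xf ξ (fN c N) ω ∂P = ⨆ k : ℕ, ∫⁻ ω, Yl ξ (fun μ => fN c N μ * chi k μ) ω ∂P := by
    have hmeas : ∀ k : ℕ, Measurable (Yl ξ (fun μ => fN c N μ * chi k μ)) := fun k =>
      Yl_meas ξ hm (hf.mul (chi_cont k)).measurable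
    have hmono : Monotone fun k : ℕ => Yl ξ (fun μ => fN c N μ * chi k μ) :=
      fun k l hkl ω => Yl_mono h0 ω hkl
    refine Eq.trans ?_ (lintegral_iSup (μ := P) hmeas hmono)
    exact lintegral_congr fun ω => Xf_iSup hf h0 ω
  rw [e]
  exact lt_of_le_of_lt (iSup_le hk) ENNReal.ofReal_lt_top

/-- concentration of the statistic of the limit process -/
theorem conc : ∃ C : ℝ, 0 ≤ C ∧ ∀ {Ω : Type*} [MeasurableSpace Ω] (P : Measure Ω)
    [IsProbabilityMeasure P] (ξ : Ω → Measure ℝ) (c : ℝ), 0 < c → LimHyp β α c P ξ →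
    Measurable ξ → LocFin P ξ → ∀ N : ℝ, 1 < N → ∃ m : ℝ,
      ∫ ω, min (((Xf ξ (fN c N) ω).toReal - m) ^ 2) 1 ∂P ≤ VN C N := by
  obtain ⟨C, hC, HV⟩ := LS_var β α
  refine ⟨C, hC, fun {Ω} _ P _ ξ c hc hlim hm hfin N hN => ?_⟩
  obtain ⟨n₁, hV⟩ := HV c hc N hN
  obtain ⟨K, n₂, hK⟩ := LS_mean_bd β α hc hN
  have h0 := fN_nn hc hN
  have h1 := fN_le_one hc hN
  have hf := fN_cont hc hN
  have hfb : ∀ x, |fN c N x| ≤ 1 := fun x => by
    rw [abs_of_nonneg (fN_nn hc hN x)]; exact fN_le_one hc hN x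
  set mn : ℕ → ℝ := fun n => ∫ w, LSn c n (fN c N) w ∂(PP (gam β α)) with hmn
  obtain ⟨m, -, φ, hφ, hlimm⟩ := isCompact_Icc.tendsto_subseq
    (x := fun n => mn (n + n₂)) (s := Icc 0 K) fun n => by
      obtain ⟨a1, a2⟩ := hK (n + n₂) (by omega)
      exact ⟨a1, a2⟩
  refine ⟨m, ?_⟩
  -- it suffices to add a small error
  refine le_of_forall_pos_le_add fun δ hδ => ?_
  obtain ⟨k₀, hk₀⟩ := trunc_err β α hc hN (half_pos hδ)
  set g : ℝ → ℝ := fun t => min ((t - m) ^ 2) 1 with hg
  have hgc : Continuous g := by simp only [hg]; fun_prop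
  have hgb : ∀ t, |g t| ≤ 1 := fun t => by
    rw [abs_of_nonneg (le_min (sq_nonneg _) zero_le_one)]
    exact min_le_right _ _
  have hk : ∀ k, k₀ ≤ k →
      ∫ ω, g ((Yl ξ (fun μ => fN c N μ * chi k μ) ω).toReal) ∂P ≤ VN C N + δ := by
    intro k hkk
    obtain ⟨n₃, hn₃⟩ := hk₀ k hkk
    have hfb2 : ∀ x, |fN c N x * chi k x| ≤ 1 := fun x => by
      rw [abs_of_nonneg (mul_nonneg (fN_nn hc hN x) (chi_nn k x))]
      exact mul_le_one₀ (fN_le_one hc hN x) (chi_nn k x) (chi_le k x)
    have ht := hlim _ (testFn_chi hf k) g hgc ⟨1, hgb⟩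
    have e1 : ∀ ω, ∫ x, fN c N x * chi k x ∂(ξ ω) =
        (Yl ξ (fun μ => fN c N μ * chi k μ) ω).toReal := fun ω =>
      int_eq_Yl ξ (hf.mul (chi_cont k)) (fun x => mul_nonneg (h0 x) (chi_nn k x)) ω
    simp only [e1] at ht
    have hsub : Tendsto (fun j => φ j + n₂) atTop atTop :=
      tendsto_atTop_mono (fun j => Nat.le_add_right _ _) hφ.tendsto_atTop
    have ht2 := ht.comp hsub
    have hr : Tendsto (fun j => VN C N + (mn (φ j + n₂) - m) ^ 2 + δ) atTop
        (𝓝 (VN C N + (m - m) ^ 2 + δ)) :=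
      (Tendsto.const_add _ ((hlimm.sub_const m).pow 2)).add_const _
    have e2 : VN C N + (m - m) ^ 2 + δ = VN C N + δ := by ring
    rw [e2] at hr
    refine le_of_tendsto_of_tendsto ht2 hr ?_
    filter_upwards [hsub.eventually_ge_atTop n₁, hsub.eventually_ge_atTop n₃] with j hj1 hj3
    simp only [Function.comp]
    set n := φ j + n₂
    have hvar := hV n hj1 m
    have herr := hn₃ n hj3
    have iL1 := LSn_int β α (c := c) hf hfb n
    have iL2 := LSn_int β α (c := c) (hf.mul (chi_cont k)) hfb2 n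
    have iD : Integrable (fun w => LSn c n (fN c N) w - LSn c n (fun μ => fN c N μ * chi k μ) w)
        (PP (gam β α)) := iL1.sub iL2
    have iS : Integrable (fun w => (LSn c n (fN c N) w - m) ^ 2) (PP (gam β α)) := by
      refine int_bd (((meas_LSn c n hf).sub_const m).pow_const 2) (C := (n * 1 + |m|) ^ 2)
        fun w => ?_
      rw [abs_of_nonneg (sq_nonneg _), ← sq_abs]
      have h5 : |LSn c n (fN c N) w| ≤ n * 1 := by
        unfold LSn
        refine (Finset.abs_sum_le_sum_abs _ _).trans ?_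
        calc ∑ i, |fN c N (c * n * ev n (bw w) (cw w) i)| ≤ ∑ _i : Fin n, (1 : ℝ) :=
              Finset.sum_le_sum fun i _ => hfb _
          _ = n * 1 := by simp
      refine pow_le_pow_left₀ (abs_nonneg _) ?_ 2
      exact (abs_sub _ _).trans (by linarith)
    calc ∫ w, g (LSn c n (fun μ => fN c N μ * chi k μ) w) ∂(PP (gam β α))
        ≤ ∫ w, ((LSn c n (fN c N) w - m) ^ 2 + 2 * (LSn c n (fN c N) w -
            LSn c n (fun μ => fN c N μ * chi k μ) w)) ∂(PP (gam β α)) := by
          refine integral_mono (int_bd (hgc.measurable.comp (meas_LSn c n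
            (hf.mul (chi_cont k)))) (C := 1) fun w => hgb _) (iS.add (iD.const_mul 2))
            fun w => ?_
          have h6 := min_sq_lip (LSn c n (fun μ => fN c N μ * chi k μ) w - m)
            (LSn c n (fN c N) w - m)
          have h7 : 0 ≤ LSn c n (fN c N) w - LSn c n (fun μ => fN c N μ * chi k μ) w := by
            unfold LSn
            rw [← Finset.sum_sub_distrib]
            refine Finset.sum_nonneg fun i _ => ?_
            have := mul_le_of_le_one_right (h0 (c * n * ev n (bw w) (cw w) i))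
              (chi_le k (c * n * ev n (bw w) (cw w) i))
            linarith
          have h8 : |LSn c n (fun μ => fN c N μ * chi k μ) w - m - (LSn c n (fN c N) w - m)| =
              LSn c n (fN c N) w - LSn c n (fun μ => fN c N μ * chi k μ) w := by
            rw [abs_sub_comm, abs_of_nonneg (by linarith)]
            ring
          rw [h8] at h6
          have h9 := (abs_le.1 h6).2
          have h10 : min ((LSn c n (fN c N) w - m) ^ 2) 1 ≤ (LSn c n (fN c N) w - m) ^ 2 :=
            min_le_left _ _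
          simp only [hg]
          linarith
      _ = ∫ w, (LSn c n (fN c N) w - m) ^ 2 ∂(PP (gam β α)) + 2 * ∫ w, (LSn c n (fN c N) w -
            LSn c n (fun μ => fN c N μ * chi k μ) w) ∂(PP (gam β α)) := by
          rw [integral_add iS (iD.const_mul 2), integral_const_mul]
      _ ≤ VN C N + (mn n - m) ^ 2 + δ := by
          have : mn n = ∫ w, LSn c n (fN c N) w ∂(PP (gam β α)) := rfl
          rw [this]
          linarith
  -- pass to the limit in the cutoff
  have hXf := Xf_mean β α hc hlim hm hfin hN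
  have hXfin : ∀ᵐ ω ∂P, Xf ξ (fN c N) ω < ∞ := ae_lt_top (Xf_meas hm hf h0) hXf.ne
  have hconv : Tendsto (fun k : ℕ => ∫ ω, g ((Yl ξ (fun μ => fN c N μ * chi k μ) ω).toReal) ∂P)
      atTop (𝓝 (∫ ω, g ((Xf ξ (fN c N) ω).toReal) ∂P)) := by
    refine tendsto_integral_of_dominated_convergence (fun _ => (1 : ℝ)) (fun k => ?_)
      (integrable_const _) (fun k => Filter.Eventually.of_forall fun ω => hgb _) ?_
    · exact (hgc.measurable.comp
        (Yl_meas ξ hm (hf.mul (chi_cont k)).measurable).ennreal_toReal).aestronglyMeasurable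
    · filter_upwards [hXfin] with ω hω
      refine (hgc.tendsto _).comp ?_
      refine (ENNReal.tendsto_toReal hω.ne).comp ?_
      rw [Xf_iSup hf h0]
      exact tendsto_atTop_iSup (Yl_mono h0 ω)
  refine le_of_tendsto hconv ?_
  filter_upwards [eventually_ge_atTop k₀] with k hkk
  exact hk k hkk

end

end Pool.Agent.Y982.LR
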