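import Pool.Agent.Y982.LR.Var

/-!
# LR-Mean: the mean of the logarithmic derivative
-/

set_option autoImplicit false
set_option linter.unusedSectionVars false

open scoped BigOperators ENNReal
open MeasureTheory ProbabilityTheory Real Set

namespace Pool.Agent.Y982.LR

section

variable (β α : ℝ) [hβ : Fact (0 < β)] [hα : Fact (0 < α)]

/-- Jensen for the reciprocal of the right chain -/
theorem jensen_inv {x : ℝ} (hx : 0 < x) (q : ℕ) {s : ℝ} (hs0 : 0 ≤ s) (hs : s ≤ 1) :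
    Integrable (fun θ => (Ar (bq θ) (cq θ) x q)⁻¹ ^ s) (Pr β α) ∧
    ∫ θ, (Ar (bq θ) (cq θ) x q)⁻¹ ^ s ∂(Pr β α) ≤
      (∫ θ, (Ar (bq θ) (cq θ) x q)⁻¹ ∂(Pr β α)) ^ s := by
  have hge : ∀ θ : Th, 1 ≤ Ar (bq θ) (cq θ) x q := fun θ => Ar_ge (bq_nn θ) (cq_nn θ) hx q
  have hpos : ∀ θ : Th, 0 < (Ar (bq θ) (cq θ) x q)⁻¹ := fun θ => by
    have := hge θ
    positivity
  have hle : ∀ θ : Th, (Ar (bq θ) (cq θ) x q)⁻¹ ≤ 1 := fun θ => inv_le_one_of_one_le₀ (hge θ)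
  have hI := Ar_inv_int β α hx q
  have hIs : Integrable (fun θ => (Ar (bq θ) (cq θ) x q)⁻¹ ^ s) (Pr β α) := by
    refine int_bd ((dep_Ar x q).meas.inv.pow_const s) (C := 1) fun θ => ?_
    rw [abs_of_nonneg (rpow_nonneg (hpos θ).le _)]
    exact rpow_le_one (hpos θ).le (hle θ) hs0
  refine ⟨hIs, ?_⟩
  set m := ∫ θ, (Ar (bq θ) (cq θ) x q)⁻¹ ∂(Pr β α) with hm
  have hm0 : 0 < m := by
    rw [hm, integral_pos_iff_support_of_nonneg (fun θ => (hpos θ).le) hI]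
    have : Function.support (fun θ : Th => (Ar (bq θ) (cq θ) x q)⁻¹) = univ := by
      ext θ
      simp only [Function.mem_support, mem_univ, iff_true]
      exact (hpos θ).ne'
    rw [this, measure_univ]
    exact one_pos
  obtain ⟨i1, e1⟩ := int_affine hI (m ^ s) (s * m ^ (s - 1)) m
  rw [← hm, sub_self, mul_zero, add_zero] at e1
  calc ∫ θ, (Ar (bq θ) (cq θ) x q)⁻¹ ^ s ∂(Pr β α)
      ≤ ∫ θ, (m ^ s + s * m ^ (s - 1) * ((Ar (bq θ) (cq θ) x q)⁻¹ - m)) ∂(Pr β α) := by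
        refine integral_mono hIs i1 fun θ => ?_
        have h2 := tan_pow (v := m) (u := (Ar (bq θ) (cq θ) x q)⁻¹ - m) (s := s) hm0
          (by linarith [hpos θ]) hs0 hs
        have e : m + ((Ar (bq θ) (cq θ) x q)⁻¹ - m) = (Ar (bq θ) (cq θ) x q)⁻¹ := by ring
        rw [e] at h2
        beta_reduce
        linarith
    _ = m ^ s := e1

/-- one term of the logarithmic derivative -/
noncomputable def pt (x : ℝ) (k q : ℕ) (θ : Th) : ℝ :=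
  x * Al (bq θ) (cq θ) x k q / (bq θ q + x * Ar (bq θ) (cq θ) x q * Al (bq θ) (cq θ) x k q)

theorem pt_meas (x : ℝ) (k q : ℕ) : Measurable (pt x k q) := by
  have m1 : Measurable (fun θ => Ar (bq θ) (cq θ) x q) := (dep_Ar x q).meas
  have m2 : Measurable (fun θ => Al (bq θ) (cq θ) x k q) := (dep_Al x k q).meas
  have m3 : Measurable (fun θ => bq θ q) := (dep_bq (Set.mem_singleton _)).meas
  unfold pt
  fun_prop

theorem pt_bd {x : ℝ} (hx : 0 < x) (k q : ℕ) (θ : Th) :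
    0 ≤ pt x k q θ ∧ pt x k q θ ≤ (Ar (bq θ) (cq θ) x q)⁻¹ := by
  have h1 := Ar_ge (bq_nn θ) (cq_nn θ) hx q
  have h2 := Al_ge (bq_nn θ) (cq_nn θ) hx k q
  have h3 := bq_nn θ q
  unfold pt
  set A := Ar (bq θ) (cq θ) x q
  set A' := Al (bq θ) (cq θ) x k q
  have hA : 0 < A := by linarith
  have hA' : 0 < A' := by linarith
  refine ⟨by positivity, ?_⟩
  rw [div_le_iff₀ (by positivity)]
  have e : A⁻¹ * (bq θ q + x * A * A') = A⁻¹ * bq θ q + x * A' := by field_simp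
  rw [e]
  have : 0 ≤ A⁻¹ * bq θ q := by positivity
  linarith

theorem pt_int {x : ℝ} (hx : 0 < x) (k q : ℕ) : Integrable (pt x k q) (Pr β α) := by
  refine int_bd (pt_meas x k q) (C := 1) fun θ => ?_
  obtain ⟨h1, h2⟩ := pt_bd hx k q θ
  rw [abs_of_nonneg h1]
  exact h2.trans (inv_le_one_of_one_le₀ (Ar_ge (bq_nn θ) (cq_nn θ) hx q))

theorem pt_le {x : ℝ} (hx : 0 < x) (k q : ℕ) {θ : Th} (hb : 0 < bq θ q) :
    pt x k q θ ≤ x * Al (bq θ) (cq θ) x k q * (bq θ q)⁻¹ := by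
  have h1 := Ar_ge (bq_nn θ) (cq_nn θ) hx q
  have h2 := Al_ge (bq_nn θ) (cq_nn θ) hx k q
  unfold pt
  rw [← div_eq_mul_inv]
  apply div_le_div_of_nonneg_left (by positivity) hb
  have : 0 ≤ x * Ar (bq θ) (cq θ) x q * Al (bq θ) (cq θ) x k q := by positivity
  linarith

/-- terms above the cutoff -/
theorem pt_high : ∃ C : ℝ, 0 ≤ C ∧ ∃ q₁ : ℕ, ∀ x : ℝ, 0 < x → x ≤ 1 → ∀ k q : ℕ, q₁ ≤ q →
    1 ≤ x * (q + 1) →
    ∫ θ, pt x k q θ ∂(Pr β α) ≤ C * (√x * ((q : ℝ) + 1) ^ ((1 / 2 : ℝ) - 1)) := by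
  have hb := hβ.1
  have ha := hα.1
  obtain ⟨M, hM, q₁, hL⟩ := L1 β α
  refine ⟨M * 2, by linarith, q₁ + ⌈2 + 4 / β⌉₊, fun x hx hx1 k q hq hxq => ?_⟩
  have h3 := hL x hx hx1 k q (by omega) hxq
  have hq1 : 2 + 4 / β ≤ q := by
    have h3 : (⌈2 + 4 / β⌉₊ : ℝ) ≤ q := by exact_mod_cast (by omega : ⌈2 + 4 / β⌉₊ ≤ q)
    exact (Nat.le_ceil _).trans h3
  have h4 : 4 / β = 2 * (2 / β) := by ring
  have h5 : ((q : ℝ) + 1) / 2 ≤ (q : ℝ) + α - 2 / β := by linarith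
  have hp : 0 < ((q : ℝ) + 1) / 2 := by positivity
  have h6 : β / 2 * ((q : ℝ) + α) - 1 = β / 2 * ((q : ℝ) + α - 2 / β) := by field_simp
  have h7 : 0 < β / 2 * ((q : ℝ) + α - 2 / β) := by
    have : 0 < (q : ℝ) + α - 2 / β := by linarith
    positivity
  obtain ⟨i1, e1⟩ := b_inv β α q (by linarith)
  have hBd : Dep ({((q, false), false)} : Set (Ix × Bool)) (fun θ => (bq θ q)⁻¹) :=
    (dep_bq (Set.mem_singleton _)).comp (φ := fun z => z⁻¹) (by fun_prop)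
  obtain ⟨i2, e2⟩ := ind_mul β α (disj2 q) (dep_Al x k q) hBd (Al_int β α hx k q) i1
  have i3 := i2.const_mul x
  have hs : (0 : ℝ) < (q : ℝ) + 1 := by positivity
  have h8 : 1 / ((q : ℝ) + α - 2 / β) ≤ 2 / ((q : ℝ) + 1) := by
    rw [div_le_div_iff₀ (by linarith) hs]; linarith
  have h9 : x * √(((q : ℝ) + 1) / x) = √x * √((q : ℝ) + 1) := by
    rw [Real.sqrt_div hs.le]
    have h10 : x = √x * √x := (Real.mul_self_sqrt hx.le).symm
    have h11 : 0 < √x := Real.sqrt_pos.2 hx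
    rw [mul_div_assoc']
    rw [div_eq_iff h11.ne']
    calc x * √((q : ℝ) + 1) = (√x * √x) * √((q : ℝ) + 1) := by rw [← h10]
      _ = _ := by ring
  have h12 : √((q : ℝ) + 1) / ((q : ℝ) + 1) = ((q : ℝ) + 1) ^ ((1 / 2 : ℝ) - 1) := by
    rw [rpow_sub_one hs.ne', Real.sqrt_eq_rpow]
  calc ∫ θ, pt x k q θ ∂(Pr β α)
      ≤ ∫ θ, x * (Al (bq θ) (cq θ) x k q * (bq θ q)⁻¹) ∂(Pr β α) := by
        refine integral_mono_ae (pt_int β α hx k q) i3 ?_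
        filter_upwards [all_pos' β α] with θ hθ
        have := pt_le hx k q (hθ q).1
        linarith
    _ = x * ((∫ θ, Al (bq θ) (cq θ) x k q ∂(Pr β α)) * (1 / ((q : ℝ) + α - 2 / β))) := by
        rw [integral_const_mul, e2, e1]
    _ ≤ x * ((M * √(((q : ℝ) + 1) / x)) * (2 / ((q : ℝ) + 1))) := by
        have : 0 ≤ 1 / ((q : ℝ) + α - 2 / β) := by
          have : 0 < (q : ℝ) + α - 2 / β := by linarith
          positivity
        gcongr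
    _ = M * 2 * ((x * √(((q : ℝ) + 1) / x)) / ((q : ℝ) + 1)) := by ring
    _ = M * 2 * (√x * (√((q : ℝ) + 1) / ((q : ℝ) + 1))) := by rw [h9]; ring
    _ = _ := by rw [h12]

/-- terms below the cutoff -/
theorem pt_low {σ ν' : ℝ} (h : Ex β α σ ν') : ∃ C : ℝ, 0 ≤ C ∧ ∀ x : ℝ, 0 < x → ∀ k q : ℕ,
    x * (q + 1) ≤ 2 →
    ∫ θ, pt x k q θ ∂(Pr β α) ≤ C * (x ^ σ * (((q : ℝ) + 1) ^ (σ - 1) *
      (∫ θ, Al (bq θ) (cq θ) x k q ^ σ ∂(Pr β α)) * ((q : ℝ) + 1) ^ (-σ))) := by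
  have hb := hβ.1
  have ha := hα.1
  obtain ⟨M, hM, hτ⟩ := tau_bound β α
  obtain ⟨C₄, hC₄, H4⟩ := bneg_bound β α h.h0 h.h1 h.h2
  refine ⟨M * C₄, by positivity, fun x hx k q hxq => ?_⟩
  have hs0 : 0 ≤ 1 - σ := by linarith [h.h1]
  have hs1 : 1 - σ ≤ 1 := by linarith [h.h0]
  obtain ⟨i1, e1⟩ := jensen_inv β α hx q hs0 hs1
  have d1 : Dep (Lo q) (fun θ => (Ar (bq θ) (cq θ) x q)⁻¹ ^ (1 - σ)) :=
    ((dep_Ar x q).comp (φ := fun z => z⁻¹) (by fun_prop)).rpow _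
  obtain ⟨i0, -⟩ := bq_mom β α q (s := -σ) (bneg_fin β α h.h2 q)
  have d0 : Dep ({((q, false), false)} : Set (Ix × Bool)) (fun θ => bq θ q ^ (-σ)) :=
    (dep_bq (Set.mem_singleton _)).rpow (-σ)
  obtain ⟨i2, e2⟩ := ind_mul β α (disj8 q) d1 ((dep_Al x k q).rpow σ) i1
    (Al_pow_int β α hx h.h1 k q)
  have d2 : Dep (Lo q ∪ Up q) (fun θ => (Ar (bq θ) (cq θ) x q)⁻¹ ^ (1 - σ) *
      Al (bq θ) (cq θ) x k q ^ σ) :=
    (d1.mono subset_union_left).mul (((dep_Al x k q).rpow σ).mono subset_union_right)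
  have dj : Disjoint (Lo q ∪ Up q) ({((q, false), false)} : Set (Ix × Bool)) :=
    (disj9 q).mono_right (by simp)
  obtain ⟨i3, e3⟩ := ind_mul β α dj d2 d0 i2 i0
  rw [e2] at e3
  have i4 := i3.const_mul (x ^ σ)
  have hs : (0 : ℝ) < (q : ℝ) + 1 := by positivity
  have hτq := hτ x hx q hxq
  have hτ0 : 0 ≤ ∫ θ, (Ar (bq θ) (cq θ) x q)⁻¹ ∂(Pr β α) := integral_nonneg fun θ => by
    have := Ar_ge (bq_nn θ) (cq_nn θ) hx q
    positivity
  have g1 : ∫ θ, (Ar (bq θ) (cq θ) x q)⁻¹ ^ (1 - σ) ∂(Pr β α) ≤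
      M * ((q : ℝ) + 1) ^ (σ - 1) := by
    calc ∫ θ, (Ar (bq θ) (cq θ) x q)⁻¹ ^ (1 - σ) ∂(Pr β α)
        ≤ (∫ θ, (Ar (bq θ) (cq θ) x q)⁻¹ ∂(Pr β α)) ^ (1 - σ) := e1
      _ ≤ (M / ((q : ℝ) + 1)) ^ (1 - σ) := rpow_le_rpow hτ0 hτq hs0
      _ = M ^ (1 - σ) * ((q : ℝ) + 1) ^ (σ - 1) := by
          rw [div_rpow (by linarith) hs.le, div_eq_mul_inv, ← rpow_neg hs.le]
          congr 2; ring
      _ ≤ _ := mul_le_mul_of_nonneg_right (pow_le_self_of hM hs1) (by positivity)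
  have g0 : 0 ≤ ∫ θ, (Ar (bq θ) (cq θ) x q)⁻¹ ^ (1 - σ) ∂(Pr β α) := integral_nonneg fun θ => by
    have := Ar_ge (bq_nn θ) (cq_nn θ) hx q
    positivity
  have p1 : 0 ≤ ∫ θ, Al (bq θ) (cq θ) x k q ^ σ ∂(Pr β α) := integral_nonneg fun θ =>
    rpow_nonneg (by linarith [Al_ge (bq_nn θ) (cq_nn θ) hx k q]) _
  have p4 : 0 ≤ ∫ θ, bq θ q ^ (-σ) ∂(Pr β α) := integral_nonneg fun θ =>
    rpow_nonneg (bq_nn θ q) _
  calc ∫ θ, pt x k q θ ∂(Pr β α)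
      ≤ ∫ θ, x ^ σ * ((Ar (bq θ) (cq θ) x q)⁻¹ ^ (1 - σ) * Al (bq θ) (cq θ) x k q ^ σ *
          bq θ q ^ (-σ)) ∂(Pr β α) := by
        refine integral_mono_ae (pt_int β α hx k q) i4 ?_
        filter_upwards [all_pos' β α] with θ hθ
        have hbp := (hθ q).1
        have h1 := Ar_ge (bq_nn θ) (cq_nn θ) hx q
        have h2 := Al_ge (bq_nn θ) (cq_nn θ) hx k q
        have f1 := (pt_bd hx k q θ).1
        have f2 := (pt_bd hx k q θ).2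
        have f3 := pt_le hx k q hbp
        set P := pt x k q θ
        rcases eq_or_lt_of_le f1 with hP | hP
        · rw [← hP]; positivity
        · have e : P = P ^ (1 - σ) * P ^ σ := by
            rw [← rpow_add hP]; simp
          rw [e]
          calc P ^ (1 - σ) * P ^ σ
              ≤ (Ar (bq θ) (cq θ) x q)⁻¹ ^ (1 - σ) *
                (x * Al (bq θ) (cq θ) x k q * (bq θ q)⁻¹) ^ σ :=
                mul_le_mul (rpow_le_rpow f1 f2 hs0) (rpow_le_rpow f1 f3 h.h0.le)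
                  (by positivity) (by positivity)
            _ = _ := by
                rw [mul_rpow (by positivity) (by positivity), mul_rpow hx.le (by linarith),
                  inv_rpow hbp.le, ← rpow_neg hbp.le]
                ring
    _ = x ^ σ * ((∫ θ, (Ar (bq θ) (cq θ) x q)⁻¹ ^ (1 - σ) ∂(Pr β α)) *
          (∫ θ, Al (bq θ) (cq θ) x k q ^ σ ∂(Pr β α)) * ∫ θ, bq θ q ^ (-σ) ∂(Pr β α)) := by
        rw [integral_const_mul, e3]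
    _ ≤ x ^ σ * ((M * ((q : ℝ) + 1) ^ (σ - 1)) *
          (∫ θ, Al (bq θ) (cq θ) x k q ^ σ ∂(Pr β α)) * (C₄ * ((q : ℝ) + 1) ^ (-σ))) := by
        have := H4 q
        gcongr
    _ = _ := by ring

/-- the logarithmic derivative as a random variable -/
noncomputable def SS (n : ℕ) (x : ℝ) (w : Ix → ℝ) : ℝ :=
  x * Dp' (bw w) (cw w) x n / Dp (bw w) (cw w) x n

theorem SS_eq {n : ℕ} {x : ℝ} (hx : 0 < x) (θ : Th) :
    SS n x (sel ∅ θ) = ∑ q ∈ Finset.range n, pt x (n - 1 - q) q θ := by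
  unfold SS
  rw [bw_sel, cw_sel, logDeriv_sum (bq_nn θ) (cq_nn θ) hx n]
  rfl

theorem meas_DV' (x : ℝ) (q : ℕ) : Measurable (fun w : Ix → ℝ => Dp' (bw w) (cw w) x q) ∧
    Measurable (fun w : Ix → ℝ => Vp' (bw w) (cw w) x q) := by
  induction q with
  | zero => exact ⟨measurable_const, measurable_const⟩
  | succ q ih =>
    have hb : Measurable fun w : Ix → ℝ => bw w q :=
      (measurable_pi_apply _).max measurable_const
    have hc : Measurable fun w : Ix → ℝ => cw w q :=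
      (measurable_pi_apply _).max measurable_const
    have h1 : Measurable (fun w : Ix → ℝ => Dp' (bw w) (cw w) x (q + 1)) := by
      simp only [Dp'_succ]
      exact ih.2.add (hb.mul ih.1)
    refine ⟨h1, ?_⟩
    simp only [Vp'_succ]
    exact ((meas_DV x (q + 1)).1.add (h1.const_mul x)).add (hc.mul ih.2)

theorem meas_SS (n : ℕ) (x : ℝ) : Measurable (SS n x) :=
  ((meas_DV' x n).1.const_mul x).div (meas_DV x n).1

theorem SS_int {n : ℕ} {x : ℝ} (hx : 0 < x) : Integrable (SS n x) (PP (gam β α)) ∧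
    ∫ w, SS n x w ∂(PP (gam β α)) =
      ∑ q ∈ Finset.range n, ∫ θ, pt x (n - 1 - q) q θ ∂(Pr β α) := by
  have hmp := mp_sel (gam β α) ∅
  have hi : Integrable (fun θ => SS n x (sel ∅ θ)) (Pr β α) := by
    simp only [SS_eq hx]
    exact integrable_finset_sum _ fun q _ => pt_int β α hx _ q
  constructor
  · exact (hmp.integrable_comp (meas_SS n x).aestronglyMeasurable).1 hi
  · rw [← int_mp hmp (meas_SS n x)]
    simp only [SS_eq hx]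
    rw [integral_finset_sum _ fun q _ => pt_int β α hx _ q]

/-- the mean above the scale one -/
theorem mean_bound : ∃ C : ℝ, 0 ≤ C ∧ ∃ x₀ : ℝ, 0 < x₀ ∧ ∀ x : ℝ, 0 < x → x ≤ x₀ →
    ∀ n : ℕ, Qx x < n → ∫ w, SS n x w ∂(PP (gam β α)) ≤ C * (1 + √(x * n)) := by
  obtain ⟨σ, ν', h⟩ := exists_Ex β α
  obtain ⟨C₁, hC₁, q₁, H1⟩ := pt_high β α
  obtain ⟨C₂, hC₂, H2⟩ := pt_low β α h
  obtain ⟨C₃, hC₃, x₁, hx₁, H3⟩ := Al_all β α h
  have hν0 := h.hν0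
  have hν1 : ν' ≤ 1 := h.hν2.trans h.h1
  set K : ℝ := C₂ * C₃ * ((1 / ν') * 2) with hK
  have hK0 : 0 ≤ K := by positivity
  refine ⟨K + C₁ * 2, by positivity, min (1 / 2) (min x₁ (1 / ((q₁ : ℝ) + 1))),
    lt_min (by norm_num) (lt_min hx₁ (by positivity)), fun x hx hxx n hn => ?_⟩
  have hx2 : x ≤ 1 / 2 := hxx.trans (min_le_left _ _)
  have hxx1 : x ≤ x₁ := (hxx.trans (min_le_right _ _)).trans (min_le_left _ _)
  have hxq : x ≤ 1 / ((q₁ : ℝ) + 1) := (hxx.trans (min_le_right _ _)).trans (min_le_right _ _)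
  have hQ := Qx_large q₁ hx hxq
  have hg := Qx_ge x
  have hQl := Qx_le hx hx2
  rw [(SS_int β α hx).2]
  set Q := Qx x with hQd
  rw [← Finset.sum_range_add_sum_Ico _ hn.le]
  have hlow : ∀ q < Q, ∫ θ, pt x (n - 1 - q) q θ ∂(Pr β α) ≤
      C₂ * C₃ * (x ^ ν' * ((q : ℝ) + 1) ^ (ν' - 1)) := by
    intro q hq
    have hs : (0 : ℝ) < (q : ℝ) + 1 := by positivity
    have hqQ : (q : ℝ) + 1 ≤ (Q : ℝ) + 1 := by
      have : (q : ℝ) ≤ Q := by exact_mod_cast hq.le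
      linarith
    have hxq2 : x * ((q : ℝ) + 1) ≤ 2 := by
      have h5 : (q : ℝ) + 1 ≤ 2 / x := by linarith
      rw [le_div_iff₀ hx] at h5
      linarith
    have g1 := H2 x hx (n - 1 - q) q hxq2
    have g2 := H3 x hx hxx1 n q hn hq.le
    refine g1.trans ?_
    have e : x ^ σ * (((q : ℝ) + 1) ^ (σ - 1) * (((q : ℝ) + 1) ^ ν' * x ^ (ν' - σ)) *
        ((q : ℝ) + 1) ^ (-σ)) = x ^ ν' * ((q : ℝ) + 1) ^ (ν' - 1) := by
      have := pow_combo (σ := σ) (ν' := ν') hx hs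
      rw [← this, rpow_sub_one hs.ne']
      ring
    calc C₂ * (x ^ σ * (((q : ℝ) + 1) ^ (σ - 1) *
        (∫ θ, Al (bq θ) (cq θ) x (n - 1 - q) q ^ σ ∂(Pr β α)) * ((q : ℝ) + 1) ^ (-σ)))
        ≤ C₂ * (x ^ σ * (((q : ℝ) + 1) ^ (σ - 1) *
          (C₃ * (((q : ℝ) + 1) ^ ν' * x ^ (ν' - σ))) * ((q : ℝ) + 1) ^ (-σ))) := by gcongr
      _ = C₂ * C₃ * (x ^ σ * (((q : ℝ) + 1) ^ (σ - 1) * (((q : ℝ) + 1) ^ ν' * x ^ (ν' - σ)) *
        ((q : ℝ) + 1) ^ (-σ))) := by ring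
      _ = _ := by rw [e]
  have hhigh : ∀ q, Q ≤ q → ∫ θ, pt x (n - 1 - q) q θ ∂(Pr β α) ≤
      C₁ * (√x * ((q : ℝ) + 1) ^ ((1 / 2 : ℝ) - 1)) := by
    intro q hq
    refine H1 x hx (by linarith) _ q (by omega) ?_
    have h5 : (Q : ℝ) ≤ q := by exact_mod_cast hq
    rw [div_le_iff₀ hx] at hg
    nlinarith
  have s1 : ∑ q ∈ Finset.range Q, ∫ θ, pt x (n - 1 - q) q θ ∂(Pr β α) ≤ K := by
    calc ∑ q ∈ Finset.range Q, ∫ θ, pt x (n - 1 - q) q θ ∂(Pr β α)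
        ≤ ∑ q ∈ Finset.range Q, C₂ * C₃ * (x ^ ν' * ((q : ℝ) + 1) ^ (ν' - 1)) :=
          Finset.sum_le_sum fun q hq => hlow q (Finset.mem_range.1 hq)
      _ = C₂ * C₃ * (x ^ ν' * ∑ q ∈ Finset.range Q, ((q : ℝ) + 1) ^ (ν' - 1)) := by
          rw [Finset.mul_sum, Finset.mul_sum]
      _ ≤ C₂ * C₃ * (x ^ ν' * ((1 / ν') * (Q : ℝ) ^ ν')) := by
          have := sum_pow_le hν0 hν1 Q
          gcongr
      _ ≤ K := by
          rw [hK]
          refine mul_le_mul_of_nonneg_left ?_ (by positivity)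
          have g1 : (Q : ℝ) ≤ 2 / x := by linarith
          have g2 : (Q : ℝ) ^ ν' ≤ (2 / x) ^ ν' := rpow_le_rpow (by positivity) g1 hν0.le
          have g3 : x ^ ν' * (2 / x) ^ ν' ≤ 2 := by
            rw [← mul_rpow hx.le (by positivity)]
            have e : x * (2 / x) = 2 := by field_simp
            rw [e]
            exact pow_le_self_of (by norm_num) hν1
          calc x ^ ν' * ((1 / ν') * (Q : ℝ) ^ ν') ≤ x ^ ν' * ((1 / ν') * (2 / x) ^ ν') := by gcongr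
            _ = (1 / ν') * (x ^ ν' * (2 / x) ^ ν') := by ring
            _ ≤ _ := by gcongr
  have s2 : ∑ q ∈ Finset.Ico Q n, ∫ θ, pt x (n - 1 - q) q θ ∂(Pr β α) ≤ C₁ * 2 * √(x * n) := by
    calc ∑ q ∈ Finset.Ico Q n, ∫ θ, pt x (n - 1 - q) q θ ∂(Pr β α)
        ≤ ∑ q ∈ Finset.Ico Q n, C₁ * (√x * ((q : ℝ) + 1) ^ ((1 / 2 : ℝ) - 1)) :=
          Finset.sum_le_sum fun q hq => hhigh q (Finset.mem_Ico.1 hq).1
      _ ≤ ∑ q ∈ Finset.range n, C₁ * (√x * ((q : ℝ) + 1) ^ ((1 / 2 : ℝ) - 1)) := by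
          refine Finset.sum_le_sum_of_subset_of_nonneg (fun q hq => ?_) fun q _ _ => by positivity
          exact Finset.mem_range.2 (Finset.mem_Ico.1 hq).2
      _ = C₁ * (√x * ∑ q ∈ Finset.range n, ((q : ℝ) + 1) ^ ((1 / 2 : ℝ) - 1)) := by
          rw [Finset.mul_sum, Finset.mul_sum]
      _ ≤ C₁ * (√x * ((1 / (1 / 2 : ℝ)) * (n : ℝ) ^ (1 / 2 : ℝ))) := by
          have := sum_pow_le (ν' := 1 / 2) (by norm_num) (by norm_num) n
          gcongr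
      _ = C₁ * 2 * √(x * n) := by
          rw [Real.sqrt_mul hx.le, ← Real.sqrt_eq_rpow]; ring
  have hsq : 0 ≤ √(x * n) := Real.sqrt_nonneg _
  nlinarith [mul_nonneg hK0 hsq]

/-- the mean below the scale one -/
theorem mean_small : ∃ C : ℝ, 0 ≤ C ∧ ∃ σ : ℝ, 0 < σ ∧ ∃ n₀ : ℕ, ∀ x : ℝ, 0 < x →
    ∀ n : ℕ, n₀ ≤ n → x * n ≤ 1 → ∫ w, SS n x w ∂(PP (gam β α)) ≤ C * (x * n) ^ σ := by
  obtain ⟨σ, ν', h⟩ := exists_Ex β α
  have hb := hβ.1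
  have ha := hα.1
  obtain ⟨C₂, hC₂, H2⟩ := pt_low β α h
  obtain ⟨C₃, hC₃, q₁, H3⟩ := L2 β α h.h0 h.h1 h.h2 h.hν0 h.hν1 h.hν2 1 zero_le_one
  have hν0 := h.hν0
  have hν1 : ν' ≤ 1 := h.hν2.trans h.h1
  set κ : ℝ := 1 + (α + 2 / β) with hκ
  have hκ1 : 1 ≤ κ := by
    have : 0 < α + 2 / β := by positivity
    linarith
  refine ⟨C₂ * (C₃ * (κ * κ)) * (1 / ν'), by positivity, σ, h.h0, q₁ + 1,
    fun x hx n hn hxn => ?_⟩
  have hn1 : 1 ≤ n := by omega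
  have hn0 : (0 : ℝ) < n := by exact_mod_cast hn1
  rw [(SS_int β α hx).2]
  have hs0 : 0 ≤ σ - ν' := by linarith [h.hν2]
  have key : ∀ q ∈ Finset.range n, ∫ θ, pt x (n - 1 - q) q θ ∂(Pr β α) ≤
      C₂ * (C₃ * (κ * κ)) * (x ^ σ * (n : ℝ) ^ (σ - ν') * ((q : ℝ) + 1) ^ (ν' - 1)) := by
    intro q hq
    have hqn : q < n := Finset.mem_range.1 hq
    have hs : (0 : ℝ) < (q : ℝ) + 1 := by positivity
    have hqn' : (q : ℝ) + 1 ≤ n := by exact_mod_cast hqn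
    have g1 := H2 x hx (n - 1 - q) q (by nlinarith)
    have base : ∫ θ, Al (bq θ) (cq θ) x 0 (n - 1) ^ σ ∂(Pr β α) ≤ 1 * zq β α (n - 1) ^ σ := by
      simp only [Al_zero, one_rpow]
      rw [integral_const]
      simp only [probReal_univ, one_smul, one_mul]
      exact one_le_rpow (zq_ge β α (n - 1)) h.h0.le
    have g2 := H3 x hx 0 (n - 1) (by omega) base q (by omega)
    rw [zero_add] at g2
    have g3 := zq_pow_le β α hν0.le hν1 q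
    have g4 := zq_pow_le β α hs0 (by linarith [h.h1, h.hν0]) (n - 1)
    have e1 : ((n - 1 : ℕ) : ℝ) + 1 = n := by
      rw [Nat.cast_sub hn1]; simp
    rw [e1] at g4
    have hz := zq_ge β α q
    have hZ := zq_ge β α (n - 1)
    have g5 : ∫ θ, Al (bq θ) (cq θ) x (n - 1 - q) q ^ σ ∂(Pr β α) ≤
        C₃ * ((κ * ((q : ℝ) + 1) ^ ν') * (κ * (n : ℝ) ^ (σ - ν'))) := by
      refine g2.trans (mul_le_mul_of_nonneg_left ?_ hC₃)
      exact mul_le_mul g3 g4 (by positivity) (by positivity)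
    refine g1.trans ?_
    have e2 : ((q : ℝ) + 1) ^ (σ - 1) * ((q : ℝ) + 1) ^ ν' * ((q : ℝ) + 1) ^ (-σ) =
        ((q : ℝ) + 1) ^ (ν' - 1) := by
      rw [← rpow_add hs, ← rpow_add hs]; congr 1; ring
    calc C₂ * (x ^ σ * (((q : ℝ) + 1) ^ (σ - 1) *
        (∫ θ, Al (bq θ) (cq θ) x (n - 1 - q) q ^ σ ∂(Pr β α)) * ((q : ℝ) + 1) ^ (-σ)))
        ≤ C₂ * (x ^ σ * (((q : ℝ) + 1) ^ (σ - 1) *
          (C₃ * ((κ * ((q : ℝ) + 1) ^ ν') * (κ * (n : ℝ) ^ (σ - ν')))) *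
          ((q : ℝ) + 1) ^ (-σ))) := by gcongr
      _ = C₂ * (C₃ * (κ * κ)) * (x ^ σ * (n : ℝ) ^ (σ - ν') * (((q : ℝ) + 1) ^ (σ - 1) *
          ((q : ℝ) + 1) ^ ν' * ((q : ℝ) + 1) ^ (-σ))) := by ring
      _ = _ := by rw [e2]
  calc ∑ q ∈ Finset.range n, ∫ θ, pt x (n - 1 - q) q θ ∂(Pr β α)
      ≤ ∑ q ∈ Finset.range n, C₂ * (C₃ * (κ * κ)) * (x ^ σ * (n : ℝ) ^ (σ - ν') *
        ((q : ℝ) + 1) ^ (ν' - 1)) := Finset.sum_le_sum key
    _ = C₂ * (C₃ * (κ * κ)) * (x ^ σ * (n : ℝ) ^ (σ - ν') *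
        ∑ q ∈ Finset.range n, ((q : ℝ) + 1) ^ (ν' - 1)) := by
        rw [Finset.mul_sum, Finset.mul_sum]
    _ ≤ C₂ * (C₃ * (κ * κ)) * (x ^ σ * (n : ℝ) ^ (σ - ν') * ((1 / ν') * (n : ℝ) ^ ν')) := by
        have := sum_pow_le hν0 hν1 n
        gcongr
    _ = C₂ * (C₃ * (κ * κ)) * (1 / ν') * (x ^ σ * ((n : ℝ) ^ (σ - ν') * (n : ℝ) ^ ν')) := by ring
    _ = _ := by
        rw [← rpow_add hn0, sub_add_cancel, ← mul_rpow hx.le hn0.le]

end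

end Pool.Agent.Y982.LR
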