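import Pool.Agent.Y982.LR.Lim

/-!
# LR-Rigid: rigidity of the limit process
-/

set_option autoImplicit false
set_option linter.unusedSectionVars false

open scoped BigOperators ENNReal Topology
open MeasureTheory ProbabilityTheory Real Set Filter

namespace Pool.Agent.Y982.LR

/-- the scales -/
noncomputable def tj (C : ℝ) (j : ℕ) : ℝ := 3 * C * 2 ^ j + j + 1

theorem tj_ge {C : ℝ} (hC : 0 ≤ C) (j : ℕ) : (j : ℝ) + 1 ≤ tj C j := by
  unfold tj
  have : 0 ≤ 3 * C * 2 ^ j := by positivity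
  linarith

theorem VN_small {C : ℝ} (hC : 0 ≤ C) (j : ℕ) : VN C (exp (tj C j)) ≤ (1 / 2) ^ j := by
  have ht := tj_ge hC j
  have ht1 : 1 ≤ tj C j := by
    have : (0 : ℝ) ≤ j := by positivity
    linarith
  have ht0 : 0 < tj C j := by linarith
  have h3 : 3 * C * 2 ^ j ≤ tj C j := by
    unfold tj
    have : (0 : ℝ) ≤ j := by positivity
    linarith
  unfold VN
  set t := tj C j
  rw [Real.log_mul (by norm_num) (exp_pos _).ne', Real.log_exp]
  have hl2 : Real.log 2 ≤ 1 := by
    have := Real.log_le_sub_one_of_pos (x := 2) (by norm_num)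
    linarith
  have h4 : C * (1 + (Real.log 2 + t)) / t ^ 2 ≤ 3 * C / t := by
    rw [div_le_div_iff₀ (by positivity) ht0]
    have h5 : C * (1 + (Real.log 2 + t)) ≤ C * (3 * t) := by
      apply mul_le_mul_of_nonneg_left _ hC
      linarith
    nlinarith
  refine h4.trans ?_
  rw [div_le_iff₀ ht0, one_div, inv_pow]
  rw [← div_eq_inv_mul, le_div_iff₀ (by positivity)]
  exact h3

theorem fN_lim {C c : ℝ} (hC : 0 ≤ C) (hc : 0 < c) {x : ℝ} (hx : 0 < x) :
    Tendsto (fun j => fN c (exp (tj C j)) x) atTop (𝓝 1) := by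
  have htt : Tendsto (tj C) atTop atTop := by
    refine tendsto_atTop_mono (tj_ge hC) ?_
    exact tendsto_atTop_add_const_right _ _ tendsto_natCast_atTop_atTop
  have hlow : Tendsto (fun j => 1 + (Real.log 2 - Real.log (x / c + 2)) / tj C j) atTop
      (𝓝 (1 + 0)) := (Tendsto.const_div_atTop htt _).const_add 1
  rw [add_zero] at hlow
  have hN : ∀ j, 1 < exp (tj C j) := fun j => by
    rw [Real.one_lt_exp_iff]
    have := tj_ge hC j
    have : (0 : ℝ) ≤ j := by positivity
    linarith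
  refine tendsto_of_tendsto_of_tendsto_of_le_of_le hlow tendsto_const_nhds (fun j => ?_)
    (fun j => fN_le_one hc (hN j) x)
  have ht := tj_ge hC j
  have ht0 : 0 < tj C j := by
    have : (0 : ℝ) ≤ j := by positivity
    linarith
  simp only [fN, Real.log_exp]
  rw [max_eq_left hx.le]
  have hxc : 0 < x / c := by positivity
  have e1 : 1 + (Real.log 2 - Real.log (x / c + 2)) / tj C j =
      (Real.log 2 + tj C j - Real.log (x / c + 2)) / tj C j := by
    field_simp; ring
  rw [e1]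
  apply div_le_div_of_nonneg_right _ ht0.le
  have e2 : Real.log 2 + tj C j = Real.log (2 * exp (tj C j)) := by
    rw [Real.log_mul (by norm_num) (exp_pos _).ne', Real.log_exp]
  rw [e2, ← Real.log_div (by positivity) (by positivity)]
  apply Real.log_le_log (by positivity)
  gcongr
  linarith

theorem fN_low {c : ℝ} (hc : 0 < c) {R : ℝ} (hR : 0 < R) : ∃ δ : ℝ, 0 < δ ∧ ∀ x : ℝ, 0 < x →
    x ≤ R → δ ≤ fN c (exp 1) x := by
  have h1 : 1 < exp 1 := by rw [Real.one_lt_exp_iff]; norm_num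
  have hRc : 0 < R / c := by positivity
  refine ⟨Real.log (1 + (2 * exp 1 - 2) / (R / c + 2)), ?_, fun x hx hxR => ?_⟩
  · apply Real.log_pos
    have : 0 < (2 * exp 1 - 2) / (R / c + 2) := div_pos (by linarith) (by positivity)
    linarith
  · unfold fN
    rw [max_eq_left hx.le, Real.log_exp, div_one]
    have hxc : 0 < x / c := by positivity
    have h2 : x / c ≤ R / c := by gcongr
    apply Real.log_le_log
    · have : 0 < (2 * exp 1 - 2) / (R / c + 2) := div_pos (by linarith) (by positivity)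
      linarith
    · have e : (x / c + 2 * exp 1) / (x / c + 2) = 1 + (2 * exp 1 - 2) / (x / c + 2) := by
        field_simp; ring
      rw [e]
      gcongr
      linarith

section

variable (β α : ℝ) [hβ : Fact (0 < β)] [hα : Fact (0 < α)]

theorem rigid_core {Ω : Type*} [MeasurableSpace Ω] (P : Measure Ω)
    [IsProbabilityMeasure P] (ξ : Ω → Measure ℝ) (c : ℝ) (hc : 0 < c)
    (hlim : LimHyp β α c P ξ) (hm : Measurable ξ) (hfin : LocFin P ξ) (B : Set ℝ)
    (hB : MeasurableSet B) (hBb : Bornology.IsBounded B) (hB0 : B ⊆ Ioi 0) :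
    ∃ G : Measure ℝ → ℝ≥0∞, Measurable G ∧
      ∀ᵐ ω ∂P, ξ ω B = G ((ξ ω).restrict (Ioi 0 \ B)) := by
  obtain ⟨C, hC, H⟩ := conc β α
  have hN : ∀ j, 1 < exp (tj C j) := fun j => by
    rw [Real.one_lt_exp_iff]
    have := tj_ge hC j
    have : (0 : ℝ) ≤ j := by positivity
    linarith
  choose m hmj using fun j => H P ξ c hc hlim hm hfin (exp (tj C j)) (hN j)
  set f : ℕ → ℝ → ℝ := fun j => fN c (exp (tj C j)) with hf
  have hfc : ∀ j, Continuous (f j) := fun j => fN_cont hc (hN j)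
  have hf0 : ∀ j x, 0 ≤ f j x := fun j x => fN_nn hc (hN j) x
  have hf1 : ∀ j x, f j x ≤ 1 := fun j x => fN_le_one hc (hN j) x
  have hXm : ∀ j, Measurable (Xf ξ (f j)) := fun j => Xf_meas hm (hfc j) (hf0 j)
  -- almost sure convergence
  have hsum : ∫⁻ ω, ∑' j, ENNReal.ofReal (min (((Xf ξ (f j) ω).toReal - m j) ^ 2) 1) ∂P < ∞ := by
    rw [lintegral_tsum fun j => (Measurable.ennreal_ofReal
      ((((hXm j).ennreal_toReal.sub_const _).pow_const 2).min measurable_const)).aemeasurable]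
    have hj : ∀ j, ∫⁻ ω, ENNReal.ofReal (min (((Xf ξ (f j) ω).toReal - m j) ^ 2) 1) ∂P ≤
        ENNReal.ofReal ((1 / 2) ^ j) := by
      intro j
      have hI : Integrable (fun ω => min (((Xf ξ (f j) ω).toReal - m j) ^ 2) 1) P := by
        refine int_bd ((((hXm j).ennreal_toReal.sub_const _).pow_const 2).min measurable_const)
          (C := 1) fun ω => ?_
        rw [abs_of_nonneg (le_min (sq_nonneg _) zero_le_one)]
        exact min_le_right _ _
      rw [← ofReal_integral_eq_lintegral_ofReal hI (Filter.Eventually.of_forall fun ω =>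
        le_min (sq_nonneg _) zero_le_one)]
      exact ENNReal.ofReal_le_ofReal ((hmj j).trans (VN_small hC j))
    refine lt_of_le_of_lt (ENNReal.tsum_le_tsum hj) ?_
    have hs : Summable fun j : ℕ => ((1 : ℝ) / 2) ^ j := summable_geometric_two
    rw [← ENNReal.ofReal_tsum_of_nonneg (fun j => by positivity) hs]
    exact ENNReal.ofReal_lt_top
  have hae : ∀ᵐ ω ∂P, Tendsto (fun j => (Xf ξ (f j) ω).toReal - m j) atTop (𝓝 0) := by
    have h1 := ae_lt_top (Measurable.ennreal_tsum fun j => Measurable.ennreal_ofReal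
      ((((hXm j).ennreal_toReal.sub_const _).pow_const 2).min measurable_const)) hsum.ne
    filter_upwards [h1] with ω hω
    have h2 := ENNReal.tendsto_atTop_zero_of_tsum_ne_top hω.ne
    have h3 : Tendsto (fun j => min (((Xf ξ (f j) ω).toReal - m j) ^ 2) 1) atTop (𝓝 0) := by
      have h4 := (ENNReal.tendsto_toReal (a := 0) ENNReal.zero_ne_top).comp h2
      rw [ENNReal.toReal_zero] at h4
      refine h4.congr fun j => ?_
      simp only [Function.comp]
      exact ENNReal.toReal_ofReal (le_min (sq_nonneg _) zero_le_one)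
    have h5 : Tendsto (fun j => ((Xf ξ (f j) ω).toReal - m j) ^ 2) atTop (𝓝 0) := by
      refine h3.congr' ?_
      filter_upwards [h3.eventually (gt_mem_nhds one_pos)] with j hj
      rcases min_lt_iff.1 hj with h | h
      · exact min_eq_left h.le
      · exact absurd h (lt_irrefl _)
    have h6 := (Real.continuous_sqrt.tendsto 0).comp h5
    rw [Real.sqrt_zero] at h6
    have h7 : Tendsto (fun j => |(Xf ξ (f j) ω).toReal - m j|) atTop (𝓝 0) := by
      refine h6.congr fun j => ?_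
      simp only [Function.comp]
      exact Real.sqrt_sq_eq_abs _
    exact (tendsto_zero_iff_abs_tendsto_zero _).2 h7
  -- finiteness
  have hXfin : ∀ᵐ ω ∂P, ∀ j, Xf ξ (f j) ω < ∞ := by
    rw [ae_all_iff]
    intro j
    exact ae_lt_top (hXm j) (Xf_mean β α hc hlim hm hfin (hN j)).ne
  have h1e : 1 < exp 1 := by rw [Real.one_lt_exp_iff]; norm_num
  have hX1 : ∀ᵐ ω ∂P, Xf ξ (fN c (exp 1)) ω < ∞ :=
    ae_lt_top (Xf_meas hm (fN_cont hc h1e) (fN_nn hc h1e)) (Xf_mean β α hc hlim hm hfin h1e).ne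
  obtain ⟨R, hR, hBR⟩ : ∃ R : ℝ, 0 < R ∧ ∀ x ∈ B, x ≤ R := by
    obtain ⟨R, hR⟩ := hBb.subset_closedBall 0
    refine ⟨max R 1, lt_max_of_lt_right one_pos, fun x hx => ?_⟩
    have := hR hx
    rw [Metric.mem_closedBall, Real.dist_eq, sub_zero] at this
    exact (le_abs_self x).trans (this.trans (le_max_left _ _))
  obtain ⟨δ, hδ, hδB⟩ := fN_low hc hR
  have hBfin : ∀ᵐ ω ∂P, ξ ω B < ∞ := by
    filter_upwards [hX1] with ω hω
    have h1 : ENNReal.ofReal δ * ξ ω B ≤ Xf ξ (fN c (exp 1)) ω := by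
      calc ENNReal.ofReal δ * ξ ω B = ∫⁻ _ in B, ENNReal.ofReal δ ∂(ξ ω) := by
            rw [setLIntegral_const]
        _ ≤ ∫⁻ x in B, ENNReal.ofReal (fN c (exp 1) x) ∂(ξ ω) := by
            refine setLIntegral_mono' hB fun x hx => ?_
            exact ENNReal.ofReal_le_ofReal (hδB x (hB0 hx) (hBR x hx))
        _ ≤ Xf ξ (fN c (exp 1)) ω := lintegral_mono_set hB0
    have h2 : ENNReal.ofReal δ * ξ ω B < ∞ := lt_of_le_of_lt h1 hω
    by_contra hcon
    push Not at hcon
    rw [top_le_iff.1 hcon, ENNReal.mul_top (by simpa using hδ)] at h2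
    exact lt_irrefl _ h2
  -- the function
  refine ⟨fun ρ => liminf (fun j => ENNReal.ofReal
    (m j - (∫⁻ x, ENNReal.ofReal (f j x) ∂ρ).toReal)) atTop, ?_, ?_⟩
  · refine Measurable.liminf fun j => ?_
    exact ((measurable_const.sub
      (Measure.measurable_lintegral (hfc j).measurable.ennreal_ofReal).ennreal_toReal)).ennreal_ofReal
  · filter_upwards [hae, hXfin, hBfin] with ω hω hωf hωB
    have hsplit : ∀ j, Xf ξ (f j) ω = (∫⁻ x in B, ENNReal.ofReal (f j x) ∂(ξ ω)) +
        ∫⁻ x in Ioi 0 \ B, ENNReal.ofReal (f j x) ∂(ξ ω) := by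
      intro j
      unfold Xf
      rw [← lintegral_inter_add_sdiff _ (Ioi 0) hB, inter_eq_self_of_subset_right hB0]
    have hfinB : ∀ j, ∫⁻ x in B, ENNReal.ofReal (f j x) ∂(ξ ω) < ∞ := fun j =>
      lt_of_le_of_lt (by rw [hsplit j]; exact le_self_add) (hωf j)
    have hfinC : ∀ j, ∫⁻ x in Ioi 0 \ B, ENNReal.ofReal (f j x) ∂(ξ ω) < ∞ := fun j =>
      lt_of_le_of_lt (by rw [hsplit j]; exact le_add_self) (hωf j)
    have hBlim : Tendsto (fun j => ∫⁻ x in B, ENNReal.ofReal (f j x) ∂(ξ ω)) atTop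
        (𝓝 (ξ ω B)) := by
      have h1 : ξ ω B = ∫⁻ _ in B, (1 : ℝ≥0∞) ∂(ξ ω) := by rw [setLIntegral_one]
      rw [h1]
      refine tendsto_lintegral_of_dominated_convergence (fun _ => (1 : ℝ≥0∞))
        (fun j => (hfc j).measurable.ennreal_ofReal) (fun j => Filter.Eventually.of_forall
          fun x => by rw [ENNReal.ofReal_le_one]; exact hf1 j x) ?_ ?_
      · rw [← h1]; exact hωB.ne
      · rw [ae_restrict_iff' hB]
        refine Filter.Eventually.of_forall fun x hx => ?_
        have h2 := (ENNReal.continuous_ofReal.tendsto 1).comp (fN_lim hC hc (hB0 hx))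
        rw [ENNReal.ofReal_one] at h2
        exact h2
    have hBlim' : Tendsto (fun j => (∫⁻ x in B, ENNReal.ofReal (f j x) ∂(ξ ω)).toReal) atTop
        (𝓝 (ξ ω B).toReal) := (ENNReal.tendsto_toReal hωB.ne).comp hBlim
    have hmain : Tendsto (fun j => m j - (∫⁻ x in Ioi 0 \ B, ENNReal.ofReal (f j x)
        ∂(ξ ω)).toReal) atTop (𝓝 (ξ ω B).toReal) := by
      have h1 := hBlim'.sub hω
      rw [sub_zero] at h1
      refine h1.congr fun j => ?_
      rw [hsplit j, ENNReal.toReal_add (hfinB j).ne (hfinC j).ne]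
      ring
    have hfinal : Tendsto (fun j => ENNReal.ofReal (m j - (∫⁻ x in Ioi 0 \ B,
        ENNReal.ofReal (f j x) ∂(ξ ω)).toReal)) atTop (𝓝 (ξ ω B)) := by
      have h1 := (ENNReal.continuous_ofReal.tendsto _).comp hmain
      rw [ENNReal.ofReal_toReal hωB.ne] at h1
      exact h1
    exact hfinal.liminf_eq.symm

end

end Pool.Agent.Y982.LR
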