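import Pool.Agent.Y982.LR.Alg
import Pool.Agent.Y982.LR.ES
import Pool.Agent.Y982.LR.Gam

/-!
# LR-Space: the weights as random variables
-/

set_option autoImplicit false
set_option linter.unusedSectionVars false

open scoped BigOperators ENNReal
open MeasureTheory ProbabilityTheory Real Set

namespace Pool.Agent.Y982.LR

/-- index of a weight: level and kind (`false` is `b`, `true` is `c`) -/
abbrev Ix := ℕ × Bool

/-- shape parameters -/
noncomputable def shape (β α : ℝ) (i : Ix) : ℝ :=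
  if i.2 then β / 2 * (i.1 + 1) else β / 2 * (i.1 + α)

/-- the laws of the weights -/
noncomputable def gam (β α : ℝ) (i : Ix) : Measure ℝ := gammaMeasure (shape β α i) (β / 2)

theorem shape_pos {β α : ℝ} (hβ : 0 < β) (hα : 0 < α) (i : Ix) : 0 < shape β α i := by
  unfold shape
  split_ifs <;> positivity

section

variable (β α : ℝ) [hβ : Fact (0 < β)] [hα : Fact (0 < α)]

instance gam_prob (i : Ix) : IsProbabilityMeasure (gam β α i) :=
  isProbabilityMeasure_gammaMeasure (shape_pos hβ.1 hα.1 i) (by have := hβ.1; positivity)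

/-- two samples of all weights -/
abbrev Th := Ix × Bool → ℝ

/-- the probability measure of the proofs -/
noncomputable abbrev Pr : Measure Th := QQ (gam β α)

/-- the coordinates -/
def Xc (j : Ix × Bool) (θ : Th) : ℝ := θ j

theorem Xc_meas (j : Ix × Bool) : Measurable (Xc j) := measurable_pi_apply j

theorem Xc_indep : iIndepFun Xc (Pr β α) := coord_indep (gam β α)

theorem Xc_mp (j : Ix × Bool) : MeasurePreserving (Xc j) (Pr β α) (gam β α j.1) :=
  measurePreserving_eval_infinitePi (fun j : Ix × Bool => gam β α j.1) j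

theorem all_pos : ∀ᵐ θ ∂(Pr β α), ∀ j, 0 < θ j := by
  rw [ae_all_iff]
  intro j
  exact (Xc_mp β α j).quasiMeasurePreserving.ae (gam_pos _ _)

/-- the `b` weights -/
noncomputable def bq (θ : Th) (q : ℕ) : ℝ := max (θ ((q, false), false)) 0
/-- the `c` weights -/
noncomputable def cq (θ : Th) (q : ℕ) : ℝ := max (θ ((q, true), false)) 0
/-- the resampled weights -/
noncomputable def bq' (θ : Th) (q : ℕ) : ℝ := max (θ ((q, false), true)) 0
noncomputable def cq' (θ : Th) (q : ℕ) : ℝ := max (θ ((q, true), true)) 0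

theorem bq_nn (θ : Th) (q : ℕ) : 0 ≤ bq θ q := le_max_right _ _
theorem cq_nn (θ : Th) (q : ℕ) : 0 ≤ cq θ q := le_max_right _ _

theorem all_pos' : ∀ᵐ θ ∂(Pr β α), ∀ q, 0 < bq θ q ∧ 0 < cq θ q ∧ 0 < bq' θ q ∧ 0 < cq' θ q := by
  filter_upwards [all_pos β α] with θ h q
  exact ⟨lt_max_of_lt_left (h _), lt_max_of_lt_left (h _), lt_max_of_lt_left (h _),
    lt_max_of_lt_left (h _)⟩

/-- dependence on a set of coordinates -/
def Dep (S : Set (Ix × Bool)) (f : Th → ℝ) : Prop := Measurable[sig Xc S] f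

theorem Dep.mono {S T : Set (Ix × Bool)} {f : Th → ℝ} (h : Dep S f) (hST : S ⊆ T) : Dep T f :=
  Measurable.mono h (sig_mono Xc hST) le_rfl

theorem Dep.meas {S : Set (Ix × Bool)} {f : Th → ℝ} (h : Dep S f) : Measurable f :=
  Measurable.mono h (sig_le Xc Xc_meas S) le_rfl

theorem dep_coord {S : Set (Ix × Bool)} {j : Ix × Bool} (hj : j ∈ S) : Dep S (Xc j) :=
  sig_coord Xc hj

theorem dep_const (S : Set (Ix × Bool)) (c : ℝ) : Dep S (fun _ => c) :=
  @measurable_const _ _ _ (sig Xc S) c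

theorem Dep.comp {S : Set (Ix × Bool)} {f : Th → ℝ} (h : Dep S f) {φ : ℝ → ℝ}
    (hφ : Measurable φ) : Dep S (fun θ => φ (f θ)) := hφ.comp h

theorem Dep.comp2 {S : Set (Ix × Bool)} {f g : Th → ℝ} (hf : Dep S f) (hg : Dep S g)
    {φ : ℝ × ℝ → ℝ} (hφ : Measurable φ) : Dep S (fun θ => φ (f θ, g θ)) :=
  hφ.comp (Measurable.prodMk (show Measurable[sig Xc S] f from hf)
    (show Measurable[sig Xc S] g from hg))

theorem Dep.add {S : Set (Ix × Bool)} {f g : Th → ℝ} (hf : Dep S f) (hg : Dep S g) :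
    Dep S (fun θ => f θ + g θ) :=
  hf.comp2 hg (φ := fun z => z.1 + z.2) (by fun_prop)

theorem Dep.sub {S : Set (Ix × Bool)} {f g : Th → ℝ} (hf : Dep S f) (hg : Dep S g) :
    Dep S (fun θ => f θ - g θ) :=
  hf.comp2 hg (φ := fun z => z.1 - z.2) (by fun_prop)

theorem Dep.mul {S : Set (Ix × Bool)} {f g : Th → ℝ} (hf : Dep S f) (hg : Dep S g) :
    Dep S (fun θ => f θ * g θ) :=
  hf.comp2 hg (φ := fun z => z.1 * z.2) (by fun_prop)

theorem Dep.div {S : Set (Ix × Bool)} {f g : Th → ℝ} (hf : Dep S f) (hg : Dep S g) :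
    Dep S (fun θ => f θ / g θ) :=
  hf.comp2 hg (φ := fun z => z.1 / z.2) (by fun_prop)

theorem Dep.rpow {S : Set (Ix × Bool)} {f : Th → ℝ} (hf : Dep S f) (s : ℝ) :
    Dep S (fun θ => f θ ^ s) :=
  hf.comp (φ := fun z => z ^ s) (by fun_prop)

theorem dep_bq {S : Set (Ix × Bool)} {q : ℕ} (h : ((q, false), false) ∈ S) :
    Dep S (fun θ => bq θ q) :=
  (dep_coord h).comp (φ := fun z => max z 0) (by fun_prop)

theorem dep_cq {S : Set (Ix × Bool)} {q : ℕ} (h : ((q, true), false) ∈ S) :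
    Dep S (fun θ => cq θ q) :=
  (dep_coord h).comp (φ := fun z => max z 0) (by fun_prop)

theorem dep_bq' {S : Set (Ix × Bool)} {q : ℕ} (h : ((q, false), true) ∈ S) :
    Dep S (fun θ => bq' θ q) :=
  (dep_coord h).comp (φ := fun z => max z 0) (by fun_prop)

theorem dep_cq' {S : Set (Ix × Bool)} {q : ℕ} (h : ((q, true), true) ∈ S) :
    Dep S (fun θ => cq' θ q) :=
  (dep_coord h).comp (φ := fun z => max z 0) (by fun_prop)

/-- expectation of a product of independent variables -/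
theorem ind_mul {S T : Set (Ix × Bool)} (hST : Disjoint S T) {f g : Th → ℝ} (hf : Dep S f)
    (hg : Dep T g) (If : Integrable f (Pr β α)) (Ig : Integrable g (Pr β α)) :
    Integrable (fun θ => f θ * g θ) (Pr β α) ∧
    ∫ θ, f θ * g θ ∂(Pr β α) = (∫ θ, f θ ∂(Pr β α)) * ∫ θ, g θ ∂(Pr β α) := by
  have hind : IndepFun f g (Pr β α) := indep_sig Xc_meas (Xc_indep β α) hST hf hg
  exact ⟨hind.integrable_mul If Ig,
    hind.integral_fun_mul_eq_mul_integral hf.meas.aestronglyMeasurable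
      hg.meas.aestronglyMeasurable⟩

/-- the left chain depends on the coordinates above the level -/
def Up (q : ℕ) : Set (Ix × Bool) := {j | j.2 = false ∧ (q < j.1.1 ∨ (j.1.1 = q ∧ j.1.2 = true))}

/-- the right chain depends on the coordinates below the level -/
def Lo (q : ℕ) : Set (Ix × Bool) := {j | j.2 = false ∧ j.1.1 < q}

theorem Up_mono (q : ℕ) : Up (q + 1) ⊆ Up q := by
  rintro ⟨⟨i, s⟩, t⟩ ⟨h1, h2⟩
  refine ⟨h1, Or.inl ?_⟩
  simp only at h2 ⊢
  omega

theorem Lo_mono (q : ℕ) : Lo q ⊆ Lo (q + 1) := by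
  rintro ⟨⟨i, s⟩, t⟩ ⟨h1, h2⟩
  refine ⟨h1, ?_⟩
  simp only at h2 ⊢
  omega

theorem dep_Al (x : ℝ) (k : ℕ) : ∀ q, Dep (Up q) (fun θ => Al (bq θ) (cq θ) x k q) := by
  induction k with
  | zero => intro q; exact dep_const _ _
  | succ k ih =>
    intro q
    have h := (ih (q + 1)).mono (Up_mono q)
    have hc : Dep (Up q) (fun θ => cq θ q) := dep_cq ⟨rfl, Or.inr ⟨rfl, rfl⟩⟩
    have hb : Dep (Up q) (fun θ => bq θ (q + 1)) := dep_bq ⟨rfl, Or.inl (Nat.lt_succ_self q)⟩
    exact (dep_const _ 1).add ((hc.mul h).div (hb.add ((dep_const _ x).mul h)))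

theorem dep_Ar (x : ℝ) (q : ℕ) : Dep (Lo q) (fun θ => Ar (bq θ) (cq θ) x q) := by
  induction q with
  | zero => exact dep_const _ _
  | succ q ih =>
    have h := ih.mono (Lo_mono q)
    have hc : Dep (Lo (q + 1)) (fun θ => cq θ q) := dep_cq ⟨rfl, Nat.lt_succ_self q⟩
    have hb : Dep (Lo (q + 1)) (fun θ => bq θ q) := dep_bq ⟨rfl, Nat.lt_succ_self q⟩
    exact (dep_const _ 1).add ((hc.mul h).div (hb.add ((dep_const _ x).mul h)))

/-- moments of a coordinate -/
theorem coord_mom (j : Ix × Bool) {s : ℝ} (hs : 0 < shape β α j.1 + s) :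
    Integrable (fun θ : Th => (max (θ j) 0) ^ s) (Pr β α) ∧
    ∫ θ, (max (θ j) 0) ^ s ∂(Pr β α) = gm (shape β α j.1) (β / 2) s := by
  have hr : 0 < β / 2 := by have := hβ.1; positivity
  obtain ⟨h1, h2⟩ := gam_int_val (shape_pos hβ.1 hα.1 j.1) hr hs
  have hmp := Xc_mp β α j
  have hae : (fun θ : Th => (max (θ j) 0) ^ s) =ᵐ[Pr β α] fun θ => (Xc j θ) ^ s := by
    filter_upwards [all_pos β α] with θ h
    rw [max_eq_left (h j).le]
    rfl
  constructor
  · rw [integrable_congr hae]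
    exact hmp.integrable_comp_of_integrable h1
  · rw [integral_congr_ae hae, int_mp hmp (g := fun w => w ^ s) (by fun_prop)]
    exact h2

theorem bq_mom (q : ℕ) {s : ℝ} (hs : 0 < β / 2 * (q + α) + s) :
    Integrable (fun θ => bq θ q ^ s) (Pr β α) ∧
    ∫ θ, bq θ q ^ s ∂(Pr β α) = gm (β / 2 * (q + α)) (β / 2) s :=
  coord_mom β α ((q, false), false) hs

theorem cq_mom (q : ℕ) {s : ℝ} (hs : 0 < β / 2 * (q + 1) + s) :
    Integrable (fun θ => cq θ q ^ s) (Pr β α) ∧
    ∫ θ, cq θ q ^ s ∂(Pr β α) = gm (β / 2 * (q + 1)) (β / 2) s :=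
  coord_mom β α ((q, true), false) hs

theorem bq'_mom (q : ℕ) {s : ℝ} (hs : 0 < β / 2 * (q + α) + s) :
    Integrable (fun θ => bq' θ q ^ s) (Pr β α) ∧
    ∫ θ, bq' θ q ^ s ∂(Pr β α) = gm (β / 2 * (q + α)) (β / 2) s :=
  coord_mom β α ((q, false), true) hs

theorem cq'_mom (q : ℕ) {s : ℝ} (hs : 0 < β / 2 * (q + 1) + s) :
    Integrable (fun θ => cq' θ q ^ s) (Pr β α) ∧
    ∫ θ, cq' θ q ^ s ∂(Pr β α) = gm (β / 2 * (q + 1)) (β / 2) s :=
  coord_mom β α ((q, true), true) hs

/-- bound of the left chain -/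
theorem Al_le {x : ℝ} (hx : 0 < x) (k q : ℕ) (θ : Th) :
    Al (bq θ) (cq θ) x k q ≤ 1 + cq θ q / x := by
  have hc := cq_nn θ q
  cases k with
  | zero =>
    rw [Al_zero]
    have : 0 ≤ cq θ q / x := by positivity
    linarith
  | succ k =>
    rw [Al_succ]
    have h1 := Al_ge (bq_nn θ) (cq_nn θ) hx k (q + 1)
    have hb := bq_nn θ (q + 1)
    have h2 : 0 < Al (bq θ) (cq θ) x k (q + 1) := by linarith
    have h3 : 0 < bq θ (q + 1) + x * Al (bq θ) (cq θ) x k (q + 1) := by positivity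
    have h4 : cq θ q * Al (bq θ) (cq θ) x k (q + 1) /
        (bq θ (q + 1) + x * Al (bq θ) (cq θ) x k (q + 1)) ≤ cq θ q / x := by
      rw [div_le_div_iff₀ h3 hx]
      have : 0 ≤ cq θ q * bq θ (q + 1) := mul_nonneg hc hb
      nlinarith
    linarith

theorem Ar_le {x : ℝ} (hx : 0 < x) (q : ℕ) (θ : Th) :
    Ar (bq θ) (cq θ) x (q + 1) ≤ 1 + cq θ q / x := by
  have hc := cq_nn θ q
  rw [Ar_succ]
  have h1 := Ar_ge (bq_nn θ) (cq_nn θ) hx q
  have hb := bq_nn θ q
  have h2 : 0 < Ar (bq θ) (cq θ) x q := by linarith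
  have h3 : 0 < bq θ q + x * Ar (bq θ) (cq θ) x q := by positivity
  have h4 : cq θ q * Ar (bq θ) (cq θ) x q / (bq θ q + x * Ar (bq θ) (cq θ) x q) ≤ cq θ q / x := by
    rw [div_le_div_iff₀ h3 hx]
    have : 0 ≤ cq θ q * bq θ q := mul_nonneg hc hb
    nlinarith
  linarith

theorem cq_int (q : ℕ) : Integrable (fun θ => cq θ q) (Pr β α) := by
  have h := (cq_mom β α q (s := 1) (by have := hβ.1; positivity)).1
  simpa using h

theorem cq_mean (q : ℕ) : ∫ θ, cq θ q ∂(Pr β α) = q + 1 := by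
  have hb := hβ.1
  have h := (cq_mom β α q (s := 1) (by positivity)).2
  rw [gam_mean (by positivity) (by positivity)] at h
  simp only [rpow_one] at h
  rw [h]
  field_simp

theorem bq_int (q : ℕ) : Integrable (fun θ => bq θ q) (Pr β α) := by
  have h := (bq_mom β α q (s := 1) (by have := hβ.1; have := hα.1; positivity)).1
  simpa using h

theorem bq_mean (q : ℕ) : ∫ θ, bq θ q ∂(Pr β α) = q + α := by
  have hb := hβ.1
  have ha := hα.1
  have h := (bq_mom β α q (s := 1) (by positivity)).2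
  rw [gam_mean (by positivity) (by positivity)] at h
  simp only [rpow_one] at h
  rw [h]
  field_simp

theorem Al_int {x : ℝ} (hx : 0 < x) (k q : ℕ) :
    Integrable (fun θ => Al (bq θ) (cq θ) x k q) (Pr β α) := by
  refine Integrable.mono' (g := fun θ => 1 + cq θ q / x)
    ((integrable_const _).add ((cq_int β α q).div_const x)) (dep_Al x k q).meas.aestronglyMeasurable
    (Filter.Eventually.of_forall fun θ => ?_)
  have h := Al_ge (bq_nn θ) (cq_nn θ) hx k q
  rw [Real.norm_eq_abs, abs_of_nonneg (by linarith)]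
  exact Al_le hx k q θ

theorem Ar_int {x : ℝ} (hx : 0 < x) (q : ℕ) :
    Integrable (fun θ => Ar (bq θ) (cq θ) x q) (Pr β α) := by
  cases q with
  | zero => simp only [Ar_zero]; exact integrable_const _
  | succ q =>
    refine Integrable.mono' (g := fun θ => 1 + cq θ q / x)
      ((integrable_const _).add ((cq_int β α q).div_const x))
      (dep_Ar x (q + 1)).meas.aestronglyMeasurable (Filter.Eventually.of_forall fun θ => ?_)
    have h := Ar_ge (bq_nn θ) (cq_nn θ) hx (q + 1)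
    rw [Real.norm_eq_abs, abs_of_nonneg (by linarith)]
    exact Ar_le hx q θ

/-- powers at most one of a variable at least one -/
theorem rpow_int_of_ge_one {f : Th → ℝ} (hf : Measurable f) (h1 : ∀ θ, 1 ≤ f θ)
    (hI : Integrable f (Pr β α)) {s : ℝ} (hs : s ≤ 1) :
    Integrable (fun θ => f θ ^ s) (Pr β α) := by
  refine Integrable.mono' hI (hf.pow_const s).aestronglyMeasurable
    (Filter.Eventually.of_forall fun θ => ?_)
  have h := h1 θ
  rw [Real.norm_eq_abs, abs_of_nonneg (by positivity)]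
  calc f θ ^ s ≤ f θ ^ (1 : ℝ) := rpow_le_rpow_of_exponent_le h hs
    _ = f θ := rpow_one _

end

end Pool.Agent.Y982.LR
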