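import Pool.Agent.Y982.LR.Chain3

/-!
# LR-Two: two samples of one weight
-/

set_option autoImplicit false
set_option linter.unusedSectionVars false

open scoped BigOperators ENNReal
open MeasureTheory ProbabilityTheory Real Set

namespace Pool.Agent.Y982.LR

section

variable (β α : ℝ) [hβ : Fact (0 < β)] [hα : Fact (0 < α)]

/-- first and second sample of a weight -/
noncomputable def wv (i : Ix) (θ : Th) : ℝ := max (θ (i, false)) 0
noncomputable def wv' (i : Ix) (θ : Th) : ℝ := max (θ (i, true)) 0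

theorem wv_nn (i : Ix) (θ : Th) : 0 ≤ wv i θ := le_max_right _ _
theorem wv'_nn (i : Ix) (θ : Th) : 0 ≤ wv' i θ := le_max_right _ _

theorem wv_pos : ∀ᵐ θ ∂(Pr β α), ∀ i, 0 < wv i θ ∧ 0 < wv' i θ := by
  filter_upwards [all_pos β α] with θ h i
  exact ⟨lt_max_of_lt_left (h _), lt_max_of_lt_left (h _)⟩

theorem dep_wv (i : Ix) : Dep {(i, false)} (wv i) :=
  (dep_coord (Set.mem_singleton _)).comp (φ := fun z => max z 0) (by fun_prop)

theorem dep_wv' (i : Ix) : Dep {(i, true)} (wv' i) :=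
  (dep_coord (Set.mem_singleton _)).comp (φ := fun z => max z 0) (by fun_prop)

theorem disj_two (i : Ix) : Disjoint ({(i, false)} : Set (Ix × Bool)) {(i, true)} := by
  rw [Set.disjoint_left]
  rintro j hj hj2
  rw [Set.mem_singleton_iff] at hj hj2
  rw [hj] at hj2
  simp at hj2

theorem prod_mom (i : Ix) {s t : ℝ} (hs : 0 < shape β α i + s) (ht : 0 < shape β α i + t) :
    Integrable (fun θ => wv i θ ^ s * wv' i θ ^ t) (Pr β α) ∧
    ∫ θ, wv i θ ^ s * wv' i θ ^ t ∂(Pr β α) =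
      gm (shape β α i) (β / 2) s * gm (shape β α i) (β / 2) t := by
  obtain ⟨i1, e1⟩ := coord_mom β α (i, false) hs
  obtain ⟨i2, e2⟩ := coord_mom β α (i, true) ht
  obtain ⟨i3, e3⟩ := ind_mul β α (disj_two i) ((dep_wv i).rpow s) ((dep_wv' i).rpow t) i1 i2
  exact ⟨i3, by rw [e3]; exact congrArg₂ (· * ·) e1 e2⟩

/-- squared logarithmic difference with a power weight -/
noncomputable def LL (i : Ix) (s : ℝ) (θ : Th) : ℝ :=
  Real.log (wv i θ / wv' i θ) ^ 2 * (wv i θ ^ s + wv' i θ ^ s)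

theorem LL_nn (i : Ix) (s : ℝ) (θ : Th) : 0 ≤ LL i s θ := by
  unfold LL
  have := rpow_nonneg (wv_nn i θ) s
  have := rpow_nonneg (wv'_nn i θ) s
  positivity

theorem dep_LL (i : Ix) (s : ℝ) : Dep {(i, false), (i, true)} (LL i s) := by
  have h1 : Dep {(i, false), (i, true)} (wv i) := (dep_wv i).mono (by simp)
  have h2 : Dep {(i, false), (i, true)} (wv' i) := (dep_wv' i).mono (by simp)
  exact ((h1.div h2).comp (φ := fun z => Real.log z ^ 2) (by fun_prop)).mul
    ((h1.rpow s).add (h2.rpow s))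

theorem LL_int (i : Ix) {s ε : ℝ} (hε : 0 < ε) (h1 : 0 < shape β α i - ε)
    (h2 : 0 < shape β α i + s - ε) : Integrable (LL i s) (Pr β α) := by
  have hk := shape_pos hβ.1 hα.1 i
  obtain ⟨i1, -⟩ := prod_mom β α i (s := s + ε) (t := -ε) (by linarith) (by linarith)
  obtain ⟨i2, -⟩ := prod_mom β α i (s := s - ε) (t := ε) (by linarith) (by linarith)
  obtain ⟨i3, -⟩ := prod_mom β α i (s := ε) (t := s - ε) (by linarith) (by linarith)
  obtain ⟨i4, -⟩ := prod_mom β α i (s := -ε) (t := s + ε) (by linarith) (by linarith)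
  have i5 := (((i1.add i2).add i3).add i4).const_mul (4 / ε ^ 2)
  refine Integrable.mono' i5 (dep_LL i s).meas.aestronglyMeasurable ?_
  filter_upwards [wv_pos β α] with θ hθ
  obtain ⟨hw, hw'⟩ := hθ i
  rw [Real.norm_eq_abs, abs_of_nonneg (LL_nn i s θ)]
  unfold LL
  have h3 := log_sq_le_rpow (ρ := wv i θ / wv' i θ) (by positivity) hε
  set w := wv i θ
  set w' := wv' i θ
  have e1 : (w / w') ^ ε = w ^ ε * w' ^ (-ε) := by
    rw [div_rpow hw.le hw'.le, rpow_neg hw'.le, div_eq_mul_inv]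
  have e2 : (w / w') ^ (-ε) = w ^ (-ε) * w' ^ ε := by
    rw [div_rpow hw.le hw'.le, div_eq_mul_inv, ← rpow_neg hw'.le, neg_neg]
  rw [e1, e2] at h3
  have h4 : 0 ≤ w ^ s + w' ^ s := by positivity
  have h5 := mul_le_mul_of_nonneg_right h3 h4
  refine h5.trans (le_of_eq ?_)
  simp only [Pi.add_apply]
  have g1 : w ^ (s + ε) = w ^ s * w ^ ε := rpow_add hw s ε
  have g2 : w ^ (s - ε) = w ^ s * w ^ (-ε) := by rw [sub_eq_add_neg, rpow_add hw]
  have g3 : w' ^ (s + ε) = w' ^ s * w' ^ ε := rpow_add hw' s ε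
  have g4 : w' ^ (s - ε) = w' ^ s * w' ^ (-ε) := by rw [sub_eq_add_neg, rpow_add hw']
  change _ = 4 / ε ^ 2 * (w ^ (s + ε) * w' ^ (-ε) + w ^ (s - ε) * w' ^ ε + w ^ ε * w' ^ (s - ε) +
    w ^ (-ε) * w' ^ (s + ε))
  rw [g1, g2, g3, g4]
  ring

theorem LL_large (i : Ix) {s : ℝ} (hs0 : -1 ≤ s) (hs1 : s ≤ 1) (hk : 4 ≤ shape β α i) :
    ∫ θ, LL i s θ ∂(Pr β α) ≤ 16 / shape β α i * gm (shape β α i) (β / 2) s := by
  have hr : 0 < β / 2 := by have := hβ.1; positivity
  have hbne : β ≠ 0 := hβ.1.ne'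
  set k := shape β α i with hkdef
  obtain ⟨i1, e1⟩ := prod_mom β α i (s := s + 1) (t := -1) (by linarith) (by linarith)
  obtain ⟨i2, e2⟩ := prod_mom β α i (s := s - 1) (t := 1) (by linarith) (by linarith)
  obtain ⟨i3, e3⟩ := prod_mom β α i (s := s) (t := 0) (by linarith) (by linarith)
  obtain ⟨i4, e4⟩ := prod_mom β α i (s := 1) (t := s - 1) (by linarith) (by linarith)
  obtain ⟨i5, e5⟩ := prod_mom β α i (s := -1) (t := s + 1) (by linarith) (by linarith)
  obtain ⟨i6, e6⟩ := prod_mom β α i (s := 0) (t := s) (by linarith) (by linarith)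
  rw [← hkdef] at e1 e2 e3 e4 e5 e6
  set f1 : Th → ℝ := fun θ => wv i θ ^ (s + 1) * wv' i θ ^ (-1 : ℝ) with hf1
  set f2 : Th → ℝ := fun θ => wv i θ ^ (s - 1) * wv' i θ ^ (1 : ℝ) with hf2
  set f3 : Th → ℝ := fun θ => wv i θ ^ s * wv' i θ ^ (0 : ℝ) with hf3
  set f4 : Th → ℝ := fun θ => wv i θ ^ (1 : ℝ) * wv' i θ ^ (s - 1) with hf4
  set f5 : Th → ℝ := fun θ => wv i θ ^ (-1 : ℝ) * wv' i θ ^ (s + 1) with hf5
  set f6 : Th → ℝ := fun θ => wv i θ ^ (0 : ℝ) * wv' i θ ^ s with hf6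
  have hpt : ∀ᵐ θ ∂(Pr β α), LL i s θ ≤ (f1 θ + f2 θ + f4 θ + f5 θ) - 2 * (f3 θ + f6 θ) := by
    filter_upwards [wv_pos β α] with θ hθ
    obtain ⟨hw, hw'⟩ := hθ i
    unfold LL
    have h3 := log_sq_le (ρ := wv i θ / wv' i θ) (by positivity)
    simp only [hf1, hf2, hf3, hf4, hf5, hf6]
    set w := wv i θ
    set w' := wv' i θ
    have h4 : 0 ≤ w ^ s + w' ^ s := by positivity
    have h5 := mul_le_mul_of_nonneg_right h3 h4
    refine h5.trans (le_of_eq ?_)
    rw [rpow_add_one hw.ne', rpow_add_one hw'.ne', rpow_sub_one hw.ne', rpow_sub_one hw'.ne',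
      rpow_neg_one, rpow_neg_one, rpow_one, rpow_one, rpow_zero, rpow_zero, inv_div]
    field_simp
    ring
  have i7 : Integrable (fun θ => f1 θ + f2 θ + f4 θ + f5 θ) (Pr β α) :=
    ((i1.add i2).add i4).add i5
  have i8 : Integrable (fun θ => 2 * (f3 θ + f6 θ)) (Pr β α) := (i3.add i6).const_mul 2
  have iL : Integrable (LL i s) (Pr β α) :=
    LL_int β α i (s := s) (ε := 1) one_pos (by linarith) (by linarith)
  have e7 : ∫ θ, (f1 θ + f2 θ + f4 θ + f5 θ) ∂(Pr β α) =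
      gm k (β / 2) (s + 1) * gm k (β / 2) (-1) + gm k (β / 2) (s - 1) * gm k (β / 2) 1 +
      gm k (β / 2) 1 * gm k (β / 2) (s - 1) + gm k (β / 2) (-1) * gm k (β / 2) (s + 1) := by
    have j1 : Integrable (fun θ => f1 θ + f2 θ) (Pr β α) := i1.add i2
    have j2 : Integrable (fun θ => f1 θ + f2 θ + f4 θ) (Pr β α) := j1.add i4
    rw [integral_add j2 i5, integral_add j1 i4, integral_add i1 i2, e1, e2, e4, e5]
  have e8 : ∫ θ, 2 * (f3 θ + f6 θ) ∂(Pr β α) =
      2 * (gm k (β / 2) s * gm k (β / 2) 0 + gm k (β / 2) 0 * gm k (β / 2) s) := by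
    rw [integral_const_mul, integral_add i3 i6, e3, e6]
  have h0 : gm k (β / 2) 0 = 1 := by
    unfold gm
    have := Gamma_pos_of_pos (show 0 < k by linarith)
    rw [add_zero, rpow_zero, mul_one, div_self this.ne']
  have h1 : gm k (β / 2) 1 = k / (β / 2) := gam_mean (by linarith) hr
  have hm1 : gm k (β / 2) (-1) = (β / 2) / (k - 1) := gam_inv (by linarith) hr
  have hs1' : gm k (β / 2) (s + 1) = (k + s) * (1 / (β / 2)) * gm k (β / 2) s :=
    gm_succ' hr (by linarith)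
  have hsm : gm k (β / 2) (s - 1) = (β / 2) / (k + s - 1) * gm k (β / 2) s := by
    have := gm_succ' (k := k) (r := β / 2) (s := s - 1) hr (by linarith)
    rw [show s - 1 + 1 = s by ring] at this
    rw [this]
    have h9 : k + s - 1 ≠ 0 := by linarith
    have h9' : k + (s - 1) = k + s - 1 := by ring
    rw [h9']
    field_simp
  have hg : 0 < gm k (β / 2) s := gm_pos (by linarith) hr (by linarith)
  calc ∫ θ, LL i s θ ∂(Pr β α)
      ≤ ∫ θ, ((f1 θ + f2 θ + f4 θ + f5 θ) - 2 * (f3 θ + f6 θ)) ∂(Pr β α) :=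
        integral_mono_ae iL (i7.sub i8) hpt
    _ = 2 * gm k (β / 2) s * ((k + s) / (k - 1) + k / (k + s - 1) - 2) := by
        rw [integral_sub i7 i8, e7, e8, h0, h1, hm1, hs1', hsm]
        have p1 : k - 1 ≠ 0 := by linarith
        have p2 : k + s - 1 ≠ 0 := by linarith
        field_simp
        ring
    _ ≤ 2 * gm k (β / 2) s * (8 / k) := by
        refine mul_le_mul_of_nonneg_left ?_ (by positivity)
        have p1 : 0 < k - 1 := by linarith
        have p2 : 0 < k + s - 1 := by linarith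
        have e : (k + s) / (k - 1) + k / (k + s - 1) - 2 =
            (2 * (k - 1) + s * (1 + s)) / ((k - 1) * (k + s - 1)) := by
          field_simp
          ring
        rw [e, div_le_div_iff₀ (by positivity) (by linarith)]
        have g1 : s * (1 + s) ≤ 2 := by nlinarith
        have g2 : k / 2 ≤ k - 1 := by linarith
        have g3 : k / 2 ≤ k + s - 1 := by linarith
        have g4 : k / 2 * (k / 2) ≤ (k - 1) * (k + s - 1) := mul_le_mul g2 g3 (by linarith) p1.le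
        nlinarith
    _ = _ := by ring

theorem shape_b (q : ℕ) : shape β α (q, false) = β / 2 * (q + α) := by simp [shape]
theorem shape_c (q : ℕ) : shape β α (q, true) = β / 2 * (q + 1) := by simp [shape]

theorem LL_b_int {σ : ℝ} (h0 : 0 < σ) (h2 : σ < β / 2 * α) (q : ℕ) :
    Integrable (LL (q, false) (-σ)) (Pr β α) := by
  have hb := hβ.1
  have h3 : 0 ≤ β / 2 * (q : ℝ) := by positivity
  refine LL_int β α (q, false) (ε := (β / 2 * α - σ) / 2) (by linarith) ?_ ?_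
  · rw [shape_b]; nlinarith
  · rw [shape_b]; nlinarith

theorem LL_c_int {σ : ℝ} (h0 : 0 < σ) (q : ℕ) : Integrable (LL (q, true) σ) (Pr β α) := by
  have hb := hβ.1
  have h3 : 0 ≤ β / 2 * (q : ℝ) := by positivity
  refine LL_int β α (q, true) (ε := β / 4) (by linarith) ?_ ?_
  · rw [shape_c]; nlinarith
  · rw [shape_c]; nlinarith

theorem inv_shape {q : ℕ} (hq : ⌈16 / β⌉₊ + 1 ≤ q) (s : Bool) :
    4 ≤ shape β α (q, s) ∧ 1 / shape β α (q, s) ≤ 4 / β * (1 / ((q : ℝ) + 1)) := by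
  have hb := hβ.1
  have ha := hα.1
  have hq1 : 16 / β + 1 ≤ q := by
    have h3 : ((⌈16 / β⌉₊ + 1 : ℕ) : ℝ) ≤ q := by exact_mod_cast hq
    push_cast at h3
    have := Nat.le_ceil (16 / β)
    linarith
  have hq2 : 16 ≤ β * q := by
    have : β * (16 / β) ≤ β * q := mul_le_mul_of_nonneg_left (by linarith) hb.le
    have e : β * (16 / β) = 16 := by field_simp
    linarith
  have hbig : 1 ≤ (q : ℝ) := by
    have : 0 < 16 / β := by positivity
    linarith
  have hs : β / 4 * ((q : ℝ) + 1) ≤ shape β α (q, s) := by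
    cases s
    · rw [shape_b]
      have h5 : ((q : ℝ) + 1) / 2 ≤ q + α := by linarith
      nlinarith
    · rw [shape_c]
      nlinarith
  have hs4 : 4 ≤ shape β α (q, s) := by nlinarith
  refine ⟨hs4, ?_⟩
  have h6 : 4 / β * (1 / ((q : ℝ) + 1)) = 1 / (β / 4 * ((q : ℝ) + 1)) := by
    field_simp
  rw [h6]
  exact one_div_le_one_div_of_le (by positivity) hs

theorem LL_b_bound {σ : ℝ} (h0 : 0 < σ) (h1 : σ ≤ 1) (h2 : σ < β / 2 * α) :
    ∃ C : ℝ, 0 ≤ C ∧ ∀ q : ℕ, ∫ θ, LL (q, false) (-σ) θ ∂(Pr β α) ≤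
      C * (((q : ℝ) + 1) ^ (-σ) * (1 / ((q : ℝ) + 1))) := by
  have hb := hβ.1
  obtain ⟨C, hC, hn⟩ := bneg_bound β α h0 h1 h2
  refine unif_bound (C₀ := 16 * (4 / β) * C) (q₀ := ⌈16 / β⌉₊ + 1) (fun q => by positivity)
    fun q hq => ?_
  obtain ⟨g1, g2⟩ := inv_shape β α hq false
  have g3 := LL_large β α (q, false) (s := -σ) (by linarith) (by linarith) g1
  have g4 := hn q
  rw [(bq_mom β α q (s := -σ) (bneg_fin β α h2 q)).2, ← shape_b β α q] at g4
  have hg : 0 < gm (shape β α (q, false)) (β / 2) (-σ) := by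
    rw [shape_b]
    exact gm_pos (by have := hα.1; positivity) (by positivity) (bneg_fin β α h2 q)
  refine g3.trans ?_
  calc 16 / shape β α (q, false) * gm (shape β α (q, false)) (β / 2) (-σ)
      = 16 * (1 / shape β α (q, false)) * gm (shape β α (q, false)) (β / 2) (-σ) := by ring
    _ ≤ 16 * (4 / β * (1 / ((q : ℝ) + 1))) * (C * ((q : ℝ) + 1) ^ (-σ)) := by gcongr
    _ = _ := by ring

theorem LL_c_bound {σ : ℝ} (h0 : 0 < σ) (h1 : σ ≤ 1) :
    ∃ C : ℝ, 0 ≤ C ∧ ∀ q : ℕ, ∫ θ, LL (q, true) σ θ ∂(Pr β α) ≤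
      C * (((q : ℝ) + 1) ^ σ * (1 / ((q : ℝ) + 1))) := by
  have hb := hβ.1
  refine unif_bound (C₀ := 16 * (4 / β)) (q₀ := ⌈16 / β⌉₊ + 1) (fun q => by positivity)
    fun q hq => ?_
  obtain ⟨g1, g2⟩ := inv_shape β α hq true
  have g3 := LL_large β α (q, true) (s := σ) (by linarith) (by linarith) g1
  have g4 := (cpow_le β α h0 h1 q).2
  rw [(cq_mom β α q (s := σ) (by positivity)).2, ← shape_c β α q] at g4
  have hg : 0 < gm (shape β α (q, true)) (β / 2) σ := by
    rw [shape_c]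
    exact gm_pos (by positivity) (by positivity) (by positivity)
  refine g3.trans ?_
  calc 16 / shape β α (q, true) * gm (shape β α (q, true)) (β / 2) σ
      = 16 * (1 / shape β α (q, true)) * gm (shape β α (q, true)) (β / 2) σ := by ring
    _ ≤ 16 * (4 / β * (1 / ((q : ℝ) + 1))) * (((q : ℝ) + 1) ^ σ) := by gcongr
    _ = _ := by ring

theorem LL_zero : ∃ C : ℝ, 0 ≤ C ∧ ∃ q₂ : ℕ, ∀ q : ℕ, q₂ ≤ q → ∀ s : Bool,
    Integrable (LL (q, s) 0) (Pr β α) ∧
    ∫ θ, LL (q, s) 0 θ ∂(Pr β α) ≤ C * (1 / ((q : ℝ) + 1)) := by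
  have hb := hβ.1
  refine ⟨16 * (4 / β), by positivity, ⌈16 / β⌉₊ + 1, fun q hq s => ?_⟩
  obtain ⟨g1, g2⟩ := inv_shape β α hq s
  refine ⟨LL_int β α (q, s) (ε := 1) one_pos (by linarith) (by linarith), ?_⟩
  have g3 := LL_large β α (q, s) (s := 0) (by linarith) (by linarith) g1
  have h0 : gm (shape β α (q, s)) (β / 2) 0 = 1 := by
    unfold gm
    have := Gamma_pos_of_pos (show 0 < shape β α (q, s) by linarith)
    rw [add_zero, rpow_zero, mul_one, div_self this.ne']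
  rw [h0, mul_one] at g3
  refine g3.trans ?_
  calc 16 / shape β α (q, s) = 16 * (1 / shape β α (q, s)) := by ring
    _ ≤ 16 * (4 / β * (1 / ((q : ℝ) + 1))) := by gcongr
    _ = _ := by ring

end

end Pool.Agent.Y982.LR
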