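import Pool.Agent.Y982.LR.Edge

/-!
# LR-Var: the variance of the difference statistic
-/

set_option autoImplicit false
set_option linter.unusedSectionVars false

open scoped BigOperators ENNReal
open MeasureTheory ProbabilityTheory Real Set

namespace Pool.Agent.Y982.LR

/-- hypotheses on the exponents -/
structure Ex (β α σ ν' : ℝ) : Prop where
  h0 : 0 < σ
  h1 : σ ≤ 1
  h2 : σ < β / 2 * α
  hν0 : 0 < ν'
  hν1 : ν' < nu β α σ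
  hν2 : ν' ≤ σ

theorem pow_le_self_of {a s : ℝ} (ha : 1 ≤ a) (hs : s ≤ 1) : a ^ s ≤ a := by
  calc a ^ s ≤ a ^ (1 : ℝ) := rpow_le_rpow_of_exponent_le ha hs
    _ = a := rpow_one a

section

variable (β α : ℝ) [hβ : Fact (0 < β)] [hα : Fact (0 < α)]

theorem exists_Ex : ∃ σ ν' : ℝ, Ex β α σ ν' := by
  have hb := hβ.1
  have ha := hα.1
  set σ : ℝ := min 1 (β / 2 * α / 2) with hσ
  have h0 : 0 < σ := lt_min one_pos (by positivity)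
  have h2 : σ < β / 2 * α := by
    have h3 : σ ≤ β / 2 * α / 2 := min_le_right _ _
    have h4 : 0 < β / 2 * α := by positivity
    linarith
  have hν := nu_pos β α h0 h2
  refine ⟨σ, min (nu β α σ / 2) σ, h0, min_le_left _ _, h2, lt_min (by linarith) h0, ?_,
    min_le_right _ _⟩
  have : min (nu β α σ / 2) σ ≤ nu β α σ / 2 := min_le_left _ _
  linarith

/-- Jensen for the left chain -/
theorem jensen_pow {f : Th → ℝ} (hf : Measurable f) (h1 : ∀ θ, 1 ≤ f θ)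
    (hI : Integrable f (Pr β α)) {s : ℝ} (hs0 : 0 ≤ s) (hs : s ≤ 1) :
    ∫ θ, f θ ^ s ∂(Pr β α) ≤ (∫ θ, f θ ∂(Pr β α)) ^ s := by
  set m := ∫ θ, f θ ∂(Pr β α) with hm
  have hm1 : 1 ≤ m := by
    calc (1 : ℝ) = ∫ θ, (1 : ℝ) ∂(Pr β α) := by simp
      _ ≤ m := integral_mono (integrable_const _) hI h1
  obtain ⟨i1, e1⟩ := int_affine hI (m ^ s) (s * m ^ (s - 1)) m
  rw [← hm, sub_self, mul_zero, add_zero] at e1
  calc ∫ θ, f θ ^ s ∂(Pr β α) ≤ ∫ θ, (m ^ s + s * m ^ (s - 1) * (f θ - m)) ∂(Pr β α) := by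
        refine integral_mono (rpow_int_of_ge_one β α hf h1 hI hs) i1 fun θ => ?_
        have h2 := tan_pow (v := m) (u := f θ - m) (s := s) (by linarith) (by linarith [h1 θ]) hs0 hs
        have e : m + (f θ - m) = f θ := by ring
        rw [e] at h2
        beta_reduce
        linarith
    _ = m ^ s := e1

/-- the cutoff level -/
noncomputable def Qx (x : ℝ) : ℕ := ⌈1 / x⌉₊

theorem Qx_ge (x : ℝ) : 1 / x ≤ Qx x := Nat.le_ceil _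

theorem Qx_le {x : ℝ} (hx : 0 < x) (hx2 : x ≤ 1 / 2) : (Qx x : ℝ) + 1 ≤ 2 / x := by
  have h1 : (Qx x : ℝ) < 1 / x + 1 := Nat.ceil_lt_add_one (by positivity)
  have h2 : 2 ≤ 1 / x := by rw [le_div_iff₀ hx]; linarith
  have h3 : 2 / x = 1 / x + 1 / x := by ring
  linarith

theorem Qx_anti {x y : ℝ} (hx : 0 < x) (hxy : x ≤ y) : Qx y ≤ Qx x := by
  unfold Qx
  apply Nat.ceil_mono
  exact one_div_le_one_div_of_le hx hxy

theorem Qx_large (q₁ : ℕ) {x : ℝ} (hx : 0 < x) (h : x ≤ 1 / ((q₁ : ℝ) + 1)) : q₁ ≤ Qx x := by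
  have h1 : (q₁ : ℝ) + 1 ≤ 1 / x := by
    rw [le_div_iff₀ hx]
    rw [le_div_iff₀ (by positivity)] at h
    linarith
  have h2 := Qx_ge x
  have h3 : (q₁ : ℝ) ≤ Qx x := by linarith
  exact_mod_cast h3

theorem Al_mid {σ : ℝ} (h0 : 0 < σ) (h1 : σ ≤ 1) : ∃ M : ℝ, 0 ≤ M ∧ ∃ x₀ : ℝ, 0 < x₀ ∧
    ∀ x : ℝ, 0 < x → x ≤ x₀ → ∀ k : ℕ,
      ∫ θ, Al (bq θ) (cq θ) x k (Qx x) ^ σ ∂(Pr β α) ≤ M * zq β α (Qx x) ^ σ := by
  have hb := hβ.1
  have ha := hα.1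
  obtain ⟨M, hM, q₁, hL⟩ := L1 β α
  refine ⟨M, by linarith, min 1 (1 / ((q₁ : ℝ) + 1)), lt_min one_pos (by positivity),
    fun x hx hxx k => ?_⟩
  have hx1 : x ≤ 1 := hxx.trans (min_le_left _ _)
  have hQ : q₁ ≤ Qx x := Qx_large q₁ hx (hxx.trans (min_le_right _ _))
  have hg := Qx_ge x
  have hxQ : 1 ≤ x * ((Qx x : ℝ) + 1) := by
    rw [div_le_iff₀ hx] at hg
    nlinarith
  have h3 := hL x hx hx1 k (Qx x) hQ hxQ
  have hQ0 : (0 : ℝ) < (Qx x : ℝ) + 1 := by positivity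
  have h4 : √(((Qx x : ℝ) + 1) / x) ≤ (Qx x : ℝ) + 1 := by
    rw [Real.sqrt_le_left hQ0.le, div_le_iff₀ hx]
    nlinarith
  have h5 : ∫ θ, Al (bq θ) (cq θ) x k (Qx x) ∂(Pr β α) ≤ M * ((Qx x : ℝ) + 1) :=
    h3.trans (mul_le_mul_of_nonneg_left h4 (by linarith))
  have h6 := jensen_pow β α (dep_Al x k (Qx x)).meas
    (fun θ => Al_ge (bq_nn θ) (cq_nn θ) hx k (Qx x)) (Al_int β α hx k (Qx x)) h0.le h1
  have h7 : 0 ≤ ∫ θ, Al (bq θ) (cq θ) x k (Qx x) ∂(Pr β α) := integral_nonneg fun θ => by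
    have := Al_ge (bq_nn θ) (cq_nn θ) hx k (Qx x)
    exact le_trans zero_le_one this
  have hz : (Qx x : ℝ) + 1 ≤ zq β α (Qx x) := by
    unfold zq
    have : 0 < 2 / β := by positivity
    linarith
  calc ∫ θ, Al (bq θ) (cq θ) x k (Qx x) ^ σ ∂(Pr β α)
      ≤ (∫ θ, Al (bq θ) (cq θ) x k (Qx x) ∂(Pr β α)) ^ σ := h6
    _ ≤ (M * ((Qx x : ℝ) + 1)) ^ σ := rpow_le_rpow h7 h5 h0.le
    _ = M ^ σ * ((Qx x : ℝ) + 1) ^ σ := mul_rpow (by linarith) hQ0.le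
    _ ≤ M * zq β α (Qx x) ^ σ := by
        have g1 : M ^ σ ≤ M := pow_le_self_of hM h1
        have g2 : ((Qx x : ℝ) + 1) ^ σ ≤ zq β α (Qx x) ^ σ := rpow_le_rpow hQ0.le hz h0.le
        exact mul_le_mul g1 g2 (by positivity) (by linarith)

theorem zq_le (q : ℕ) : zq β α q ≤ (1 + (α + 2 / β)) * ((q : ℝ) + 1) := by
  have hb := hβ.1
  have ha := hα.1
  unfold zq
  have : 0 ≤ (q : ℝ) := by positivity
  have h5 : 0 < 2 / β := by positivity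
  nlinarith [mul_nonneg this (add_pos ha h5).le]

theorem zq_pow_le {s : ℝ} (hs0 : 0 ≤ s) (hs : s ≤ 1) (q : ℕ) :
    zq β α q ^ s ≤ (1 + (α + 2 / β)) * ((q : ℝ) + 1) ^ s := by
  have hb := hβ.1
  have ha := hα.1
  have hκ : 1 ≤ 1 + (α + 2 / β) := by
    have : 0 < α + 2 / β := by positivity
    linarith
  have hz := zq_ge β α q
  calc zq β α q ^ s ≤ ((1 + (α + 2 / β)) * ((q : ℝ) + 1)) ^ s :=
        rpow_le_rpow (by linarith) (zq_le β α q) hs0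
    _ = (1 + (α + 2 / β)) ^ s * ((q : ℝ) + 1) ^ s := mul_rpow (by linarith) (by positivity)
    _ ≤ _ := mul_le_mul_of_nonneg_right (pow_le_self_of hκ hs) (by positivity)

/-- power moments of the left chain below the cutoff -/
theorem Al_all {σ ν' : ℝ} (h : Ex β α σ ν') : ∃ C : ℝ, 0 ≤ C ∧ ∃ x₀ : ℝ, 0 < x₀ ∧
    ∀ x : ℝ, 0 < x → x ≤ x₀ → ∀ n q : ℕ, Qx x < n → q ≤ Qx x →
      ∫ θ, Al (bq θ) (cq θ) x (n - 1 - q) q ^ σ ∂(Pr β α) ≤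
        C * (((q : ℝ) + 1) ^ ν' * x ^ (ν' - σ)) := by
  have hb := hβ.1
  have ha := hα.1
  obtain ⟨M, hM, x₁, hx₁, hmid⟩ := Al_mid β α h.h0 h.h1
  obtain ⟨C, hC, q₁, hL⟩ := L2 β α h.h0 h.h1 h.h2 h.hν0 h.hν1 h.hν2 M hM
  set κ : ℝ := 1 + (α + 2 / β) with hκ
  have hκ1 : 1 ≤ κ := by
    have : 0 < α + 2 / β := by positivity
    linarith
  refine ⟨C * (κ * (κ * 2)), by positivity, min (1 / 2) (min x₁ (1 / ((q₁ : ℝ) + 1))),
    lt_min (by norm_num) (lt_min hx₁ (by positivity)), fun x hx hxx n q hn hq => ?_⟩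
  have hx2 : x ≤ 1 / 2 := hxx.trans (min_le_left _ _)
  have hxx1 : x ≤ x₁ := (hxx.trans (min_le_right _ _)).trans (min_le_left _ _)
  have hxq : x ≤ 1 / ((q₁ : ℝ) + 1) := (hxx.trans (min_le_right _ _)).trans (min_le_right _ _)
  have hQ := Qx_large q₁ hx hxq
  have h3 := hL x hx (n - 1 - Qx x) (Qx x) hQ (hmid x hx hxx1 _) q hq
  have e : n - 1 - Qx x + (Qx x - q) = n - 1 - q := by omega
  rw [e] at h3
  refine h3.trans ?_
  have hν1 : ν' ≤ 1 := h.hν2.trans h.h1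
  have g1 := zq_pow_le β α h.hν0.le hν1 q
  have hs0 : 0 ≤ σ - ν' := by linarith [h.hν2]
  have g2 := zq_pow_le β α hs0 (by linarith [h.h1, h.hν0]) (Qx x)
  have g3 : ((Qx x : ℝ) + 1) ^ (σ - ν') ≤ 2 * x ^ (ν' - σ) := by
    calc ((Qx x : ℝ) + 1) ^ (σ - ν') ≤ (2 / x) ^ (σ - ν') :=
          rpow_le_rpow (by positivity) (Qx_le hx hx2) hs0
      _ = 2 ^ (σ - ν') * x ^ (ν' - σ) := by
          rw [div_rpow (by norm_num) hx.le, div_eq_mul_inv, ← rpow_neg hx.le]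
          congr 2; ring
      _ ≤ 2 * x ^ (ν' - σ) := by
          refine mul_le_mul_of_nonneg_right ?_ (by positivity)
          exact pow_le_self_of (by norm_num) (by linarith [h.h1, h.hν0])
  have hz := zq_ge β α q
  have hZ := zq_ge β α (Qx x)
  calc C * (zq β α q ^ ν' * zq β α (Qx x) ^ (σ - ν'))
      ≤ C * ((κ * ((q : ℝ) + 1) ^ ν') * (κ * (2 * x ^ (ν' - σ)))) := by
        refine mul_le_mul_of_nonneg_left ?_ hC
        refine mul_le_mul g1 ?_ (by positivity) (by positivity)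
        exact g2.trans (mul_le_mul_of_nonneg_left g3 (by linarith))
    _ = _ := by ring

theorem Al_pow_int {x : ℝ} (hx : 0 < x) {σ : ℝ} (h1 : σ ≤ 1) (k q : ℕ) :
    Integrable (fun θ => Al (bq θ) (cq θ) x k q ^ σ) (Pr β α) :=
  rpow_int_of_ge_one β α (dep_Al x k q).meas (fun θ => Al_ge (bq_nn θ) (cq_nn θ) hx k q)
    (Al_int β α hx k q) h1

theorem Ar_pow_int {x : ℝ} (hx : 0 < x) {σ : ℝ} (h1 : σ ≤ 1) (q : ℕ) :
    Integrable (fun θ => Ar (bq θ) (cq θ) x q ^ σ) (Pr β α) :=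
  rpow_int_of_ge_one β α (dep_Ar x q).meas (fun θ => Ar_ge (bq_nn θ) (cq_nn θ) hx q)
    (Ar_int β α hx q) h1

theorem disj8 (q : ℕ) : Disjoint (Lo q) (Up q) := by
  rw [Set.disjoint_left]
  rintro j ⟨h1, h2⟩ ⟨h3, h4⟩
  rcases h4 with h4 | ⟨h4, -⟩ <;> omega

theorem disj9 (q : ℕ) : Disjoint (Lo q ∪ Up q)
    ({((q, false), false), ((q, false), true)} : Set (Ix × Bool)) := by
  rw [Set.disjoint_left]
  rintro j hj2 hj
  rcases hj with hj | hj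
  · subst hj
    rcases hj2 with ⟨_, h⟩ | ⟨_, h⟩
    · simp at h
    · simp at h
  · rw [Set.mem_singleton_iff] at hj
    subst hj
    rcases hj2 with ⟨h, _⟩ | ⟨h, _⟩
    · simp at h
    · simp at h

/-- the weight at a `b` edge -/
theorem tb_mom {σ ν' : ℝ} (h : Ex β α σ ν') {x : ℝ} (hx : 0 < x) (k q : ℕ) :
    Integrable (fun θ => tb x k q θ ^ σ * LL (q, false) (-σ) θ) (Pr β α) ∧
    ∫ θ, tb x k q θ ^ σ * LL (q, false) (-σ) θ ∂(Pr β α) =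
      x ^ σ * ((∫ θ, Ar (bq θ) (cq θ) x q ^ σ ∂(Pr β α)) *
        (∫ θ, Al (bq θ) (cq θ) x k q ^ σ ∂(Pr β α)) *
        ∫ θ, LL (q, false) (-σ) θ ∂(Pr β α)) := by
  obtain ⟨i1, e1⟩ := ind_mul β α (disj8 q) ((dep_Ar x q).rpow σ) ((dep_Al x k q).rpow σ)
    (Ar_pow_int β α hx h.h1 q) (Al_pow_int β α hx h.h1 k q)
  have d1 : Dep (Lo q ∪ Up q) (fun θ => Ar (bq θ) (cq θ) x q ^ σ * Al (bq θ) (cq θ) x k q ^ σ) :=
    (((dep_Ar x q).rpow σ).mono subset_union_left).mul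
      (((dep_Al x k q).rpow σ).mono subset_union_right)
  obtain ⟨i2, e2⟩ := ind_mul β α (disj9 q) d1 (dep_LL (q, false) (-σ)) i1
    (LL_b_int β α h.h0 h.h2 q)
  rw [e1] at e2
  have e : ∀ θ : Th, tb x k q θ ^ σ * LL (q, false) (-σ) θ =
      x ^ σ * (Ar (bq θ) (cq θ) x q ^ σ * Al (bq θ) (cq θ) x k q ^ σ * LL (q, false) (-σ) θ) := by
    intro θ
    have h1 := Ar_ge (bq_nn θ) (cq_nn θ) hx q
    have h2 := Al_ge (bq_nn θ) (cq_nn θ) hx k q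
    unfold tb
    rw [mul_rpow (by positivity) (by linarith), mul_rpow hx.le (by linarith)]
    ring
  simp only [e]
  refine ⟨i2.const_mul _, ?_⟩
  rw [integral_const_mul, e2]

theorem disj10 (q : ℕ) : Disjoint (LoB q) (Up (q + 1) ∪ {((q + 1, false), false)}) := by
  rw [Set.disjoint_left]
  rintro j hj hj2
  have h1 : j.1.1 < q + 1 := by
    rcases hj with ⟨_, h⟩ | h
    · omega
    · rw [Set.mem_singleton_iff] at h
      subst h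
      simp
  rcases hj2 with ⟨_, h⟩ | h
  · rcases h with h | ⟨h, -⟩ <;> omega
  · rw [Set.mem_singleton_iff] at h
    subst h
    simp at h1

theorem disj11 (q : ℕ) : Disjoint (LoB q ∪ (Up (q + 1) ∪ {((q + 1, false), false)}))
    ({((q, true), false), ((q, true), true)} : Set (Ix × Bool)) := by
  rw [Set.disjoint_left]
  rintro j hj2 hj
  rcases hj with hj | hj
  · subst hj
    rcases hj2 with (⟨_, h⟩ | h) | (⟨_, h⟩ | h)
    · simp at h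
    · simp at h
    · simp only at h; omega
    · simp at h
  · rw [Set.mem_singleton_iff] at hj
    subst hj
    rcases hj2 with (⟨h, _⟩ | h) | (⟨h, _⟩ | h)
    · simp at h
    · simp at h
    · simp at h
    · simp at h

/-- the weight at a `c` edge -/
theorem tc_mom {σ ν' : ℝ} (h : Ex β α σ ν') {x : ℝ} (hx : 0 < x) (k q : ℕ) :
    Integrable (fun θ => tc x k q θ ^ σ * LL (q, true) σ θ) (Pr β α) ∧
    ∫ θ, tc x k q θ ^ σ * LL (q, true) σ θ ∂(Pr β α) ≤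
      x ^ σ * ((∫ θ, Yq x θ q ^ σ ∂(Pr β α)) *
        ((∫ θ, Al (bq θ) (cq θ) x k (q + 1) ^ σ ∂(Pr β α)) *
        (∫ θ, bq θ (q + 1) ^ (-σ) ∂(Pr β α))) *
        ∫ θ, LL (q, true) σ θ ∂(Pr β α)) := by
  obtain ⟨i0, -⟩ := bq_mom β α (q + 1) (s := -σ) (bneg_fin β α h.h2 (q + 1))
  have d0 : Dep ({((q + 1, false), false)} : Set (Ix × Bool)) (fun θ => bq θ (q + 1) ^ (-σ)) :=
    (dep_bq (Set.mem_singleton _)).rpow (-σ)
  obtain ⟨i1, e1⟩ := ind_mul β α (disj2 (q + 1)) ((dep_Al x k (q + 1)).rpow σ) d0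
    (Al_pow_int β α hx h.h1 k (q + 1)) i0
  have d1 : Dep (Up (q + 1) ∪ {((q + 1, false), false)})
      (fun θ => Al (bq θ) (cq θ) x k (q + 1) ^ σ * bq θ (q + 1) ^ (-σ)) :=
    (((dep_Al x k (q + 1)).rpow σ).mono subset_union_left).mul (d0.mono subset_union_right)
  obtain ⟨i2, e2⟩ := ind_mul β α (disj10 q) ((dep_Yq x q).rpow σ) d1
    (Yq_int β α h.h0 h.h1 h.h2 hx q) i1
  have d2 : Dep (LoB q ∪ (Up (q + 1) ∪ {((q + 1, false), false)}))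
      (fun θ => Yq x θ q ^ σ * (Al (bq θ) (cq θ) x k (q + 1) ^ σ * bq θ (q + 1) ^ (-σ))) :=
    (((dep_Yq x q).rpow σ).mono subset_union_left).mul (d1.mono subset_union_right)
  obtain ⟨i3, e3⟩ := ind_mul β α (disj11 q) d2 (dep_LL (q, true) σ) i2 (LL_c_int β α h.h0 q)
  rw [e2, e1] at e3
  have i4 := i3.const_mul (x ^ σ)
  have hpt : ∀ᵐ θ ∂(Pr β α), tc x k q θ ^ σ * LL (q, true) σ θ ≤
      x ^ σ * (Yq x θ q ^ σ * (Al (bq θ) (cq θ) x k (q + 1) ^ σ * bq θ (q + 1) ^ (-σ)) *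
        LL (q, true) σ θ) := by
    filter_upwards [all_pos' β α] with θ hθ
    have hb1 := (hθ q).1
    have hb2 := (hθ (q + 1)).1
    have h1 := Ar_ge (bq_nn θ) (cq_nn θ) hx q
    have h2 := Al_ge (bq_nn θ) (cq_nn θ) hx k (q + 1)
    have h3 := tc_nn hx k q θ
    have h4 : tc x k q θ ≤ x * (Yq x θ q * (Al (bq θ) (cq θ) x k (q + 1) * (bq θ (q + 1))⁻¹)) := by
      unfold tc Yq
      set A := Ar (bq θ) (cq θ) x q
      set A' := Al (bq θ) (cq θ) x k (q + 1)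
      have e : x * (A / bq θ q * (A' * (bq θ (q + 1))⁻¹)) = x * A * A' / (bq θ q * bq θ (q + 1)) := by
        field_simp
      rw [e]
      have hA : 0 < A := by linarith
      have hA' : 0 < A' := by linarith
      apply div_le_div_of_nonneg_left (by positivity) (by positivity)
      apply mul_le_mul _ _ hb2.le (by positivity)
      · have : 0 < x * A := by positivity
        linarith
      · have : 0 < x * A' := by positivity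
        linarith
    have hY := Yq_pos hx hb1
    have h5 : tc x k q θ ^ σ ≤ x ^ σ * (Yq x θ q ^ σ * (Al (bq θ) (cq θ) x k (q + 1) ^ σ *
        bq θ (q + 1) ^ (-σ))) := by
      refine (rpow_le_rpow h3 h4 h.h0.le).trans (le_of_eq ?_)
      rw [mul_rpow hx.le (by positivity), mul_rpow hY.le (by positivity),
        mul_rpow (by linarith) (by positivity), inv_rpow hb2.le, ← rpow_neg hb2.le]
    calc tc x k q θ ^ σ * LL (q, true) σ θ ≤ (x ^ σ * (Yq x θ q ^ σ *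
          (Al (bq θ) (cq θ) x k (q + 1) ^ σ * bq θ (q + 1) ^ (-σ)))) * LL (q, true) σ θ :=
          mul_le_mul_of_nonneg_right h5 (LL_nn _ _ _)
      _ = _ := by ring
  have dtc : Measurable (fun θ => tc x k q θ ^ σ * LL (q, true) σ θ) := by
    have m1 : Measurable (fun θ => Ar (bq θ) (cq θ) x q) := (dep_Ar x q).meas
    have m2 : Measurable (fun θ => Al (bq θ) (cq θ) x k (q + 1)) := (dep_Al x k (q + 1)).meas
    have m3 : Measurable (fun θ => bq θ q) := (dep_bq (Set.mem_singleton _)).meas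
    have m4 : Measurable (fun θ => bq θ (q + 1)) := (dep_bq (Set.mem_singleton _)).meas
    have m5 : Measurable (LL (q, true) σ) := (dep_LL (q, true) σ).meas
    unfold tc
    fun_prop
  have i5 : Integrable (fun θ => tc x k q θ ^ σ * LL (q, true) σ θ) (Pr β α) := by
    refine Integrable.mono' i4 dtc.aestronglyMeasurable ?_
    filter_upwards [hpt] with θ hθ
    rw [Real.norm_eq_abs, abs_of_nonneg (mul_nonneg (rpow_nonneg (tc_nn hx k q θ) _) (LL_nn _ _ _))]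
    exact hθ
  refine ⟨i5, ?_⟩
  calc ∫ θ, tc x k q θ ^ σ * LL (q, true) σ θ ∂(Pr β α)
      ≤ ∫ θ, x ^ σ * (Yq x θ q ^ σ * (Al (bq θ) (cq θ) x k (q + 1) ^ σ * bq θ (q + 1) ^ (-σ)) *
        LL (q, true) σ θ) ∂(Pr β α) := integral_mono_ae i5 i4 hpt
    _ = _ := by rw [integral_const_mul, e3]

theorem pow_combo {σ ν' x s : ℝ} (hx : 0 < x) (hs : 0 < s) :
    x ^ σ * (s ^ σ * (s ^ ν' * x ^ (ν' - σ)) * (s ^ (-σ) * (1 / s))) =
      x ^ ν' * s ^ (ν' - 1) := by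
  have e1 : x ^ σ * x ^ (ν' - σ) = x ^ ν' := by rw [← rpow_add hx]; congr 1; ring
  have e2 : s ^ σ * s ^ (-σ) = 1 := by rw [← rpow_add hs]; simp
  have e3 : s ^ ν' * (1 / s) = s ^ (ν' - 1) := by rw [rpow_sub_one hs.ne']; ring
  calc x ^ σ * (s ^ σ * (s ^ ν' * x ^ (ν' - σ)) * (s ^ (-σ) * (1 / s)))
      = (x ^ σ * x ^ (ν' - σ)) * (s ^ σ * s ^ (-σ)) * (s ^ ν' * (1 / s)) := by ring
    _ = _ := by rw [e1, e2, e3]; ring

/-- bound B at the `b` edges -/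
theorem tb_bound {σ ν' : ℝ} (h : Ex β α σ ν') : ∃ C : ℝ, 0 ≤ C ∧ ∃ x₀ : ℝ, 0 < x₀ ∧
    ∀ x : ℝ, 0 < x → x ≤ x₀ → ∀ n q : ℕ, Qx x < n → q ≤ Qx x →
      ∫ θ, tb x (n - 1 - q) q θ ^ σ * LL (q, false) (-σ) θ ∂(Pr β α) ≤
        C * (x ^ ν' * ((q : ℝ) + 1) ^ (ν' - 1)) := by
  obtain ⟨C₁, hC₁, x₀, hx₀, H1⟩ := Al_all β α h
  obtain ⟨C₂, hC₂, H2⟩ := Ar_bound β α h.h0 h.h1 h.h2
  obtain ⟨C₃, hC₃, H3⟩ := LL_b_bound β α h.h0 h.h1 h.h2
  refine ⟨C₂ * C₁ * C₃, by positivity, x₀, hx₀, fun x hx hxx n q hn hq => ?_⟩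
  rw [(tb_mom β α h hx (n - 1 - q) q).2]
  have g1 := H1 x hx hxx n q hn hq
  have g2 := H2 x hx q
  have g3 := H3 q
  have p1 : 0 ≤ ∫ θ, Al (bq θ) (cq θ) x (n - 1 - q) q ^ σ ∂(Pr β α) := integral_nonneg fun θ =>
    rpow_nonneg (by linarith [Al_ge (bq_nn θ) (cq_nn θ) hx (n - 1 - q) q]) _
  have p2 : 0 ≤ ∫ θ, Ar (bq θ) (cq θ) x q ^ σ ∂(Pr β α) := integral_nonneg fun θ =>
    rpow_nonneg (by linarith [Ar_ge (bq_nn θ) (cq_nn θ) hx q]) _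
  have p3 : 0 ≤ ∫ θ, LL (q, false) (-σ) θ ∂(Pr β α) := integral_nonneg fun θ => LL_nn _ _ _
  have hs : (0 : ℝ) < (q : ℝ) + 1 := by positivity
  calc x ^ σ * ((∫ θ, Ar (bq θ) (cq θ) x q ^ σ ∂(Pr β α)) *
        (∫ θ, Al (bq θ) (cq θ) x (n - 1 - q) q ^ σ ∂(Pr β α)) *
        ∫ θ, LL (q, false) (-σ) θ ∂(Pr β α))
      ≤ x ^ σ * ((C₂ * ((q : ℝ) + 1) ^ σ) * (C₁ * (((q : ℝ) + 1) ^ ν' * x ^ (ν' - σ))) *
          (C₃ * (((q : ℝ) + 1) ^ (-σ) * (1 / ((q : ℝ) + 1))))) := by gcongr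
    _ = C₂ * C₁ * C₃ * (x ^ σ * (((q : ℝ) + 1) ^ σ * (((q : ℝ) + 1) ^ ν' * x ^ (ν' - σ)) *
          (((q : ℝ) + 1) ^ (-σ) * (1 / ((q : ℝ) + 1))))) := by ring
    _ = _ := by rw [pow_combo hx hs]

/-- bound B at the `c` edges -/
theorem tc_bound {σ ν' : ℝ} (h : Ex β α σ ν') : ∃ C : ℝ, 0 ≤ C ∧ ∃ x₀ : ℝ, 0 < x₀ ∧
    ∀ x : ℝ, 0 < x → x ≤ x₀ → ∀ n q : ℕ, Qx x < n → q + 1 ≤ Qx x →
      ∫ θ, tc x (n - 1 - (q + 1)) q θ ^ σ * LL (q, true) σ θ ∂(Pr β α) ≤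
        C * (x ^ ν' * ((q : ℝ) + 1) ^ (ν' - 1)) := by
  obtain ⟨C₁, hC₁, x₀, hx₀, H1⟩ := Al_all β α h
  obtain ⟨C₂, hC₂, H2⟩ := Y_bound β α h.h0 h.h1 h.h2
  obtain ⟨C₃, hC₃, H3⟩ := LL_c_bound β α h.h0 h.h1
  obtain ⟨C₄, hC₄, H4⟩ := bneg_bound β α h.h0 h.h1 h.h2
  refine ⟨C₂ * (2 * C₁) * C₄ * C₃, by positivity, x₀, hx₀, fun x hx hxx n q hn hq => ?_⟩
  refine (tc_mom β α h hx (n - 1 - (q + 1)) q).2.trans ?_
  have g1 := H1 x hx hxx n (q + 1) hn hq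
  have g2 := H2 x hx q
  have g3 := H3 q
  have g4 := H4 (q + 1)
  have hs : (0 : ℝ) < (q : ℝ) + 1 := by positivity
  have p1 : 0 ≤ ∫ θ, Al (bq θ) (cq θ) x (n - 1 - (q + 1)) (q + 1) ^ σ ∂(Pr β α) :=
    integral_nonneg fun θ =>
      rpow_nonneg (by linarith [Al_ge (bq_nn θ) (cq_nn θ) hx (n - 1 - (q + 1)) (q + 1)]) _
  have p2 : 0 ≤ ∫ θ, Yq x θ q ^ σ ∂(Pr β α) := integral_nonneg fun θ =>
    rpow_nonneg (Yq_nn hx θ q) _
  have p3 : 0 ≤ ∫ θ, LL (q, true) σ θ ∂(Pr β α) := integral_nonneg fun θ => LL_nn _ _ _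
  have p4 : 0 ≤ ∫ θ, bq θ (q + 1) ^ (-σ) ∂(Pr β α) := integral_nonneg fun θ =>
    rpow_nonneg (bq_nn θ (q + 1)) _
  have hν1 : ν' ≤ 1 := h.hν2.trans h.h1
  have f1 : (((q + 1 : ℕ) : ℝ) + 1) ^ ν' ≤ 2 * ((q : ℝ) + 1) ^ ν' := by
    have h5 : ((q + 1 : ℕ) : ℝ) + 1 ≤ 2 * ((q : ℝ) + 1) := by
      push_cast
      have : (0 : ℝ) ≤ q := by positivity
      linarith
    calc (((q + 1 : ℕ) : ℝ) + 1) ^ ν' ≤ (2 * ((q : ℝ) + 1)) ^ ν' :=
          rpow_le_rpow (by positivity) h5 h.hν0.le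
      _ = 2 ^ ν' * ((q : ℝ) + 1) ^ ν' := mul_rpow (by norm_num) hs.le
      _ ≤ _ := mul_le_mul_of_nonneg_right (pow_le_self_of (by norm_num) hν1) (by positivity)
  have f2 : (((q + 1 : ℕ) : ℝ) + 1) ^ (-σ) ≤ ((q : ℝ) + 1) ^ (-σ) := by
    apply rpow_le_rpow_of_nonpos hs _ (by linarith [h.h0])
    push_cast; linarith
  have g1' : ∫ θ, Al (bq θ) (cq θ) x (n - 1 - (q + 1)) (q + 1) ^ σ ∂(Pr β α) ≤
      2 * C₁ * (((q : ℝ) + 1) ^ ν' * x ^ (ν' - σ)) := by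
    refine g1.trans ?_
    have : C₁ * ((((q + 1 : ℕ) : ℝ) + 1) ^ ν' * x ^ (ν' - σ)) ≤
        C₁ * ((2 * ((q : ℝ) + 1) ^ ν') * x ^ (ν' - σ)) := by gcongr
    linarith
  have g4' : ∫ θ, bq θ (q + 1) ^ (-σ) ∂(Pr β α) ≤ C₄ * ((q : ℝ) + 1) ^ (-σ) :=
    g4.trans (mul_le_mul_of_nonneg_left f2 hC₄)
  calc x ^ σ * ((∫ θ, Yq x θ q ^ σ ∂(Pr β α)) *
        ((∫ θ, Al (bq θ) (cq θ) x (n - 1 - (q + 1)) (q + 1) ^ σ ∂(Pr β α)) *
        (∫ θ, bq θ (q + 1) ^ (-σ) ∂(Pr β α))) * ∫ θ, LL (q, true) σ θ ∂(Pr β α))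
      ≤ x ^ σ * (C₂ * ((2 * C₁ * (((q : ℝ) + 1) ^ ν' * x ^ (ν' - σ))) *
          (C₄ * ((q : ℝ) + 1) ^ (-σ))) * (C₃ * (((q : ℝ) + 1) ^ σ * (1 / ((q : ℝ) + 1))))) := by
        gcongr
    _ = C₂ * (2 * C₁) * C₄ * C₃ * (x ^ σ * (((q : ℝ) + 1) ^ σ * (((q : ℝ) + 1) ^ ν' *
          x ^ (ν' - σ)) * (((q : ℝ) + 1) ^ (-σ) * (1 / ((q : ℝ) + 1))))) := by ring
    _ = _ := by rw [pow_combo hx hs]

/-! ### the influences -/

theorem LL_zero_eq (i : Ix) (θ : Th) (h : 0 < wv i θ) (h' : 0 < wv' i θ) :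
    LL i 0 θ = 2 * Real.log (wv i θ / wv' i θ) ^ 2 := by
  unfold LL
  rw [rpow_zero, rpow_zero]; ring

theorem diff_b {x₁ x₂ : ℝ} (h1 : 0 < x₁) (h2 : 0 < x₂) {n q : ℕ} (hq : q < n) (θ : Th)
    (h : 0 < wv (q, false) θ) (h' : 0 < wv' (q, false) θ) :
    FF n x₁ x₂ (sel ∅ θ) - FF n x₁ x₂ (sel {(q, false)} θ) =
      br (tb x₂ (n - 1 - q) q θ) (wv (q, false) θ) (wv' (q, false) θ) -
      br (tb x₁ (n - 1 - q) q θ) (wv (q, false) θ) (wv' (q, false) θ) := by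
  have e : q + (n - 1 - q) + 1 = n := by omega
  have g1 := LG_b h1 (n - 1 - q) q θ h h'
  have g2 := LG_b h2 (n - 1 - q) q θ h h'
  rw [e] at g1 g2
  unfold FF
  linarith

theorem diff_c {x₁ x₂ : ℝ} (h1 : 0 < x₁) (h2 : 0 < x₂) {n q : ℕ} (hq : q + 1 < n) (θ : Th)
    (h : 0 < wv (q, true) θ) (h' : 0 < wv' (q, true) θ) :
    FF n x₁ x₂ (sel ∅ θ) - FF n x₁ x₂ (sel {(q, true)} θ) =
      br (tc x₂ (n - 1 - (q + 1)) q θ) (wv (q, true) θ)⁻¹ (wv' (q, true) θ)⁻¹ -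
      br (tc x₁ (n - 1 - (q + 1)) q θ) (wv (q, true) θ)⁻¹ (wv' (q, true) θ)⁻¹ := by
  have e : q + (n - 1 - (q + 1) + 1) + 1 = n := by omega
  have g1 := LG_c h1 (n - 1 - (q + 1)) q θ h h'
  have g2 := LG_c h2 (n - 1 - (q + 1)) q θ h h'
  rw [e] at g1 g2
  unfold FF
  linarith

theorem Inf_int {n : ℕ} {x₁ x₂ : ℝ} (h1 : 0 < x₁) (h12 : x₁ ≤ x₂) (j : Ix) :
    Integrable (fun θ => (FF n x₁ x₂ (sel ∅ θ) - FF n x₁ x₂ (sel {j} θ)) ^ 2) (Pr β α) := by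
  refine int_bd ((((meas_FF n x₁ x₂).comp (meas_sel ∅)).sub
    ((meas_FF n x₁ x₂).comp (meas_sel {j}))).pow_const 2)
    (C := (2 * (n * Real.log (x₂ / x₁))) ^ 2) fun θ => ?_
  rw [abs_of_nonneg (sq_nonneg _)]
  have g1 := FF_abs (n := n) h1 h12 (sel ∅ θ)
  have g2 := FF_abs (n := n) h1 h12 (sel {j} θ)
  have g3 : |FF n x₁ x₂ (sel ∅ θ) - FF n x₁ x₂ (sel {j} θ)| ≤ 2 * (n * Real.log (x₂ / x₁)) := by
    refine (abs_sub _ _).trans ?_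
    linarith
  rw [← sq_abs]
  exact pow_le_pow_left₀ (abs_nonneg _) g3 2

/-- bound A -/
theorem Inf_A {n : ℕ} {x₁ x₂ : ℝ} (h1 : 0 < x₁) (h12 : x₁ ≤ x₂) {q : ℕ} (s : Bool)
    (hq : if s then q + 1 < n else q < n) (hint : Integrable (LL (q, s) 0) (Pr β α)) :
    Inf2 (gam β α) (FF n x₁ x₂) (q, s) ≤ 2 * ∫ θ, LL (q, s) 0 θ ∂(Pr β α) := by
  have h2 : 0 < x₂ := lt_of_lt_of_le h1 h12
  unfold Inf2
  rw [← integral_const_mul]
  refine integral_mono_ae (Inf_int β α h1 h12 (q, s)) (hint.const_mul 2) ?_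
  filter_upwards [wv_pos β α] with θ hθ
  obtain ⟨hw, hw'⟩ := hθ (q, s)
  rw [LL_zero_eq _ _ hw hw']
  cases s
  · simp only [Bool.false_eq_true, if_false] at hq
    rw [diff_b h1 h2 hq θ hw hw']
    have g1 := br_sq_le (tb_nn h2 (n - 1 - q) q θ) hw hw'
    have g2 := br_sq_le (tb_nn h1 (n - 1 - q) q θ) hw hw'
    nlinarith [sq_nonneg (br (tb x₂ (n - 1 - q) q θ) (wv (q, false) θ) (wv' (q, false) θ) +
      br (tb x₁ (n - 1 - q) q θ) (wv (q, false) θ) (wv' (q, false) θ))]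
  · simp only [if_true] at hq
    rw [diff_c h1 h2 hq θ hw hw']
    have g1 := br_sq_le (tc_nn h2 (n - 1 - (q + 1)) q θ) (inv_pos.2 hw) (inv_pos.2 hw')
    have g2 := br_sq_le (tc_nn h1 (n - 1 - (q + 1)) q θ) (inv_pos.2 hw) (inv_pos.2 hw')
    have e : Real.log ((wv (q, true) θ)⁻¹ / (wv' (q, true) θ)⁻¹) ^ 2 =
        Real.log (wv (q, true) θ / wv' (q, true) θ) ^ 2 := by
      rw [← log_div_sq]; congr 2; rw [inv_div_inv]
    rw [e] at g1 g2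
    nlinarith [sq_nonneg (br (tc x₂ (n - 1 - (q + 1)) q θ) (wv (q, true) θ)⁻¹ (wv' (q, true) θ)⁻¹ +
      br (tc x₁ (n - 1 - (q + 1)) q θ) (wv (q, true) θ)⁻¹ (wv' (q, true) θ)⁻¹)]

/-- bound B, `b` edges -/
theorem Inf_Bb {σ ν' : ℝ} (h : Ex β α σ ν') {n : ℕ} {x₁ x₂ : ℝ} (h1 : 0 < x₁) (h12 : x₁ ≤ x₂)
    {q : ℕ} (hq : q < n) :
    Inf2 (gam β α) (FF n x₁ x₂) (q, false) ≤
      2 * (∫ θ, tb x₂ (n - 1 - q) q θ ^ σ * LL (q, false) (-σ) θ ∂(Pr β α)) +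
      2 * (∫ θ, tb x₁ (n - 1 - q) q θ ^ σ * LL (q, false) (-σ) θ ∂(Pr β α)) := by
  have h2 : 0 < x₂ := lt_of_lt_of_le h1 h12
  have i2 := (tb_mom β α h h2 (n - 1 - q) q).1
  have i1 := (tb_mom β α h h1 (n - 1 - q) q).1
  unfold Inf2
  rw [← integral_const_mul, ← integral_const_mul, ← integral_add (i2.const_mul 2) (i1.const_mul 2)]
  refine integral_mono_ae (Inf_int β α h1 h12 (q, false)) ((i2.const_mul 2).add (i1.const_mul 2)) ?_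
  filter_upwards [wv_pos β α] with θ hθ
  obtain ⟨hw, hw'⟩ := hθ (q, false)
  rw [diff_b h1 h2 hq θ hw hw']
  have g1 := br_sq_pow (tb_nn h2 (n - 1 - q) q θ) hw hw' h.h0 h.h1
  have g2 := br_sq_pow (tb_nn h1 (n - 1 - q) q θ) hw hw' h.h0 h.h1
  have e : ∀ t : ℝ, t * (Real.log (wv (q, false) θ / wv' (q, false) θ) ^ 2 *
      (wv (q, false) θ ^ (-σ) + wv' (q, false) θ ^ (-σ))) = t * LL (q, false) (-σ) θ := fun t => rfl
  rw [e] at g1 g2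
  nlinarith [sq_nonneg (br (tb x₂ (n - 1 - q) q θ) (wv (q, false) θ) (wv' (q, false) θ) +
      br (tb x₁ (n - 1 - q) q θ) (wv (q, false) θ) (wv' (q, false) θ))]

/-- bound B, `c` edges -/
theorem Inf_Bc {σ ν' : ℝ} (h : Ex β α σ ν') {n : ℕ} {x₁ x₂ : ℝ} (h1 : 0 < x₁) (h12 : x₁ ≤ x₂)
    {q : ℕ} (hq : q + 1 < n) :
    Inf2 (gam β α) (FF n x₁ x₂) (q, true) ≤
      2 * (∫ θ, tc x₂ (n - 1 - (q + 1)) q θ ^ σ * LL (q, true) σ θ ∂(Pr β α)) +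
      2 * (∫ θ, tc x₁ (n - 1 - (q + 1)) q θ ^ σ * LL (q, true) σ θ ∂(Pr β α)) := by
  have h2 : 0 < x₂ := lt_of_lt_of_le h1 h12
  have i2 := (tc_mom β α h h2 (n - 1 - (q + 1)) q).1
  have i1 := (tc_mom β α h h1 (n - 1 - (q + 1)) q).1
  unfold Inf2
  rw [← integral_const_mul, ← integral_const_mul, ← integral_add (i2.const_mul 2) (i1.const_mul 2)]
  refine integral_mono_ae (Inf_int β α h1 h12 (q, true)) ((i2.const_mul 2).add (i1.const_mul 2)) ?_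
  filter_upwards [wv_pos β α] with θ hθ
  obtain ⟨hw, hw'⟩ := hθ (q, true)
  rw [diff_c h1 h2 hq θ hw hw']
  have g1 := br_sq_pow (tc_nn h2 (n - 1 - (q + 1)) q θ) (inv_pos.2 hw) (inv_pos.2 hw') h.h0 h.h1
  have g2 := br_sq_pow (tc_nn h1 (n - 1 - (q + 1)) q θ) (inv_pos.2 hw) (inv_pos.2 hw') h.h0 h.h1
  have e : Real.log ((wv (q, true) θ)⁻¹ / (wv' (q, true) θ)⁻¹) ^ 2 *
      ((wv (q, true) θ)⁻¹ ^ (-σ) + (wv' (q, true) θ)⁻¹ ^ (-σ)) = LL (q, true) σ θ := by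
    unfold LL
    rw [inv_rpow hw.le, inv_rpow hw'.le, ← rpow_neg hw.le, ← rpow_neg hw'.le, neg_neg]
    congr 1
    rw [← log_div_sq]; congr 2; rw [inv_div_inv]
  rw [e] at g1 g2
  nlinarith [sq_nonneg (br (tc x₂ (n - 1 - (q + 1)) q θ) (wv (q, true) θ)⁻¹ (wv' (q, true) θ)⁻¹ +
      br (tc x₁ (n - 1 - (q + 1)) q θ) (wv (q, true) θ)⁻¹ (wv' (q, true) θ)⁻¹)]

/-- sums of powers -/
theorem sum_pow_le {ν' : ℝ} (h0 : 0 < ν') (h1 : ν' ≤ 1) (Q : ℕ) :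
    ∑ q ∈ Finset.range Q, ((q : ℝ) + 1) ^ (ν' - 1) ≤ (1 / ν') * (Q : ℝ) ^ ν' := by
  induction Q with
  | zero => simp [zero_rpow h0.ne']
  | succ Q ih =>
    rw [Finset.sum_range_succ]
    push_cast
    have g := tan_pow (v := (Q : ℝ) + 1) (u := -1) (s := ν') (by positivity) (by
      have : (0 : ℝ) ≤ Q := by positivity
      linarith) h0.le h1
    have e : (Q : ℝ) + 1 + -1 = Q := by ring
    rw [e] at g
    have g2 : (Q : ℝ) ^ ν' + ν' * ((Q : ℝ) + 1) ^ (ν' - 1) ≤ ((Q : ℝ) + 1) ^ ν' := by linarith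
    have g3 := mul_le_mul_of_nonneg_left g2 (show (0 : ℝ) ≤ 1 / ν' by positivity)
    have e2 : 1 / ν' * ((Q : ℝ) ^ ν' + ν' * ((Q : ℝ) + 1) ^ (ν' - 1)) =
        1 / ν' * (Q : ℝ) ^ ν' + ((Q : ℝ) + 1) ^ (ν' - 1) := by field_simp
    linarith

theorem sum_inv_le {Q : ℕ} (hQ : 1 ≤ Q) (m : ℕ) :
    ∑ q ∈ Finset.Ico Q (Q + m), 1 / ((q : ℝ) + 1) ≤ Real.log (((Q + m : ℕ) : ℝ) / Q) := by
  have hQ0 : (0 : ℝ) < Q := by exact_mod_cast hQ
  induction m with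
  | zero => simp
  | succ m ih =>
    rw [← add_assoc, Finset.sum_Ico_succ_top (by omega)]
    have hp : (0 : ℝ) < ((Q + m : ℕ) : ℝ) := by positivity
    have h1 : 1 / (((Q + m : ℕ) : ℝ) + 1) ≤
        Real.log (((Q + m + 1 : ℕ) : ℝ) / ((Q + m : ℕ) : ℝ)) := by
      have h2 := Real.log_le_sub_one_of_pos
        (x := ((Q + m : ℕ) : ℝ) / (((Q + m : ℕ) : ℝ) + 1)) (by positivity)
      have h3 : Real.log (((Q + m + 1 : ℕ) : ℝ) / ((Q + m : ℕ) : ℝ)) =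
          - Real.log (((Q + m : ℕ) : ℝ) / (((Q + m : ℕ) : ℝ) + 1)) := by
        rw [← Real.log_inv, inv_div]; push_cast; rfl
      rw [h3]
      have h4 : ((Q + m : ℕ) : ℝ) / (((Q + m : ℕ) : ℝ) + 1) - 1 =
          -(1 / (((Q + m : ℕ) : ℝ) + 1)) := by field_simp; ring
      linarith
    have h5 : Real.log (((Q + m + 1 : ℕ) : ℝ) / Q) = Real.log (((Q + m : ℕ) : ℝ) / Q) +
        Real.log (((Q + m + 1 : ℕ) : ℝ) / ((Q + m : ℕ) : ℝ)) := by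
      rw [← Real.log_mul (by positivity) (by positivity)]
      congr 1
      field_simp
    rw [h5]
    linarith

/-- the set of relevant weights -/
def S0 (n : ℕ) : Finset Ix :=
  (Finset.range n).image (fun q => (q, false)) ∪ (Finset.range (n - 1)).image (fun q => (q, true))

theorem sum_S0 (n : ℕ) (f : Ix → ℝ) : ∑ j ∈ S0 n, f j =
    ∑ q ∈ Finset.range n, f (q, false) + ∑ q ∈ Finset.range (n - 1), f (q, true) := by
  unfold S0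
  rw [Finset.sum_union, Finset.sum_image, Finset.sum_image]
  · intro a _ b _ h
    exact congrArg Prod.fst h
  · intro a _ b _ h
    exact congrArg Prod.fst h
  · rw [Finset.disjoint_left]
    intro j hj hj2
    simp only [Finset.mem_image] at hj hj2
    obtain ⟨a, -, ha⟩ := hj
    obtain ⟨b, -, hb⟩ := hj2
    rw [← ha] at hb
    simp at hb

theorem FF_dep (n : ℕ) (x₁ x₂ : ℝ) (w w' : Ix → ℝ) (h : ∀ i ∈ S0 n, w i = w' i) :
    FF n x₁ x₂ w = FF n x₁ x₂ w' := by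
  have key : ∀ x : ℝ, Dp (bw w) (cw w) x n = Dp (bw w') (cw w') x n := by
    intro x
    refine Dp_congr (fun i hi => ?_) (fun i hi => ?_)
    · unfold bw
      rw [h (i, false) (by simp [S0, hi])]
    · unfold cw
      rw [h (i, true) (by simp only [S0, Finset.mem_union, Finset.mem_image, Finset.mem_range]
                          right; exact ⟨i, by omega, rfl⟩)]
  unfold FF LG
  rw [key, key]

/-- the variance bound -/
theorem var_bound : ∃ C : ℝ, 0 ≤ C ∧ ∃ x₀ : ℝ, 0 < x₀ ∧ ∀ x₁ x₂ : ℝ, 0 < x₁ → x₁ ≤ x₂ → x₂ ≤ x₀ →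
    ∀ n : ℕ, Qx x₁ < n →
    ∫ w, FF n x₁ x₂ w ^ 2 ∂(PP (gam β α)) - (∫ w, FF n x₁ x₂ w ∂(PP (gam β α))) ^ 2 ≤
      C * (1 + Real.log (n * x₂)) := by
  obtain ⟨σ, ν', h⟩ := exists_Ex β α
  obtain ⟨C₁, hC₁, y₁, hy₁, H1⟩ := tb_bound β α h
  obtain ⟨C₂, hC₂, y₂, hy₂, H2⟩ := tc_bound β α h
  obtain ⟨C₃, hC₃, q₂, H3⟩ := LL_zero β α
  have hν0 := h.hν0
  have hν1 : ν' ≤ 1 := h.hν2.trans h.h1
  set x₀ : ℝ := min (1 / 2) (min y₁ (min y₂ (1 / ((q₂ : ℝ) + 2)))) with hx₀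
  have hx₀p : 0 < x₀ := lt_min (by norm_num) (lt_min hy₁ (lt_min hy₂ (by positivity)))
  set K : ℝ := 4 * (C₁ + C₂) * ((1 / ν') * 2) with hK
  have hK0 : 0 ≤ K := by positivity
  refine ⟨1 / 2 * (K + 4 * C₃ * 2), by positivity, x₀, hx₀p,
    fun x₁ x₂ h1 h12 hx2 n hn => ?_⟩
  have h2 : 0 < x₂ := lt_of_lt_of_le h1 h12
  have a1 : x₂ ≤ 1 / 2 := hx2.trans (min_le_left _ _)
  have a2 : x₂ ≤ y₁ := (hx2.trans (min_le_right _ _)).trans (min_le_left _ _)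
  have a3 : x₂ ≤ y₂ :=
    ((hx2.trans (min_le_right _ _)).trans (min_le_right _ _)).trans (min_le_left _ _)
  have a4 : x₂ ≤ 1 / ((q₂ : ℝ) + 2) :=
    ((hx2.trans (min_le_right _ _)).trans (min_le_right _ _)).trans (min_le_right _ _)
  have hQ21 : Qx x₂ ≤ Qx x₁ := Qx_anti h1 h12
  set Q := Qx x₂ with hQ
  have hQq : q₂ + 1 ≤ Q := Qx_large (q₂ + 1) h2 (by push_cast; convert a4 using 2; ring)
  have hQn : Q < n := lt_of_le_of_lt hQ21 hn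
  -- Efron-Stein
  have hES := efron (gam β α) (FF n x₁ x₂) (meas_FF n x₁ x₂) (n * Real.log (x₂ / x₁))
    (fun w => FF_abs h1 h12 w) (S0 n) (FF_dep n x₁ x₂)
  refine hES.trans ?_
  rw [sum_S0]
  -- split
  have x_mono : x₁ ^ ν' ≤ x₂ ^ ν' := rpow_le_rpow h1.le h12 hν0.le
  have bB : ∀ q < Q, Inf2 (gam β α) (FF n x₁ x₂) (q, false) ≤
      4 * C₁ * (x₂ ^ ν' * ((q : ℝ) + 1) ^ (ν' - 1)) := by
    intro q hq
    have g := Inf_Bb β α h (n := n) h1 h12 (q := q) (by omega)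
    have g1 := H1 x₂ h2 a2 n q hQn hq.le
    have g2 := H1 x₁ h1 (h12.trans a2) n q hn (by omega)
    have g3 : C₁ * (x₁ ^ ν' * ((q : ℝ) + 1) ^ (ν' - 1)) ≤
        C₁ * (x₂ ^ ν' * ((q : ℝ) + 1) ^ (ν' - 1)) := by gcongr
    linarith
  have cB : ∀ q, q + 1 ≤ Q → Inf2 (gam β α) (FF n x₁ x₂) (q, true) ≤
      4 * C₂ * (x₂ ^ ν' * ((q : ℝ) + 1) ^ (ν' - 1)) := by
    intro q hq
    have g := Inf_Bc β α h (n := n) h1 h12 (q := q) (by omega)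
    have g1 := H2 x₂ h2 a3 n q hQn hq
    have g2 := H2 x₁ h1 (h12.trans a3) n q hn (by omega)
    have g3 : C₂ * (x₁ ^ ν' * ((q : ℝ) + 1) ^ (ν' - 1)) ≤
        C₂ * (x₂ ^ ν' * ((q : ℝ) + 1) ^ (ν' - 1)) := by gcongr
    linarith
  have bA : ∀ q, Q ≤ q → q < n → Inf2 (gam β α) (FF n x₁ x₂) (q, false) ≤
      2 * C₃ * (1 / ((q : ℝ) + 1)) := by
    intro q hq hqn
    obtain ⟨g1, g2⟩ := H3 q (by omega) false
    have g := Inf_A β α (n := n) h1 h12 (q := q) false (by simpa using hqn) g1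
    linarith
  have cA : ∀ q, Q ≤ q → q + 1 < n → Inf2 (gam β α) (FF n x₁ x₂) (q, true) ≤
      2 * C₃ * (1 / ((q : ℝ) + 1)) := by
    intro q hq hqn
    obtain ⟨g1, g2⟩ := H3 q (by omega) true
    have g := Inf_A β α (n := n) h1 h12 (q := q) true (by simpa using hqn) g1
    linarith
  have hpw : x₂ ^ ν' * ((1 / ν') * (Q : ℝ) ^ ν') ≤ (1 / ν') * 2 := by
    have g1 : (Q : ℝ) ≤ 2 / x₂ := by
      have := Qx_le h2 a1
      linarith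
    have g2 : (Q : ℝ) ^ ν' ≤ (2 / x₂) ^ ν' := rpow_le_rpow (by positivity) g1 hν0.le
    have g3 : x₂ ^ ν' * (2 / x₂) ^ ν' ≤ 2 := by
      rw [← mul_rpow h2.le (by positivity)]
      have e : x₂ * (2 / x₂) = 2 := by field_simp
      rw [e]
      exact pow_le_self_of (by norm_num) hν1
    calc x₂ ^ ν' * ((1 / ν') * (Q : ℝ) ^ ν') ≤ x₂ ^ ν' * ((1 / ν') * (2 / x₂) ^ ν') := by gcongr
      _ = (1 / ν') * (x₂ ^ ν' * (2 / x₂) ^ ν') := by ring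
      _ ≤ _ := by gcongr
  have hsumQ := sum_pow_le hν0 hν1 Q
  have hQ1 : 1 ≤ Q := by omega
  have hQ0 : (0 : ℝ) < Q := by exact_mod_cast hQ1
  have hlog : ∑ q ∈ Finset.Ico Q n, 1 / ((q : ℝ) + 1) ≤ Real.log (n * x₂) := by
    have g1 := sum_inv_le hQ1 (n - Q)
    rw [show Q + (n - Q) = n by omega] at g1
    refine g1.trans ?_
    apply Real.log_le_log
    · have : (0 : ℝ) < n := by
        have : 0 < n := by omega
        exact_mod_cast this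
      positivity
    · rw [div_le_iff₀ hQ0]
      have g2 := Qx_ge x₂
      rw [div_le_iff₀ h2] at g2
      have : (0 : ℝ) ≤ n := by positivity
      nlinarith
  -- the b sum
  have sb : ∑ q ∈ Finset.range n, Inf2 (gam β α) (FF n x₁ x₂) (q, false) ≤
      4 * C₁ * ((1 / ν') * 2) + 2 * C₃ * Real.log (n * x₂) := by
    rw [← Finset.sum_range_add_sum_Ico _ hQn.le]
    refine add_le_add ?_ ?_
    · calc ∑ q ∈ Finset.range Q, Inf2 (gam β α) (FF n x₁ x₂) (q, false)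
          ≤ ∑ q ∈ Finset.range Q, 4 * C₁ * (x₂ ^ ν' * ((q : ℝ) + 1) ^ (ν' - 1)) :=
            Finset.sum_le_sum fun q hq => bB q (Finset.mem_range.1 hq)
        _ = 4 * C₁ * (x₂ ^ ν' * ∑ q ∈ Finset.range Q, ((q : ℝ) + 1) ^ (ν' - 1)) := by
            rw [Finset.mul_sum, Finset.mul_sum]
        _ ≤ 4 * C₁ * (x₂ ^ ν' * ((1 / ν') * (Q : ℝ) ^ ν')) := by gcongr
        _ ≤ _ := by gcongr
    · calc ∑ q ∈ Finset.Ico Q n, Inf2 (gam β α) (FF n x₁ x₂) (q, false)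
          ≤ ∑ q ∈ Finset.Ico Q n, 2 * C₃ * (1 / ((q : ℝ) + 1)) :=
            Finset.sum_le_sum fun q hq => bA q (Finset.mem_Ico.1 hq).1 (Finset.mem_Ico.1 hq).2
        _ = 2 * C₃ * ∑ q ∈ Finset.Ico Q n, 1 / ((q : ℝ) + 1) := by rw [Finset.mul_sum]
        _ ≤ _ := by gcongr
  have sc : ∑ q ∈ Finset.range (n - 1), Inf2 (gam β α) (FF n x₁ x₂) (q, true) ≤
      4 * C₂ * ((1 / ν') * 2) + 2 * C₃ * Real.log (n * x₂) := by
    have hQn' : Q ≤ n - 1 := by omega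
    rw [← Finset.sum_range_add_sum_Ico _ hQn']
    refine add_le_add ?_ ?_
    · calc ∑ q ∈ Finset.range Q, Inf2 (gam β α) (FF n x₁ x₂) (q, true)
          ≤ ∑ q ∈ Finset.range Q, 4 * C₂ * (x₂ ^ ν' * ((q : ℝ) + 1) ^ (ν' - 1)) :=
            Finset.sum_le_sum fun q hq => cB q (Finset.mem_range.1 hq)
        _ = 4 * C₂ * (x₂ ^ ν' * ∑ q ∈ Finset.range Q, ((q : ℝ) + 1) ^ (ν' - 1)) := by
            rw [Finset.mul_sum, Finset.mul_sum]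
        _ ≤ 4 * C₂ * (x₂ ^ ν' * ((1 / ν') * (Q : ℝ) ^ ν')) := by gcongr
        _ ≤ _ := by gcongr
    · calc ∑ q ∈ Finset.Ico Q (n - 1), Inf2 (gam β α) (FF n x₁ x₂) (q, true)
          ≤ ∑ q ∈ Finset.Ico Q (n - 1), 2 * C₃ * (1 / ((q : ℝ) + 1)) :=
            Finset.sum_le_sum fun q hq => cA q (Finset.mem_Ico.1 hq).1 (by
              have := (Finset.mem_Ico.1 hq).2
              omega)
        _ = 2 * C₃ * ∑ q ∈ Finset.Ico Q (n - 1), 1 / ((q : ℝ) + 1) := by rw [Finset.mul_sum]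
        _ ≤ 2 * C₃ * ∑ q ∈ Finset.Ico Q n, 1 / ((q : ℝ) + 1) := by
            gcongr
            omega
        _ ≤ _ := by gcongr
  have hlog0 : 0 ≤ Real.log (n * x₂) := le_trans (Finset.sum_nonneg fun q _ => by positivity) hlog
  nlinarith [mul_nonneg hK0 hlog0, mul_nonneg hC₃ hlog0]

end

end Pool.Agent.Y982.LR
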